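import Pool.Agent.Lib.MP_629a14_nt.Th.Arith

/-! Members of the family having a large common divisor with the exceptional conductor are rare (squarefree form,
logarithmic equidistribution with an arbitrary exponent). -/

set_option autoImplicit false

namespace Pool.Agent.Lib.MP_629a14_nt.Lg

open Finset Pool.Agent.Lib.MP_629a14_nt Pool.Agent.Lib.MP_629a14_nt.Th

private theorem BadRp_lim (c δ θ : ℝ) (hδ : 0 < δ) (hθ : 0 < θ) :
    ∀ᶠ x : ℝ in Filter.atTop, c * (1 + Real.log (1 + x)) ^ 3 ≤ δ * x ^ θ := by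
  have h1 : (fun x : ℝ => Real.log x ^ (3 : ℝ)) =o[Filter.atTop] (fun x : ℝ => x ^ θ) :=
    isLittleO_log_rpow_rpow_atTop 3 hθ
  have h2 : Filter.Tendsto (fun x : ℝ => Real.exp 1 * (1 + x)) Filter.atTop Filter.atTop := by
    apply Filter.Tendsto.const_mul_atTop (Real.exp_pos 1)
    exact Filter.tendsto_atTop_add_const_left _ _ Filter.tendsto_id
  have h3 := h1.comp_tendsto h2
  have hc : 0 < δ / ((2 * Real.exp 1) ^ θ * (|c| + 1)) := by positivity
  have h4 := h3.def hc
  filter_upwards [h4, Filter.eventually_ge_atTop 1] with x hx hx1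
  have hpos : (0 : ℝ) < 1 + x := by linarith
  have hx0 : (0 : ℝ) < x := by linarith
  have hlog : Real.log (Real.exp 1 * (1 + x)) = 1 + Real.log (1 + x) := by
    rw [Real.log_mul (Real.exp_pos 1).ne' hpos.ne', Real.log_exp]
  simp only [Function.comp, hlog, Real.norm_eq_abs] at hx
  have hl0 : 0 ≤ 1 + Real.log (1 + x) := by
    have := Real.log_nonneg (show (1 : ℝ) ≤ 1 + x by linarith)
    linarith
  have h33 : (1 + Real.log (1 + x)) ^ (3 : ℝ) = (1 + Real.log (1 + x)) ^ 3 := by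
    rw [← Real.rpow_natCast]; norm_num
  rw [h33] at hx
  have habs : |(1 + Real.log (1 + x)) ^ 3| = (1 + Real.log (1 + x)) ^ 3 := abs_of_nonneg (by positivity)
  have habs2 : |(Real.exp 1 * (1 + x)) ^ θ| = (Real.exp 1 * (1 + x)) ^ θ := abs_of_nonneg (by positivity)
  rw [habs, habs2] at hx
  have hgrow : (Real.exp 1 * (1 + x)) ^ θ ≤ (2 * Real.exp 1) ^ θ * x ^ θ := by
    rw [← Real.mul_rpow (by positivity) hx0.le]
    apply Real.rpow_le_rpow (by positivity) _ hθ.le
    have he := Real.exp_pos 1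
    nlinarith
  have hA : 0 < (2 * Real.exp 1) ^ θ := by positivity
  have hx2 : (1 + Real.log (1 + x)) ^ 3 ≤ δ * x ^ θ / (|c| + 1) := by
    refine hx.trans ?_
    calc δ / ((2 * Real.exp 1) ^ θ * (|c| + 1)) * (Real.exp 1 * (1 + x)) ^ θ
        ≤ δ / ((2 * Real.exp 1) ^ θ * (|c| + 1)) * ((2 * Real.exp 1) ^ θ * x ^ θ) := by gcongr
      _ = δ * x ^ θ / (|c| + 1) := by field_simp
  calc c * (1 + Real.log (1 + x)) ^ 3 ≤ (|c| + 1) * (1 + Real.log (1 + x)) ^ 3 := by
        apply mul_le_mul_of_nonneg_right _ (by positivity)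
        linarith [le_abs_self c]
    _ ≤ (|c| + 1) * (δ * x ^ θ / (|c| + 1)) := by gcongr
    _ = δ * x ^ θ := by field_simp

private theorem BadRp_biUnion (I : Finset ℕ) (t : ℕ → Finset ℕ) (w : ℕ → ℝ) (hw : ∀ n, 0 ≤ w n) :
    ∑ n ∈ I.biUnion t, w n ≤ ∑ y ∈ I, ∑ n ∈ t y, w n := by
  induction I using Finset.induction_on with
  | empty => simp
  | insert a s ha ih =>
    rw [Finset.biUnion_insert, Finset.sum_insert ha]
    have h1 : ∑ n ∈ t a ∪ s.biUnion t, w n ≤ ∑ n ∈ t a, w n + ∑ n ∈ s.biUnion t, w n := by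
      rw [← Finset.sum_union_inter]
      have : 0 ≤ ∑ n ∈ t a ∩ s.biUnion t, w n := Finset.sum_nonneg (fun n _ => hw n)
      linarith
    linarith

open Classical in
/-- Proof. `r = 2^a r'` with `r'` odd, `a ≤ 3`. With `g = (r,n)`: `σ(g) ≤ g · g/φ(g) ≤ g · r/φ(r)` (`sgm_le`), so by
`tot_low` the expression is at most `(g/r) L`, `L = C³ (1+log(1+log r))³`. If it exceeds `τ`, then
`d = (r',n) ≥ g/8` satisfies `r'/d ≤ Y := 8 L/τ`. There are at most `Y` such divisors `d` of `r'`, each is odd and at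
least `r/(8Y) ≥ 3`, so the mass is at most `Y K / (log(r/(8Y)))^θ → 0` as `r → ∞`. -/
theorem bad_mass_rp (K θ τ ε : ℝ) (hθ : 0 < θ) (hτ : 0 < τ) (hε : 0 < ε) : ∃ R : ℕ, ∀ (N : ℕ) (w : ℕ → ℝ), (∀ n, 0 ≤ w n) →
    (∀ m : ℕ, Odd m → Squarefree m → 3 ≤ m → ∑ n ∈ (Icc 1 N).filter (fun n => m ∣ n), w n ≤ K / (Real.log m) ^ θ) →
    ∀ r : ℕ, R ≤ r → ¬ 16 ∣ r → (∀ p : ℕ, p.Prime → Odd p → ¬ p ^ 2 ∣ r) →
      ∑ n ∈ (Icc 1 N).filter (fun n => τ < (r : ℝ) * sgm (Nat.gcd r n) / (r.totient : ℝ) ^ 2), w n ≤ ε := by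
  obtain ⟨C, hC1, hC⟩ := tot_low
  set Yf : ℝ → ℝ := fun x => 8 * C ^ 3 / τ * (1 + Real.log (1 + x)) ^ 3 with hYf
  have hC0 : 0 < C := by linarith
  have hev : ∀ᶠ x : ℝ in Filter.atTop, Yf x ≤ (ε / (2 ^ θ * |K| + 1)) * x ^ θ :=
    BadRp_lim _ _ _ (by positivity) hθ
  have hev' : ∀ᶠ x : ℝ in Filter.atTop, Yf x ≤ (1 / 16) * x ^ (1 : ℝ) :=
    BadRp_lim _ _ _ (by norm_num) one_pos
  have hev2 := (Real.tendsto_log_atTop.comp tendsto_natCast_atTop_atTop).eventually
    ((hev.and hev').and (Filter.eventually_ge_atTop (4 : ℝ)))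
  obtain ⟨R0, hR0⟩ := Filter.eventually_atTop.1 hev2
  refine ⟨max R0 1, fun N w hw hm r hr h16 hsq => ?_⟩
  have hr1 : 1 ≤ r := le_trans (le_max_right _ _) hr
  have hrpos : (0 : ℝ) < r := by exact_mod_cast hr1
  obtain ⟨⟨hYa, hYb⟩, hx4⟩ := hR0 r (le_trans (le_max_left _ _) hr)
  simp only [Function.comp, Real.rpow_one] at hYa hYb hx4
  set x := Real.log (r : ℝ) with hx
  set Y := Yf x with hYdef
  have hexp : Real.exp x = r := by rw [hx, Real.exp_log hrpos]
  have hxpos : 0 < x := by linarith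
  have hK : 0 ≤ K := by
    have h3 := hm 3 (by decide) (Nat.prime_three.squarefree) le_rfl
    have h0 : 0 ≤ ∑ n ∈ (Icc 1 N).filter (fun n => 3 ∣ n), w n := Finset.sum_nonneg (fun n _ => hw n)
    have hl : 0 < (Real.log ((3 : ℕ) : ℝ)) ^ θ := Real.rpow_pos_of_pos (Real.log_pos (by norm_num)) _
    have h4 := h0.trans h3
    by_contra hneg
    push Not at hneg
    have := div_neg_of_neg_of_pos hneg hl
    linarith
  have hlog0 : 0 ≤ Real.log (1 + x) := Real.log_nonneg (by linarith)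
  have hYpos : 0 < Y := by
    rw [hYdef, hYf]
    positivity
  have hY1 : 8 * Y ≤ Real.exp (x / 2) := by
    have h1 : Y ≤ 1 / 16 * x := hYb
    have h2 := Real.add_one_le_exp (x / 2)
    linarith
  have hA : (0 : ℝ) < 2 ^ θ := by positivity
  have hxθ : 0 < x ^ θ := by positivity
  have hY2 : 2 ^ θ * K * Y ≤ ε * x ^ θ := by
    have h1 : Y ≤ ε / (2 ^ θ * |K| + 1) * x ^ θ := hYa
    rw [abs_of_nonneg hK] at h1
    calc 2 ^ θ * K * Y ≤ 2 ^ θ * K * (ε / (2 ^ θ * K + 1) * x ^ θ) := by gcongr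
      _ = (2 ^ θ * K / (2 ^ θ * K + 1)) * (ε * x ^ θ) := by ring
      _ ≤ 1 * (ε * x ^ θ) := by
        gcongr
        rw [div_le_one (by positivity)]
        linarith
      _ = ε * x ^ θ := one_mul _
  have h3exp : 3 ≤ Real.exp (x / 2) := by
    have h2 := Real.add_one_le_exp (x / 2)
    linarith
  have hexp2 : Real.exp (x / 2) * Real.exp (x / 2) = r := by
    rw [← Real.exp_add, ← hexp]; congr 1; ring
  -- the odd part
  set a := r.factorization 2 with ha
  set r' := r / 2 ^ a with hr'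
  have hfac : 2 ^ a * r' = r := Nat.ordProj_mul_ordCompl_eq_self r 2
  have ha3 : a ≤ 3 := by
    by_contra hcon
    push Not at hcon
    apply h16
    have h1 : 2 ^ 4 ∣ 2 ^ a := pow_dvd_pow 2 hcon
    have h2 : 2 ^ a ∣ r := Dvd.intro _ hfac
    exact (by norm_num : (16 : ℕ) = 2 ^ 4) ▸ h1.trans h2
  have hpow8 : 2 ^ a ≤ 8 := by
    calc 2 ^ a ≤ 2 ^ 3 := Nat.pow_le_pow_right (by norm_num) ha3
      _ = 8 := by norm_num
  have hr'pos : 0 < r' := by
    rcases Nat.eq_zero_or_pos r' with h | h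
    · rw [h] at hfac; omega
    · exact h
  have hr'odd : Odd r' := by
    have h2 : ¬ 2 ∣ r' := Nat.not_dvd_ordCompl Nat.prime_two (by omega)
    rcases Nat.even_or_odd r' with h | h
    · exact absurd h.two_dvd h2
    · exact h
  have hr'r : (r : ℝ) ≤ 8 * r' := by
    have : r ≤ 8 * r' := by
      calc r = 2 ^ a * r' := hfac.symm
        _ ≤ 8 * r' := Nat.mul_le_mul_right _ hpow8
    exact_mod_cast this
  -- the cover
  set I := (Icc 1 ⌊Y⌋₊).filter (fun y => y ∣ r') with hI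
  have hsub : (Icc 1 N).filter (fun n => τ < (r : ℝ) * sgm (Nat.gcd r n) / (r.totient : ℝ) ^ 2) ⊆
      I.biUnion (fun y => (Icc 1 N).filter (fun n => r' / y ∣ n)) := by
    intro n hn
    rw [Finset.mem_filter] at hn
    obtain ⟨hnI, hn2⟩ := hn
    have hn1 : 1 ≤ n := (Finset.mem_Icc.1 hnI).1
    set g := Nat.gcd r n with hg
    have hg1 : 1 ≤ g := Nat.gcd_pos_of_pos_left _ hr1
    have hgr : g ≤ r := Nat.le_of_dvd hr1 (Nat.gcd_dvd_left _ _)
    have hgpos : (0 : ℝ) < g := by exact_mod_cast hg1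
    have hphir : (0 : ℝ) < r.totient := by exact_mod_cast Nat.totient_pos.2 hr1
    have hphig : (0 : ℝ) < g.totient := by exact_mod_cast Nat.totient_pos.2 hg1
    have hL1 : (r : ℝ) / r.totient ≤ C * (1 + Real.log (1 + x)) := hC r hr1
    have hL2 : (g : ℝ) / g.totient ≤ C * (1 + Real.log (1 + x)) := by
      refine (hC g hg1).trans ?_
      have hlg : 0 ≤ Real.log (g : ℝ) := Real.log_nonneg (by exact_mod_cast hg1)
      have hlgx : Real.log (g : ℝ) ≤ x := Real.log_le_log hgpos (by exact_mod_cast hgr)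
      have : Real.log (1 + Real.log (g : ℝ)) ≤ Real.log (1 + x) := Real.log_le_log (by linarith) (by linarith)
      gcongr
    have hs := sgm_le g hg1
    have hu0 : 0 ≤ C * (1 + Real.log (1 + x)) := by positivity
    have hbound : (r : ℝ) * sgm g / (r.totient : ℝ) ^ 2 ≤ (C * (1 + Real.log (1 + x))) ^ 3 * g / r := by
      calc (r : ℝ) * sgm g / (r.totient : ℝ) ^ 2 ≤ (r : ℝ) * (g * ((g : ℝ) / g.totient)) / (r.totient : ℝ) ^ 2 := by
            gcongr
        _ = ((r : ℝ) / r.totient) ^ 2 * ((g : ℝ) / g.totient) * (g / r) := by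
            field_simp
        _ ≤ (C * (1 + Real.log (1 + x))) ^ 2 * (C * (1 + Real.log (1 + x))) * (g / r) := by
            gcongr
        _ = (C * (1 + Real.log (1 + x))) ^ 3 * g / r := by ring
    have hgbig : τ * r < (C * (1 + Real.log (1 + x))) ^ 3 * g := by
      have := lt_of_lt_of_le hn2 hbound
      rwa [lt_div_iff₀ hrpos] at this
    -- the divisor
    set d := Nat.gcd r' n with hd
    have hd1 : 1 ≤ d := Nat.gcd_pos_of_pos_left _ hr'pos
    have hdpos : (0 : ℝ) < d := by exact_mod_cast hd1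
    have hgd : g ≤ 8 * d := by
      have h1 : g ∣ 2 ^ a * d := by
        rw [hg, ← hfac, Nat.gcd_comm]
        refine (Nat.gcd_mul_right_dvd_mul_gcd n (2 ^ a) r').trans ?_
        rw [hd, Nat.gcd_comm r' n]
        exact Nat.mul_dvd_mul (Nat.gcd_dvd_right _ _) dvd_rfl
      calc g ≤ 2 ^ a * d := Nat.le_of_dvd (by positivity) h1
        _ ≤ 8 * d := Nat.mul_le_mul_right _ hpow8
    have hgd' : (g : ℝ) ≤ 8 * d := by exact_mod_cast hgd
    have hdr' : d ∣ r' := Nat.gcd_dvd_left _ _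
    set y := r' / d with hy
    have hyd : y * d = r' := Nat.div_mul_cancel hdr'
    have hypos : 0 < y := Nat.div_pos (Nat.le_of_dvd hr'pos hdr') hd1
    have hyr' : y ∣ r' := ⟨d, hyd.symm⟩
    have hydiv : r' / y = d := by
      rw [← hyd, Nat.mul_div_cancel_left _ hypos]
    have hyY : (y : ℝ) ≤ Y := by
      have h1 : (y : ℝ) * d = r' := by exact_mod_cast hyd
      have h2 : (r' : ℝ) ≤ r := by
        have : r' ≤ r := by
          calc r' ≤ 2 ^ a * r' := Nat.le_mul_of_pos_left _ (by positivity)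
            _ = r := hfac
        exact_mod_cast this
      have h3 : τ * (y * d) < (C * (1 + Real.log (1 + x))) ^ 3 * (8 * d) := by
        calc τ * (y * d) = τ * r' := by rw [h1]
          _ ≤ τ * r := by gcongr
          _ < (C * (1 + Real.log (1 + x))) ^ 3 * g := hgbig
          _ ≤ (C * (1 + Real.log (1 + x))) ^ 3 * (8 * d) := by gcongr
      have h4 : τ * y < (C * (1 + Real.log (1 + x))) ^ 3 * 8 := by
        have h5 : (τ * y) * d < ((C * (1 + Real.log (1 + x))) ^ 3 * 8) * d := by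
          calc (τ * y) * d = τ * (y * d) := by ring
            _ < (C * (1 + Real.log (1 + x))) ^ 3 * (8 * d) := h3
            _ = ((C * (1 + Real.log (1 + x))) ^ 3 * 8) * d := by ring
        exact lt_of_mul_lt_mul_right h5 hdpos.le
      have h6 : Y = ((C * (1 + Real.log (1 + x))) ^ 3 * 8) / τ := by
        rw [hYdef, hYf]; ring
      rw [h6, le_div_iff₀ hτ]
      linarith
    rw [Finset.mem_biUnion]
    refine ⟨y, ?_, ?_⟩
    · rw [hI, Finset.mem_filter, Finset.mem_Icc]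
      exact ⟨⟨hypos, Nat.le_floor hyY⟩, hyr'⟩
    · rw [Finset.mem_filter]
      refine ⟨hnI, ?_⟩
      rw [hydiv]
      exact Nat.gcd_dvd_right _ _
  have hterm : ∀ y ∈ I, ∑ n ∈ (Icc 1 N).filter (fun n => r' / y ∣ n), w n ≤ 2 ^ θ * K / x ^ θ := by
    intro y hy
    rw [hI, Finset.mem_filter, Finset.mem_Icc] at hy
    obtain ⟨⟨hy1, hyY⟩, hyr'⟩ := hy
    have hyY' : (y : ℝ) ≤ Y := (Nat.cast_le.2 hyY).trans (Nat.floor_le hYpos.le)
    have hypos : (0 : ℝ) < y := by exact_mod_cast hy1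
    have hmy : y * (r' / y) = r' := Nat.mul_div_cancel' hyr'
    set m := r' / y with hmdef
    have hmodd : Odd m := by
      have : Odd (y * m) := by rw [hmy]; exact hr'odd
      exact (Nat.odd_mul.1 this).2
    have hmsq : Squarefree m := by
      rw [Nat.squarefree_iff_prime_squarefree]
      intro p hp hpm
      have hpodd : Odd p := by
        rcases hp.eq_two_or_odd' with h2 | h2
        · exfalso
          have h3 : 2 ∣ m := by
            rw [h2] at hpm
            exact (Dvd.intro _ rfl).trans hpm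
          rw [← Nat.not_even_iff_odd] at hmodd
          exact hmodd (even_iff_two_dvd.2 h3)
        · exact h2
      apply hsq p hp hpodd
      have h3 : m ∣ r := by
        have h4 : m ∣ r' := ⟨y, by rw [mul_comm]; exact hmy.symm⟩
        have h5 : r' ∣ r := ⟨2 ^ a, by rw [mul_comm]; exact hfac.symm⟩
        exact h4.trans h5
      rw [sq]
      exact hpm.trans h3
    have hmbig : Real.exp (x / 2) ≤ m := by
      have h1 : (y : ℝ) * m = r' := by exact_mod_cast hmy
      have h2 : (r : ℝ) ≤ 8 * (y * m) := by rw [h1]; exact hr'r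
      have hm0 : (0 : ℝ) ≤ m := Nat.cast_nonneg _
      have h3 : Real.exp (x / 2) * Real.exp (x / 2) ≤ Real.exp (x / 2) * m := by
        calc Real.exp (x / 2) * Real.exp (x / 2) = r := hexp2
          _ ≤ 8 * (y * m) := h2
          _ ≤ 8 * (Y * m) := by gcongr
          _ = (8 * Y) * m := by ring
          _ ≤ Real.exp (x / 2) * m := by gcongr
      exact le_of_mul_le_mul_left h3 (Real.exp_pos _)
    have hm3 : 3 ≤ m := by
      have : (3 : ℝ) ≤ m := h3exp.trans hmbig
      exact_mod_cast this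
    have hlogm : x / 2 ≤ Real.log m := by
      rw [Real.le_log_iff_exp_le (by linarith [Real.exp_pos (x / 2)])]
      exact hmbig
    have hlogθ : (x / 2) ^ θ ≤ (Real.log m) ^ θ := Real.rpow_le_rpow (by positivity) hlogm hθ.le
    have hx2pos : 0 < (x / 2) ^ θ := by positivity
    calc ∑ n ∈ (Icc 1 N).filter (fun n => m ∣ n), w n ≤ K / (Real.log m) ^ θ := hm m hmodd hmsq hm3
      _ ≤ K / (x / 2) ^ θ := by gcongr
      _ = 2 ^ θ * K / x ^ θ := by
        rw [Real.div_rpow hxpos.le (by norm_num)]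
        field_simp
  calc ∑ n ∈ (Icc 1 N).filter (fun n => τ < (r : ℝ) * sgm (Nat.gcd r n) / (r.totient : ℝ) ^ 2), w n
      ≤ ∑ n ∈ I.biUnion (fun y => (Icc 1 N).filter (fun n => r' / y ∣ n)), w n :=
        Finset.sum_le_sum_of_subset_of_nonneg hsub (fun n _ _ => hw n)
    _ ≤ ∑ y ∈ I, ∑ n ∈ (Icc 1 N).filter (fun n => r' / y ∣ n), w n := by
        exact BadRp_biUnion I _ w hw
    _ ≤ ∑ y ∈ I, 2 ^ θ * K / x ^ θ := Finset.sum_le_sum hterm
    _ = (I.card : ℝ) * (2 ^ θ * K / x ^ θ) := by rw [Finset.sum_const, nsmul_eq_mul]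
    _ ≤ Y * (2 ^ θ * K / x ^ θ) := by
        have hcard : (I.card : ℝ) ≤ Y := by
          have h1 : I.card ≤ ⌊Y⌋₊ := by
            calc I.card ≤ (Icc 1 ⌊Y⌋₊).card := Finset.card_filter_le _ _
              _ = ⌊Y⌋₊ := by simp
          exact (Nat.cast_le.2 h1).trans (Nat.floor_le hYpos.le)
        have : 0 ≤ 2 ^ θ * K / x ^ θ := by positivity
        gcongr
    _ = 2 ^ θ * K * Y / x ^ θ := by ring
    _ ≤ ε * x ^ θ / x ^ θ := by gcongr
    _ = ε := by field_simp

end Pool.Agent.Lib.MP_629a14_nt.Lg
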