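import Pool.Agent.Lib.MP_629a14_nt.Lg.LowA
import Pool.Agent.Lib.MP_629a14_nt.Lk.DigA

/-! Words and tuples of exponents. -/

set_option autoImplicit false

namespace Pool.Agent.Lib.MP_629a14_nt.Lg

open Finset

/-- A list of the letters different from `d₁`, with multiplicities: `k = n - τ d₁`. -/
theorem letters (g n : ℕ) (τ : ℕ → ℕ) (d₁ : ℕ) (hd₁ : d₁ < g) (h : ∑ d ∈ range g, τ d = n) (k : ℕ)
    (hk : k + τ d₁ = n) : ∃ δ : Fin k → ℕ, (∀ j, δ j < g ∧ δ j ≠ d₁) ∧
      ∀ d ∈ range g, d ≠ d₁ → (univ.filter (fun j => δ j = d)).card = τ d := by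
  classical
  set M : Multiset ℕ := ∑ d ∈ (range g).erase d₁, Multiset.replicate (τ d) d with hM
  have hcard : M.card = k := by
    have h1 : M.card = ∑ d ∈ (range g).erase d₁, τ d := by
      rw [hM, Multiset.card_sum]
      simp
    have h2 := Finset.add_sum_erase (range g) τ (mem_range.2 hd₁)
    omega
  have hl : M.toList.length = k := by rw [Multiset.length_toList, hcard]
  have hmem : ∀ x ∈ M, x < g ∧ x ≠ d₁ := by
    intro x hx
    rw [hM, Multiset.mem_sum] at hx
    obtain ⟨d, hd, hx⟩ := hx
    have hxd := Multiset.eq_of_mem_replicate hx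
    rw [Finset.mem_erase, mem_range] at hd
    rw [hxd]
    exact ⟨hd.2, hd.1⟩
  obtain ⟨v, hv⟩ : ∃ v : List.Vector ℕ k, v.toList = M.toList := ⟨⟨M.toList, hl⟩, rfl⟩
  refine ⟨fun j => v.get j, ?_, ?_⟩
  · intro j
    apply hmem
    rw [← Multiset.mem_toList, ← hv]
    exact List.Vector.get_mem j v
  · intro d hd hne
    rw [Fin.card_filter_univ_eq_vector_get_eq_count, hv]
    have h3 : List.count d M.toList = M.count d := by
      rw [← Multiset.coe_count, Multiset.coe_toList]
    rw [h3, hM, Multiset.count_sum']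
    rw [Finset.sum_eq_single_of_mem d (Finset.mem_erase.2 ⟨hne, hd⟩)]
    · rw [Multiset.count_replicate_self]
    · intro b _ hb
      rw [Multiset.count_replicate, if_neg hb]

/-- The word of a tuple. -/
private noncomputable def LowM_F (n k d₁ : ℕ) (δ : Fin k → ℕ) (a : Fin k → ℕ) (i : Fin n) : ℕ :=
  open Classical in if h : ∃ j, a j = i.val + 1 then δ h.choose else d₁

private theorem LowM_F_of {n k d₁ : ℕ} {δ : Fin k → ℕ} {a : Fin k → ℕ} (ha : Function.Injective a) {i : Fin n}
    {j : Fin k} (h : a j = i.val + 1) : LowM_F n k d₁ δ a i = δ j := by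
  have hex : ∃ j, a j = i.val + 1 := ⟨j, h⟩
  rw [LowM_F, dif_pos hex]
  congr 1
  apply ha
  rw [hex.choose_spec, h]

private theorem LowM_F_none {n k d₁ : ℕ} {δ : Fin k → ℕ} {a : Fin k → ℕ} {i : Fin n}
    (h : ∀ j, a j ≠ i.val + 1) : LowM_F n k d₁ δ a i = d₁ := by
  rw [LowM_F, dif_neg]
  rintro ⟨j, hj⟩
  exact h j hj

private theorem LowM_F_sub {n k d₁ : ℕ} {δ : Fin k → ℕ} {a : Fin k → ℕ} (ha : Function.Injective a) (i : Fin n) :
    (LowM_F n k d₁ δ a i : ℤ) - d₁ = ∑ j, if a j = i.val + 1 then ((δ j : ℤ) - d₁) else 0 := by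
  by_cases h : ∃ j, a j = i.val + 1
  · obtain ⟨j, hj⟩ := h
    rw [LowM_F_of ha hj, Finset.sum_eq_single j]
    · rw [if_pos hj]
    · intro b _ hb
      rw [if_neg]
      intro hb2
      exact hb (ha (hb2.trans hj.symm))
    · intro h
      exact absurd (Finset.mem_univ j) h
  · push Not at h
    rw [LowM_F_none h, sub_self, Finset.sum_eq_zero]
    intro j _
    rw [if_neg (h j)]

private theorem LowM_vv {g n k d₁ L : ℕ} {δ : Fin k → ℕ} (hL : L ≤ n) {a : Fin k → ℕ} (ha : Function.Injective a)
    (ha2 : a ∈ Lk.tup k L) (s : ℤ) :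
    xx g (s + d₁ * ∑ i : Fin n, (g : ℤ) ^ (i.val + 1)) (fun j => (δ j : ℤ) - d₁) a =
      s + vv g (LowM_F n k d₁ δ a) := by
  have h1 : vv g (LowM_F n k d₁ δ a) = d₁ * ∑ i : Fin n, (g : ℤ) ^ (i.val + 1) +
      ∑ i : Fin n, ((LowM_F n k d₁ δ a i : ℤ) - d₁) * (g : ℤ) ^ (i.val + 1) := by
    rw [vv, Finset.mul_sum, ← Finset.sum_add_distrib]
    apply Finset.sum_congr rfl
    intro i _
    ring
  have h2 : ∑ i : Fin n, ((LowM_F n k d₁ δ a i : ℤ) - d₁) * (g : ℤ) ^ (i.val + 1) =
      ∑ j, ((δ j : ℤ) - d₁) * (g : ℤ) ^ (a j) := by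
    have h3 : ∀ i : Fin n, ((LowM_F n k d₁ δ a i : ℤ) - d₁) * (g : ℤ) ^ (i.val + 1) =
        ∑ j, if a j = i.val + 1 then ((δ j : ℤ) - d₁) * (g : ℤ) ^ (a j) else 0 := by
      intro i
      rw [LowM_F_sub ha, Finset.sum_mul]
      apply Finset.sum_congr rfl
      intro j _
      split_ifs with hj
      · rw [hj]
      · rw [zero_mul]
    rw [Finset.sum_congr rfl fun i _ => h3 i, Finset.sum_comm]
    apply Finset.sum_congr rfl
    intro j _
    rw [Lk.tup, Fintype.mem_piFinset] at ha2
    have hj := Finset.mem_Icc.1 (ha2 j)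
    rw [Finset.sum_eq_single (⟨a j - 1, by omega⟩ : Fin n)]
    · rw [if_pos (by simp only []; omega)]
    · intro b _ hb
      rw [if_neg]
      intro hb2
      apply hb
      apply Fin.ext
      simp only []
      omega
    · intro h
      exact absurd (Finset.mem_univ _) h
  rw [xx, h1, h2]
  ring

private theorem LowM_mem {g n : ℕ} {τ : ℕ → ℕ} {d₁ : ℕ} (hd₁ : d₁ < g) {k L : ℕ}
    (hL : L ≤ n) {δ : Fin k → ℕ} (hδ : ∀ j, δ j < g ∧ δ j ≠ d₁)
    (hδ2 : ∀ d ∈ range g, d ≠ d₁ → (univ.filter (fun j => δ j = d)).card = τ d) (hk : k + τ d₁ = n)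
    {a : Fin k → ℕ} (ha : Function.Injective a) (ha2 : a ∈ Lk.tup k L) :
    LowM_F n k d₁ δ a ∈ trunc g n τ d₁ L := by
  classical
  rw [Lk.tup, Fintype.mem_piFinset] at ha2
  have ha3 : ∀ j, 1 ≤ a j ∧ a j ≤ L := fun j => Finset.mem_Icc.1 (ha2 j)
  have hcase : ∀ i : Fin n, (∃ j, a j = i.val + 1 ∧ LowM_F n k d₁ δ a i = δ j) ∨
      ((∀ j, a j ≠ i.val + 1) ∧ LowM_F n k d₁ δ a i = d₁) := by
    intro i
    by_cases h : ∃ j, a j = i.val + 1
    · obtain ⟨j, hj⟩ := h
      exact Or.inl ⟨j, hj, LowM_F_of ha hj⟩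
    · push Not at h
      exact Or.inr ⟨h, LowM_F_none h⟩
  -- positions
  have hpos : ∀ j, a j - 1 < n := by
    intro j
    have := ha3 j
    omega
  have hcount : ∀ S : Finset (Fin k), (S.image fun j => (⟨a j - 1, hpos j⟩ : Fin n)).card = S.card := by
    intro S
    apply Finset.card_image_of_injective
    intro j j' h
    apply ha
    have h1 := ha3 j
    have h2 := ha3 j'
    have h3 := Fin.mk.inj_iff.1 h
    omega
  rw [trunc, Finset.mem_filter, words, Finset.mem_filter, Fintype.mem_piFinset]
  refine ⟨⟨?_, ?_⟩, ?_⟩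
  · intro i
    rw [mem_range]
    rcases hcase i with ⟨j, _, h⟩ | ⟨_, h⟩
    · rw [h]; exact (hδ j).1
    · rw [h]; exact hd₁
  · intro d hd
    by_cases hdd : d = d₁
    · subst hdd
      have h1 : (univ.filter (fun i : Fin n => LowM_F n k d δ a i = d)) =
          (univ.image fun j => (⟨a j - 1, hpos j⟩ : Fin n))ᶜ := by
        ext i
        simp only [Finset.mem_filter, Finset.mem_univ, true_and, Finset.mem_compl, Finset.mem_image, not_exists]
        constructor
        · intro h j hj
          have h2 : a j = i.val + 1 := by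
            rw [← hj]
            have := ha3 j
            simp only []
            omega
          rw [LowM_F_of ha h2] at h
          exact (hδ j).2 h
        · intro h
          apply LowM_F_none
          intro j hj
          apply h j
          apply Fin.ext
          simp only []
          omega
      rw [h1, Finset.card_compl, hcount, Finset.card_univ, Fintype.card_fin, Fintype.card_fin]
      omega
    · rw [← hδ2 d hd hdd]
      have h1 : (univ.filter (fun i : Fin n => LowM_F n k d₁ δ a i = d)) =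
          ((univ.filter fun j => δ j = d).image fun j => (⟨a j - 1, hpos j⟩ : Fin n)) := by
        ext i
        simp only [Finset.mem_filter, Finset.mem_univ, true_and, Finset.mem_image]
        constructor
        · intro h
          rcases hcase i with ⟨j, hj, h2⟩ | ⟨_, h2⟩
          · refine ⟨j, by rw [← h2, h], ?_⟩
            apply Fin.ext
            simp only []
            omega
          · exact absurd (h.symm.trans h2) hdd
        · rintro ⟨j, hj, hi⟩
          have h2 : a j = i.val + 1 := by
            rw [← hi]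
            have := ha3 j
            simp only []
            omega
          rw [LowM_F_of ha h2, hj]
      rw [h1, hcount]
  · intro i hi
    apply LowM_F_none
    intro j
    have := ha3 j
    omega

private theorem LowM_le {g n : ℕ} {τ : ℕ → ℕ} {d₁ : ℕ} (hd₁ : d₁ < g) {k L : ℕ}
    (hL : L ≤ n) (δ : Fin k → ℕ) (x y : Fin n → ℕ) (hx : x ∈ trunc g n τ d₁ L) (hy : y ∈ trunc g n τ d₁ L)
    [DecidablePred fun a : Fin k → ℕ => Function.Injective a ∧ LowM_F n k d₁ δ a = x]
    [DecidablePred fun a : Fin k → ℕ => Function.Injective a ∧ LowM_F n k d₁ δ a = y] :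
    ((Lk.tup k L).filter (fun a => Function.Injective a ∧ LowM_F n k d₁ δ a = x)).card ≤
      ((Lk.tup k L).filter (fun a => Function.Injective a ∧ LowM_F n k d₁ δ a = y)).card := by
  obtain ⟨σ, hσ, hyx⟩ := trunc_perm g n τ d₁ hd₁ L x y hx hy
  have hσ' : ∀ i : Fin n, i.val < L → (σ.symm i).val < L := by
    intro i hi
    by_contra h
    push Not at h
    have h2 := hσ _ h
    rw [Equiv.apply_symm_apply] at h2
    rw [← h2] at h
    omega
  have hpos : ∀ (a : Fin k → ℕ), a ∈ Lk.tup k L → ∀ j, 1 ≤ a j ∧ a j ≤ L := by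
    intro a ha j
    rw [Lk.tup, Fintype.mem_piFinset] at ha
    exact Finset.mem_Icc.1 (ha j)
  apply Finset.card_le_card_of_injOn
    (fun a j => if h : a j - 1 < n then (σ.symm ⟨a j - 1, h⟩).val + 1 else 0)
  · intro a ha
    have ha' : a ∈ (Lk.tup k L).filter (fun a => Function.Injective a ∧ LowM_F n k d₁ δ a = x) := ha
    rw [Finset.mem_filter] at ha'
    obtain ⟨h1, h2, h3⟩ := ha'
    have h4 := hpos a h1
    have h5 : ∀ j, a j - 1 < n := fun j => by have := h4 j; omega
    have hinj : Function.Injective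
        (fun j => if h : a j - 1 < n then (σ.symm ⟨a j - 1, h⟩).val + 1 else 0) := by
      intro j j' h
      simp only [h5, dif_pos] at h
      have h6 : σ.symm ⟨a j - 1, h5 j⟩ = σ.symm ⟨a j' - 1, h5 j'⟩ := Fin.ext (by omega)
      have h7 := Fin.mk.inj_iff.1 (σ.symm.injective h6)
      apply h2
      have := h4 j
      have := h4 j'
      omega
    show _ ∈ (((Lk.tup k L).filter (fun a => Function.Injective a ∧ LowM_F n k d₁ δ a = y) : Finset (Fin k → ℕ)) :
      Set (Fin k → ℕ))
    rw [Finset.mem_coe, Finset.mem_filter]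
    refine ⟨?_, hinj, ?_⟩
    · rw [Lk.tup, Fintype.mem_piFinset]
      intro j
      rw [Finset.mem_Icc]
      simp only [h5, dif_pos]
      have h6 := hσ' ⟨a j - 1, h5 j⟩ (by have := h4 j; simp only []; omega)
      omega
    · rw [hyx]
      ext i
      rw [Function.comp_apply, ← h3]
      by_cases hi : ∃ j, a j = (σ i).val + 1
      · obtain ⟨j, hj⟩ := hi
        rw [LowM_F_of h2 hj]
        apply LowM_F_of hinj
        simp only [h5, dif_pos]
        have h6 : (⟨a j - 1, h5 j⟩ : Fin n) = σ i := by
          apply Fin.ext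
          simp only []
          omega
        rw [h6, Equiv.symm_apply_apply]
      · push Not at hi
        rw [LowM_F_none hi]
        apply LowM_F_none
        intro j hj
        simp only [h5, dif_pos] at hj
        apply hi j
        have h6 : σ.symm ⟨a j - 1, h5 j⟩ = i := Fin.ext (by omega)
        have h7 : (⟨a j - 1, h5 j⟩ : Fin n) = σ i := by
          rw [← h6, Equiv.apply_symm_apply]
        have h8 := congrArg Fin.val h7
        simp only [] at h8
        have := h4 j
        omega
  · intro a ha b hb h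
    have ha' : a ∈ (Lk.tup k L).filter (fun a => Function.Injective a ∧ LowM_F n k d₁ δ a = x) := ha
    have hb' : b ∈ (Lk.tup k L).filter (fun a => Function.Injective a ∧ LowM_F n k d₁ δ a = x) := hb
    rw [Finset.mem_filter] at ha' hb'
    have h4 := hpos a ha'.1
    have h4' := hpos b hb'.1
    have h5 : ∀ j, a j - 1 < n := fun j => by have := h4 j; omega
    have h5' : ∀ j, b j - 1 < n := fun j => by have := h4' j; omega
    ext j
    have h6 := congrFun h j
    simp only [h5, h5', dif_pos] at h6
    have h7 : σ.symm ⟨a j - 1, h5 j⟩ = σ.symm ⟨b j - 1, h5' j⟩ := Fin.ext (by omega)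
    have h8 := Fin.mk.inj_iff.1 (σ.symm.injective h7)
    have := h4 j
    have := h4' j
    omega

/-- Every word of the type which is constant above `L` arises from the same number `P` of injective tuples: the tuple `a`
gives the word with `x (a j - 1) = δ j` and `d₁` elsewhere, whose value is
`vv x = d₁ ∑_i g^(i+1) + ∑_j (δ j - d₁) g^(a j)`.
Proof. For injective `a ∈ tup k L` let `F a` be this word; it is in `trunc`. For `x ∈ trunc` let `P_x` be the number of
injective `a ∈ tup k L` with `F a = x`. If `y = x ∘ σ` with `σ` as in `trunc_perm` then `a ↦ σ⁻¹ ∘ a` (acting on the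
indices `a j - 1`) is a bijection between the tuples of `x` and of `y`, so `P_x = P` does not depend on `x`; `P ≥ 1`:
choose for every letter `d ≠ d₁` a bijection from `{j : δ j = d}` to `{i : x i = d}`. Sum over `x ∈ trunc` with
`Q (s + vv x)`. (If `trunc` is empty there are no injective tuples, `P = 1`.) -/
theorem match_count (g n : ℕ) (τ : ℕ → ℕ) (d₁ : ℕ) (hd₁ : d₁ < g) (h : ∑ d ∈ range g, τ d = n) (k L : ℕ)
    (hL : L ≤ n) (δ : Fin k → ℕ) (hδ : ∀ j, δ j < g ∧ δ j ≠ d₁)
    (hδ2 : ∀ d ∈ range g, d ≠ d₁ → (univ.filter (fun j => δ j = d)).card = τ d) (hk : k + τ d₁ = n) :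
    ∃ P : ℕ, 1 ≤ P ∧ ∀ (s : ℤ) (Q : ℤ → Prop) [DecidablePred Q],
      ((Lk.tup k L).filter (fun a => Function.Injective a ∧
        Q (xx g (s + d₁ * ∑ i : Fin n, (g : ℤ) ^ (i.val + 1)) (fun j => (δ j : ℤ) - d₁) a))).card =
      P * ((trunc g n τ d₁ L).filter (fun x => Q (s + vv g x))).card := by
  classical
  by_cases hT : (trunc g n τ d₁ L).Nonempty
  swap
  · -- no words, no tuples
    rw [Finset.not_nonempty_iff_eq_empty] at hT
    refine ⟨1, le_refl _, ?_⟩
    intro s Q _
    rw [hT, Finset.filter_empty, Finset.card_empty, mul_zero, Finset.card_eq_zero, Finset.filter_eq_empty_iff]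
    rintro a ha ⟨h1, _⟩
    have h2 := LowM_mem hd₁ hL hδ hδ2 hk h1 ha
    rw [hT] at h2
    exact absurd h2 (Finset.notMem_empty _)
  · obtain ⟨x₀, hx₀⟩ := hT
    set P : (Fin n → ℕ) → ℕ := fun x =>
      ((Lk.tup k L).filter (fun a => Function.Injective a ∧ LowM_F n k d₁ δ a = x)).card with hP
    have hPc : ∀ x ∈ trunc g n τ d₁ L, P x = P x₀ := by
      intro x hx
      exact le_antisymm (LowM_le hd₁ hL δ x x₀ hx hx₀) (LowM_le hd₁ hL δ x₀ x hx₀ hx)
    refine ⟨P x₀, ?_, ?_⟩
    · -- one tuple
      have hkL : k ≤ L := by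
        -- the positions of the letters different from d₁ are below L
        have hw := hx₀
        rw [trunc, Finset.mem_filter, words, Finset.mem_filter] at hw
        obtain ⟨⟨_, h1⟩, h2⟩ := hw
        have h3 := h1 d₁ (mem_range.2 hd₁)
        have h4 : (univ.filter fun i : Fin n => ¬ x₀ i = d₁).card = k := by
          have h5 := Finset.card_filter_add_card_filter_not (s := (univ : Finset (Fin n))) (fun i => x₀ i = d₁)
          rw [Finset.card_univ, Fintype.card_fin] at h5
          omega
        rw [← h4]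
        calc (univ.filter fun i : Fin n => ¬ x₀ i = d₁).card ≤ (range L).card := by
              apply Finset.card_le_card_of_injOn (fun i => i.val)
              · intro i hi
                have hi' : i ∈ (univ.filter fun i : Fin n => ¬ x₀ i = d₁) := hi
                rw [Finset.mem_filter] at hi'
                show i.val ∈ ((range L : Finset ℕ) : Set ℕ)
                rw [Finset.mem_coe, mem_range]
                by_contra hc
                push Not at hc
                exact hi'.2 (h2 i hc)
              · intro i _ j _ h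
                exact Fin.ext h
          _ = L := card_range L
      have hmem : (fun j : Fin k => j.val + 1) ∈ Lk.tup k L := by
        rw [Lk.tup, Fintype.mem_piFinset]
        intro j
        rw [Finset.mem_Icc]
        have := j.isLt
        omega
      have hinj : Function.Injective (fun j : Fin k => j.val + 1) := by
        intro i j h
        apply Fin.ext
        simpa using h
      have hF := LowM_mem hd₁ hL hδ hδ2 hk hinj hmem
      rw [← hPc _ hF, hP]
      simp only []
      rw [Nat.one_le_iff_ne_zero, ← Nat.pos_iff_ne_zero, Finset.card_pos]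
      exact ⟨_, Finset.mem_filter.2 ⟨hmem, hinj, rfl⟩⟩
    · intro s Q _
      have h1 : ∀ a ∈ (Lk.tup k L).filter (fun a => Function.Injective a ∧
          Q (xx g (s + d₁ * ∑ i : Fin n, (g : ℤ) ^ (i.val + 1)) (fun j => (δ j : ℤ) - d₁) a)),
          LowM_F n k d₁ δ a ∈ (trunc g n τ d₁ L).filter (fun x => Q (s + vv g x)) := by
        intro a ha
        rw [Finset.mem_filter] at ha
        obtain ⟨h2, h3, h4⟩ := ha
        rw [Finset.mem_filter]
        refine ⟨LowM_mem hd₁ hL hδ hδ2 hk h3 h2, ?_⟩
        rwa [LowM_vv hL h3 h2] at h4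
      rw [Finset.card_eq_sum_card_fiberwise h1, Nat.mul_comm (P x₀), ← Nat.nsmul_eq_mul, ← Finset.sum_const]
      apply Finset.sum_congr rfl
      intro x hx
      rw [Finset.mem_filter] at hx
      rw [← hPc x hx.1, hP]
      simp only []
      congr 1
      ext a
      rw [Finset.mem_filter, Finset.mem_filter, Finset.mem_filter]
      constructor
      · rintro ⟨⟨h2, h3, _⟩, h4⟩
        exact ⟨h2, h3, h4⟩
      · rintro ⟨h2, h3, h4⟩
        refine ⟨⟨h2, h3, ?_⟩, h4⟩
        rw [LowM_vv hL h3 h2, h4]
        exact hx.2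

/-- The number of injective tuples is `L!/(L-k)!`; see `Lk.falling` in `Lk/DigA.lean` (`Nat.descFactorial`). -/
theorem inj_count (k L : ℕ) (h : 2 * k ^ 2 ≤ L) :
    (L : ℝ) ^ k ≤ 2 * (((Lk.tup k L).filter (fun a => Function.Injective a)).card : ℝ) := by
  classical
  have h1 := Lk.falling k L h
  have h2 := Lk.sub_tup k L (fun _ => True)
  have h3 : ((powersetCard k (Icc 1 L)).filter (fun _ : Finset ℕ => True)).card = L.choose k := by
    rw [Finset.filter_true_of_mem (fun _ _ => trivial), Finset.card_powersetCard, Nat.card_Icc, Nat.add_sub_cancel]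
  have h4 : ((Lk.tup k L).filter (fun a => Function.Injective a ∧ True)).card =
      ((Lk.tup k L).filter (fun a => Function.Injective a)).card := by
    congr 1
    apply Finset.filter_congr
    intro a _
    simp
  have h5 : k.factorial * L.choose k ≤ ((Lk.tup k L).filter (fun a => Function.Injective a)).card := by
    rw [← h4, ← h3]
    convert h2
  have h6 : ((k.factorial : ℝ) * (L.choose k : ℝ)) ≤
      (((Lk.tup k L).filter (fun a => Function.Injective a)).card : ℝ) := by exact_mod_cast h5
  linarith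

end Pool.Agent.Lib.MP_629a14_nt.Lg
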