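import Pool.Agent.Lib.MP_629a14_nt.Lg.Tuple
import Pool.Agent.Lib.MP_629a14_nt.Lg.LowM

/-! Types with few letters different from the most frequent one. -/

set_option autoImplicit false

namespace Pool.Agent.Lib.MP_629a14_nt.Lg

open Finset Pool.Agent.Lib.MP_629a14_nt Pool.Agent.Lib.MP_629a14_nt.Th MeasureTheory

private theorem Low_sq (k n c : ℝ) (hk : 0 ≤ k) (hc : 0 ≤ c) (h1 : k ^ 3 ≤ n) (h2 : c ^ 3 ≤ n) :
    c * k ^ 2 ≤ n := by
  rcases le_or_gt c k with h | h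
  · calc c * k ^ 2 ≤ k * k ^ 2 := mul_le_mul_of_nonneg_right h (sq_nonneg _)
      _ = k ^ 3 := by ring
      _ ≤ n := h1
  · calc c * k ^ 2 ≤ c * c ^ 2 := mul_le_mul_of_nonneg_left (pow_le_pow_left₀ hk h.le 2) hc
      _ = c ^ 3 := by ring
      _ ≤ n := h2

private theorem Low_r1 (k n : ℝ) (hk : 1 ≤ k) (h : 10 * k ^ 2 ≤ n) : 2 * k ^ 2 + k + 7 ≤ n := by
  nlinarith

private theorem Low_r2 (k n ε : ℝ) (hk : 1 ≤ k) (h : 8 * k ^ 2 ≤ ε * n) : (k + 7) * k ≤ ε * n := by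
  nlinarith

private theorem Low_r3 (k n κ : ℝ) (hk : 1 ≤ k) (hn : 2 ≤ n) (hκ : 0 < κ) (h : 36 * k ^ 2 ≤ κ * n) :
    k + 8 ≤ (n - 1) * (κ / 2) := by
  have h1 : k ≤ k ^ 2 := by nlinarith
  have h2 : κ * n ≤ 4 * ((n - 1) * (κ / 2)) := by nlinarith
  nlinarith

/-- The constants. `t` is the least number with `32 g k ≤ g^t`, so `g^t ≤ 32 g² k`; `L = n - t`; `log n` is of the size of
`log log N`. -/
theorem low_const (g : ℕ) (hg : 2 ≤ g) (ε κ : ℝ) (hε : 0 < ε) (hκ : 0 < κ) (hκ1 : κ < 1) : ∃ N₀ : ℕ, ∀ n N k : ℕ,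
    N₀ ≤ N → (N : ℝ) ^ (1 - κ / 2) ≤ (g : ℝ) ^ n → g ^ n ≤ 2 * N → 1 ≤ k → k ^ 3 ≤ n →
    ∃ t : ℕ, t < n ∧ 32 * g * k ≤ g ^ t ∧ ((t : ℝ) * k ≤ ε * n) ∧ 2 * k ^ 2 ≤ n - t ∧
      ((2 * N : ℕ) : ℝ) ^ (1 - κ) ≤ (g : ℝ) ^ (n - t) := by
  have hgR : (2 : ℝ) ≤ g := by exact_mod_cast hg
  have hg0 : (0 : ℝ) < g := by linarith
  obtain ⟨M, hM1⟩ : ∃ M : ℕ, (8 / ε) ^ 3 + (36 / κ) ^ 3 + 1000 ≤ (M : ℝ) := exists_nat_ge _
  refine ⟨g ^ (2 * M), ?_⟩
  intro n N k hN hNn hgN hk hk3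
  have hN1 : 1 ≤ N := (Nat.one_le_pow _ _ (by omega)).trans hN
  have hNR : (1 : ℝ) ≤ N := by exact_mod_cast hN1
  -- `n` is large
  have hMn : M ≤ n := by
    have h1 : (g : ℝ) ^ M ≤ (g : ℝ) ^ n := by
      have h2 : ((g : ℝ) ^ M) ^ 2 ≤ N := by
        rw [← pow_mul, mul_comm]
        exact_mod_cast hN
      have h3 : (g : ℝ) ^ M ≤ Real.sqrt N := Real.le_sqrt_of_sq_le h2
      have h4 : Real.sqrt N ≤ (N : ℝ) ^ (1 - κ / 2) := by
        rw [Real.sqrt_eq_rpow]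
        exact Real.rpow_le_rpow_of_exponent_le hNR (by linarith)
      exact h3.trans (h4.trans hNn)
    exact (pow_le_pow_iff_right₀ (by linarith)).1 h1
  have hMR : (M : ℝ) ≤ n := by exact_mod_cast hMn
  have hp1 : 0 ≤ (8 / ε) ^ 3 := by positivity
  have hp2 : 0 ≤ (36 / κ) ^ 3 := by positivity
  have hkR : (1 : ℝ) ≤ k := by exact_mod_cast hk
  have hk3R : (k : ℝ) ^ 3 ≤ n := by exact_mod_cast hk3
  have a1 := Low_sq k n (8 / ε) (by linarith) (by positivity) hk3R (by linarith)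
  have h10 : (10 : ℝ) ^ 3 ≤ n := by
    have h : (10 : ℝ) ^ 3 = 1000 := by norm_num
    rw [h]
    linarith
  have a2 := Low_sq k n 10 (by linarith) (by norm_num) hk3R h10
  have a3 := Low_sq k n (36 / κ) (by linarith) (by positivity) hk3R (by linarith)
  have a2' : 2 * k ^ 2 + k + 7 ≤ n := by
    have := Low_r1 k n hkR a2
    exact_mod_cast this
  have hk2 : 1 ≤ k ^ 2 := Nat.one_le_pow _ _ hk
  have hkk : k + 7 < n := by omega
  refine ⟨k + 7, hkk, ?_, ?_, by omega, ?_⟩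
  · have h1 : k ≤ 2 ^ k := Nat.lt_two_pow_self.le
    calc 32 * g * k ≤ 32 * g * 2 ^ k := Nat.mul_le_mul_left _ h1
      _ ≤ 32 * g * g ^ k := Nat.mul_le_mul_left _ (Nat.pow_le_pow_left hg k)
      _ ≤ g ^ 5 * g * g ^ k := by
          refine Nat.mul_le_mul_right _ (Nat.mul_le_mul_right _ ?_)
          calc 32 = 2 ^ 5 := by norm_num
            _ ≤ g ^ 5 := Nat.pow_le_pow_left hg 5
      _ = g ^ (k + 6) := by ring
      _ ≤ g ^ (k + 7) := Nat.pow_le_pow_right (by omega) (by omega)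
  · have h1 : 8 * (k : ℝ) ^ 2 ≤ ε * n := by
      rw [div_mul_eq_mul_div, div_le_iff₀ hε] at a1
      linarith
    have h2 := Low_r2 k n ε hkR h1
    push_cast
    exact h2
  · have h1 : 36 * (k : ℝ) ^ 2 ≤ κ * n := by
      rw [div_mul_eq_mul_div, div_le_iff₀ hκ] at a3
      linarith
    have hn2 : (2 : ℝ) ≤ n := by linarith
    have h2 : ((k + 8 : ℕ) : ℝ) ≤ ((n - 1 : ℕ) : ℝ) * (κ / 2) := by
      have h0 := Low_r3 k n κ hkR hn2 hκ h1
      rw [Nat.cast_sub (by omega)]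
      push_cast
      exact h0
    -- `g ^ (k + 8) ≤ N ^ (κ / 2)`
    have h3 : (g : ℝ) ^ (n - 1) ≤ N := by
      have h4 : g * g ^ (n - 1) ≤ 2 * N := by
        rw [← pow_succ', Nat.sub_add_cancel (by omega)]
        exact hgN
      have h5 : 2 * g ^ (n - 1) ≤ 2 * N := (Nat.mul_le_mul_right _ hg).trans h4
      have h6 : g ^ (n - 1) ≤ N := by omega
      exact_mod_cast h6
    have h7 : (g : ℝ) ^ (k + 8) ≤ (N : ℝ) ^ (κ / 2) := by
      calc (g : ℝ) ^ (k + 8) = (g : ℝ) ^ ((k + 8 : ℕ) : ℝ) := (Real.rpow_natCast _ _).symm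
        _ ≤ (g : ℝ) ^ (((n - 1 : ℕ) : ℝ) * (κ / 2)) :=
            Real.rpow_le_rpow_of_exponent_le (by linarith) h2
        _ = ((g : ℝ) ^ (n - 1)) ^ (κ / 2) := by rw [Real.rpow_mul hg0.le, Real.rpow_natCast]
        _ ≤ (N : ℝ) ^ (κ / 2) := Real.rpow_le_rpow (by positivity) h3 (by linarith)
    have h8 : ((2 * N : ℕ) : ℝ) ^ (1 - κ) ≤ g * (N : ℝ) ^ (1 - κ) := by
      push_cast
      rw [Real.mul_rpow (by norm_num) (by linarith)]
      refine mul_le_mul_of_nonneg_right ?_ (by positivity)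
      calc (2 : ℝ) ^ (1 - κ) ≤ (2 : ℝ) ^ (1 : ℝ) :=
            Real.rpow_le_rpow_of_exponent_le (by norm_num) (by linarith)
        _ = 2 := Real.rpow_one 2
        _ ≤ g := hgR
    have h9 : ((2 * N : ℕ) : ℝ) ^ (1 - κ) * (g : ℝ) ^ (k + 7) ≤ (g : ℝ) ^ (n - (k + 7)) * (g : ℝ) ^ (k + 7) := by
      rw [← pow_add, Nat.sub_add_cancel hkk.le]
      calc ((2 * N : ℕ) : ℝ) ^ (1 - κ) * (g : ℝ) ^ (k + 7)
          ≤ (g * (N : ℝ) ^ (1 - κ)) * (g : ℝ) ^ (k + 7) := mul_le_mul_of_nonneg_right h8 (by positivity)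
        _ = (N : ℝ) ^ (1 - κ) * (g : ℝ) ^ (k + 8) := by ring
        _ ≤ (N : ℝ) ^ (1 - κ) * (N : ℝ) ^ (κ / 2) := mul_le_mul_of_nonneg_left h7 (by positivity)
        _ = (N : ℝ) ^ (1 - κ / 2) := by
            rw [← Real.rpow_add (by linarith)]
            congr 1
            ring
        _ ≤ (g : ℝ) ^ n := hNn
    exact le_of_mul_le_mul_right h9 (by positivity)

private theorem Low_sum (g n : ℕ) (τ : ℕ → ℕ) (x : Fin n → ℕ) (hx : x ∈ words g n τ) :
    ∑ d ∈ range g, τ d = n := by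
  unfold words at hx
  obtain ⟨h1, h2⟩ := mem_filter.1 hx
  rw [Fintype.mem_piFinset] at h1
  have h3 := card_eq_sum_card_fiberwise (s := (univ : Finset (Fin n))) (t := range g) (f := x)
    (fun i _ => h1 i)
  rw [card_univ, Fintype.card_fin] at h3
  rw [h3]
  exact sum_congr rfl fun d hd => (h2 d hd).symm

private theorem Low_HL (n : ℕ) : 0 ≤ En.HL n := by
  unfold En.HL
  have h1 := En.sing_ge n
  have h2 := En.tw_pos
  have h3 : 0 ≤ En.sing n := by linarith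
  positivity

private theorem Low_bad (ε : ℝ) (hε : 0 < ε) (n : ℕ) (h : Bad ε n) : Bad (ε / 4) n := by
  unfold Bad at *
  have h1 := Low_HL n
  nlinarith

private theorem Low_xx (g k L : ℕ) (hg : 2 ≤ g) (s : ℤ) (c : Fin k → ℤ) (hc : ∀ i, |c i| ≤ g) (a a₀ : Fin k → ℕ)
    (ha : a ∈ Lk.tup k L) (ha₀ : a₀ ∈ Lk.tup k L) : |xx g s c a - xx g s c a₀| ≤ k * (g * (g : ℤ) ^ L) := by
  unfold Lk.tup at ha ha₀
  rw [Fintype.mem_piFinset] at ha ha₀
  unfold xx
  have h1 : s + ∑ i, c i * (g : ℤ) ^ (a i) - (s + ∑ i, c i * (g : ℤ) ^ (a₀ i)) =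
      ∑ i, c i * ((g : ℤ) ^ (a i) - (g : ℤ) ^ (a₀ i)) := by
    rw [add_sub_add_left_eq_sub, ← sum_sub_distrib]
    exact sum_congr rfl fun i _ => by ring
  rw [h1]
  refine (abs_sum_le_sum_abs _ _).trans ?_
  have h2 : ∀ i ∈ (univ : Finset (Fin k)), |c i * ((g : ℤ) ^ (a i) - (g : ℤ) ^ (a₀ i))| ≤ g * (g : ℤ) ^ L := by
    intro i _
    rw [abs_mul]
    refine mul_le_mul (hc i) ?_ (abs_nonneg _) (by positivity)
    have hg1 : (1 : ℤ) ≤ g := by exact_mod_cast (by omega : 1 ≤ g)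
    have e1 : (g : ℤ) ^ (a i) ≤ (g : ℤ) ^ L := pow_le_pow_right₀ hg1 (mem_Icc.1 (ha i)).2
    have e2 : (g : ℤ) ^ (a₀ i) ≤ (g : ℤ) ^ L := pow_le_pow_right₀ hg1 (mem_Icc.1 (ha₀ i)).2
    have e3 : (0 : ℤ) ≤ (g : ℤ) ^ (a i) := by positivity
    have e4 : (0 : ℤ) ≤ (g : ℤ) ^ (a₀ i) := by positivity
    rw [abs_le]
    constructor <;> linarith
  refine (sum_le_card_nsmul _ _ _ h2).trans (le_of_eq ?_)
  rw [card_univ, Fintype.card_fin, nsmul_eq_mul]

open Classical in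
/-- Proof. Let `κ', k₀` be the constants of `tuple g hg (ε/4)`, `κ = κ'/2`, `t` as in `low_const` (with `ε/2`, `κ'`; the
bound `g^n ≤ 2N` by `range_bound`, where `τ d₁ ≥ 1` as `k³ ≤ n` and `k ≥ 2`, and some letter `d₂ ≠ d₁` occurs as
`k ≥ 1`), `L = n - t`, `δ` as in `letters`.
For all tuples `a, a' ∈ tup k L` the numbers `xx a`, `xx a'` differ by at most `k g^(L+1) ≤ g^(n+1) k/g^t ≤ N/16`; by
`trunc_count` `trunc` has at least `(1 - ε/2) #words` elements; so (if `ε < 1` and there are words) it is not empty, and by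
`match_count` some `xx a` is equal to some `s + vv x ∈ [N/4, N]`, and all of them are in `[3N/16, 17N/16]`. So `tuple` applies
with `2N` in place of `N` (`2N ≤ 32 xx a`, `xx a ≤ 2N`): at most `(ε/4) L^k ≤ (ε/2) #injective` tuples are bad
(`inj_count`), and by `match_count` at most `(ε/2) #trunc` words in `trunc`. (`Bad ε n` implies `Bad (ε/4) n` since
`HL n ≥ 0`, see `Lk/DigB.lean`. For `ε ≥ 1` nothing is to be proved.) -/
theorem low (g : ℕ) (hg : 2 ≤ g) (ε : ℝ) (hε : 0 < ε) : ∃ κ : ℝ, 0 < κ ∧ κ < 1 ∧ ∃ k₀ N₀ : ℕ,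
    ∀ (n N k : ℕ) (τ : ℕ → ℕ) (s : ℤ) (d₁ : ℕ), N₀ ≤ N → (N : ℝ) ^ (1 - κ) ≤ (g : ℝ) ^ n → d₁ < g → k + τ d₁ = n →
    k₀ ≤ k → k ^ 3 ≤ n → (∀ x ∈ words g n τ, (N : ℤ) ≤ 4 * (s + vv g x) ∧ s + vv g x ≤ N) →
    (((words g n τ).filter (fun x => Even (s + vv g x) ∧ Bad ε (s + vv g x).toNat)).card : ℝ) ≤
      ε * ((words g n τ).card : ℝ) := by
  by_cases hε1 : 1 ≤ ε
  · refine ⟨1 / 2, by norm_num, by norm_num, 0, 0, ?_⟩
    intro n N k τ s d₁ _ _ _ _ _ _ _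
    have h1 : (((words g n τ).filter (fun x => Even (s + vv g x) ∧ Bad ε (s + vv g x).toNat)).card : ℝ) ≤
        ((words g n τ).card : ℝ) := by exact_mod_cast card_filter_le _ _
    exact h1.trans (le_mul_of_one_le_left (Nat.cast_nonneg _) hε1)
  push Not at hε1
  obtain ⟨κ', hκ0, hκ1, k₁, N₁, htup⟩ := tuple g hg (ε / 4) (by linarith)
  obtain ⟨N₂, hconst⟩ := low_const g hg (ε / 2) κ' (by linarith) hκ0 hκ1
  refine ⟨κ' / 2, by linarith, by linarith, max k₁ 2, max (max N₁ N₂) 1, ?_⟩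
  intro n N k τ s d₁ hN hNn hd₁ hkn hk0 hk3 hrange
  have hN1 : N₁ ≤ N := (le_max_left _ _).trans ((le_max_left _ _).trans hN)
  have hN2 : N₂ ≤ N := (le_max_right _ _).trans ((le_max_left _ _).trans hN)
  have hNp : 1 ≤ N := (le_max_right _ _).trans hN
  have hk1 : k₁ ≤ k := (le_max_left _ _).trans hk0
  have hk2 : 2 ≤ k := (le_max_right _ _).trans hk0
  rcases (words g n τ).eq_empty_or_nonempty with hemp | hne
  · rw [hemp]
    simp
  obtain ⟨x₀, hx₀⟩ := hne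
  have hsum := Low_sum g n τ x₀ hx₀
  -- two letters occur
  have hτ1 : 1 ≤ τ d₁ := by
    have : k + 1 ≤ k ^ 3 := by
      have h4 : 4 * k ≤ k ^ 3 := by
        calc 4 * k ≤ (k * k) * k := Nat.mul_le_mul_right _ (Nat.mul_le_mul hk2 hk2)
          _ = k ^ 3 := by ring
      omega
    omega
  obtain ⟨d₂, hd₂, hne₂, hτ2⟩ : ∃ d₂, d₂ < g ∧ d₁ ≠ d₂ ∧ 1 ≤ τ d₂ := by
    by_contra hcon
    push Not at hcon
    have h1 : ∑ d ∈ range g, τ d = τ d₁ := by
      refine sum_eq_single_of_mem d₁ (mem_range.2 hd₁) fun d hd hdd => ?_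
      have := hcon d (mem_range.1 hd) (fun h => hdd h.symm)
      omega
    omega
  have hgN : g ^ n ≤ 2 * N := by
    refine range_bound g n N hg τ s d₁ d₂ hd₁ hd₂ hne₂ hτ1 hτ2 ⟨x₀, hx₀⟩ ?_
    intro x hx
    have h1 := hrange x hx
    have h2 : (0 : ℤ) ≤ N := Int.natCast_nonneg _
    exact ⟨by linarith [h1.1], h1.2⟩
  obtain ⟨t, htn, htg, htk, hk2L, hNL⟩ := hconst n N k hN2 hNn hgN (by omega) hk3
  set L := n - t with hL
  have hLn : L ≤ n := Nat.sub_le _ _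
  obtain ⟨δ, hδ1, hδ2⟩ := letters g n τ d₁ hd₁ hsum k hkn
  obtain ⟨P, hP, hmatch⟩ := match_count g n τ d₁ hd₁ hsum k L hLn δ hδ1 hδ2 hkn
  have hcount := trunc_count g n τ d₁ hd₁ L hLn
  have hinj := inj_count k L hk2L
  set W : ℕ := (words g n τ).card with hW
  set T : ℕ := (trunc g n τ d₁ L).card with hT
  have hTW : T ≤ W := card_le_card (filter_subset _ _)
  have hWpos : 1 ≤ W := card_pos.2 ⟨x₀, hx₀⟩
  have hn0 : 1 ≤ n := by omega
  -- most words are in `trunc`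
  have hTR : (W : ℝ) - T ≤ ε / 2 * W := by
    have h1 : (n : ℝ) * ((W : ℝ) - T) ≤ (t : ℝ) * k * W := by
      have h2 : n * (W - T) ≤ t * k * W := by
        have e1 : n - L = t := by omega
        have e2 : n - τ d₁ = k := by omega
        rw [e1, e2] at hcount
        exact hcount
      have h3 : ((n * (W - T) : ℕ) : ℝ) ≤ ((t * k * W : ℕ) : ℝ) := by exact_mod_cast h2
      rw [Nat.cast_mul, Nat.cast_sub hTW] at h3
      push_cast at h3
      exact h3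
    have h4 : (t : ℝ) * k * W ≤ (ε / 2 * n) * W := mul_le_mul_of_nonneg_right htk (Nat.cast_nonneg _)
    have hnR : (0 : ℝ) < n := by exact_mod_cast hn0
    have h5 : (n : ℝ) * ((W : ℝ) - T) ≤ n * (ε / 2 * W) := by linarith
    exact le_of_mul_le_mul_left h5 hnR
  have hWR : (1 : ℝ) ≤ W := by exact_mod_cast hWpos
  have hT1 : 1 ≤ T := by
    by_contra h
    have h1 : T = 0 := by omega
    rw [h1] at hTR
    push_cast at hTR
    nlinarith
  set c : Fin k → ℤ := fun j => (δ j : ℤ) - d₁ with hc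
  set S : ℤ := s + d₁ * ∑ i : Fin n, (g : ℤ) ^ (i.val + 1) with hS
  have hcb : ∀ i, c i ≠ 0 ∧ |c i| ≤ g := by
    intro i
    obtain ⟨h1, h2⟩ := hδ1 i
    rw [hc]
    simp only
    constructor
    · intro h
      apply h2
      have : (δ i : ℤ) = d₁ := by linarith
      exact_mod_cast this
    · rw [abs_le]
      have e1 : (δ i : ℤ) < g := by exact_mod_cast h1
      have e2 : (d₁ : ℤ) < g := by exact_mod_cast hd₁
      have e3 : (0 : ℤ) ≤ δ i := Int.natCast_nonneg _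
      have e4 : (0 : ℤ) ≤ d₁ := Int.natCast_nonneg _
      constructor <;> linarith
  -- one value in the range
  obtain ⟨a₀, ha₀, ha₁, ha₂⟩ : ∃ a₀ ∈ Lk.tup k L, (N : ℤ) ≤ 4 * xx g S c a₀ ∧ xx g S c a₀ ≤ N := by
    have h1 := hmatch s (fun z => (N : ℤ) ≤ 4 * z ∧ z ≤ N)
    have h2 : (trunc g n τ d₁ L).filter (fun x => (N : ℤ) ≤ 4 * (s + vv g x) ∧ s + vv g x ≤ N) =
        trunc g n τ d₁ L :=
      filter_true_of_mem fun x hx => hrange x (mem_filter.1 hx).1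
    rw [h2] at h1
    have h3 : 0 < ((Lk.tup k L).filter (fun a => Function.Injective a ∧ (N : ℤ) ≤ 4 * xx g S c a ∧
        xx g S c a ≤ N)).card := by
      rw [h1]
      exact Nat.mul_pos (by omega) (by omega)
    obtain ⟨a, ha⟩ := card_pos.1 h3
    rw [mem_filter] at ha
    exact ⟨a, ha.1, ha.2.2⟩
  have hsmall : 16 * (k * (g * (g : ℤ) ^ L)) ≤ N := by
    have h1 : 32 * g * k * g ^ L ≤ 2 * N := by
      calc 32 * g * k * g ^ L ≤ g ^ t * g ^ L := Nat.mul_le_mul_right _ htg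
        _ = g ^ n := by rw [← pow_add]; congr 1; omega
        _ ≤ 2 * N := hgN
    have h2 : (32 : ℤ) * g * k * (g : ℤ) ^ L ≤ 2 * N := by exact_mod_cast h1
    linarith
  have hall : ∀ a ∈ Lk.tup k L, ((2 * N : ℕ) : ℤ) ≤ 32 * xx g S c a ∧ xx g S c a ≤ ((2 * N : ℕ) : ℤ) := by
    intro a ha
    have h1 := abs_le.1 (Low_xx g k L hg S c (fun i => (hcb i).2) a a₀ ha ha₀)
    have h2 : (0 : ℤ) ≤ N := Int.natCast_nonneg _
    push_cast
    constructor <;> linarith [h1.1, h1.2]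
  have hbad := htup (2 * N) (by omega) k L S c hk1 hcb hNL hall
  -- comparison
  have m1 := hmatch s (fun _ => True)
  have m2 := hmatch s (fun z => Even z ∧ Bad ε z.toNat)
  set I : ℕ := ((Lk.tup k L).filter (fun a => Function.Injective a)).card with hI
  have m1' : I = P * T := by
    have e1 : (Lk.tup k L).filter (fun a => Function.Injective a ∧ True) =
        (Lk.tup k L).filter (fun a => Function.Injective a) := by simp
    have e2 : (trunc g n τ d₁ L).filter (fun _ => True) = trunc g n τ d₁ L := by simp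
    rw [hI, hT, ← e1, m1, e2]
  set bT : ℕ := ((trunc g n τ d₁ L).filter (fun x => Even (s + vv g x) ∧ Bad ε (s + vv g x).toNat)).card
    with hbT
  have m2' : P * bT ≤ ((Lk.tup k L).filter (fun a => Even (xx g S c a) ∧
      Bad (ε / 4) (xx g S c a).toNat)).card := by
    rw [hbT, ← m2]
    refine card_le_card fun a ha => ?_
    rw [mem_filter] at ha ⊢
    exact ⟨ha.1, ha.2.2.1, Low_bad ε hε _ ha.2.2.2⟩
  have hPR : (1 : ℝ) ≤ P := by exact_mod_cast hP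
  have hbTR : (bT : ℝ) ≤ ε / 2 * T := by
    have e1 : (P : ℝ) * bT ≤ (((Lk.tup k L).filter (fun a => Even (xx g S c a) ∧
        Bad (ε / 4) (xx g S c a).toNat)).card : ℝ) := by exact_mod_cast m2'
    have e2 : (I : ℝ) = P * T := by exact_mod_cast m1'
    have e3 : ε / 4 * (L : ℝ) ^ k ≤ ε / 4 * (2 * (I : ℝ)) := mul_le_mul_of_nonneg_left hinj (by linarith)
    have e4 : (P : ℝ) * bT ≤ P * (ε / 2 * T) := by
      calc (P : ℝ) * bT ≤ ε / 4 * (2 * (I : ℝ)) := e1.trans (hbad.trans e3)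
        _ = P * (ε / 2 * T) := by rw [e2]; ring
    exact le_of_mul_le_mul_left e4 (by linarith)
  have hfin : (((words g n τ).filter (fun x => Even (s + vv g x) ∧ Bad ε (s + vv g x).toNat)).card : ℝ) ≤
      ((W : ℝ) - T) + bT := by
    have h1 : ((words g n τ).filter (fun x => Even (s + vv g x) ∧ Bad ε (s + vv g x).toNat)).card ≤
        (W - T) + bT := by
      have h2 : (words g n τ).filter (fun x => Even (s + vv g x) ∧ Bad ε (s + vv g x).toNat) ⊆
          ((words g n τ) \ (trunc g n τ d₁ L)) ∪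
          (trunc g n τ d₁ L).filter (fun x => Even (s + vv g x) ∧ Bad ε (s + vv g x).toNat) := by
        intro x hx
        rw [mem_filter] at hx
        rw [mem_union, mem_sdiff, mem_filter]
        by_cases hxt : x ∈ trunc g n τ d₁ L
        · exact Or.inr ⟨hxt, hx.2⟩
        · exact Or.inl ⟨hx.1, hxt⟩
      refine (card_le_card h2).trans ((card_union_le _ _).trans ?_)
      have h3 : ((words g n τ) \ (trunc g n τ d₁ L)).card = W - T :=
        card_sdiff_of_subset (filter_subset _ _)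
      rw [h3]
    have h4 : (((words g n τ).filter (fun x => Even (s + vv g x) ∧ Bad ε (s + vv g x).toNat)).card : ℝ) ≤
        (((W - T) + bT : ℕ) : ℝ) := by exact_mod_cast h1
    rw [Nat.cast_add, Nat.cast_sub hTW] at h4
    exact h4
  have hTWR : (T : ℝ) ≤ W := by exact_mod_cast hTW
  have hlast : ε / 2 * (T : ℝ) ≤ ε / 2 * W := mul_le_mul_of_nonneg_left hTWR (by linarith)
  linarith

end Pool.Agent.Lib.MP_629a14_nt.Lg
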