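import Pool.Agent.Lib.MP_629a14_nt.Lg.High
import Pool.Agent.Lib.MP_629a14_nt.Lg.Low

/-! All types. -/

set_option autoImplicit false

namespace Pool.Agent.Lib.MP_629a14_nt.Lg

open Finset Pool.Agent.Lib.MP_629a14_nt Pool.Agent.Lib.MP_629a14_nt.Th

private theorem Core_log (g : ℕ) (hg : 2 ≤ g) (B : ℝ) : ∃ n₀ : ℕ, ∀ n : ℕ, n₀ ≤ n → ∀ k : ℕ,
    n < k ^ 3 → B * Real.log n ≤ (k : ℝ) / g := by
  have hg0 : (0 : ℝ) < g := by exact_mod_cast (by omega : 0 < g)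
  have h1 : (fun x : ℝ => B * g * Real.log x) =o[Filter.atTop] (fun x : ℝ => x ^ (1 / 3 : ℝ)) :=
    (isLittleO_log_rpow_atTop (by norm_num)).const_mul_left _
  have h2 : ∀ᶠ x : ℝ in Filter.atTop, B * g * Real.log x ≤ x ^ (1 / 3 : ℝ) := by
    have h3 := h1.bound (show (0 : ℝ) < 1 by norm_num)
    filter_upwards [h3, Filter.eventually_ge_atTop (0 : ℝ)] with x hx hx0
    rw [one_mul, Real.norm_eq_abs, Real.norm_eq_abs, abs_of_nonneg (Real.rpow_nonneg hx0 _)] at hx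
    exact (le_abs_self _).trans hx
  have h3 : ∀ᶠ n : ℕ in Filter.atTop, B * g * Real.log (n : ℝ) ≤ (n : ℝ) ^ (1 / 3 : ℝ) :=
    tendsto_natCast_atTop_atTop.eventually h2
  obtain ⟨n₀, hn₀⟩ := Filter.eventually_atTop.1 h3
  refine ⟨n₀, fun n hn k hk => ?_⟩
  have h4 := hn₀ n hn
  have h5 : (n : ℝ) ^ (1 / 3 : ℝ) ≤ k := by
    have h6 : (n : ℝ) ≤ (k : ℝ) ^ 3 := by exact_mod_cast hk.le
    calc (n : ℝ) ^ (1 / 3 : ℝ) ≤ ((k : ℝ) ^ 3) ^ (1 / 3 : ℝ) :=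
          Real.rpow_le_rpow (Nat.cast_nonneg _) h6 (by norm_num)
      _ = k := by
          rw [← Real.rpow_natCast, ← Real.rpow_mul (Nat.cast_nonneg _)]
          norm_num
  rw [le_div_iff₀ hg0]
  linarith

private theorem Core_large (g : ℕ) (hg : 2 ≤ g) (κ : ℝ) (hκ1 : κ < 1) (n₀ : ℕ) : ∃ N₃ : ℕ,
    ∀ n N : ℕ, N₃ ≤ N → (N : ℝ) ^ (1 - κ) ≤ (g : ℝ) ^ n → n₀ ≤ n := by
  have h1 : Filter.Tendsto (fun N : ℕ => (N : ℝ) ^ (1 - κ)) Filter.atTop Filter.atTop :=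
    (tendsto_rpow_atTop (by linarith)).comp tendsto_natCast_atTop_atTop
  obtain ⟨N₃, hN₃⟩ := Filter.eventually_atTop.1 (h1.eventually_gt_atTop ((g : ℝ) ^ n₀))
  refine ⟨N₃, fun n N hN h => ?_⟩
  by_contra hcon
  push Not at hcon
  have hg1 : (1 : ℝ) ≤ g := by exact_mod_cast (by omega : 1 ≤ g)
  have h2 : (g : ℝ) ^ n ≤ (g : ℝ) ^ n₀ := pow_le_pow_right₀ hg1 hcon.le
  have h3 := hN₃ N hN
  linarith

private theorem Core_pow {N : ℕ} (hN : 1 ≤ N) {κ κ' : ℝ} (h : κ ≤ κ') {y : ℝ}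
    (h1 : (N : ℝ) ^ (1 - κ) ≤ y) : (N : ℝ) ^ (1 - κ') ≤ y :=
  (Real.rpow_le_rpow_of_exponent_le (by exact_mod_cast hN) (by linarith)).trans h1

open Classical in
/-- Proof. If there are words then `∑ τ d = n` (`type_sum`); let `τ d₁` be maximal, so `n ≤ g τ d₁`; `k = n - τ d₁ ≥ k₀`. If
`k³ ≤ n` use `low`. Otherwise some `d₂ ≠ d₁` has `τ d₂ ≥ k/g ≥ n^(1/3)/g ≥ B log n` for large `n` (`n` is large as
`N^(1-κ) ≤ g^n`), use `high`. -/
theorem core (g : ℕ) (hg : 2 ≤ g) (ε : ℝ) (hε : 0 < ε) : ∃ κ : ℝ, 0 < κ ∧ κ < 1 ∧ ∃ k₀ N₀ : ℕ,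
    ∀ (n N : ℕ) (τ : ℕ → ℕ) (s : ℤ), N₀ ≤ N → (N : ℝ) ^ (1 - κ) ≤ (g : ℝ) ^ n → (∀ d < g, τ d + k₀ ≤ n) →
    (∀ x ∈ words g n τ, (N : ℤ) ≤ 4 * (s + vv g x) ∧ s + vv g x ≤ N) →
    (((words g n τ).filter (fun x => Even (s + vv g x) ∧ Bad ε (s + vv g x).toNat)).card : ℝ) ≤
      ε * ((words g n τ).card : ℝ) := by
  obtain ⟨B, hB, κ₁, hκ₁, hκ₁', N₁, hhigh⟩ := high g hg ε hε
  obtain ⟨κ₂, hκ₂, hκ₂', k₂, N₂, hlow⟩ := low g hg ε hε
  obtain ⟨n₀, hlog⟩ := Core_log g hg B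
  obtain ⟨N₃, hlarge⟩ := Core_large g hg (min κ₁ κ₂) ((min_le_left _ _).trans_lt hκ₁') n₀
  refine ⟨min κ₁ κ₂, lt_min hκ₁ hκ₂, (min_le_left _ _).trans_lt hκ₁', k₂,
    max (max N₁ N₂) (max N₃ 1), ?_⟩
  intro n N τ s hN hNn hτ hx
  have hN1 : N₁ ≤ N := (le_max_left _ _).trans ((le_max_left _ _).trans hN)
  have hN2 : N₂ ≤ N := (le_max_right _ _).trans ((le_max_left _ _).trans hN)
  have hN3 : N₃ ≤ N := (le_max_left _ _).trans ((le_max_right _ _).trans hN)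
  have hN4 : 1 ≤ N := (le_max_right _ _).trans ((le_max_right _ _).trans hN)
  rcases (words g n τ).eq_empty_or_nonempty with he | hne
  · rw [he]
    simp
  have hsum := type_sum g n τ hne
  have hne2 : (range g).Nonempty := ⟨0, mem_range.2 (by omega)⟩
  obtain ⟨d₁, hd₁, hmax⟩ := Finset.exists_max_image (range g) τ hne2
  have hd₁' : d₁ < g := mem_range.1 hd₁
  have hn1 : n ≤ g * τ d₁ := by
    calc n = ∑ d ∈ range g, τ d := hsum.symm
      _ ≤ ∑ _d ∈ range g, τ d₁ := Finset.sum_le_sum hmax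
      _ = g * τ d₁ := by simp
  have hk₀ := hτ d₁ hd₁'
  set k : ℕ := n - τ d₁ with hk
  have hkn : k + τ d₁ = n := by omega
  have hkk : k₂ ≤ k := by omega
  rcases Nat.lt_or_ge n (k ^ 3) with hk3 | hk3
  · -- high
    have hsum2 : ∑ d ∈ (range g).erase d₁, τ d = k := by
      have := Finset.add_sum_erase (range g) τ hd₁
      omega
    have hex : ∃ d₂ ∈ (range g).erase d₁, k ≤ g * τ d₂ := by
      by_contra hcon
      push Not at hcon
      rcases ((range g).erase d₁).eq_empty_or_nonempty with h0 | h0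
      · have : ((range g).erase d₁).card = g - 1 := by
          rw [Finset.card_erase_of_mem hd₁, card_range]
        rw [h0, card_empty] at this
        omega
      · have h5 : ∑ d ∈ (range g).erase d₁, g * τ d < ∑ _d ∈ (range g).erase d₁, k :=
          Finset.sum_lt_sum_of_nonempty h0 hcon
        rw [← Finset.mul_sum, hsum2, sum_const, Finset.card_erase_of_mem hd₁, card_range,
          smul_eq_mul] at h5
        have h6 : (g - 1) * k ≤ g * k := Nat.mul_le_mul_right _ (Nat.sub_le _ _)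
        omega
    obtain ⟨d₂, hd₂, hkd⟩ := hex
    rw [mem_erase, mem_range] at hd₂
    have hnn0 := hlarge n N hN3 hNn
    have h7 := hlog n hnn0 k hk3
    have hg0 : (0 : ℝ) < g := by exact_mod_cast (by omega : 0 < g)
    have h8 : (k : ℝ) / g ≤ τ d₂ := by
      rw [div_le_iff₀ hg0]
      have : (k : ℝ) ≤ (g : ℝ) * τ d₂ := by exact_mod_cast hkd
      linarith
    exact hhigh n N τ s d₁ d₂ hN1 (Core_pow hN4 (min_le_left _ _) hNn) hd₁' hd₂.2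
      (fun h => hd₂.1 h.symm) hn1 (h7.trans h8) hx
  · exact hlow n N k τ s d₁ hN2 (Core_pow hN4 (min_le_right _ _) hNn) hd₁' hkn hkk hk3 hx

end Pool.Agent.Lib.MP_629a14_nt.Lg
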