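import Pool.Agent.Lib.MP_629a14_nt.Lk.Defs

/-! Definitions for the theorem on digit classes in base `g`. -/

set_option autoImplicit false

namespace Pool.Agent.Lib.MP_629a14_nt.Lg

open Finset Pool.Agent.Lib.MP_629a14_nt Pool.Agent.Lib.MP_629a14_nt.Th

/-- The average of `e(g^a α)`, `1 ≤ a ≤ L`. -/
noncomputable def gg (g L : ℕ) (α : ℝ) : ℂ := (1 / (L : ℂ)) * ∑ a ∈ Icc 1 L, ee ((g : ℝ) ^ a * α)

/-- `s + ∑ c_i g^(a_i)`. -/
def xx (g : ℕ) (s : ℤ) {k : ℕ} (c : Fin k → ℤ) (a : Fin k → ℕ) : ℤ := s + ∑ i, c i * (g : ℤ) ^ (a i)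

/-- The distribution of `xx`. -/
noncomputable def lw (g k L : ℕ) (s : ℤ) (c : Fin k → ℤ) (n : ℕ) : ℝ :=
  (((Lk.tup k L).filter (fun a => xx g s c a = n)).card : ℝ) / (L : ℝ) ^ k

/-- `g^a + g^b - g^c - g^d`. -/
def v4 (g : ℕ) (a : Fin 4 → ℕ) : ℤ := (g : ℤ) ^ (a 0) + (g : ℤ) ^ (a 1) - (g : ℤ) ^ (a 2) - (g : ℤ) ^ (a 3)

/-- The distribution of `h (g^a + g^b - g^c - g^d)`. -/
noncomputable def u4 (g L : ℕ) (h m : ℤ) : ℝ :=
  (((Lk.tup 4 L).filter (fun a => h * v4 g a = m)).card : ℝ) / (L : ℝ) ^ 4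

/-- The words of length `n` with `τ d` letters `d`, for every digit `d < g`. -/
def words (g n : ℕ) (τ : ℕ → ℕ) : Finset (Fin n → ℕ) :=
  (Fintype.piFinset (fun _ => range g)).filter
    (fun x => ∀ d ∈ range g, (univ.filter (fun i => x i = d)).card = τ d)

/-- The value of a word, with digits at the positions `1, ..., n`. -/
def vv (g : ℕ) {n : ℕ} (x : Fin n → ℕ) : ℤ := ∑ i, (x i : ℤ) * (g : ℤ) ^ (i.val + 1)

/-- The distribution of `s + vv x` over the words of a type. -/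
noncomputable def tw (g n : ℕ) (τ : ℕ → ℕ) (s : ℤ) (m : ℕ) : ℝ :=
  (((words g n τ).filter (fun x => s + vv g x = m)).card : ℝ) / ((words g n τ).card : ℝ)

/-- The Hardy-Littlewood asymptotics fail for `n` by more than `ε`. -/
def Bad (ε : ℝ) (n : ℕ) : Prop := ε * En.HL n < |(En.r2 n : ℝ) - En.HL n|

end Pool.Agent.Lib.MP_629a14_nt.Lg
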