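import Pool.Agent.Lib.MP_629a14_nt.Lg.Core

/-! Digit classes. -/

set_option autoImplicit false

namespace Pool.Agent.Lib.MP_629a14_nt.Lg

open Finset Pool.Agent.Lib.MP_629a14_nt Pool.Agent.Lib.MP_629a14_nt.Th

/-- The integers in `[0, g^L)` whose `L` digits in base `g` (leading zeros included) contain every digit `d` exactly `τ d`
times. -/
def digitClass (g L : ℕ) (τ : ℕ → ℕ) : Finset ℕ :=
  (range (g ^ L)).filter (fun m => ∀ d < g, ((range L).filter (fun i => m / g ^ i % g = d)).card = τ d)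

private theorem fin_count (g n m d : ℕ) :
    ((range (n + 1)).filter (fun i => m / g ^ i % g = d)).card =
      (if m % g = d then 1 else 0) +
        (univ.filter (fun i : Fin n => m / g ^ (i.val + 1) % g = d)).card := by
  rw [Finset.card_filter, Finset.card_filter, Finset.sum_range_succ', add_comm]
  congr 1
  · simp
  · rw [Fin.sum_univ_eq_sum_range (fun i => if m / g ^ (i + 1) % g = d then 1 else 0) n]

private theorem fin_value (g n m : ℕ) (hm : m < g ^ (n + 1)) :
    m % g + ∑ i : Fin n, m / g ^ (i.val + 1) % g * g ^ (i.val + 1) = m := by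
  have h := congrArg Fin.val ((finFunctionFinEquiv (m := g) (n := n + 1)).apply_symm_apply ⟨m, hm⟩)
  rw [finFunctionFinEquiv_apply_val, Fin.sum_univ_succ] at h
  simpa [finFunctionFinEquiv_symm_apply_val] using h

private theorem fin_digits (g n d₀ : ℕ) (hd : d₀ < g) (x : Fin n → ℕ) (hx : ∀ i, x i < g) :
    d₀ + ∑ i : Fin n, x i * g ^ (i.val + 1) < g ^ (n + 1) ∧
    (d₀ + ∑ i : Fin n, x i * g ^ (i.val + 1)) % g = d₀ ∧
    ∀ i : Fin n, (d₀ + ∑ i : Fin n, x i * g ^ (i.val + 1)) / g ^ (i.val + 1) % g = x i := by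
  set f : Fin (n + 1) → Fin g := Fin.cons ⟨d₀, hd⟩ (fun i => ⟨x i, hx i⟩) with hf
  have h1 : ((finFunctionFinEquiv f : Fin (g ^ (n + 1))) : ℕ) =
      d₀ + ∑ i : Fin n, x i * g ^ (i.val + 1) := by
    rw [finFunctionFinEquiv_apply_val, Fin.sum_univ_succ]
    simp [hf]
  have h2 := fun i => congrArg Fin.val (congrFun ((finFunctionFinEquiv (m := g) (n := n + 1)).symm_apply_apply f) i)
  simp only [finFunctionFinEquiv_symm_apply_val, h1] at h2
  refine ⟨?_, ?_, ?_⟩
  · rw [← h1]; exact (finFunctionFinEquiv f).isLt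
  · have := h2 0
    simpa [hf] using this
  · intro i
    have := h2 i.succ
    simpa [hf] using this

private theorem fin_cast (g n d₀ : ℕ) (x : Fin n → ℕ) :
    ((d₀ + ∑ i : Fin n, x i * g ^ (i.val + 1) : ℕ) : ℤ) = d₀ + vv g x := by
  unfold vv; push_cast; rfl

private theorem fin_mem (g n : ℕ) (τ : ℕ → ℕ) (d₀ : ℕ) (hd : d₀ < g) (h1 : 1 ≤ τ d₀)
    (x : Fin n → ℕ) (hx : x ∈ words g n (Function.update τ d₀ (τ d₀ - 1))) :
    d₀ + ∑ i : Fin n, x i * g ^ (i.val + 1) ∈ digitClass g (n + 1) τ := by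
  unfold words at hx
  rw [mem_filter, Fintype.mem_piFinset] at hx
  obtain ⟨hx1, hx2⟩ := hx
  have hlt : ∀ i, x i < g := fun i => by simpa using hx1 i
  obtain ⟨ha, hb, hc⟩ := fin_digits g n d₀ hd x hlt
  unfold digitClass
  rw [mem_filter, mem_range]
  refine ⟨ha, ?_⟩
  intro d hdg
  rw [fin_count, hb]
  have h2 := hx2 d (by simpa using hdg)
  have h3 : (univ.filter (fun i : Fin n =>
      (d₀ + ∑ i : Fin n, x i * g ^ (i.val + 1)) / g ^ (i.val + 1) % g = d)) =
      univ.filter (fun i : Fin n => x i = d) := by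
    apply Finset.filter_congr
    intro i _
    rw [hc i]
  rw [h3, h2]
  by_cases hdd : d₀ = d
  · subst hdd
    simp
    omega
  · rw [if_neg hdd, Function.update_of_ne (Ne.symm hdd)]
    simp

/-- Splitting off the last digit: `m = d₀ + vv g x` with `d₀ = m % g`, `x i = m / g^(i+1) % g`. -/
theorem class_split (g n : ℕ) (hg : 2 ≤ g) (τ : ℕ → ℕ) (Q : ℤ → Prop) [DecidablePred Q] :
    ((digitClass g (n + 1) τ).filter (fun m : ℕ => Q (m : ℤ))).card =
      ∑ d₀ ∈ (range g).filter (fun d => 1 ≤ τ d),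
        ((words g n (Function.update τ d₀ (τ d₀ - 1))).filter (fun x => Q (d₀ + vv g x))).card := by
  rw [← Finset.card_sigma]
  refine Finset.card_nbij' (fun m => (⟨m % g, fun i => m / g ^ (i.val + 1) % g⟩ : (_ : ℕ) × (Fin n → ℕ)))
    (fun p => p.1 + ∑ i : Fin n, p.2 i * g ^ (i.val + 1)) ?_ ?_ ?_ ?_
  · intro m hm
    simp only [coe_filter, Set.mem_ofPred_eq] at hm
    obtain ⟨hm1, hQ⟩ := hm
    unfold digitClass at hm1
    rw [mem_filter, mem_range] at hm1
    obtain ⟨hlt, hcount⟩ := hm1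
    have hval := fin_value g n m hlt
    have hmod : m % g < g := Nat.mod_lt _ (by omega)
    simp only [coe_sigma, Set.mem_sigma_iff, coe_filter, Set.mem_ofPred_eq, mem_range]
    refine ⟨⟨hmod, ?_⟩, ?_, ?_⟩
    · rw [← hcount (m % g) hmod, fin_count]
      simp
    · unfold words
      rw [mem_filter, Fintype.mem_piFinset]
      refine ⟨fun i => by simpa using Nat.mod_lt _ (by omega), ?_⟩
      intro d hd
      have h1 := hcount d (by simpa using hd)
      rw [fin_count] at h1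
      change (univ.filter (fun i : Fin n => m / g ^ (i.val + 1) % g = d)).card = _
      by_cases hdd : m % g = d
      · subst hdd
        rw [Function.update_self]
        simp only [if_true] at h1
        omega
      · rw [Function.update_of_ne (Ne.symm hdd)]
        simp only [if_neg hdd] at h1
        omega
    · rw [← fin_cast, hval]
      exact hQ
  · rintro ⟨d₀, x⟩ hp
    simp only [coe_sigma, Set.mem_sigma_iff, coe_filter, Set.mem_ofPred_eq, mem_range] at hp
    obtain ⟨⟨hd, h1⟩, hx, hQ⟩ := hp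
    simp only [coe_filter, Set.mem_ofPred_eq]
    refine ⟨fin_mem g n τ d₀ hd h1 x hx, ?_⟩
    rw [fin_cast]
    exact hQ
  · intro m hm
    simp only [coe_filter, Set.mem_ofPred_eq] at hm
    unfold digitClass at hm
    rw [mem_filter, mem_range] at hm
    exact fin_value g n m hm.1.1
  · rintro ⟨d₀, x⟩ hp
    simp only [coe_sigma, Set.mem_sigma_iff, coe_filter, Set.mem_ofPred_eq, mem_range] at hp
    obtain ⟨⟨hd, h1⟩, hx, hQ⟩ := hp
    unfold words at hx
    rw [mem_filter, Fintype.mem_piFinset] at hx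
    have hlt : ∀ i, x i < g := fun i => by simpa using hx.1 i
    obtain ⟨ha, hb, hc⟩ := fin_digits g n d₀ hd x hlt
    simp only [hb]
    congr 1
    funext i
    exact hc i

private theorem fin_sum_letters (g n : ℕ) (τ : ℕ → ℕ) (x : Fin n → ℕ) (hx : x ∈ words g n τ) :
    ∑ i, x i = ∑ d ∈ range g, τ d * d := by
  unfold words at hx
  rw [mem_filter, Fintype.mem_piFinset] at hx
  rw [← Finset.sum_fiberwise_of_maps_to (s := univ) (t := range g) (g := x) (fun i _ => hx.1 i)]
  apply Finset.sum_congr rfl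
  intro d hd
  rw [← hx.2 d hd, Finset.sum_congr rfl (g := fun _ => d), Finset.sum_const, smul_eq_mul]
  intro i hi
  exact (mem_filter.mp hi).2

private theorem fin_parity (g n : ℕ) (τ : ℕ → ℕ) (x : Fin n → ℕ) (hx : x ∈ words g n τ) :
    (vv g x : ZMod 2) = if Even g then 0 else ((∑ d ∈ range g, τ d * d : ℕ) : ZMod 2) := by
  unfold vv
  push_cast
  by_cases hg : Even g
  · rw [if_pos hg]
    have : (g : ZMod 2) = 0 := (ZMod.natCast_eq_zero_iff_even).mpr hg
    simp [this]
  · rw [if_neg hg]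
    have h1 : (g : ZMod 2) = 1 := (ZMod.natCast_eq_one_iff_odd).mpr (Nat.not_even_iff_odd.mp hg)
    have h2 := fin_sum_letters g n τ x hx
    have h3 : ((∑ i, x i : ℕ) : ZMod 2) = ((∑ d ∈ range g, τ d * d : ℕ) : ZMod 2) := by rw [h2]
    push_cast at h3
    simp only [h1, one_pow, mul_one]
    exact h3

/-- All members of a class of words are congruent modulo 2 (if `g` is even `vv g x` is even; if `g` is odd then
`vv g x ≡ ∑ x i = ∑ d τ d`). -/
theorem words_parity (g n : ℕ) (τ : ℕ → ℕ) (x y : Fin n → ℕ) (hx : x ∈ words g n τ) (hy : y ∈ words g n τ) (s : ℤ) :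
    Even (s + vv g x) ↔ Even (s + vv g y) := by
  have h : ((s + vv g x : ℤ) : ZMod 2) = ((s + vv g y : ℤ) : ZMod 2) := by
    push_cast
    rw [fin_parity g n τ x hx, fin_parity g n τ y hy]
  rw [← ZMod.intCast_eq_zero_iff_even, ← ZMod.intCast_eq_zero_iff_even, h]

open Classical in
/-- Proof. `class_split` and `core` for the shifts `s + d₀` (with `κ/2`, `k₀ + 1`; `L = n + 1`); the classes of words with no
even member contribute nothing, the others at most `ε` times their size, by `words_parity`. -/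
theorem classes (g : ℕ) (hg : 2 ≤ g) (ε : ℝ) (hε : 0 < ε) : ∃ κ : ℝ, 0 < κ ∧ κ < 1 ∧ ∃ k₀ N₀ : ℕ,
    ∀ (N L : ℕ) (τ : ℕ → ℕ) (s : ℤ), N₀ ≤ N → (N : ℝ) ^ (1 - κ) ≤ (g : ℝ) ^ L → (∀ d < g, τ d + k₀ ≤ L) →
    (∀ m ∈ digitClass g L τ, (N : ℤ) ≤ 4 * (s + (m : ℤ)) ∧ s + (m : ℤ) ≤ N) →
    (((digitClass g L τ).filter (fun m : ℕ => Even (s + (m : ℤ)) ∧ Bad ε (s + (m : ℤ)).toNat)).card : ℝ) ≤
      ε * (((digitClass g L τ).filter (fun m : ℕ => Even (s + (m : ℤ)))).card : ℝ) := by
  obtain ⟨κ, hκ0, hκ1, k₀, N₀, hcore⟩ := core g hg ε hε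
  refine ⟨κ / 2, by linarith, by linarith, k₀ + 1, max N₀ (max 1 ⌈(g : ℝ) ^ (2 / κ)⌉₊), ?_⟩
  intro N L τ s hN hL hτ hm
  have hN0 : N₀ ≤ N := le_trans (le_max_left _ _) hN
  have hN1 : 1 ≤ N := le_trans (le_trans (le_max_left _ _) (le_max_right _ _)) hN
  have hN2 : (g : ℝ) ^ (2 / κ) ≤ N :=
    le_trans (Nat.le_ceil _) (by exact_mod_cast le_trans (le_trans (le_max_right _ _) (le_max_right _ _)) hN)
  have hgpos : (0 : ℝ) < g := by exact_mod_cast (by omega : 0 < g)
  have hNpos : (0 : ℝ) < N := by exact_mod_cast hN1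
  obtain ⟨n, rfl⟩ : ∃ n, L = n + 1 := ⟨L - 1, by have := hτ 0 (by omega); omega⟩
  have hn : (N : ℝ) ^ (1 - κ) ≤ (g : ℝ) ^ n := by
    have h1 : (g : ℝ) ≤ (N : ℝ) ^ (κ / 2) := by
      have h2 : ((g : ℝ) ^ (2 / κ)) ^ (κ / 2) ≤ (N : ℝ) ^ (κ / 2) :=
        Real.rpow_le_rpow (by positivity) hN2 (by linarith)
      rw [← Real.rpow_mul hgpos.le] at h2
      have h3 : 2 / κ * (κ / 2) = 1 := by field_simp
      rw [h3, Real.rpow_one] at h2
      exact h2
    have h4 : (N : ℝ) ^ (1 - κ / 2) = (N : ℝ) ^ (1 - κ) * (N : ℝ) ^ (κ / 2) := by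
      rw [← Real.rpow_add hNpos]; congr 1; ring
    rw [h4, pow_succ] at hL
    have h5 : (N : ℝ) ^ (1 - κ) * g ≤ (g : ℝ) ^ n * g :=
      le_trans (mul_le_mul_of_nonneg_left h1 (by positivity)) hL
    exact le_of_mul_le_mul_right h5 hgpos
  rw [class_split g n hg τ (fun z => Even (s + z) ∧ Bad ε (s + z).toNat),
    class_split g n hg τ (fun z => Even (s + z))]
  push_cast
  rw [Finset.mul_sum]
  apply Finset.sum_le_sum
  intro d₀ hd₀
  rw [mem_filter, mem_range] at hd₀
  obtain ⟨hd, h1⟩ := hd₀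
  have hassoc : ∀ x : Fin n → ℕ, s + ((d₀ : ℤ) + vv g x) = (s + d₀) + vv g x := fun x => by ring
  simp only [hassoc]
  set τ' := Function.update τ d₀ (τ d₀ - 1) with hτ'
  have hle : ∀ d, τ' d ≤ τ d := by
    intro d
    by_cases hdd : d = d₀
    · subst hdd; rw [hτ', Function.update_self]; omega
    · rw [hτ', Function.update_of_ne hdd]
  have hc := hcore n N τ' (s + d₀) hN0 hn (fun d hdg => by have := hτ d hdg; have := hle d; omega) (by
    intro x hx
    have h2 := hm _ (fin_mem g n τ d₀ hd h1 x hx)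
    rw [fin_cast, hassoc] at h2
    exact h2)
  by_cases hex : ∃ x ∈ words g n τ', Even ((s + d₀) + vv g x)
  · obtain ⟨x₀, hx₀, he₀⟩ := hex
    have h3 : (words g n τ').filter (fun x => Even ((s + d₀) + vv g x)) = words g n τ' := by
      apply Finset.filter_true_of_mem
      intro x hx
      exact (words_parity g n τ' x₀ x hx₀ hx (s + d₀)).mp he₀
    rw [h3]
    exact hc
  · have h4 : (words g n τ').filter
        (fun x => Even ((s + d₀) + vv g x) ∧ Bad ε ((s + d₀) + vv g x).toNat) = ∅ := by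
      apply Finset.filter_false_of_mem
      intro x hx h5
      exact hex ⟨x, hx, h5.1⟩
    rw [h4, Finset.card_empty, Nat.cast_zero]
    positivity

end Pool.Agent.Lib.MP_629a14_nt.Lg
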