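import Pool.Agent.Lib.MP_629a14_nt.Lg.MeasB

/-! Numbers whose multiples by powers of `g` are concentrated: general multiples, and the average `gg`. -/

set_option autoImplicit false

namespace Pool.Agent.Lib.MP_629a14_nt.Lg

open Finset Pool.Agent.Lib.MP_629a14_nt Pool.Agent.Lib.MP_629a14_nt.Th MeasureTheory

private theorem MeasC_scale (P : ℝ → Prop) (hP : ∀ (x : ℝ) (j : ℤ), P x → P (x - j)) (h : ℤ) (hh : h ≠ 0) :
    volume {α : ℝ | α ∈ Set.Icc (0 : ℝ) 1 ∧ P (h * α)} ≤ volume {α : ℝ | α ∈ Set.Icc (0 : ℝ) 1 ∧ P α} := by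
  classical
  obtain ⟨J, hJ⟩ : ∃ J : Finset ℤ, J = if 0 < h then Ico 0 h else Ico h 0 := ⟨_, rfl⟩
  have hcard : (J.card : ℝ) = |(h : ℝ)| := by
    have h1 : (J.card : ℤ) = |h| := by
      rw [hJ]
      split_ifs with h1
      · rw [Int.card_Ico, abs_of_pos h1]; omega
      · rw [Int.card_Ico, abs_of_neg (by omega)]; omega
    have h2 : ((J.card : ℤ) : ℝ) = ((|h| : ℤ) : ℝ) := by rw [h1]
    push_cast at h2
    exact h2
  have hhr : (h : ℝ) ≠ 0 := by exact_mod_cast hh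
  have hsub : {α : ℝ | α ∈ Set.Icc (0 : ℝ) 1 ∧ P (h * α)} ⊆
      (fun x => (h : ℝ) * x) ⁻¹' (⋃ j ∈ J, (fun x => x + (-(j : ℝ))) ⁻¹'
        {α : ℝ | α ∈ Set.Icc (0 : ℝ) 1 ∧ P α}) := by
    rintro α ⟨⟨h0, h1⟩, h2⟩
    rw [Set.mem_preimage, Set.mem_iUnion₂]
    have key : ∃ j ∈ J, (j : ℝ) ≤ h * α ∧ (h : ℝ) * α ≤ j + 1 := by
      rcases lt_or_gt_of_ne hh with hneg | hpos
      · -- `h < 0`
        have hJ' : J = Ico h 0 := by rw [hJ, if_neg (by omega)]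
        have hr : (h : ℝ) < 0 := by exact_mod_cast hneg
        rcases eq_or_lt_of_le h0 with h3 | h3
        · refine ⟨-1, ?_, ?_, ?_⟩
          · rw [hJ', mem_Ico]; omega
          · rw [← h3]; push_cast; linarith
          · rw [← h3]; push_cast; linarith
        · refine ⟨⌊(h : ℝ) * α⌋, ?_, Int.floor_le _, (Int.lt_floor_add_one _).le⟩
          rw [hJ', mem_Ico]
          refine ⟨Int.le_floor.2 (by nlinarith), Int.floor_lt.2 ?_⟩
          push_cast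
          nlinarith
      · have hJ' : J = Ico 0 h := by rw [hJ, if_pos hpos]
        have hr : (0 : ℝ) < h := by exact_mod_cast hpos
        rcases eq_or_lt_of_le h1 with h3 | h3
        · refine ⟨h - 1, ?_, ?_, ?_⟩
          · rw [hJ', mem_Ico]; omega
          · rw [h3]; push_cast; linarith
          · rw [h3]; push_cast; linarith
        · refine ⟨⌊(h : ℝ) * α⌋, ?_, Int.floor_le _, (Int.lt_floor_add_one _).le⟩
          rw [hJ', mem_Ico]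
          refine ⟨Int.le_floor.2 ?_, Int.floor_lt.2 ?_⟩
          · push_cast
            positivity
          · nlinarith
    obtain ⟨j, hj, h3, h4⟩ := key
    refine ⟨j, hj, ?_⟩
    rw [Set.mem_preimage]
    refine ⟨⟨by linarith, by linarith⟩, ?_⟩
    have := hP _ j h2
    rwa [sub_eq_add_neg] at this
  refine (measure_mono hsub).trans ?_
  rw [Real.volume_preimage_mul_left hhr]
  have hU : volume (⋃ j ∈ J, (fun x => x + (-(j : ℝ))) ⁻¹' {α : ℝ | α ∈ Set.Icc (0 : ℝ) 1 ∧ P α}) ≤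
      ENNReal.ofReal |(h : ℝ)| * volume {α : ℝ | α ∈ Set.Icc (0 : ℝ) 1 ∧ P α} := by
    refine (measure_biUnion_finset_le _ _).trans ?_
    have h1 : ∀ j ∈ J, volume ((fun x => x + (-(j : ℝ))) ⁻¹' {α : ℝ | α ∈ Set.Icc (0 : ℝ) 1 ∧ P α}) =
        volume {α : ℝ | α ∈ Set.Icc (0 : ℝ) 1 ∧ P α} :=
      fun j _ => measure_preimage_add_right volume (-(j : ℝ)) _
    rw [sum_congr rfl h1, sum_const, nsmul_eq_mul, ← hcard, ENNReal.ofReal_natCast]
  refine (mul_le_mul_right hU _).trans ?_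
  rw [← mul_assoc, ← ENNReal.ofReal_mul (abs_nonneg _), abs_inv, inv_mul_cancel₀ (by positivity), ENNReal.ofReal_one,
    one_mul]

/-- Proof. The condition on `α` depends on `β = hα` modulo 1 only (`ee` has period 1), and `α ↦ hα` maps the interval
`[j/|h|, (j+1)/|h|]` onto an interval between consecutive integers, with the factor `|h|` (for `h < 0` the reflection
`β ↦ -β`, or replace `u` by its conjugate). So the measure is the same as for `h = 1` (`digit_measure`); one may also use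
`MeasureTheory.measurePreserving_zsmul` on `UnitAddCircle`. -/
theorem digit_measure' (g : ℕ) (hg : 2 ≤ g) (c : ℝ) (hc : 0 < c) : ∃ κ : ℝ, 0 < κ ∧ ∃ n₀ : ℕ, ∀ n : ℕ, n₀ ≤ n →
    ∀ h : ℤ, h ≠ 0 →
    volume {α : ℝ | α ∈ Set.Icc (0 : ℝ) 1 ∧ ∃ u : ℂ, ‖u‖ = 1 ∧
      ∑ a ∈ Icc 1 n, (1 - (u * ee ((g : ℝ) ^ a * (h * α))).re) ≤ κ * n} ≤
      ENNReal.ofReal ((g : ℝ) ^ (-(1 - c) * (n : ℝ))) := by
  obtain ⟨κ, hκ, n₀, H⟩ := digit_measure g hg c hc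
  refine ⟨κ, hκ, n₀, fun n hn h hh => ?_⟩
  refine (MeasC_scale (fun β => ∃ u : ℂ, ‖u‖ = 1 ∧
      ∑ a ∈ Icc 1 n, (1 - (u * ee ((g : ℝ) ^ a * β)).re) ≤ κ * n) ?_ h hh).trans (H n hn)
  rintro x j ⟨u, hu, h1⟩
  refine ⟨u, hu, ?_⟩
  refine le_trans (le_of_eq ?_) h1
  refine sum_congr rfl fun a _ => ?_
  have h2 : (g : ℝ) ^ a * (x - j) = (g : ℝ) ^ a * x + (((-((g : ℤ) ^ a * j) : ℤ)) : ℝ) := by
    push_cast
    ring
  rw [h2, ee_add, ee_int, mul_one]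

/-- Rotation of the average. -/
private theorem MeasC_rot (g L : ℕ) (hL : 1 ≤ L) (α η : ℝ) (hη : η < 1) (h : 1 - η < ‖gg g L α‖) :
    ∃ u : ℂ, ‖u‖ = 1 ∧ ∑ a ∈ Icc 1 L, (1 - (u * ee ((g : ℝ) ^ a * α)).re) ≤ η * L := by
  have hLr : (1 : ℝ) ≤ L := by exact_mod_cast hL
  have hg : 0 < ‖gg g L α‖ := by linarith
  have hgC : (‖gg g L α‖ : ℂ) ≠ 0 := by exact_mod_cast hg.ne'
  refine ⟨(starRingEnd ℂ) (gg g L α) / (‖gg g L α‖ : ℂ), ?_, ?_⟩
  · rw [norm_div, RCLike.norm_conj, Complex.norm_real, norm_norm, div_self hg.ne']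
  · obtain ⟨u, hu⟩ : ∃ u : ℂ, u = (starRingEnd ℂ) (gg g L α) / (‖gg g L α‖ : ℂ) := ⟨_, rfl⟩
    rw [← hu]
    have h1 : u * gg g L α = (‖gg g L α‖ : ℂ) := by
      rw [hu, div_mul_eq_mul_div, mul_comm, Complex.mul_conj, Complex.normSq_eq_norm_sq]
      push_cast
      field_simp
    have h2 : ∑ a ∈ Icc 1 L, ee ((g : ℝ) ^ a * α) = (L : ℂ) * gg g L α := by
      unfold gg
      have : (L : ℂ) ≠ 0 := by
        have : L ≠ 0 := by omega
        exact_mod_cast this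
      rw [← mul_assoc, mul_one_div_cancel this, one_mul]
    have h3 : ∑ a ∈ Icc 1 L, (1 - (u * ee ((g : ℝ) ^ a * α)).re) = L - L * ‖gg g L α‖ := by
      rw [sum_sub_distrib]
      have h4 : ∑ a ∈ Icc 1 L, (u * ee ((g : ℝ) ^ a * α)).re = (L : ℝ) * ‖gg g L α‖ := by
        rw [← Complex.re_sum, ← mul_sum, h2]
        have h5 : u * ((L : ℂ) * gg g L α) = (((L : ℝ) * ‖gg g L α‖ : ℝ) : ℂ) := by
          calc u * ((L : ℂ) * gg g L α) = (L : ℂ) * (u * gg g L α) := by ring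
            _ = _ := by rw [h1]; push_cast; ring
        rw [h5, Complex.ofReal_re]
      rw [h4]
      simp
    rw [h3]
    nlinarith

/-- Proof. If `‖gg‖ > 1 - κ` then with a suitable `u`, `‖u‖ = 1`: `∑_a (1 - Re(u e(g^a hα))) ≤ κ L` (`PowW_rot` in
`Lk/PowW.lean`); `digit_measure'` with `c/2`; `g^(-(1-c/2)L) ≤ N^(-(1-c/2)(1-r)) ≤ N^(-1+c)` if `r = c/2` (`c < 1`
without loss of generality) -/
theorem gg_measure (g : ℕ) (hg : 2 ≤ g) (c : ℝ) (hc : 0 < c) : ∃ η : ℝ, 0 < η ∧ η < 1 ∧ ∃ r : ℝ, 0 < r ∧ ∃ N₀ : ℕ,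
    ∀ (L N : ℕ) (h : ℤ), N₀ ≤ N → (N : ℝ) ^ (1 - r) ≤ (g : ℝ) ^ L → h ≠ 0 →
    volume {α : ℝ | α ∈ Set.Icc (0 : ℝ) 1 ∧ 1 - η < ‖gg g L (h * α)‖} ≤ ENNReal.ofReal ((N : ℝ) ^ (-1 + c)) := by
  obtain ⟨r, hr⟩ : ∃ r : ℝ, r = min (c / 2) (1 / 2) := ⟨_, rfl⟩
  have hr0 : 0 < r := by rw [hr]; exact lt_min (by linarith) (by norm_num)
  have hr1 : r ≤ c / 2 := by rw [hr]; exact min_le_left _ _
  have hr2 : r ≤ 1 / 2 := by rw [hr]; exact min_le_right _ _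
  obtain ⟨κ, hκ, n₀, H⟩ := digit_measure' g hg r hr0
  have hg2 : (2 : ℝ) ≤ g := by exact_mod_cast hg
  have hg0 : (0 : ℝ) < g := by linarith
  have hg1 : (1 : ℝ) < g := by linarith
  have ht : Filter.Tendsto (fun N : ℕ => (N : ℝ) ^ (1 - r)) Filter.atTop Filter.atTop :=
    (tendsto_rpow_atTop (by linarith)).comp tendsto_natCast_atTop_atTop
  obtain ⟨N₁, hN₁⟩ := (ht.eventually_gt_atTop ((g : ℝ) ^ (n₀ + 1))).exists_forall_of_atTop
  refine ⟨min κ (1 / 2), lt_min hκ (by norm_num), lt_of_le_of_lt (min_le_right _ _) (by norm_num), r, hr0,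
    max N₁ 1, ?_⟩
  intro L N h hN hNL hh
  have hN1 : N₁ ≤ N := (le_max_left _ _).trans hN
  have hN2 : 1 ≤ N := (le_max_right _ _).trans hN
  have hNr : (1 : ℝ) ≤ N := by exact_mod_cast hN2
  have hL : n₀ + 1 < L := by
    have h1 := (hN₁ N hN1).trans_le hNL
    exact (pow_lt_pow_iff_right₀ hg1).1 h1
  have hsub : {α : ℝ | α ∈ Set.Icc (0 : ℝ) 1 ∧ 1 - min κ (1 / 2) < ‖gg g L (h * α)‖} ⊆
      {α : ℝ | α ∈ Set.Icc (0 : ℝ) 1 ∧ ∃ u : ℂ, ‖u‖ = 1 ∧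
      ∑ a ∈ Icc 1 L, (1 - (u * ee ((g : ℝ) ^ a * (h * α))).re) ≤ κ * L} := by
    rintro α ⟨h1, h2⟩
    obtain ⟨u, hu, h3⟩ := MeasC_rot g L (by omega) (h * α) (min κ (1 / 2))
      (lt_of_le_of_lt (min_le_right _ _) (by norm_num)) h2
    exact ⟨h1, u, hu, h3.trans (mul_le_mul_of_nonneg_right (min_le_left _ _) (Nat.cast_nonneg _))⟩
  refine (measure_mono hsub).trans ((H L (by omega) h hh).trans ?_)
  apply ENNReal.ofReal_le_ofReal
  have hN0 : (0 : ℝ) < N := by linarith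
  have h1 : (g : ℝ) ^ (-(1 - r) * (L : ℝ)) = ((g : ℝ) ^ L) ^ (-(1 - r)) := by
    rw [← Real.rpow_natCast, ← Real.rpow_mul hg0.le]
    congr 1
    ring
  rw [h1]
  have h2 : ((g : ℝ) ^ L) ^ (-(1 - r)) ≤ ((N : ℝ) ^ (1 - r)) ^ (-(1 - r)) :=
    Real.rpow_le_rpow_of_nonpos (by positivity) hNL (by linarith)
  refine h2.trans ?_
  rw [← Real.rpow_mul hN0.le]
  apply Real.rpow_le_rpow_of_exponent_le hNr
  nlinarith

end Pool.Agent.Lib.MP_629a14_nt.Lg
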