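import Pool.Agent.Lib.MP_629a14_nt.Lg.Rom

/-! Multiples of a given number in a type. -/

set_option autoImplicit false

namespace Pool.Agent.Lib.MP_629a14_nt.Lg

open Finset Pool.Agent.Lib.MP_629a14_nt Pool.Agent.Lib.MP_629a14_nt.Th

/-- Counting a letter after changing one position. -/
private theorem TypD_count {n : ℕ} (x : Fin n → ℕ) (i : Fin n) (a d : ℕ) :
    (univ.filter (fun j => Function.update x i a j = d)).card + (if x i = d then 1 else 0) =
      (univ.filter (fun j => x j = d)).card + (if a = d then 1 else 0) := by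
  rw [card_filter, card_filter, ← add_sum_erase univ (fun j => if Function.update x i a j = d then 1 else 0)
    (mem_univ i), ← add_sum_erase univ (fun j => if x j = d then 1 else 0) (mem_univ i)]
  have h : ∑ j ∈ univ.erase i, (if Function.update x i a j = d then 1 else 0) =
      ∑ j ∈ univ.erase i, (if x j = d then 1 else 0) := by
    refine sum_congr rfl fun j hj => ?_
    rw [Function.update_of_ne (ne_of_mem_erase hj)]
  rw [h, Function.update_self]
  omega

private theorem TypD_mem {g n : ℕ} {τ : ℕ → ℕ} {x : Fin n → ℕ} : x ∈ words g n τ ↔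
    (∀ j, x j < g) ∧ ∀ d < g, (univ.filter (fun i => x i = d)).card = τ d := by
  unfold words
  rw [mem_filter, Fintype.mem_piFinset]
  simp only [mem_range]

private theorem TypD_tau (τ : ℕ → ℕ) (d₁ d₂ : ℕ) (hne : d₁ ≠ d₂) (d : ℕ) :
    Function.update (Function.update τ d₁ (τ d₁ + 1)) d₂ (τ d₂ - 1) d =
      if d = d₂ then τ d₂ - 1 else if d = d₁ then τ d₁ + 1 else τ d := by
  by_cases h2 : d = d₂
  · subst h2
    rw [Function.update_self, if_pos rfl]
  · rw [Function.update_of_ne h2, if_neg h2]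
    by_cases h1 : d = d₁
    · subst h1
      rw [Function.update_self, if_pos rfl]
    · rw [Function.update_of_ne h1, if_neg h1]

/-- Changing one letter `d₂` into `d₁`: double count of the pairs `(x, i)`, `x` of type `τ`, `x_i = d₂`, which correspond
to the pairs `(y, i)`, `y` of type `τ'`, `y_i = d₁` (`Function.update`). -/
theorem swap_count (g n : ℕ) (τ : ℕ → ℕ) (d₁ d₂ : ℕ) (hd₁ : d₁ < g) (hd₂ : d₂ < g) (hne : d₁ ≠ d₂) (h2 : 1 ≤ τ d₂)
    (Q : (Fin n → ℕ) → Prop) [DecidablePred Q] :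
    τ d₂ * ((words g n τ).filter Q).card =
      ∑ y ∈ words g n (Function.update (Function.update τ d₁ (τ d₁ + 1)) d₂ (τ d₂ - 1)),
        (univ.filter (fun i : Fin n => y i = d₁ ∧ Q (Function.update y i d₂))).card := by
  set τ' := Function.update (Function.update τ d₁ (τ d₁ + 1)) d₂ (τ d₂ - 1) with hτ'
  have e1 : τ d₂ * ((words g n τ).filter Q).card =
      ∑ i : Fin n, ((words g n τ).filter (fun x => Q x ∧ x i = d₂)).card := by
    have h1 : τ d₂ * ((words g n τ).filter Q).card =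
        ∑ x ∈ (words g n τ).filter Q, (univ.filter (fun i => x i = d₂)).card := by
      rw [mul_comm, ← smul_eq_mul, ← sum_const]
      refine sum_congr rfl fun x hx => ?_
      exact ((TypD_mem.1 (mem_filter.1 hx).1).2 d₂ hd₂).symm
    rw [h1]
    simp only [card_filter _ (s := (univ : Finset (Fin n)))]
    rw [sum_comm]
    refine sum_congr rfl fun i _ => ?_
    rw [← filter_filter, card_filter]
  have e2 : ∑ y ∈ words g n τ', (univ.filter (fun i : Fin n => y i = d₁ ∧ Q (Function.update y i d₂))).card =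
      ∑ i : Fin n, ((words g n τ').filter (fun y => y i = d₁ ∧ Q (Function.update y i d₂))).card := by
    simp only [card_filter]
    exact sum_comm
  rw [e1, e2]
  refine sum_congr rfl fun i _ => ?_
  refine card_bij' (fun x _ => Function.update x i d₁) (fun y _ => Function.update y i d₂) ?_ ?_ ?_ ?_
  · intro x hx
    rw [mem_filter] at hx ⊢
    obtain ⟨hxw, hxQ, hxi⟩ := hx
    obtain ⟨hx1, hx2⟩ := TypD_mem.1 hxw
    refine ⟨TypD_mem.2 ⟨?_, ?_⟩, Function.update_self _ _ _, ?_⟩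
    · intro j
      by_cases hj : j = i
      · subst hj
        rw [Function.update_self]
        exact hd₁
      · rw [Function.update_of_ne hj]
        exact hx1 j
    · intro d hd
      have hc := TypD_count x i d₁ d
      rw [hx2 d hd, hxi] at hc
      rw [hτ', TypD_tau τ d₁ d₂ hne]
      split_ifs at hc ⊢ <;> subst_vars <;> first | omega | (exfalso; omega) | simp_all
    · rw [Function.update_idem, ← hxi, Function.update_eq_self]
      exact hxQ
  · intro y hy
    rw [mem_filter] at hy ⊢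
    obtain ⟨hyw, hyi, hyQ⟩ := hy
    obtain ⟨hy1, hy2⟩ := TypD_mem.1 hyw
    refine ⟨TypD_mem.2 ⟨?_, ?_⟩, hyQ, Function.update_self _ _ _⟩
    · intro j
      by_cases hj : j = i
      · subst hj
        rw [Function.update_self]
        exact hd₂
      · rw [Function.update_of_ne hj]
        exact hy1 j
    · intro d hd
      have hc := TypD_count y i d₂ d
      rw [hy2 d hd, hyi, hτ', TypD_tau τ d₁ d₂ hne] at hc
      split_ifs at hc <;> subst_vars <;> first | omega | (exfalso; omega) | simp_all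
  · intro x hx
    rw [mem_filter] at hx
    change Function.update (Function.update x i d₁) i d₂ = x
    rw [Function.update_idem, ← hx.2.2, Function.update_eq_self]
  · intro y hy
    rw [mem_filter] at hy
    change Function.update (Function.update y i d₂) i d₁ = y
    rw [Function.update_idem, ← hy.2.1, Function.update_eq_self]

/-- The part of a squarefree number coprime to `D`. -/
private theorem TypD_part (m D : ℕ) (hm : Squarefree m) : ∃ m', m' ∣ m ∧ m ≤ D * m' ∧ Nat.Coprime D m' ∨ D = 0 := by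
  rcases Nat.eq_zero_or_pos D with h0 | hD
  · exact ⟨0, Or.inr h0⟩
  have hm0 : m ≠ 0 := hm.ne_zero
  refine ⟨m / Nat.gcd m D, Or.inl ⟨Nat.div_dvd_of_dvd (Nat.gcd_dvd_left m D), ?_, ?_⟩⟩
  · calc m = Nat.gcd m D * (m / Nat.gcd m D) := (Nat.mul_div_cancel' (Nat.gcd_dvd_left m D)).symm
      _ ≤ D * (m / Nat.gcd m D) := Nat.mul_le_mul_right _ (Nat.gcd_le_right m hD)
  · rw [Nat.coprime_iff_gcd_eq_one]
    by_contra hne
    obtain ⟨p, hp, hpd⟩ := Nat.exists_prime_and_dvd hne
    have h1 : p ∣ D := hpd.trans (Nat.gcd_dvd_left _ _)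
    have h2 : p ∣ m / Nat.gcd m D := hpd.trans (Nat.gcd_dvd_right _ _)
    have h3 : p ∣ m := h2.trans (Nat.div_dvd_of_dvd (Nat.gcd_dvd_left m D))
    have h4 : p ∣ Nat.gcd m D := Nat.dvd_gcd h3 h1
    have h5 : p * p ∣ m := by
      have := Nat.mul_dvd_mul h4 h2
      rwa [Nat.mul_div_cancel' (Nat.gcd_dvd_left m D)] at this
    exact hp.one_lt.ne' (Nat.isUnit_iff.1 (hm p h5))

private theorem TypD_vv (g : ℕ) {n : ℕ} (y : Fin n → ℕ) (i : Fin n) (d₁ d₂ : ℕ) (hy : y i = d₁) :
    vv g (Function.update y i d₂) = vv g y + ((d₂ : ℤ) - d₁) * (g : ℤ) ^ (i.val + 1) := by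
  unfold vv
  rw [← add_sum_erase univ (fun j => ((Function.update y i d₂ j : ℕ) : ℤ) * (g : ℤ) ^ (j.val + 1)) (mem_univ i),
    ← add_sum_erase univ (fun j => ((y j : ℕ) : ℤ) * (g : ℤ) ^ (j.val + 1)) (mem_univ i)]
  have h : ∑ j ∈ univ.erase i, ((Function.update y i d₂ j : ℕ) : ℤ) * (g : ℤ) ^ (j.val + 1) =
      ∑ j ∈ univ.erase i, ((y j : ℕ) : ℤ) * (g : ℤ) ^ (j.val + 1) := by
    refine sum_congr rfl fun j hj => ?_
    rw [Function.update_of_ne (ne_of_mem_erase hj)]
  rw [h]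
  simp only [Function.update_self]
  rw [hy]
  ring

private theorem TypD_fibre (g n m' : ℕ) (d₁ d₂ : ℕ) (hne : d₁ ≠ d₂) (hn : 1 ≤ n) (hm : 1 ≤ m')
    (hco : Nat.Coprime (g * ((d₂ : ℤ) - d₁).natAbs) m') (s : ℤ) (y : Fin n → ℕ) :
    ((univ.filter (fun i : Fin n => y i = d₁ ∧ (m' : ℤ) ∣ s + vv g (Function.update y i d₂))).card : ℝ) ≤
      n / (orderOf (g : ZMod m') : ℝ) + 1 := by
  have hg : Nat.Coprime g m' := Nat.Coprime.coprime_mul_right hco
  have hd : Nat.Coprime ((d₂ : ℤ) - d₁).natAbs m' := Nat.Coprime.coprime_mul_left hco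
  have hc : IsCoprime ((d₂ : ℤ) - d₁) (m' : ℤ) := by
    rw [Int.isCoprime_iff_gcd_eq_one]
    exact hd
  obtain ⟨u, v, huv⟩ := hc
  have hp := pow_class g n m' (-(u * (s + vv g y))) hg hm hn
  refine le_trans ?_ hp
  have hinj : (univ.filter (fun i : Fin n => y i = d₁ ∧ (m' : ℤ) ∣ s + vv g (Function.update y i d₂))).card ≤
      ((Icc 1 n).filter (fun a : ℕ => (m' : ℤ) ∣ (g : ℤ) ^ a - -(u * (s + vv g y)))).card := by
    refine card_le_card_of_injOn (fun i : Fin n => i.val + 1) ?_ ?_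
    · intro i hi
      have hi' := (mem_filter.1 (mem_coe.1 hi)).2
      have hin : 1 ≤ i.val + 1 ∧ i.val + 1 ≤ n := ⟨by omega, i.isLt⟩
      refine mem_coe.2 (mem_filter.2 ⟨mem_Icc.2 hin, ?_⟩)
      obtain ⟨h1, h2⟩ := hi'
      rw [TypD_vv g y i d₁ d₂ h1] at h2
      have h3 : (g : ℤ) ^ (i.val + 1) - -(u * (s + vv g y)) =
          u * (s + (vv g y + ((d₂ : ℤ) - d₁) * (g : ℤ) ^ (i.val + 1))) +
            m' * (v * (g : ℤ) ^ (i.val + 1)) := by
        linear_combination (-(g : ℤ) ^ (i.val + 1)) * huv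
      rw [h3]
      exact dvd_add (Dvd.dvd.mul_left h2 u) (dvd_mul_right _ _)
    · intro a _ b _ hab
      apply Fin.ext
      simp only at hab
      omega
  exact_mod_cast hinj

/-- Proof. Let `m'` be the part of `m` coprime to `g (d₂ - d₁)`, `m' ≥ m/g²` (`m` is squarefree). If `m ≤ g⁴` the bound is
trivial (`K ≥ 4 log g`). Otherwise `m' ≥ √m ≥ 2`, and by `swap_count` with `Q x : m' ∣ s + vv g x`:
`τ(d₂) #bad ≤ ∑_y (n/ord + 1)` where `ord` is the order of `g` modulo `m'` (`pow_class`; `s + vv (update y i d₂) =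
s + vv y + (d₂ - d₁) g^(i+1)`), and `swap_count` with `Q` true gives `τ(d₂) #words(τ) = (τ(d₁)+1) #words(τ')`. So the
proportion is at most `(n/ord + 1)/(τ(d₁) + 1) ≤ g (1/ord + 1/n)` (as `τ(d₁) ≥ n/g`), `ord ≥ log m'/log g ≥
log m/(2 log g)` (`ord_lower`) and `1/n ≤ 2 log g/log m`. -/
theorem type_div (g : ℕ) (hg : 2 ≤ g) : ∃ K : ℝ, 1 ≤ K ∧ ∀ (n : ℕ) (τ : ℕ → ℕ) (s : ℤ) (d₁ d₂ : ℕ), 1 ≤ n →
    d₁ < g → d₂ < g → d₁ ≠ d₂ → n ≤ g * τ d₁ → 1 ≤ τ d₂ → ∀ m : ℕ, Odd m → Squarefree m → 3 ≤ m → m ≤ g ^ (2 * n) →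
    (((words g n τ).filter (fun x => (m : ℤ) ∣ s + vv g x)).card : ℝ) ≤
      K / Real.log m * ((words g n τ).card : ℝ) := by
  have hgR : (2 : ℝ) ≤ g := by exact_mod_cast hg
  have hlg : 0 < Real.log g := Real.log_pos (by linarith)
  refine ⟨4 * g * Real.log g + 1, by nlinarith [mul_pos (by linarith : (0 : ℝ) < g) hlg], ?_⟩
  intro n τ s d₁ d₂ hn hd₁ hd₂ hne hn1 h2 m hmo hmsq hm3 hmn
  have hmR : (3 : ℝ) ≤ m := by exact_mod_cast hm3
  have hlm : 0 < Real.log m := Real.log_pos (by linarith)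
  set W : ℝ := ((words g n τ).card : ℝ) with hW
  have hW0 : 0 ≤ W := Nat.cast_nonneg _
  by_cases hsmall : m ≤ g ^ 4
  · have h1 : Real.log m ≤ 4 * Real.log g := by
      have : (m : ℝ) ≤ (g : ℝ) ^ 4 := by exact_mod_cast hsmall
      calc Real.log m ≤ Real.log ((g : ℝ) ^ 4) := Real.log_le_log (by linarith) this
        _ = 4 * Real.log g := by rw [Real.log_pow]; norm_num
    have h3 : (((words g n τ).filter (fun x => (m : ℤ) ∣ s + vv g x)).card : ℝ) ≤ W := by
      rw [hW]
      exact_mod_cast card_filter_le _ _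
    refine h3.trans (le_mul_of_one_le_left hW0 ?_)
    rw [le_div_iff₀ hlm, one_mul]
    nlinarith
  push Not at hsmall
  obtain ⟨m', hm'⟩ := TypD_part m (g * ((d₂ : ℤ) - d₁).natAbs) hmsq
  have habs : 1 ≤ ((d₂ : ℤ) - d₁).natAbs := by omega
  have habs2 : ((d₂ : ℤ) - d₁).natAbs ≤ g := by omega
  have hD0 : g * ((d₂ : ℤ) - d₁).natAbs ≠ 0 := by positivity
  obtain ⟨hdvd, hle, hco⟩ := hm'.resolve_right hD0
  have hm'0 : 1 ≤ m' := by
    rcases Nat.eq_zero_or_pos m' with h | h
    · rw [h, mul_zero] at hle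
      omega
    · exact h
  have hle2 : m ≤ g ^ 2 * m' := by
    calc m ≤ g * ((d₂ : ℤ) - d₁).natAbs * m' := hle
      _ ≤ g * g * m' := Nat.mul_le_mul_right _ (Nat.mul_le_mul_left _ habs2)
      _ = g ^ 2 * m' := by ring
  have hm'sq : m ≤ m' ^ 2 := by
    have h1 : g ^ 2 ≤ m' := by
      by_contra hlt
      push Not at hlt
      have : m < g ^ 4 := by
        calc m ≤ g ^ 2 * m' := hle2
          _ < g ^ 2 * g ^ 2 := Nat.mul_lt_mul_of_pos_left hlt (by positivity)
          _ = g ^ 4 := by ring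
      omega
    calc m ≤ g ^ 2 * m' := hle2
      _ ≤ m' * m' := Nat.mul_le_mul_right _ h1
      _ = m' ^ 2 := by ring
  have hm'2 : 2 ≤ m' := by
    by_contra hlt
    have : m' = 1 := by omega
    rw [this] at hm'sq
    omega
  have hm'R : (2 : ℝ) ≤ m' := by exact_mod_cast hm'2
  have hlm' : Real.log m ≤ 2 * Real.log m' := by
    have : (m : ℝ) ≤ (m' : ℝ) ^ 2 := by exact_mod_cast hm'sq
    calc Real.log m ≤ Real.log ((m' : ℝ) ^ 2) := Real.log_le_log (by linarith) this
      _ = 2 * Real.log m' := by rw [Real.log_pow]; norm_num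
  have hgco : Nat.Coprime g m' := Nat.Coprime.coprime_mul_right hco
  have hord := ord_lower g m' hg hgco hm'2
  set o : ℝ := (orderOf (g : ZMod m') : ℝ) with ho
  have hlm'0 : 0 < Real.log m' := Real.log_pos (by linarith)
  have ho0 : 0 < o := by
    by_contra h
    push Not at h
    have : o * Real.log g ≤ 0 := mul_nonpos_of_nonpos_of_nonneg h hlg.le
    linarith
  set τ' := Function.update (Function.update τ d₁ (τ d₁ + 1)) d₂ (τ d₂ - 1) with hτ'
  set B : ℝ := (((words g n τ).filter (fun x => (m' : ℤ) ∣ s + vv g x)).card : ℝ) with hB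
  set W' : ℝ := ((words g n τ').card : ℝ) with hW'
  have hB1 : (((words g n τ).filter (fun x => (m : ℤ) ∣ s + vv g x)).card : ℝ) ≤ B := by
    rw [hB]
    have : ((words g n τ).filter (fun x => (m : ℤ) ∣ s + vv g x)).card ≤
        ((words g n τ).filter (fun x => (m' : ℤ) ∣ s + vv g x)).card := by
      refine card_le_card fun x hx => ?_
      rw [mem_filter] at hx ⊢
      exact ⟨hx.1, (Int.natCast_dvd_natCast.2 hdvd).trans hx.2⟩
    exact_mod_cast this
  have s1 : (τ d₂ : ℝ) * B ≤ W' * (n / o + 1) := by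
    have h1 := swap_count g n τ d₁ d₂ hd₁ hd₂ hne h2 (fun x => (m' : ℤ) ∣ s + vv g x)
    have h3 : (τ d₂ : ℝ) * B = ∑ y ∈ words g n τ',
        ((univ.filter (fun i : Fin n => y i = d₁ ∧ (m' : ℤ) ∣ s + vv g (Function.update y i d₂))).card : ℝ) := by
      rw [hB]
      exact_mod_cast h1
    rw [h3, hW', ← nsmul_eq_mul, ← sum_const]
    exact sum_le_sum fun y _ => TypD_fibre g n m' d₁ d₂ hne hn hm'0 hco s y
  have s2 : (τ d₂ : ℝ) * W = ((τ d₁ : ℝ) + 1) * W' := by
    have h1 := swap_count g n τ d₁ d₂ hd₁ hd₂ hne h2 (fun _ => True)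
    rw [filter_true_of_mem (fun _ _ => trivial)] at h1
    have h3 : ∑ y ∈ words g n τ', (univ.filter (fun i : Fin n => y i = d₁ ∧ True)).card =
        (words g n τ').card * (τ d₁ + 1) := by
      rw [← smul_eq_mul, ← sum_const]
      refine sum_congr rfl fun y hy => ?_
      simp only [and_true]
      rw [(TypD_mem.1 hy).2 d₁ hd₁, hτ', TypD_tau τ d₁ d₂ hne, if_neg hne, if_pos rfl]
    rw [h3] at h1
    have h4 : (τ d₂ : ℝ) * ((words g n τ).card : ℝ) = ((words g n τ').card : ℝ) * ((τ d₁ : ℝ) + 1) := by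
      exact_mod_cast h1
    rw [hW, h4, hW']
    ring
  have hτ2 : (1 : ℝ) ≤ τ d₂ := by exact_mod_cast h2
  have hnR : (1 : ℝ) ≤ n := by exact_mod_cast hn
  have hn1R : (n : ℝ) ≤ g * τ d₁ := by exact_mod_cast hn1
  have hW'0 : 0 ≤ W' := Nat.cast_nonneg _
  have hB0 : 0 ≤ B := Nat.cast_nonneg _
  have s3 : ((τ d₁ : ℝ) + 1) * B ≤ W * (n / o + 1) := by
    have h1 : (τ d₂ : ℝ) * (((τ d₁ : ℝ) + 1) * B) ≤ (τ d₂ : ℝ) * (W * (n / o + 1)) := by
      calc (τ d₂ : ℝ) * (((τ d₁ : ℝ) + 1) * B) = ((τ d₁ : ℝ) + 1) * ((τ d₂ : ℝ) * B) := by ring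
        _ ≤ ((τ d₁ : ℝ) + 1) * (W' * (n / o + 1)) := mul_le_mul_of_nonneg_left s1 (by positivity)
        _ = (((τ d₁ : ℝ) + 1) * W') * (n / o + 1) := by ring
        _ = (τ d₂ : ℝ) * (W * (n / o + 1)) := by rw [← s2]; ring
    exact le_of_mul_le_mul_left h1 (by linarith)
  have s4 : (n : ℝ) * B ≤ g * (W * (n / o + 1)) := by
    have h1 : (n : ℝ) * B ≤ (g * ((τ d₁ : ℝ) + 1)) * B := by
      refine mul_le_mul_of_nonneg_right ?_ hB0
      nlinarith
    calc (n : ℝ) * B ≤ (g * ((τ d₁ : ℝ) + 1)) * B := h1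
      _ = g * (((τ d₁ : ℝ) + 1) * B) := by ring
      _ ≤ g * (W * (n / o + 1)) := mul_le_mul_of_nonneg_left s3 (by linarith)
  have hio : 1 / o ≤ 2 * Real.log g / Real.log m := by
    rw [div_le_div_iff₀ ho0 hlm]
    linarith
  have hin : 1 / (n : ℝ) ≤ 2 * Real.log g / Real.log m := by
    rw [div_le_div_iff₀ (by linarith) hlm]
    have h1 : (m : ℝ) ≤ (g : ℝ) ^ (2 * n) := by exact_mod_cast hmn
    have h3 : Real.log m ≤ (2 * n : ℝ) * Real.log g := by
      calc Real.log m ≤ Real.log ((g : ℝ) ^ (2 * n)) := Real.log_le_log (by linarith) h1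
        _ = (2 * n : ℝ) * Real.log g := by rw [Real.log_pow]; push_cast; ring
    linarith
  have s5 : B ≤ g * W * (1 / o + 1 / n) := by
    have h1 : (n : ℝ) * B ≤ n * (g * W * (1 / o + 1 / n)) := by
      have h3 : (n : ℝ) * (g * W * (1 / o + 1 / n)) = g * (W * (n / o + 1)) := by
        field_simp
      rw [h3]
      exact s4
    exact le_of_mul_le_mul_left h1 (by linarith)
  refine hB1.trans (s5.trans ?_)
  have h3 : g * W * (1 / o + 1 / n) ≤ g * W * (2 * Real.log g / Real.log m + 2 * Real.log g / Real.log m) :=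
    mul_le_mul_of_nonneg_left (add_le_add hio hin) (by positivity)
  refine h3.trans ?_
  have h4 : g * W * (2 * Real.log g / Real.log m + 2 * Real.log g / Real.log m) =
      (4 * g * Real.log g) / Real.log m * W := by ring
  rw [h4]
  refine mul_le_mul_of_nonneg_right ?_ hW0
  gcongr
  linarith

end Pool.Agent.Lib.MP_629a14_nt.Lg
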