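import Pool.Agent.Lib.MP_629a14_nt.Lg.TypB
import Pool.Agent.Lib.MP_629a14_nt.Lg.TypD
import Pool.Agent.Lib.MP_629a14_nt.Lg.MeasC

/-! The distribution of `s + vv x` over a type. -/

set_option autoImplicit false

namespace Pool.Agent.Lib.MP_629a14_nt.Lg

open Finset Pool.Agent.Lib.MP_629a14_nt Pool.Agent.Lib.MP_629a14_nt.Th MeasureTheory

private theorem TypW_sum {E : Type*} [AddCommGroup E] [Module ℝ E] (g n N : ℕ) (τ : ℕ → ℕ) (s : ℤ)
    (h : ∀ x ∈ words g n τ, 1 ≤ s + vv g x ∧ s + vv g x ≤ N) (F : ℕ → E) :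
    ∑ m ∈ Icc 1 N, tw g n τ s m • F m =
      (((words g n τ).card : ℝ))⁻¹ • ∑ x ∈ words g n τ, F (s + vv g x).toNat := by
  classical
  have h1 : ∀ m : ℕ, tw g n τ s m • F m =
      (((words g n τ).card : ℝ))⁻¹ • ∑ x ∈ words g n τ, (if s + vv g x = m then F m else 0) := by
    intro m
    unfold tw
    rw [div_eq_inv_mul, mul_smul]
    congr 1
    rw [← sum_filter, sum_const, Nat.cast_smul_eq_nsmul]
  rw [sum_congr rfl fun m _ => h1 m, ← smul_sum, sum_comm]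
  congr 1
  refine sum_congr rfl fun x hx => ?_
  obtain ⟨h2, h3⟩ := h x hx
  have h4 : ∀ m : ℕ, (s + vv g x = (m : ℤ)) ↔ ((s + vv g x).toNat = m) := by
    intro m
    omega
  simp only [h4]
  rw [sum_ite_eq, if_pos]
  rw [mem_Icc]
  omega

private theorem TypW_ee_sum {κ : Type} (t : Finset κ) (f : κ → ℝ) :
    ee (∑ i ∈ t, f i) = ∏ i ∈ t, ee (f i) := by
  classical
  induction t using Finset.induction_on with
  | empty => simp [ee_zero]
  | insert i t hi ih => rw [sum_insert hi, prod_insert hi, ee_add, ih]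

private theorem TypW_ee_pow (y : ℝ) (k : ℕ) : ee y ^ k = ee (k * y) := by
  induction k with
  | zero => simp [ee_zero]
  | succ k ih =>
    rw [pow_succ, ih, ← ee_add]
    congr 1
    push_cast
    ring

private theorem TypW_ee_ne (y : ℝ) : ee y ≠ 0 := by
  intro h
  have := norm_ee y
  rw [h, norm_zero] at this
  exact zero_ne_one this

private theorem TypW_re_le (u : ℂ) (hu : ‖u‖ = 1) (y : ℝ) : 0 ≤ 1 - (u * ee y).re := by
  have h1 : (u * ee y).re ≤ ‖u * ee y‖ := Complex.re_le_norm _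
  rw [norm_mul, hu, norm_ee, one_mul] at h1
  linarith

/-- Counting over fibres; compare `Lk.lw_sum` in `Lk/PowW.lean`. -/
theorem tw_sum (g n N : ℕ) (τ : ℕ → ℕ) (s : ℤ) (h : ∀ x ∈ words g n τ, 1 ≤ s + vv g x ∧ s + vv g x ≤ N)
    (Q : ℕ → Prop) [DecidablePred Q] :
    ∑ m ∈ (Icc 1 N).filter Q, tw g n τ s m =
      (((words g n τ).filter (fun x => Q (s + vv g x).toNat)).card : ℝ) / ((words g n τ).card : ℝ) := by
  have h1 := TypW_sum (E := ℝ) g n N τ s h (fun m => if Q m then 1 else 0)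
  simp only [smul_eq_mul, mul_ite, mul_one, mul_zero] at h1
  rw [sum_filter, h1, card_filter, div_eq_inv_mul]
  push_cast
  rfl

/-- Proof. `WW (tw ..) N α = ee(s α) (#words)⁻¹ ∑_x ∏_i ee(g^(i+1) α)^(x_i)`; `type_bound` with `z i = ee (g^(i+1) α)`;
`z^(d₂)/z^(d₁) = ee (g^(i+1) ((d₂ - d₁) α))`; `τ(d₁) τ(d₂)/n² ≥ τ(d₂)/(g n)`. The sum over `i : Fin n` becomes the sum
over `a = i + 1 ∈ [1, n]`. -/
theorem tw_hat (g n N : ℕ) (τ : ℕ → ℕ) (s : ℤ) (hn : 1 ≤ n) (hne : (words g n τ).Nonempty)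
    (h : ∀ x ∈ words g n τ, 1 ≤ s + vv g x ∧ s + vv g x ≤ N) (d₁ d₂ : ℕ) (hd₁ : d₁ < g) (hd₂ : d₂ < g) (hd : d₁ ≠ d₂)
    (hg1 : n ≤ g * τ d₁) (α : ℝ) : ∃ u : ℂ, ‖u‖ = 1 ∧
    ‖WW (tw g n τ s) N α‖ ≤ (3 * ((n : ℝ) + 1)) ^ g *
      Real.exp (-((τ d₂ : ℝ) / (g * n) *
        ∑ a ∈ Icc 1 n, (1 - (u * ee ((g : ℝ) ^ a * ((((d₂ : ℤ) - d₁ : ℤ) : ℝ) * α))).re))) := by
  have hτ := type_sum g n τ hne
  have hcard : (0 : ℝ) < ((words g n τ).card : ℝ) := by exact_mod_cast hne.card_pos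
  have hnR : (0 : ℝ) < n := by exact_mod_cast hn
  have hg0 : 0 < g := by omega
  have hgR : (0 : ℝ) < g := by exact_mod_cast hg0
  obtain ⟨u, hu, hb⟩ := type_bound g n τ hn hτ d₁ d₂ hd₁ hd₂ hd (fun i : Fin n => ee ((g : ℝ) ^ (i.val + 1) * α))
    (fun i => norm_ee _)
  refine ⟨u, hu, ?_⟩
  -- the sum over the positions
  have hS : ∑ i : Fin n, (1 - (u * (ee ((g : ℝ) ^ (i.val + 1) * α) ^ d₂ / ee ((g : ℝ) ^ (i.val + 1) * α) ^ d₁)).re) =
      ∑ a ∈ Icc 1 n, (1 - (u * ee ((g : ℝ) ^ a * ((((d₂ : ℤ) - d₁ : ℤ) : ℝ) * α))).re) := by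
    have e1 : ∀ i : Fin n, (1 - (u * (ee ((g : ℝ) ^ (i.val + 1) * α) ^ d₂ /
        ee ((g : ℝ) ^ (i.val + 1) * α) ^ d₁)).re) =
        (fun a : ℕ => (1 - (u * ee ((g : ℝ) ^ (a + 1) * ((((d₂ : ℤ) - d₁ : ℤ) : ℝ) * α))).re)) i := by
      intro i
      have e2 : ee ((g : ℝ) ^ (i.val + 1) * α) ^ d₂ / ee ((g : ℝ) ^ (i.val + 1) * α) ^ d₁ =
          ee ((g : ℝ) ^ (i.val + 1) * ((((d₂ : ℤ) - d₁ : ℤ) : ℝ) * α)) := by
        rw [div_eq_iff (pow_ne_zero _ (TypW_ee_ne _)), TypW_ee_pow, TypW_ee_pow, ← ee_add]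
        congr 1
        push_cast
        ring
      rw [e2]
    rw [sum_congr rfl fun i _ => e1 i, Fin.sum_univ_eq_sum_range
      (fun a : ℕ => (1 - (u * ee ((g : ℝ) ^ (a + 1) * ((((d₂ : ℤ) - d₁ : ℤ) : ℝ) * α))).re)) n,
      Finset.range_eq_Ico, Finset.sum_Ico_add'
      (fun a : ℕ => (1 - (u * ee ((g : ℝ) ^ a * ((((d₂ : ℤ) - d₁ : ℤ) : ℝ) * α))).re)) 0 n 1]
    refine sum_congr ?_ fun a _ => rfl
    ext a
    simp only [mem_Ico, mem_Icc]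
    omega
  rw [hS] at hb
  set S := ∑ a ∈ Icc 1 n, (1 - (u * ee ((g : ℝ) ^ a * ((((d₂ : ℤ) - d₁ : ℤ) : ℝ) * α))).re) with hSdef
  have hS0 : 0 ≤ S := sum_nonneg fun a _ => TypW_re_le u hu _
  -- the Fourier transform
  have h1 := TypW_sum (E := ℂ) g n N τ s h (fun m => ee (m * α))
  have h2 : WW (tw g n τ s) N α = ∑ m ∈ Icc 1 N, tw g n τ s m • ee (m * α) := by
    unfold WW
    exact sum_congr rfl fun m _ => by rw [Complex.real_smul]
  have h3 : ∑ x ∈ words g n τ, ee (((s + vv g x).toNat : ℝ) * α) =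
      ee (s * α) * ∑ x ∈ words g n τ, ∏ i, ee ((g : ℝ) ^ (i.val + 1) * α) ^ (x i) := by
    rw [mul_sum]
    refine sum_congr rfl fun x hx => ?_
    obtain ⟨h4, _⟩ := h x hx
    have h5 : ((s + vv g x).toNat : ℝ) = ((s + vv g x : ℤ) : ℝ) := by
      have : (((s + vv g x).toNat : ℤ)) = s + vv g x := Int.toNat_of_nonneg (by omega)
      exact_mod_cast this
    rw [h5, prod_congr rfl fun i _ => TypW_ee_pow _ _, ← TypW_ee_sum, ← ee_add]
    congr 1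
    unfold vv
    push_cast
    rw [add_mul, sum_mul]
    congr 1
    exact sum_congr rfl fun i _ => by ring
  rw [h2, h1, h3, norm_smul, norm_mul, norm_ee, one_mul, norm_inv, Real.norm_of_nonneg hcard.le]
  have h6 : (((words g n τ).card : ℝ))⁻¹ * ‖∑ x ∈ words g n τ, ∏ i, ee ((g : ℝ) ^ (i.val + 1) * α) ^ (x i)‖ ≤
      (((words g n τ).card : ℝ))⁻¹ * ((3 * ((n : ℝ) + 1)) ^ g * ((words g n τ).card : ℝ) *
      Real.exp (-((τ d₁ : ℝ) * (τ d₂ : ℝ) / (n : ℝ) ^ 2 * S))) :=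
    mul_le_mul_of_nonneg_left hb (inv_nonneg.2 hcard.le)
  refine h6.trans ?_
  have h7 : (((words g n τ).card : ℝ))⁻¹ * ((3 * ((n : ℝ) + 1)) ^ g * ((words g n τ).card : ℝ) *
      Real.exp (-((τ d₁ : ℝ) * (τ d₂ : ℝ) / (n : ℝ) ^ 2 * S))) =
      (3 * ((n : ℝ) + 1)) ^ g * Real.exp (-((τ d₁ : ℝ) * (τ d₂ : ℝ) / (n : ℝ) ^ 2 * S)) := by
    field_simp
  rw [h7]
  refine mul_le_mul_of_nonneg_left (Real.exp_le_exp.2 (neg_le_neg ?_)) (by positivity)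
  refine mul_le_mul_of_nonneg_right ?_ hS0
  have hg1R : (n : ℝ) ≤ g * τ d₁ := by exact_mod_cast hg1
  rw [div_le_div_iff₀ (by positivity) (by positivity)]
  have h8 : (0 : ℝ) ≤ (τ d₂ : ℝ) * n := by positivity
  have h9 : (τ d₂ : ℝ) * n * n ≤ (τ d₂ : ℝ) * n * (g * τ d₁) := mul_le_mul_of_nonneg_left hg1R h8
  nlinarith

/-- Proof. Compare `Lf.bin_spec` in `Lf/Bin.lean`. Let `κ` be the constant of `digit_measure' g` for `c/2`. If
`∑ (1 - Re) > κ n` then by `tw_hat` the Fourier transform is at most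
`(3(n+1))^g exp(-κ τ(d₂)/g) ≤ (3(n+1))^g n^(-κB/g)`, which is less than `t/(log N)²` for `n` large if `κB/g ≥ g + 3`, as
`log N ≤ 2 n log g`. So the set is contained in the one of `digit_measure'`, of measure at most
`g^(-(1-c/2) n) ≤ N^(-(1-c/2)(1-r)) ≤ N^(-1+c)` with `r = min (c/2) (1/2)` (`c < 1` without loss of generality). -/
theorem tw_spec (g : ℕ) (hg : 2 ≤ g) (c t : ℝ) (hc : 0 < c) (ht : 0 < t) : ∃ B : ℝ, 1 ≤ B ∧ ∃ r : ℝ, 0 < r ∧ r < 1 ∧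
    ∃ N₀ : ℕ, ∀ (n N : ℕ) (τ : ℕ → ℕ) (s : ℤ) (d₁ d₂ : ℕ), N₀ ≤ N → (words g n τ).Nonempty →
    (∀ x ∈ words g n τ, 1 ≤ s + vv g x ∧ s + vv g x ≤ N) → (N : ℝ) ^ (1 - r) ≤ (g : ℝ) ^ n → d₁ < g → d₂ < g →
    d₁ ≠ d₂ → n ≤ g * τ d₁ → B * Real.log n ≤ τ d₂ →
    volume {α : ℝ | α ∈ Set.Icc (0 : ℝ) 1 ∧ t / (Real.log N) ^ 2 < ‖WW (tw g n τ s) N α‖} ≤
      ENNReal.ofReal ((N : ℝ) ^ (-1 + c)) := by
  classical
  -- the constants
  set c' : ℝ := min c 1 with hc'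
  have hc'0 : 0 < c' := lt_min hc one_pos
  have hc'1 : c' ≤ 1 := min_le_right _ _
  have hc'c : c' ≤ c := min_le_left _ _
  obtain ⟨κ, hκ, n₀, hmeas⟩ := digit_measure' g hg (c' / 2) (by linarith)
  have hgR : (2 : ℝ) ≤ g := by exact_mod_cast hg
  have hg0 : (0 : ℝ) < g := by linarith
  have hlg : 0 < Real.log g := Real.log_pos (by linarith)
  set B : ℝ := max 1 (((g : ℝ) + 3) * g / κ) with hB
  have hB1 : 1 ≤ B := le_max_left _ _
  have hB2 : ((g : ℝ) + 3) * g / κ ≤ B := le_max_right _ _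
  have hB3 : ((g : ℝ) + 3) * g ≤ B * κ := by rwa [div_le_iff₀ hκ] at hB2
  refine ⟨B, hB1, c' / 2, by linarith, by linarith, ?_⟩
  -- the size of `n`
  obtain ⟨n₁, hn₁⟩ : ∃ n₁ : ℕ, 4 * 6 ^ g * Real.log g ^ 2 / t ≤ n₁ := exists_nat_ge _
  set n₂ : ℕ := max 1 (max n₀ n₁) with hn₂
  have hlogt : Filter.Tendsto (fun N : ℕ => Real.log (N : ℝ)) Filter.atTop Filter.atTop :=
    Real.tendsto_log_atTop.comp tendsto_natCast_atTop_atTop
  obtain ⟨N₀, hN₀⟩ := (((hlogt.eventually_ge_atTop (2 * n₂ * Real.log g)).and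
    (hlogt.eventually_gt_atTop 0))).exists_forall_of_atTop
  refine ⟨N₀, ?_⟩
  intro n N τ s d₁ d₂ hN hne h hNn hd₁ hd₂ hd hg1 hB4
  obtain ⟨hN1, hN2⟩ := hN₀ N hN
  set y : ℝ := Real.log (N : ℝ) with hy
  have hN0 : (0 : ℝ) < N := by
    rcases Nat.eq_zero_or_pos N with h0 | h0
    · rw [h0] at hy
      simp at hy
      linarith
    · exact_mod_cast h0
  have hlogle : (1 - c' / 2) * y ≤ n * Real.log g := by
    have h1 : Real.log ((N : ℝ) ^ (1 - c' / 2)) ≤ Real.log ((g : ℝ) ^ n) :=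
      Real.log_le_log (Real.rpow_pos_of_pos hN0 _) hNn
    rwa [Real.log_rpow hN0, Real.log_pow] at h1
  have hyn : y ≤ 2 * n * Real.log g := by nlinarith
  have hn2n : n₂ ≤ n := by
    have h1 : 2 * n₂ * Real.log g ≤ 2 * n * Real.log g := hN1.trans hyn
    have h2 : (n₂ : ℝ) ≤ n := by
      have h3 : (n₂ : ℝ) * (2 * Real.log g) ≤ n * (2 * Real.log g) := by linarith
      exact le_of_mul_le_mul_right h3 (by linarith)
    exact_mod_cast h2
  have hn1 : 1 ≤ n := le_trans (le_max_left _ _) hn2n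
  have hn0 : n₀ ≤ n := le_trans ((le_max_left _ _).trans (le_max_right _ _)) hn2n
  have hn1' : n₁ ≤ n := le_trans ((le_max_right _ _).trans (le_max_right _ _)) hn2n
  have hnR : (1 : ℝ) ≤ n := by exact_mod_cast hn1
  have hnR0 : (0 : ℝ) < n := by linarith
  have hlogn : 0 ≤ Real.log n := Real.log_nonneg hnR
  have hh : ((d₂ : ℤ) - d₁ : ℤ) ≠ 0 := by
    intro h0
    apply hd
    omega
  -- the inclusion
  have hincl : {α : ℝ | α ∈ Set.Icc (0 : ℝ) 1 ∧ t / y ^ 2 < ‖WW (tw g n τ s) N α‖} ⊆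
      {α : ℝ | α ∈ Set.Icc (0 : ℝ) 1 ∧ ∃ u : ℂ, ‖u‖ = 1 ∧
      ∑ a ∈ Icc 1 n, (1 - (u * ee ((g : ℝ) ^ a * ((((d₂ : ℤ) - d₁ : ℤ) : ℝ) * α))).re) ≤ κ * n} := by
    rintro α ⟨hα, hW⟩
    refine ⟨hα, ?_⟩
    obtain ⟨u, hu, hb⟩ := tw_hat g n N τ s hn1 hne h d₁ d₂ hd₁ hd₂ hd hg1 α
    refine ⟨u, hu, ?_⟩
    by_contra hcon
    push Not at hcon
    set S := ∑ a ∈ Icc 1 n, (1 - (u * ee ((g : ℝ) ^ a * ((((d₂ : ℤ) - d₁ : ℤ) : ℝ) * α))).re) with hS
    have h1 : ((g : ℝ) + 3) * Real.log n ≤ (τ d₂ : ℝ) / (g * n) * S := by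
      have h2 : B * Real.log n / (g * n) * (κ * n) ≤ (τ d₂ : ℝ) / (g * n) * S := by
        refine mul_le_mul ?_ hcon.le (by positivity) (by positivity)
        exact div_le_div_of_nonneg_right hB4 (by positivity)
      refine le_trans ?_ h2
      have h3 : B * Real.log n / (g * n) * (κ * n) = B * κ * Real.log n / g := by
        field_simp
      rw [h3, le_div_iff₀ hg0]
      calc ((g : ℝ) + 3) * Real.log n * g = ((g : ℝ) + 3) * g * Real.log n := by ring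
        _ ≤ B * κ * Real.log n := mul_le_mul_of_nonneg_right hB3 hlogn
    have h4 : Real.exp (-((τ d₂ : ℝ) / (g * n) * S)) ≤ ((n : ℝ) ^ (g + 3))⁻¹ := by
      have h5 : ((n : ℝ) ^ (g + 3))⁻¹ = Real.exp (-(((g : ℝ) + 3) * Real.log n)) := by
        rw [Real.exp_neg]
        congr 1
        have h6 : ((g : ℝ) + 3) * Real.log n = ((g + 3 : ℕ) : ℝ) * Real.log n := by
          push_cast
          ring
        rw [h6, Real.exp_nat_mul, Real.exp_log hnR0]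
      rw [h5]
      exact Real.exp_le_exp.2 (neg_le_neg h1)
    have h5 : (3 * ((n : ℝ) + 1)) ^ g ≤ 6 ^ g * (n : ℝ) ^ g := by
      rw [← mul_pow]
      exact pow_le_pow_left₀ (by positivity) (by linarith) g
    have h6 : t / y ^ 2 < 6 ^ g / (n : ℝ) ^ 3 := by
      refine lt_of_lt_of_le (lt_of_lt_of_le hW hb) ?_
      refine (mul_le_mul h5 h4 (Real.exp_pos _).le (by positivity)).trans (le_of_eq ?_)
      rw [pow_add]
      field_simp
    rw [div_lt_div_iff₀ (by positivity) (by positivity)] at h6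
    have h7 : y ^ 2 ≤ (2 * n * Real.log g) ^ 2 := pow_le_pow_left₀ hN2.le hyn 2
    have h8 : 4 * 6 ^ g * Real.log g ^ 2 / t ≤ n := hn₁.trans (by exact_mod_cast hn1')
    rw [div_le_iff₀ ht] at h8
    have h9 : 6 ^ g * y ^ 2 ≤ 6 ^ g * (2 * n * Real.log g) ^ 2 :=
      mul_le_mul_of_nonneg_left h7 (by positivity)
    have h10 : 6 ^ g * (2 * n * Real.log g) ^ 2 = (4 * 6 ^ g * Real.log g ^ 2) * (n : ℝ) ^ 2 := by ring
    have h11 : (4 * 6 ^ g * Real.log g ^ 2) * (n : ℝ) ^ 2 ≤ (n * t) * (n : ℝ) ^ 2 :=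
      mul_le_mul_of_nonneg_right h8 (by positivity)
    have h12 : (n * t) * (n : ℝ) ^ 2 = t * (n : ℝ) ^ 3 := by ring
    linarith
  refine (measure_mono hincl).trans ((hmeas n hn0 _ hh).trans (ENNReal.ofReal_le_ofReal ?_))
  -- the final inequality
  have h1 : (g : ℝ) ^ (-(1 - c' / 2) * (n : ℝ)) = Real.exp (-((1 - c' / 2) * (n * Real.log g))) := by
    rw [Real.rpow_def_of_pos hg0]
    congr 1
    ring
  have h2 : (N : ℝ) ^ (-1 + c) = Real.exp (-((1 - c) * y)) := by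
    rw [Real.rpow_def_of_pos hN0, ← hy]
    congr 1
    ring
  rw [h1, h2, Real.exp_le_exp, neg_le_neg_iff]
  have h3 : (1 - c' / 2) * ((1 - c' / 2) * y) ≤ (1 - c' / 2) * (n * Real.log g) :=
    mul_le_mul_of_nonneg_left hlogle (by linarith)
  refine le_trans ?_ h3
  have h4 : (1 - c) ≤ (1 - c' / 2) * (1 - c' / 2) := by nlinarith [sq_nonneg c']
  nlinarith [mul_le_mul_of_nonneg_right h4 hN2.le]

end Pool.Agent.Lib.MP_629a14_nt.Lg
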