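import Pool.Agent.Lib.MP_629a14_nt.Lg.Main
import Pool.Agent.Lib.MP_629a14_nt.Lg.TypW

/-! Types with at least `B log n` letters different from the most frequent one. -/

set_option autoImplicit false

namespace Pool.Agent.Lib.MP_629a14_nt.Lg

open Finset Pool.Agent.Lib.MP_629a14_nt Pool.Agent.Lib.MP_629a14_nt.Th MeasureTheory

/-- The weight at zero. -/
private noncomputable def highU (K : ℝ) (N : ℕ) (m : ℤ) : ℝ := if m = 0 then K / (Real.log N) ^ 2 else 0

private theorem highU_CU (K : ℝ) (N : ℕ) (α : ℝ) : Lk.CU (highU K N) N α = K / (Real.log N) ^ 2 := by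
  unfold Lk.CU highU
  rw [sum_eq_single (0 : ℤ)]
  · simp
  · intro b _ hb
    rw [if_neg hb, zero_mul]
  · intro h
    exact absurd (by rw [mem_Icc]; omega) h

private theorem highU_maj (K : ℝ) (N : ℕ) (hK : 0 ≤ K) (hN : 0 < Real.log (N : ℝ)) : Lk.Maj (highU K N) N K := by
  refine ⟨fun m => ?_, fun α => ?_, ?_⟩
  · unfold highU
    split_ifs
    · positivity
    · exact le_rfl
  · rw [highU_CU]
    positivity
  · have h1 : ∑ m ∈ (Icc (-(N : ℤ)) N).erase 0, highU K N m * ((m.natAbs : ℝ) / (m.natAbs.totient : ℝ)) ^ 2 = 0 := by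
      refine sum_eq_zero fun m hm => ?_
      unfold highU
      rw [if_neg (ne_of_mem_erase hm), zero_mul]
    rw [h1]
    unfold highU
    rw [if_pos rfl, add_zero, div_mul_cancel₀ _ (by positivity)]

open Classical in
/-- Proof. `main` of `Lg/Main.lean` with `w = tw g n τ s`, `δ = 1/4`, `K` the constant of `type_div`,
`u m = if m = 0 then K/(log N)² else 0` (so `CU u N α = K/(log N)²`, and `Maj u N K` holds), `tw_spec` with
`t = c K`; the divisor condition: for `m ≤ N ≤ g^(2n)` by `type_div` and `tw_sum`, for `m > N` the sum is empty. The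
conclusion by `tw_sum` (with `N ≤ 4 (s + vv x)`). If `words` is empty there is nothing to prove. -/
theorem high (g : ℕ) (hg : 2 ≤ g) (ε : ℝ) (hε : 0 < ε) : ∃ B : ℝ, 1 ≤ B ∧ ∃ κ : ℝ, 0 < κ ∧ κ < 1 ∧ ∃ N₀ : ℕ,
    ∀ (n N : ℕ) (τ : ℕ → ℕ) (s : ℤ) (d₁ d₂ : ℕ), N₀ ≤ N → (N : ℝ) ^ (1 - κ) ≤ (g : ℝ) ^ n → d₁ < g → d₂ < g →
    d₁ ≠ d₂ → n ≤ g * τ d₁ → B * Real.log n ≤ τ d₂ →
    (∀ x ∈ words g n τ, (N : ℤ) ≤ 4 * (s + vv g x) ∧ s + vv g x ≤ N) →
    (((words g n τ).filter (fun x => Even (s + vv g x) ∧ Bad ε (s + vv g x).toNat)).card : ℝ) ≤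
      ε * ((words g n τ).card : ℝ) := by
  obtain ⟨K, hK, hdiv⟩ := type_div g hg
  obtain ⟨c, hc, Nm, hmain⟩ := main K (1 / 4) ε (by norm_num) hε
  obtain ⟨B, hB, r, hr0, hr1, Ns, hspec⟩ := tw_spec g hg c (c * K) hc (by positivity)
  refine ⟨B, hB, min r (1 / 2), lt_min hr0 (by norm_num), lt_of_le_of_lt (min_le_right _ _) (by norm_num),
    Nm + Ns + g ^ 2 + 3, ?_⟩
  intro n N τ s d₁ d₂ hN hNn hd₁ hd₂ hd hg1 hBn hx
  have hg2 : (2 : ℝ) ≤ g := by exact_mod_cast hg
  have hg1' : (1 : ℝ) < g := by linarith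
  have hg0 : (0 : ℝ) < g := by linarith
  have hN3 : 3 ≤ N := by omega
  have hNr : (1 : ℝ) ≤ N := by exact_mod_cast (by omega : 1 ≤ N)
  have hN0 : (0 : ℝ) < N := by linarith
  have hlogN : 0 < Real.log (N : ℝ) := Real.log_pos (by exact_mod_cast (by omega : 1 < N))
  rcases (words g n τ).eq_empty_or_nonempty with he | hne
  · rw [he]
    simp
  -- `N ≤ g^(2n)`
  have hhalf : (N : ℝ) ^ (1 / 2 : ℝ) ≤ (g : ℝ) ^ n := by
    refine le_trans ?_ hNn
    apply Real.rpow_le_rpow_of_exponent_le hNr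
    have := min_le_right r (1 / 2)
    linarith
  have hsq : (N : ℝ) = ((N : ℝ) ^ (1 / 2 : ℝ)) ^ 2 := by
    rw [← Real.rpow_natCast, ← Real.rpow_mul hN0.le]
    norm_num
  have hNg : N ≤ g ^ (2 * n) := by
    have h1 : (N : ℝ) ≤ (g : ℝ) ^ (2 * n) := by
      rw [hsq, mul_comm 2 n, pow_mul]
      exact pow_le_pow_left₀ (by positivity) hhalf 2
    exact_mod_cast h1
  have hn2 : 2 ≤ n := by
    by_contra hcon
    have h1 : g ^ (2 * n) ≤ g ^ 2 := Nat.pow_le_pow_right (by omega) (by omega)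
    omega
  have hn1 : 1 ≤ n := by omega
  have hlogn : 0 < Real.log (n : ℝ) := Real.log_pos (by exact_mod_cast (by omega : 1 < n))
  have hτ2 : 1 ≤ τ d₂ := by
    have h1 : (0 : ℝ) < τ d₂ := lt_of_lt_of_le (by positivity) hBn
    exact_mod_cast h1
  have hx1 : ∀ x ∈ words g n τ, 1 ≤ s + vv g x ∧ s + vv g x ≤ N := by
    intro x h
    obtain ⟨h1, h2⟩ := hx x h
    exact ⟨by omega, h2⟩
  have hW : (0 : ℝ) < ((words g n τ).card : ℝ) := by exact_mod_cast hne.card_pos
  have hNn' : (N : ℝ) ^ (1 - r) ≤ (g : ℝ) ^ n := by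
    refine le_trans ?_ hNn
    apply Real.rpow_le_rpow_of_exponent_le hNr
    have := min_le_left r (1 / 2)
    linarith
  have hvol := hspec n N τ s d₁ d₂ (by omega) hne hx1 hNn' hd₁ hd₂ hd hg1 hBn
  have hw1 : ∑ m ∈ Icc 1 N, tw g n τ s m ≤ 1 := by
    have h1 := tw_sum g n N τ s hx1 (fun _ => True)
    rw [filter_true_of_mem (fun _ _ => trivial), filter_true_of_mem (fun _ _ => trivial), div_self hW.ne'] at h1
    exact h1.le
  have hdv : ∀ m : ℕ, Odd m → Squarefree m → 3 ≤ m →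
      ∑ k ∈ (Icc 1 N).filter (fun k => m ∣ k), tw g n τ s k ≤ K / Real.log m := by
    intro m hm hsf h3
    have hm1 : (1 : ℝ) < m := by exact_mod_cast (by omega : 1 < m)
    have hlogm : 0 < Real.log (m : ℝ) := Real.log_pos hm1
    rcases Nat.lt_or_ge N m with hmN | hmN
    · have hempty : (Icc 1 N).filter (fun k => m ∣ k) = ∅ := by
        rw [filter_eq_empty_iff]
        intro k hk hdk
        rw [mem_Icc] at hk
        have := Nat.le_of_dvd (by omega) hdk
        omega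
      rw [hempty, sum_empty]
      positivity
    · rw [tw_sum g n N τ s hx1 (fun k => m ∣ k)]
      have hset : (words g n τ).filter (fun x => m ∣ (s + vv g x).toNat) =
          (words g n τ).filter (fun x => (m : ℤ) ∣ s + vv g x) := by
        apply filter_congr
        intro x hxx
        obtain ⟨h4, _⟩ := hx1 x hxx
        have h5 : (((s + vv g x).toNat : ℤ)) = s + vv g x := Int.toNat_of_nonneg (by omega)
        rw [← Int.natCast_dvd_natCast, h5]
      rw [hset, div_le_iff₀ hW]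
      exact hdiv n τ s d₁ d₂ hn1 hd₁ hd₂ hd hg1 hτ2 m hm hsf h3 (hmN.trans hNg)
  have hfin := hmain N (by omega) (tw g n τ s) (highU K N) (fun m => div_nonneg (Nat.cast_nonneg _) (Nat.cast_nonneg _)) hw1 hdv
    (highU_maj K N (by linarith) hlogN) (by
      simp only [highU_CU]
      have h1 : c * (K / (Real.log (N : ℝ)) ^ 2) = c * K / (Real.log (N : ℝ)) ^ 2 := by ring
      rw [h1]
      exact hvol)
  rw [tw_sum g n N τ s hx1 (fun k : ℕ => Even k ∧ (1 / 4 : ℝ) * N ≤ k ∧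
    ε * En.HL k < |(En.r2 k : ℝ) - En.HL k|), div_le_iff₀ hW] at hfin
  refine le_trans ?_ hfin
  have hsub : (words g n τ).filter (fun x => Even (s + vv g x) ∧ Bad ε (s + vv g x).toNat) ⊆
      (words g n τ).filter (fun x => Even (s + vv g x).toNat ∧ (1 / 4 : ℝ) * N ≤ (s + vv g x).toNat ∧
        ε * En.HL (s + vv g x).toNat < |(En.r2 (s + vv g x).toNat : ℝ) - En.HL (s + vv g x).toNat|) := by
    intro x hxx
    rw [mem_filter] at hxx ⊢
    obtain ⟨hxm, hev, hbad⟩ := hxx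
    obtain ⟨h1, h2⟩ := hx x hxm
    have h5 : (((s + vv g x).toNat : ℤ)) = s + vv g x := Int.toNat_of_nonneg (by omega)
    refine ⟨hxm, ?_, ?_, hbad⟩
    · rw [← h5] at hev
      exact_mod_cast hev
    · have h6 : (N : ℤ) ≤ 4 * ((s + vv g x).toNat : ℤ) := by rw [h5]; exact h1
      have h7 : (N : ℝ) ≤ 4 * ((s + vv g x).toNat : ℝ) := by exact_mod_cast h6
      linarith
  exact_mod_cast card_le_card hsub

end Pool.Agent.Lib.MP_629a14_nt.Lg
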