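import Pool.Agent.Lib.MP_629a14_nt.Lg.TypC

/-! Positions of the letters of a word of a given type. -/

set_option autoImplicit false

namespace Pool.Agent.Lib.MP_629a14_nt.Lg

open Finset

/-- Permuting the positions of a word. -/
theorem words_perm (g n : ℕ) (τ : ℕ → ℕ) (σ : Equiv.Perm (Fin n)) (x : Fin n → ℕ) (hx : x ∈ words g n τ) :
    x ∘ σ ∈ words g n τ := by
  unfold words at hx ⊢
  rw [mem_filter, Fintype.mem_piFinset] at hx ⊢
  refine ⟨fun i => hx.1 (σ i), fun d hd => ?_⟩
  rw [← hx.2 d hd]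
  refine card_bij (fun i _ => σ i) ?_ ?_ ?_
  · intro i hi
    rw [mem_filter] at hi ⊢
    exact ⟨mem_univ _, hi.2⟩
  · intro i _ j _ h
    exact σ.injective h
  · intro j hj
    rw [mem_filter] at hj
    refine ⟨σ.symm j, ?_, σ.apply_symm_apply j⟩
    rw [mem_filter]
    refine ⟨mem_univ _, ?_⟩
    simp only [Function.comp_apply, Equiv.apply_symm_apply]
    exact hj.2

private theorem LowA_swap (g n : ℕ) (τ : ℕ → ℕ) (d₁ : ℕ) (i j : Fin n) :
    ((words g n τ).filter (fun x => x i ≠ d₁)).card ≤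
      ((words g n τ).filter (fun x => x j ≠ d₁)).card := by
  refine card_le_card_of_injOn (fun x => x ∘ (Equiv.swap i j)) ?_ ?_
  · intro x hx
    rw [mem_coe, mem_filter] at hx ⊢
    refine ⟨words_perm g n τ _ x hx.1, ?_⟩
    simp only [Function.comp_apply, Equiv.swap_apply_right]
    exact hx.2
  · intro x _ y _ h
    funext k
    have := congrFun h (Equiv.swap i j k)
    simpa using this

private theorem LowA_count (g n : ℕ) (τ : ℕ → ℕ) (d₁ : ℕ) (hd₁ : d₁ < g) (x : Fin n → ℕ)
    (hx : x ∈ words g n τ) : (univ.filter (fun i => x i ≠ d₁)).card = n - τ d₁ := by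
  unfold words at hx
  rw [mem_filter] at hx
  have h1 := hx.2 d₁ (mem_range.2 hd₁)
  have h2 := card_filter_add_card_filter_not (s := (univ : Finset (Fin n))) (fun i => x i = d₁)
  rw [card_univ, Fintype.card_fin, h1] at h2
  change τ d₁ + (univ.filter (fun i => x i ≠ d₁)).card = n at h2
  omega

/-- Proof. The number of words with `x i ≠ d₁` does not depend on `i` (swap two positions, `words_perm`), and the sum over
`i` is `(n - τ d₁) #words`. -/
theorem pos_count (g n : ℕ) (τ : ℕ → ℕ) (d₁ : ℕ) (hd₁ : d₁ < g) (i : Fin n) :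
    n * ((words g n τ).filter (fun x => x i ≠ d₁)).card = (n - τ d₁) * (words g n τ).card := by
  have h1 : ∀ j : Fin n, ((words g n τ).filter (fun x => x j ≠ d₁)).card =
      ((words g n τ).filter (fun x => x i ≠ d₁)).card := fun j =>
    le_antisymm (LowA_swap g n τ d₁ j i) (LowA_swap g n τ d₁ i j)
  have h2 : ∑ j : Fin n, ((words g n τ).filter (fun x => x j ≠ d₁)).card =
      n * ((words g n τ).filter (fun x => x i ≠ d₁)).card := by
    rw [sum_congr rfl fun j _ => h1 j, sum_const, card_univ, Fintype.card_fin, smul_eq_mul]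
  have h3 : ∑ j : Fin n, ((words g n τ).filter (fun x => x j ≠ d₁)).card =
      ∑ x ∈ words g n τ, (univ.filter (fun j => x j ≠ d₁)).card := by
    simp only [card_filter]
    rw [sum_comm]
  rw [← h2, h3, sum_congr rfl fun x hx => LowA_count g n τ d₁ hd₁ x hx, sum_const, smul_eq_mul,
    mul_comm]

/-- The words with all letters at the positions above `L` equal to `d₁`. -/
def trunc (g n : ℕ) (τ : ℕ → ℕ) (d₁ L : ℕ) : Finset (Fin n → ℕ) :=
  (words g n τ).filter (fun x => ∀ i : Fin n, L ≤ i.val → x i = d₁)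

/-- Proof. A word not in `trunc` has `x i ≠ d₁` for one of the `n - L` indices `i ≥ L`; `pos_count`. -/
theorem trunc_count (g n : ℕ) (τ : ℕ → ℕ) (d₁ : ℕ) (hd₁ : d₁ < g) (L : ℕ) (hL : L ≤ n) :
    n * ((words g n τ).card - (trunc g n τ d₁ L).card) ≤ (n - L) * (n - τ d₁) * (words g n τ).card := by
  have h1 : (words g n τ).card - (trunc g n τ d₁ L).card =
      ((words g n τ).filter (fun x => ¬ ∀ i : Fin n, L ≤ i.val → x i = d₁)).card := by
    have := card_filter_add_card_filter_not (s := words g n τ)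
      (fun x => ∀ i : Fin n, L ≤ i.val → x i = d₁)
    unfold trunc
    omega
  have h2 : (words g n τ).filter (fun x => ¬ ∀ i : Fin n, L ≤ i.val → x i = d₁) ⊆
      (univ.filter (fun i : Fin n => L ≤ i.val)).biUnion
        (fun i => (words g n τ).filter (fun x => x i ≠ d₁)) := by
    intro x hx
    rw [mem_filter] at hx
    obtain ⟨hx1, hx2⟩ := hx
    push Not at hx2
    obtain ⟨i, hi1, hi2⟩ := hx2
    rw [mem_biUnion]
    exact ⟨i, by rw [mem_filter]; exact ⟨mem_univ _, hi1⟩, by rw [mem_filter]; exact ⟨hx1, hi2⟩⟩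
  have h3 : (univ.filter (fun i : Fin n => L ≤ i.val)).card = n - L := by
    have h4 : (univ.filter (fun i : Fin n => L ≤ i.val)).card = (Ico L n).card := by
      refine card_bij (fun i _ => i.val) ?_ ?_ ?_
      · intro i hi
        rw [mem_filter] at hi
        rw [mem_Ico]
        exact ⟨hi.2, i.2⟩
      · intro i _ j _ h
        exact Fin.ext h
      · intro a ha
        rw [mem_Ico] at ha
        exact ⟨⟨a, ha.2⟩, by rw [mem_filter]; exact ⟨mem_univ _, ha.1⟩, rfl⟩
    rw [h4, Nat.card_Ico]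
  rw [h1]
  calc n * ((words g n τ).filter (fun x => ¬ ∀ i : Fin n, L ≤ i.val → x i = d₁)).card
      ≤ n * ∑ i ∈ univ.filter (fun i : Fin n => L ≤ i.val),
          ((words g n τ).filter (fun x => x i ≠ d₁)).card :=
        Nat.mul_le_mul_left _ ((card_le_card h2).trans card_biUnion_le)
    _ = ∑ i ∈ univ.filter (fun i : Fin n => L ≤ i.val), (n - τ d₁) * (words g n τ).card := by
        rw [mul_sum]
        exact sum_congr rfl fun i _ => pos_count g n τ d₁ hd₁ i
    _ = (n - L) * (n - τ d₁) * (words g n τ).card := by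
        rw [sum_const, h3, smul_eq_mul, mul_assoc]

/-- Two words of the same type which are constant above `L` differ by a permutation of the positions below `L`:
`Equiv.ofFiberEquiv` (equal numbers of every letter below `L`). -/
theorem trunc_perm (g n : ℕ) (τ : ℕ → ℕ) (d₁ : ℕ) (hd₁ : d₁ < g) (L : ℕ) (x y : Fin n → ℕ)
    (hx : x ∈ trunc g n τ d₁ L) (hy : y ∈ trunc g n τ d₁ L) :
    ∃ σ : Equiv.Perm (Fin n), (∀ i : Fin n, L ≤ i.val → σ i = i) ∧ y = x ∘ σ := by
  classical
  unfold trunc at hx hy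
  rw [mem_filter] at hx hy
  obtain ⟨hxw, hxL⟩ := hx
  obtain ⟨hyw, hyL⟩ := hy
  unfold words at hxw hyw
  rw [mem_filter, Fintype.mem_piFinset] at hxw hyw
  have hsplit : ∀ (z : Fin n → ℕ) (c : ℕ), (univ.filter (fun i : Fin n => z i = c)).card =
      (univ.filter (fun i : Fin n => i.val < L ∧ z i = c)).card +
        (univ.filter (fun i : Fin n => ¬ i.val < L ∧ z i = c)).card := by
    intro z c
    rw [← card_filter_add_card_filter_not (s := univ.filter (fun i : Fin n => z i = c))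
      (fun i => i.val < L), filter_filter, filter_filter]
    congr 2
    · ext i; simp [and_comm]
    · ext i; simp [and_comm]
  have hfib : ∀ c : ℕ, (univ.filter (fun i : Fin n => i.val < L ∧ y i = c)).card =
      (univ.filter (fun i : Fin n => i.val < L ∧ x i = c)).card := by
    intro c
    by_cases hc : c < g
    · have h1 := hxw.2 c (mem_range.2 hc)
      have h2 := hyw.2 c (mem_range.2 hc)
      rw [hsplit] at h1 h2
      have h3 : (univ.filter (fun i : Fin n => ¬ i.val < L ∧ y i = c)) =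
          (univ.filter (fun i : Fin n => ¬ i.val < L ∧ x i = c)) := by
        refine filter_congr fun i _ => ?_
        constructor
        · rintro ⟨a, b⟩
          exact ⟨a, by rw [hxL i (not_lt.1 a), ← hyL i (not_lt.1 a)]; exact b⟩
        · rintro ⟨a, b⟩
          exact ⟨a, by rw [hyL i (not_lt.1 a), ← hxL i (not_lt.1 a)]; exact b⟩
      rw [h3] at h2
      omega
    · have h1 : (univ.filter (fun i : Fin n => i.val < L ∧ y i = c)) = ∅ := by
        rw [filter_eq_empty_iff]
        rintro i _ ⟨_, b⟩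
        have := mem_range.1 (hyw.1 i)
        omega
      have h2 : (univ.filter (fun i : Fin n => i.val < L ∧ x i = c)) = ∅ := by
        rw [filter_eq_empty_iff]
        rintro i _ ⟨_, b⟩
        have := mem_range.1 (hxw.1 i)
        omega
      rw [h1, h2]
  have hcard : ∀ (z : Fin n → ℕ) (c : ℕ), Fintype.card {a : {i : Fin n // i.val < L} // z a = c} =
      (univ.filter (fun i : Fin n => i.val < L ∧ z i = c)).card := by
    intro z c
    rw [Fintype.card_subtype]
    refine card_bij (fun a _ => a.val) ?_ ?_ ?_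
    · intro a ha
      rw [mem_filter] at ha ⊢
      exact ⟨mem_univ _, a.2, ha.2⟩
    · intro a _ b _ h
      exact Subtype.ext h
    · intro i hi
      rw [mem_filter] at hi
      exact ⟨⟨i, hi.2.1⟩, by rw [mem_filter]; exact ⟨mem_univ _, hi.2.2⟩, rfl⟩
  have hequiv : ∀ c : ℕ, Nonempty ({a : {i : Fin n // i.val < L} // y a = c} ≃
      {a : {i : Fin n // i.val < L} // x a = c}) := by
    intro c
    rw [← Fintype.card_eq, hcard, hcard]
    exact hfib c
  let e : {i : Fin n // i.val < L} ≃ {i : Fin n // i.val < L} :=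
    Equiv.ofFiberEquiv (f := fun a : {i : Fin n // i.val < L} => y a)
      (g := fun a : {i : Fin n // i.val < L} => x a) (fun c => (hequiv c).some)
  have he : ∀ a : {i : Fin n // i.val < L}, x (e a) = y a := fun a =>
    Equiv.ofFiberEquiv_map (f := fun a : {i : Fin n // i.val < L} => y a)
      (g := fun a : {i : Fin n // i.val < L} => x a) (fun c => (hequiv c).some) a
  refine ⟨Equiv.Perm.ofSubtype e, ?_, ?_⟩
  · intro i hi
    exact Equiv.Perm.ofSubtype_apply_of_not_mem e (not_lt.2 hi)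
  · funext i
    by_cases hi : i.val < L
    · rw [Function.comp_apply, Equiv.Perm.ofSubtype_apply_of_mem e hi]
      exact (he ⟨i, hi⟩).symm
    · rw [Function.comp_apply, Equiv.Perm.ofSubtype_apply_of_not_mem e hi, hyL i (not_lt.1 hi),
        hxL i (not_lt.1 hi)]

private theorem LowA_range (g n N : ℕ) (hg : 2 ≤ g) (τ : ℕ → ℕ) (s : ℤ) (d₁ d₂ : ℕ) (hd₁ : d₁ < g)
    (hd₂ : d₂ < g) (hlt : d₂ < d₁) (h1 : 1 ≤ τ d₁) (h2 : 1 ≤ τ d₂) (hw : (words g n τ).Nonempty)
    (h : ∀ x ∈ words g n τ, 0 ≤ s + vv g x ∧ s + vv g x ≤ N) : g ^ n ≤ 2 * N := by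
  classical
  obtain ⟨x, hx⟩ := hw
  have hx' := hx
  unfold words at hx'
  rw [mem_filter] at hx'
  have hc1 := hx'.2 d₁ (mem_range.2 hd₁)
  have hc2 := hx'.2 d₂ (mem_range.2 hd₂)
  obtain ⟨i₁, hi₁⟩ : (univ.filter (fun i => x i = d₁)).Nonempty := by
    rw [← card_pos, hc1]; omega
  obtain ⟨i₂, hi₂⟩ : (univ.filter (fun i => x i = d₂)).Nonempty := by
    rw [← card_pos, hc2]; omega
  rw [mem_filter] at hi₁ hi₂
  have hne : i₁ ≠ i₂ := by
    rintro rfl
    rw [hi₁.2] at hi₂
    omega
  have hn : 2 ≤ n := by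
    have e1 := i₁.2
    have e2 := i₂.2
    by_contra hcon
    apply hne
    apply Fin.ext
    omega
  set a : Fin n := ⟨n - 1, by omega⟩ with ha
  set b : Fin n := ⟨n - 2, by omega⟩ with hb
  have hab : a ≠ b := by
    intro hh
    have := congrArg Fin.val hh
    simp only [ha, hb] at this
    omega
  -- a permutation with `a ↦ i₁`, `b ↦ i₂`
  set c : Fin n := Equiv.swap a i₁ b with hc
  have hci : c ≠ i₁ := by
    intro hh
    have : Equiv.swap a i₁ b = Equiv.swap a i₁ a := by rw [Equiv.swap_apply_left, ← hc, hh]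
    exact hab ((Equiv.swap a i₁).injective this).symm
  set σ : Equiv.Perm (Fin n) := Equiv.swap c i₂ * Equiv.swap a i₁ with hσ
  have hσa : σ a = i₁ := by
    rw [hσ, Equiv.Perm.mul_apply, Equiv.swap_apply_left, Equiv.swap_apply_of_ne_of_ne hci.symm hne]
  have hσb : σ b = i₂ := by
    rw [hσ, Equiv.Perm.mul_apply, ← hc, Equiv.swap_apply_left]
  set z : Fin n → ℕ := x ∘ σ with hz
  have hzw : z ∈ words g n τ := words_perm g n τ σ x hx
  have hza : z a = d₁ := by rw [hz, Function.comp_apply, hσa]; exact hi₁.2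
  have hzb : z b = d₂ := by rw [hz, Function.comp_apply, hσb]; exact hi₂.2
  set z' : Fin n → ℕ := z ∘ Equiv.swap a b with hz'
  have hzw' : z' ∈ words g n τ := words_perm g n τ _ z hzw
  have hdiff : vv g z - vv g z' = ((d₁ : ℤ) - d₂) * ((g : ℤ) ^ n - (g : ℤ) ^ (n - 1)) := by
    unfold vv
    rw [← sum_sub_distrib]
    rw [Fintype.sum_eq_add a b hab]
    · rw [hz', Function.comp_apply, Function.comp_apply, Equiv.swap_apply_left,
        Equiv.swap_apply_right, hza, hzb]
      have e1 : (a : Fin n).val + 1 = n := by simp only [ha]; omega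
      have e2 : (b : Fin n).val + 1 = n - 1 := by simp only [hb]; omega
      rw [e1, e2]
      ring
    · rintro i ⟨h3, h4⟩
      rw [hz', Function.comp_apply, Equiv.swap_apply_of_ne_of_ne h3 h4, sub_self]
  obtain ⟨_, b1⟩ := h z hzw
  obtain ⟨b2, _⟩ := h z' hzw'
  have h5 : ((d₁ : ℤ) - d₂) * ((g : ℤ) ^ n - (g : ℤ) ^ (n - 1)) ≤ N := by linarith
  have h6 : (g : ℤ) ^ n = g * (g : ℤ) ^ (n - 1) := by
    rw [← pow_succ', Nat.sub_add_cancel (by omega)]
  have h7 : (0 : ℤ) < (g : ℤ) ^ (n - 1) := by positivity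
  have h8 : (2 : ℤ) ≤ g := by exact_mod_cast hg
  have h9 : (1 : ℤ) ≤ (d₁ : ℤ) - d₂ := by
    have : (d₂ : ℤ) < d₁ := by exact_mod_cast hlt
    linarith
  have h10 : (0 : ℤ) ≤ (g : ℤ) ^ n - (g : ℤ) ^ (n - 1) := by
    rw [h6]; nlinarith
  have h11 : (g : ℤ) ^ n - (g : ℤ) ^ (n - 1) ≤ N := by nlinarith
  have h12 : (g : ℤ) ^ n ≤ 2 * N := by
    have : 2 * (g : ℤ) ^ (n - 1) ≤ (g : ℤ) ^ n := by rw [h6]; nlinarith
    linarith
  exact_mod_cast h12

/-- Proof. If two different letters `d₁ > d₂` occur in the words, then (permuting) some word `x` has `x (n-1) = d₁`,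
`x (n-2) = d₂`, and exchanging these two letters changes the value by `(d₁ - d₂)(g^n - g^(n-1)) ≥ g^n/2`; both
values `s + vv x` are in `[0, N]`. -/
theorem range_bound (g n N : ℕ) (hg : 2 ≤ g) (τ : ℕ → ℕ) (s : ℤ) (d₁ d₂ : ℕ) (hd₁ : d₁ < g) (hd₂ : d₂ < g)
    (hne : d₁ ≠ d₂) (h1 : 1 ≤ τ d₁) (h2 : 1 ≤ τ d₂) (hw : (words g n τ).Nonempty)
    (h : ∀ x ∈ words g n τ, 0 ≤ s + vv g x ∧ s + vv g x ≤ N) : g ^ n ≤ 2 * N := by
  rcases Nat.lt_or_gt_of_ne hne with hlt | hlt
  · exact LowA_range g n N hg τ s d₂ d₁ hd₂ hd₁ hlt h2 h1 hw h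
  · exact LowA_range g n N hg τ s d₁ d₂ hd₁ hd₂ hlt h1 h2 hw h

end Pool.Agent.Lib.MP_629a14_nt.Lg
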