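import Pool.Agent.Lib.MP_629a14_nt.Lf.Point
import Pool.Agent.Lib.MP_629a14_nt.Lf.PropZ
import Pool.Agent.Lib.MP_629a14_nt.Lk.Rbound
import Pool.Agent.Lib.MP_629a14_nt.Lk.TTu
import Pool.Agent.Lib.MP_629a14_nt.Lk.SpecU
import Pool.Agent.Lib.MP_629a14_nt.Th.VSup
import Pool.Agent.Lib.MP_629a14_nt.Th.Ident
import Pool.Agent.Lib.MP_629a14_nt.Lg.BadSq
import Pool.Agent.Lib.MP_629a14_nt.Lg.BadRp
import Pool.Agent.Lib.MP_629a14_nt.Lg.SqDvd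
import Pool.Agent.Lib.MP_629a14_nt.Th.R2conv

/-! The criterion with a majorant for the Fourier transform. -/

set_option autoImplicit false

namespace Pool.Agent.Lib.MP_629a14_nt.Lg

open Finset Pool.Agent.Lib.MP_629a14_nt Pool.Agent.Lib.MP_629a14_nt.Th Pool.Agent.Lib.MP_629a14_nt.Lk MeasureTheory Filter

/-! ### Growth -/

private theorem gr1 (a : ℝ) (ha : 0 < a) : ∀ᶠ x : ℝ in atTop, x ^ (3 / 4 : ℝ) ≤ a * x := by
  have h := (tendsto_rpow_atTop (show (0 : ℝ) < 1 / 4 by norm_num)).eventually (eventually_ge_atTop (1 / a))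
  filter_upwards [h, eventually_gt_atTop 0] with x hx h0
  have h1 : 1 ≤ a * x ^ (1 / 4 : ℝ) := by
    rw [div_le_iff₀ ha] at hx; linarith
  calc x ^ (3 / 4 : ℝ) = x ^ (3 / 4 : ℝ) * 1 := by ring
    _ ≤ x ^ (3 / 4 : ℝ) * (a * x ^ (1 / 4 : ℝ)) := by gcongr
    _ = a * (x ^ (3 / 4 : ℝ) * x ^ (1 / 4 : ℝ)) := by ring
    _ = a * x := by rw [← Real.rpow_add h0]; norm_num

private theorem gr2 (B a : ℝ) (ha : 0 < a) : ∀ᶠ x : ℝ in atTop, B * x ^ 3 ≤ Real.exp (a * x) := by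
  have h := (isLittleO_pow_exp_pos_mul_atTop 3 ha).bound (show (0 : ℝ) < 1 / (|B| + 1) by positivity)
  filter_upwards [h, eventually_ge_atTop 1] with x hx h1
  have h0 : (0 : ℝ) < x := by linarith
  rw [Real.norm_of_nonneg (by positivity), Real.norm_of_nonneg (Real.exp_pos _).le,
    one_div_mul_eq_div, le_div_iff₀ (by positivity)] at hx
  calc B * x ^ 3 ≤ (|B| + 1) * x ^ 3 := by
        gcongr; linarith [le_abs_self B]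
    _ = x ^ 3 * (|B| + 1) := by ring
    _ ≤ _ := hx

private theorem tlog : Tendsto (fun N : ℕ => Real.log N) atTop atTop :=
  Real.tendsto_log_atTop.comp tendsto_natCast_atTop_atTop

/-- The choice of `P`. -/
private theorem grP (c B : ℝ) (hc : 0 < c) (hc1 : c ≤ 1 / 200) : ∃ N₀ : ℕ, ∀ N : ℕ, N₀ ≤ N → ∃ P : ℕ,
    Real.exp ((Real.log N) ^ (3 / 4 : ℝ)) ≤ P ∧ P ^ 100 ≤ N ∧
    (P : ℝ) ≤ (N : ℝ) ^ c ∧ 1 ≤ N ∧ 3 ≤ Real.log N ∧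
    B * (Real.log N) ^ 3 * (N : ℝ) ^ (c / 8) ≤ Real.sqrt P := by
  have h1 := tlog.eventually (gr1 (c / 2) (by positivity))
  have h2 := tlog.eventually (gr2 (2 * |B|) (c / 8) (by positivity))
  have h3 := tlog.eventually (eventually_ge_atTop (max 3 (8 / c)))
  obtain ⟨N₀, hN₀⟩ := eventually_atTop.1 (h1.and (h2.and (h3.and (eventually_ge_atTop 1))))
  refine ⟨N₀, fun N hN => ?_⟩
  obtain ⟨g1, g2, g3, g4⟩ := hN₀ N hN
  have hL3 : 3 ≤ Real.log N := le_trans (le_max_left _ _) g3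
  have hL4 : 8 / c ≤ Real.log N := le_trans (le_max_right _ _) g3
  have hL0 : 0 < Real.log N := by linarith
  have hNpos : (0 : ℝ) < N := by exact_mod_cast (by omega : 0 < N)
  have hN1 : (1 : ℝ) ≤ N := by exact_mod_cast g4
  set L := Real.log N with hL
  set y := Real.exp (c / 8 * L) with hy
  have hcL : 8 ≤ c * L := by
    rw [div_le_iff₀ hc] at hL4; linarith
  have hy2 : 2 ≤ y := by
    have := Real.add_one_le_exp (c / 8 * L)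
    rw [hy]; linarith
  have hypos : 0 < y := by linarith
  have hNc : (N : ℝ) ^ c = y ^ 8 := by
    rw [Real.rpow_def_of_pos hNpos, hy, ← Real.exp_nat_mul]; congr 1; push_cast; rw [← hL]; ring
  have hNc8 : (N : ℝ) ^ (c / 8) = y := by
    rw [Real.rpow_def_of_pos hNpos, hy]; congr 1; rw [← hL]; ring
  refine ⟨⌊(N : ℝ) ^ c⌋₊, ?_, ?_, Nat.floor_le (by positivity), g4, hL3, ?_⟩
  · have hf : y ^ 8 < ⌊y ^ 8⌋₊ + 1 := Nat.lt_floor_add_one _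
    have hyL : Real.exp (L ^ (3 / 4 : ℝ)) ≤ y ^ 4 := by
      rw [hy, ← Real.exp_nat_mul]
      apply Real.exp_le_exp.2
      push_cast
      linarith
    rw [hNc]
    have h5 : y ^ 4 + 1 ≤ y ^ 8 := by
      have : (16 : ℝ) ≤ y ^ 4 := by
        calc (16 : ℝ) = 2 ^ 4 := by norm_num
          _ ≤ y ^ 4 := by gcongr
      nlinarith
    linarith
  · have hf : ((⌊(N : ℝ) ^ c⌋₊ : ℕ) : ℝ) ≤ (N : ℝ) ^ c := Nat.floor_le (by positivity)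
    have : ((⌊(N : ℝ) ^ c⌋₊ ^ 100 : ℕ) : ℝ) ≤ (N : ℝ) := by
      push_cast
      calc ((⌊(N : ℝ) ^ c⌋₊ : ℕ) : ℝ) ^ 100 ≤ ((N : ℝ) ^ c) ^ 100 := by gcongr
        _ = (N : ℝ) ^ (c * 100) := by rw [← Real.rpow_mul_natCast hNpos.le]; norm_num
        _ ≤ (N : ℝ) ^ (1 : ℝ) := Real.rpow_le_rpow_of_exponent_le hN1 (by linarith)
        _ = N := Real.rpow_one _
    exact_mod_cast this
  · have hf : y ^ 8 < ⌊y ^ 8⌋₊ + 1 := Nat.lt_floor_add_one _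
    rw [hNc8, hNc]
    apply Real.le_sqrt_of_sq_le
    have hB' : |B * L ^ 3| ≤ y / 2 := by
      rw [abs_mul, abs_of_nonneg (show (0 : ℝ) ≤ L ^ 3 by positivity)]
      have h5 : 2 * |B| * L ^ 3 ≤ y := g2
      linarith
    have h1 : (B * L ^ 3) ^ 2 ≤ (y / 2) ^ 2 := by
      rw [← sq_abs]; gcongr
    have h2 : (B * L ^ 3 * y) ^ 2 ≤ (y / 2) ^ 2 * y ^ 2 := by
      rw [mul_pow]; gcongr
    have h3 : (y / 2) ^ 2 * y ^ 2 = y ^ 4 / 4 := by ring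
    have h4 : y ^ 4 ≤ y ^ 8 := pow_le_pow_right₀ (by linarith) (by norm_num)
    have h6 : 2 ≤ y ^ 8 := by
      have := pow_le_pow_right₀ (show (1 : ℝ) ≤ y by linarith) (show 1 ≤ 8 by norm_num)
      rw [pow_one] at this; linarith
    linarith

/-! ### The mean square -/

private theorem V_le (P N : ℕ) (hP : 2 ≤ P) (hPN : P ^ 100 ≤ N) (α : ℝ) :
    |1 - Psi P (N / P ^ 20) α| ≤ 1 := by
  have hP20 : 0 < P ^ 20 := by positivity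
  have h1 : P ^ 80 ≤ N / P ^ 20 := by
    rw [Nat.le_div_iff_mul_le hP20]
    calc P ^ 80 * P ^ 20 = P ^ 100 := by ring
      _ ≤ N := hPN
  have h3 : P ^ 4 ≤ P ^ 80 := Nat.pow_le_pow_right (by omega) (by norm_num)
  have h4 : 2 * P ^ 3 ≤ P ^ 4 := by
    calc 2 * P ^ 3 ≤ P * P ^ 3 := Nat.mul_le_mul_right _ hP
      _ = P ^ 4 := by ring
  have h5 : 2 * P ^ 3 ≤ N / P ^ 20 := le_trans h4 (le_trans h3 h1)
  have h6 : 4 * P ^ 6 ≤ (N / P ^ 20) ^ 2 := by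
    calc 4 * P ^ 6 = (2 * P ^ 3) ^ 2 := by ring
      _ ≤ _ := Nat.pow_le_pow_left h5 2
  have hH : 1 ≤ N / P ^ 20 := le_trans (Nat.one_le_pow _ _ (by omega)) h1
  have h7 := Psi_le P (N / P ^ 20) hH h6 (by omega) α
  have h8 := Psi_nonneg P (N / P ^ 20) α
  rw [abs_le]
  constructor <;> linarith

private theorem meansq (CQ K : ℝ) (hCQ : 1 ≤ CQ) (hK : 0 ≤ K) (N P : ℕ) (w : ℕ → ℝ) (u : ℤ → ℝ) (κ τ ε η c : ℝ)
    (hκ : 0 < κ) (hκ1 : κ ≤ 1) (hτ : 0 < τ) (hτ1 : τ ≤ 1) (hε : 0 < ε) (hη : 0 < η)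
    (hκ2 : 2 * κ * (CQ * K) ≤ ε * η ^ 2 / 8) (hτ2 : 256 * τ ≤ ε * η ^ 2 / 8) (hN : 3 ≤ N) (hL : 3 ≤ Real.log N)
    (hc : 0 < c) (hw : ∀ n, 0 ≤ w n) (hw1 : ∑ n ∈ Icc 1 N, w n ≤ 1) (hu : Maj u N K) (hP : 2 ≤ P)
    (hPN : P ^ 100 ≤ N)
    (hQ : ∑ h ∈ range (8 * N), ∑ h' ∈ range (8 * N), ‖SS P N ((h : ℝ) / (8 * N : ℕ))‖ ^ 2 *
      ‖SS P N ((h' : ℝ) / (8 * N : ℕ))‖ ^ 2 * CU u N (((h : ℝ) - h') / (8 * N : ℕ)) ≤
      CQ * K * (N : ℝ) ^ 2 * ((8 * N : ℕ) : ℝ) ^ 2)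
    (hV : ∀ α : ℝ, ‖SS P N α‖ ^ 2 * |1 - Psi P (N / P ^ 20) α| ≤ (N : ℝ) ^ 2 / Real.sqrt P)
    (hS : ∑ h ∈ range (8 * N), ‖SS P N ((h : ℝ) / (8 * N : ℕ))‖ ^ 2 *
      |1 - Psi P (N / P ^ 20) ((h : ℝ) / (8 * N : ℕ))| ≤ 128 * (N : ℝ) ^ 2 * Real.log N)
    (hg : 528 * (1 + K) / (τ * (ε * η ^ 2)) * (Real.log N) ^ 3 * (N : ℝ) ^ c ≤ Real.sqrt P)
    (hvol : volume {α : ℝ | α ∈ Set.Icc (0 : ℝ) 1 ∧ κ * CU u N α < ‖WW w N α‖} ≤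
      ENNReal.ofReal ((N : ℝ) ^ (-1 + c))) :
    ∑ n ∈ Icc 1 N, w n * ‖((RR P n : ℝ) : ℂ) - RM P N (N / P ^ 20) n‖ ^ 2 ≤ ε * η ^ 2 / 2 * (N : ℝ) ^ 2 := by
  have hNpos : (0 : ℝ) < N := by exact_mod_cast (by omega : 0 < N)
  have hN1 : (1 : ℝ) ≤ N := by exact_mod_cast (by omega : 1 ≤ N)
  set L := Real.log N with hLdef
  have hL0 : 0 < L := by linarith
  have hPpow : 0 < P ^ 20 := by positivity
  have hP20 : P ^ 20 ≤ N := le_trans (Nat.pow_le_pow_right (by omega) (by norm_num)) hPN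
  have hH1 : 1 ≤ N / P ^ 20 := (Nat.one_le_div_iff hPpow).2 hP20
  have hHN : N / P ^ 20 ≤ N := Nat.div_le_self _ _
  set V : ℕ → ℂ := fun h => SS P N ((h : ℝ) / (8 * N : ℕ)) ^ 2 *
    (1 - (Psi P (N / P ^ 20) ((h : ℝ) / (8 * N : ℕ)) : ℂ)) with hVdef
  have hVn : ∀ h : ℕ, ‖V h‖ = ‖SS P N ((h : ℝ) / (8 * N : ℕ))‖ ^ 2 *
      |1 - Psi P (N / P ^ 20) ((h : ℝ) / (8 * N : ℕ))| := by
    intro h
    rw [hVdef]
    simp only
    rw [norm_mul, norm_pow]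
    congr 1
    rw [← Complex.ofReal_one, ← Complex.ofReal_sub, Complex.norm_real, Real.norm_eq_abs]
  have hVle : ∀ h : ℕ, ‖V h‖ ≤ ‖SS P N ((h : ℝ) / (8 * N : ℕ))‖ ^ 2 := by
    intro h
    rw [hVn]
    have := V_le P N hP hPN ((h : ℝ) / (8 * N : ℕ))
    have h0 : 0 ≤ ‖SS P N ((h : ℝ) / (8 * N : ℕ))‖ ^ 2 := by positivity
    calc ‖SS P N ((h : ℝ) / (8 * N : ℕ))‖ ^ 2 * |1 - Psi P (N / P ^ 20) ((h : ℝ) / (8 * N : ℕ))|
        ≤ ‖SS P N ((h : ℝ) / (8 * N : ℕ))‖ ^ 2 * 1 := by gcongr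
      _ = _ := mul_one _
  have hτL : 0 < τ / L ^ 2 := by positivity
  have hτL1 : τ / L ^ 2 ≤ 1 := by
    rw [div_le_one (by positivity)]; nlinarith
  have key := ttu (8 * N) N (by omega) V w u hw (2 * κ) (τ / L ^ 2) ((N : ℝ) ^ 2 / Real.sqrt P) (by positivity)
    hτL.le hu.2.1 (fun h _ => by rw [hVn]; exact hV _) hw1
  have hsp := spec_countU N hN w u K hK hu hw hw1 κ (τ / L ^ 2) ((N : ℝ) ^ (-1 + c)) hκ hκ1 hτL hτL1
    (by positivity) hvol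
  have hlhs : ∑ n ∈ Icc 1 N, w n * ‖((RR P n : ℝ) : ℂ) - RM P N (N / P ^ 20) n‖ ^ 2 =
      ∑ n ∈ Icc 1 N, w n * ‖(1 / ((8 * N : ℕ) : ℂ)) *
        ∑ h ∈ range (8 * N), V h * ee (-(n * ((h : ℝ) / (8 * N : ℕ))))‖ ^ 2 := by
    refine sum_congr rfl fun n hn => ?_
    rw [mem_Icc] at hn
    rw [ident P N (N / P ^ 20) n hH1 hHN hn.1 hn.2]
  rw [hlhs]
  refine le_trans key ?_
  have hquad : ∑ h ∈ range (8 * N), ∑ h' ∈ range (8 * N), ‖V h‖ * ‖V h'‖ * CU u N (((h : ℝ) - h') / (8 * N : ℕ)) ≤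
      CQ * K * (N : ℝ) ^ 2 * ((8 * N : ℕ) : ℝ) ^ 2 := by
    refine le_trans (sum_le_sum fun h _ => sum_le_sum fun h' _ => ?_) hQ
    have h1 := hVle h
    have h2 := hVle h'
    have h3 := hu.2.1 (((h : ℝ) - h') / (8 * N : ℕ))
    gcongr
  have hSS : ∑ h ∈ range (8 * N), ‖V h‖ ≤ 128 * (N : ℝ) ^ 2 * L := by
    refine le_trans (le_of_eq ?_) hS
    exact sum_congr rfl fun h _ => hVn h
  have hSS0 : 0 ≤ ∑ h ∈ range (8 * N), ‖V h‖ := sum_nonneg fun _ _ => norm_nonneg _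
  set S := ∑ h ∈ range (8 * N), ‖V h‖ with hSdef
  set cnt : ℝ := (((range (8 * N)).filter (fun h : ℕ => 2 * κ * CU u N ((h : ℝ) / (8 * N : ℕ)) + τ / L ^ 2 <
    ‖WW w N ((h : ℝ) / (8 * N : ℕ))‖)).card : ℝ) with hcnt
  set Y : ℝ := (N : ℝ) ^ c with hY
  have hY1 : 1 ≤ Y := Real.one_le_rpow hN1 (by positivity)
  have hNY : (N : ℝ) ^ (-1 + c) = Y / N := by
    rw [Real.rpow_add hNpos, Real.rpow_neg_one, hY, mul_comm, ← div_eq_mul_inv]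
  have hcnt2 : cnt ≤ 33 * (1 + K) * Y * L ^ 2 / τ := by
    refine le_trans hsp ?_
    rw [hNY]
    have e1 : 32 * (N : ℝ) * (1 + K) * (Y / N) / (τ / L ^ 2) = 32 * (1 + K) * Y * L ^ 2 / τ := by
      field_simp
    rw [e1]
    have e2 : 1 ≤ (1 + K) * Y * L ^ 2 / τ := by
      rw [le_div_iff₀ hτ]
      have h1 : (1 : ℝ) ≤ L ^ 2 := by nlinarith
      have h2 : (1 : ℝ) ≤ Y * L ^ 2 := by nlinarith
      nlinarith
    have e3 : 33 * (1 + K) * Y * L ^ 2 / τ = 32 * (1 + K) * Y * L ^ 2 / τ + (1 + K) * Y * L ^ 2 / τ := by ring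
    linarith
  have hcnt0 : 0 ≤ cnt := Nat.cast_nonneg _
  have hsP : 0 < Real.sqrt P := Real.sqrt_pos.2 (by exact_mod_cast (by omega : 0 < P))
  set Q := ∑ h ∈ range (8 * N), ∑ h' ∈ range (8 * N), ‖V h‖ * ‖V h'‖ * CU u N (((h : ℝ) - h') / (8 * N : ℕ))
    with hQdef
  have hM0 : (0 : ℝ) < ((8 * N : ℕ) : ℝ) ^ 2 := by positivity
  have t0 : (1 / ((8 * N : ℕ) : ℝ) ^ 2) * (2 * κ * Q) ≤ ε * η ^ 2 / 8 * (N : ℝ) ^ 2 := by
    calc (1 / ((8 * N : ℕ) : ℝ) ^ 2) * (2 * κ * Q)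
        ≤ (1 / ((8 * N : ℕ) : ℝ) ^ 2) * (2 * κ * (CQ * K * (N : ℝ) ^ 2 * ((8 * N : ℕ) : ℝ) ^ 2)) := by gcongr
      _ = 2 * κ * (CQ * K) * (N : ℝ) ^ 2 := by field_simp
      _ ≤ _ := by gcongr
  have t1 : (1 / ((8 * N : ℕ) : ℝ) ^ 2) * (τ / L ^ 2 * S ^ 2) ≤ ε * η ^ 2 / 8 * (N : ℝ) ^ 2 := by
    calc (1 / ((8 * N : ℕ) : ℝ) ^ 2) * (τ / L ^ 2 * S ^ 2)
        ≤ (1 / ((8 * N : ℕ) : ℝ) ^ 2) * (τ / L ^ 2 * (128 * (N : ℝ) ^ 2 * L) ^ 2) := by gcongr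
      _ = 256 * τ * (N : ℝ) ^ 2 := by push_cast; field_simp; ring
      _ ≤ _ := by gcongr
  have t2 : (1 / ((8 * N : ℕ) : ℝ) ^ 2) * ((N : ℝ) ^ 2 / Real.sqrt P * S * cnt) ≤ ε * η ^ 2 / 8 * (N : ℝ) ^ 2 := by
    have t5 : 66 * (1 + K) * L ^ 3 * Y / (τ * Real.sqrt P) ≤ ε * η ^ 2 / 8 := by
      rw [div_le_iff₀ (by positivity)]
      have h2 : 528 * (1 + K) / (τ * (ε * η ^ 2)) * L ^ 3 * Y * (τ * (ε * η ^ 2)) = 528 * (1 + K) * L ^ 3 * Y := by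
        field_simp
      have h3 := mul_le_mul_of_nonneg_right hg (show 0 ≤ τ * (ε * η ^ 2) by positivity)
      rw [h2] at h3
      linarith
    calc (1 / ((8 * N : ℕ) : ℝ) ^ 2) * ((N : ℝ) ^ 2 / Real.sqrt P * S * cnt)
        ≤ (1 / ((8 * N : ℕ) : ℝ) ^ 2) * ((N : ℝ) ^ 2 / Real.sqrt P * (128 * (N : ℝ) ^ 2 * L) *
            (33 * (1 + K) * Y * L ^ 2 / τ)) := by gcongr
      _ = (66 * (1 + K) * L ^ 3 * Y / (τ * Real.sqrt P)) * (N : ℝ) ^ 2 := by push_cast; field_simp; ring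
      _ ≤ _ := by gcongr
  have hpos : 0 ≤ ε * η ^ 2 * (N : ℝ) ^ 2 := by positivity
  calc (1 / ((8 * N : ℕ) : ℝ) ^ 2) * (2 * κ * Q + τ / L ^ 2 * S ^ 2 + (N : ℝ) ^ 2 / Real.sqrt P * S * cnt)
      = (1 / ((8 * N : ℕ) : ℝ) ^ 2) * (2 * κ * Q) + (1 / ((8 * N : ℕ) : ℝ) ^ 2) * (τ / L ^ 2 * S ^ 2) +
        (1 / ((8 * N : ℕ) : ℝ) ^ 2) * ((N : ℝ) ^ 2 / Real.sqrt P * S * cnt) := by ring
    _ ≤ ε * η ^ 2 / 8 * (N : ℝ) ^ 2 + ε * η ^ 2 / 8 * (N : ℝ) ^ 2 + ε * η ^ 2 / 8 * (N : ℝ) ^ 2 := by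
        gcongr
    _ ≤ _ := by linarith

/-- Chebyshev. -/
private theorem cheb (N : ℕ) (w f : ℕ → ℝ) (hw : ∀ n, 0 ≤ w n) (B t : ℝ) (ht : 0 < t)
    (h : ∑ n ∈ Icc 1 N, w n * f n ^ 2 ≤ B * t ^ 2) :
    ∑ n ∈ (Icc 1 N).filter (fun n => t < f n), w n ≤ B := by
  have h1 : (∑ n ∈ (Icc 1 N).filter (fun n => t < f n), w n) * t ^ 2 ≤ ∑ n ∈ Icc 1 N, w n * f n ^ 2 := by
    rw [sum_mul]
    refine le_trans (sum_le_sum (g := fun n => w n * f n ^ 2) fun n hn => ?_)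
      (sum_le_sum_of_subset_of_nonneg (filter_subset _ _) fun n _ _ => mul_nonneg (hw n) (sq_nonneg _))
    rw [mem_filter] at hn
    have := hw n
    have h2 := hn.2
    gcongr
  have ht2 : 0 < t ^ 2 := by positivity
  exact le_of_mul_le_mul_right (le_trans h1 h) ht2

/-! ### The theorem -/

open Classical in
/-- The criterion. -/
theorem mainR (K δ ε : ℝ) (hδ : 0 < δ) (hε : 0 < ε) : ∃ c : ℝ, 0 < c ∧ ∃ N₀ : ℕ, ∀ N : ℕ, N₀ ≤ N →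
    ∀ (w : ℕ → ℝ) (u : ℤ → ℝ), (∀ n, 0 ≤ w n) → ∑ n ∈ Icc 1 N, w n ≤ 1 →
    (∀ m : ℕ, Odd m → Squarefree m → 3 ≤ m →
      ∑ n ∈ (Icc 1 N).filter (fun n => m ∣ n), w n ≤ K / (Real.log m) ^ δ) →
    Maj u N K →
    volume {α : ℝ | α ∈ Set.Icc (0 : ℝ) 1 ∧ c * CU u N α < ‖WW w N α‖} ≤
      ENNReal.ofReal ((N : ℝ) ^ (-1 + c)) →
    ∑ n ∈ (Icc 1 N).filter (fun n : ℕ => Even n ∧ δ * N ≤ n ∧ ε * En.HL n < |(En.r2 n : ℝ) - En.HL n|), w n ≤ ε := by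
  have htw := En.tw_pos
  obtain ⟨CQ, hCQ, hquad⟩ := quad_le
  obtain ⟨ε₁, hε₁⟩ : ∃ ε₁ : ℝ, ε₁ = min ε 1 / 16 := ⟨_, rfl⟩
  have hε₁0 : 0 < ε₁ := by rw [hε₁]; positivity
  obtain ⟨τp, ηp, hτp, hηp, Np, hpoint⟩ := Lf.point ε₁ δ hε₁0 hδ
  obtain ⟨c₁, hc₁, hc₂, hprop⟩ := Lf.propZ ηp hηp
  obtain ⟨R₁, hR₁⟩ := bad_mass_rp K δ τp (ε / 2) hδ hτp (by positivity)
  obtain ⟨Nr, hr2⟩ := r2_conv ε δ hε hδ
  obtain ⟨Nv, hvs⟩ := vsup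
  obtain ⟨Nu, hvu⟩ := vsum
  obtain ⟨Nz, hz⟩ := hprop (max R₁ 2)
  obtain ⟨K', hK'⟩ : ∃ K' : ℝ, K' = max K 0 := ⟨_, rfl⟩
  have hK'0 : 0 ≤ K' := by rw [hK']; exact le_max_right _ _
  obtain ⟨η, hη⟩ : ∃ η : ℝ, η = ε₁ * (2 * En.tw * δ) := ⟨_, rfl⟩
  have hη0 : 0 < η := by rw [hη]; positivity
  obtain ⟨τ, hτ⟩ : ∃ τ : ℝ, τ = min 1 (ε * η ^ 2 / 2048) := ⟨_, rfl⟩
  have hτ0 : 0 < τ := by rw [hτ]; positivity
  have hτ1 : τ ≤ 1 := by rw [hτ]; exact min_le_left _ _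
  have hτ2 : 256 * τ ≤ ε * η ^ 2 / 8 := by
    have : τ ≤ ε * η ^ 2 / 2048 := by rw [hτ]; exact min_le_right _ _
    linarith
  obtain ⟨κ, hκ⟩ : ∃ κ : ℝ, κ = min 1 (ε * η ^ 2 / (16 * CQ * (K' + 1))) := ⟨_, rfl⟩
  have hκ0 : 0 < κ := by rw [hκ]; positivity
  have hκ1 : κ ≤ 1 := by rw [hκ]; exact min_le_left _ _
  have hκ2 : 2 * κ * (CQ * K') ≤ ε * η ^ 2 / 8 := by
    have h1 : κ ≤ ε * η ^ 2 / (16 * CQ * (K' + 1)) := by rw [hκ]; exact min_le_right _ _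
    have h2 : CQ * K' ≤ CQ * (K' + 1) := by nlinarith
    calc 2 * κ * (CQ * K') ≤ 2 * (ε * η ^ 2 / (16 * CQ * (K' + 1))) * (CQ * (K' + 1)) := by gcongr
      _ = ε * η ^ 2 / 8 := by field_simp; norm_num
  obtain ⟨Ng, hg⟩ := grP c₁ (528 * (1 + K') / (τ * (ε * η ^ 2))) hc₁ hc₂
  refine ⟨min κ (c₁ / 8), lt_min hκ0 (by positivity), Np + Nr + Nv + Nu + Nz + Ng + 3,
    fun N hN w u hw hw1 hdiv hu hvol' => ?_⟩
  obtain ⟨P, hP1, hPN, hP2, hN1, hL3, hgP⟩ := hg N (by omega)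
  have hNpos : (0 : ℝ) < N := by exact_mod_cast (by omega : 0 < N)
  have hN1' : (1 : ℝ) ≤ N := by exact_mod_cast hN1
  have hu' : Maj u N K' := ⟨hu.1, hu.2.1, le_trans hu.2.2 (by rw [hK']; exact le_max_left _ _)⟩
  have hvol : volume {α : ℝ | α ∈ Set.Icc (0 : ℝ) 1 ∧ κ * CU u N α < ‖WW w N α‖} ≤
      ENNReal.ofReal ((N : ℝ) ^ (-1 + c₁ / 8)) := by
    refine le_trans (measure_mono ?_) (le_trans hvol' (ENNReal.ofReal_le_ofReal ?_))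
    · intro α hα
      refine ⟨hα.1, lt_of_le_of_lt ?_ hα.2⟩
      exact mul_le_mul_of_nonneg_right (min_le_left _ _) (hu.2.1 α)
    · exact Real.rpow_le_rpow_of_exponent_le hN1' (by linarith [min_le_right κ (c₁ / 8)])
  have hP0 : 2 ≤ P := by
    have h1 : (1 : ℝ) ≤ (Real.log N) ^ (3 / 4 : ℝ) := Real.one_le_rpow (by linarith) (by norm_num)
    have h2 := Real.add_one_le_exp ((Real.log N) ^ (3 / 4 : ℝ))
    have : (2 : ℝ) ≤ P := by linarith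
    exact_mod_cast this
  obtain ⟨e, D, he0, he2, hep, heR, hD0, hDx, hD1, hs1, hs2⟩ := hz N P (by omega) hP1 hP2
  have hms := meansq CQ K' hCQ hK'0 N P w u κ τ ε η (c₁ / 8) hκ0 hκ1 hτ0 hτ1 hε hη0 hκ2 hτ2 (by omega) hL3
    (by positivity) hw hw1 hu' hP0 hPN (hquad P N u K' (by omega) hu')
    (hvs N P (by omega) hP1 hPN) (hvu N P (by omega) hP1 hPN) hgP hvol
  have hch := cheb N w (fun n => ‖((RR P n : ℝ) : ℂ) - RM P N (N / P ^ 20) n‖) hw (ε / 2) (η * N)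
    (by positivity) (le_trans hms (le_of_eq (by ring)))
  have he1 : e = ch1 ∨ (e ∈ prims P ∧ e ≠ ch1) := by
    rcases heR with h | ⟨h1, h2⟩
    · exact Or.inl h
    · refine Or.inr ⟨h1, fun h => ?_⟩
      have : (2 : ℕ) ≤ e.1 := le_trans (le_max_right _ _) h2
      rw [h] at this
      simp [ch1] at this
  -- a good n
  have hgood : ∀ n ∈ Icc 1 N, Even n → δ * N ≤ n →
      (e = ch1 ∨ (e.1 : ℝ) * sgm (Nat.gcd e.1 n) / (e.1.totient : ℝ) ^ 2 ≤ τp) →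
      ‖((RR P n : ℝ) : ℂ) - RM P N (N / P ^ 20) n‖ ≤ η * N → |(En.r2 n : ℝ) - En.HL n| ≤ ε * En.HL n := by
    intro n hn hev hδn hsm hle
    rw [mem_Icc] at hn
    have hpt := hpoint N P (by omega) hP1 hPN e D he2 he1 hD0 hDx hD1 hs1 hs2 n hev hδn hn.2 hsm
    refine hr2 N P n (by omega) hPN hδn hn.2 ?_
    have hsing := En.sing_ge n
    have h1 : η * N ≤ ε₁ * (En.sing n * n) := by
      rw [hη]
      calc ε₁ * (2 * En.tw * δ) * N = ε₁ * (2 * En.tw * (δ * N)) := by ring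
        _ ≤ ε₁ * (En.sing n * n) := by
            have h0 : 0 ≤ En.sing n := le_trans (by positivity) hsing
            have : 2 * En.tw * (δ * N) ≤ En.sing n * n := by gcongr
            gcongr
    have h2 : |RR P n - En.sing n * n| = ‖((RR P n : ℝ) : ℂ) - ((En.sing n * n : ℝ) : ℂ)‖ := by
      rw [← Complex.ofReal_sub, Complex.norm_real, Real.norm_eq_abs]
    rw [h2]
    calc ‖((RR P n : ℝ) : ℂ) - ((En.sing n * n : ℝ) : ℂ)‖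
        ≤ ‖((RR P n : ℝ) : ℂ) - RM P N (N / P ^ 20) n‖ + ‖RM P N (N / P ^ 20) n - ((En.sing n * n : ℝ) : ℂ)‖ :=
          norm_sub_le_norm_sub_add_norm_sub _ _ _
      _ ≤ ε₁ * (En.sing n * n) + ε₁ * (En.sing n * n) := add_le_add (le_trans hle h1) hpt
      _ = (min ε 1 / 8) * (En.sing n * n) := by rw [hε₁]; ring
  rcases he1 with he1 | he1
  · refine le_trans (sum_le_sum_of_subset_of_nonneg ?_ fun n _ _ => hw n) (le_trans hch (by linarith))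
    intro n hn
    rw [mem_filter] at hn ⊢
    refine ⟨hn.1, ?_⟩
    by_contra hcon
    exact absurd (hgood n hn.1 hn.2.1 hn.2.2.1 (Or.inl he1) (not_lt.1 hcon)) (not_le.2 hn.2.2.2)
  · have heR' : R₁ ≤ e.1 := by
      rcases heR with h | ⟨h1, h2⟩
      · exact absurd h he1.2
      · exact le_trans (le_max_left _ _) h2
    have : NeZero e.1 := ⟨he0⟩
    have hbm := hR₁ N w hw hdiv e.1 heR' (not_sixteen_dvd e.1 e.2 hep he2) (not_sq_dvd e.1 e.2 hep he2)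
    have hsub : (Icc 1 N).filter (fun n : ℕ => Even n ∧ δ * N ≤ n ∧ ε * En.HL n < |(En.r2 n : ℝ) - En.HL n|) ⊆
        (Icc 1 N).filter (fun n => η * N < ‖((RR P n : ℝ) : ℂ) - RM P N (N / P ^ 20) n‖) ∪
        (Icc 1 N).filter (fun n => τp < (e.1 : ℝ) * sgm (Nat.gcd e.1 n) / (e.1.totient : ℝ) ^ 2) := by
      intro n hn
      rw [mem_filter] at hn
      rw [mem_union, mem_filter, mem_filter]
      by_contra hcon
      rw [not_or] at hcon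
      have a1 : ¬ (η * N < ‖((RR P n : ℝ) : ℂ) - RM P N (N / P ^ 20) n‖) := fun h => hcon.1 ⟨hn.1, h⟩
      have a2 : ¬ (τp < (e.1 : ℝ) * sgm (Nat.gcd e.1 n) / (e.1.totient : ℝ) ^ 2) := fun h => hcon.2 ⟨hn.1, h⟩
      exact absurd (hgood n hn.1 hn.2.1 hn.2.2.1 (Or.inr (not_lt.1 a2)) (not_lt.1 a1)) (not_le.2 hn.2.2.2)
    calc ∑ n ∈ (Icc 1 N).filter (fun n : ℕ => Even n ∧ δ * N ≤ n ∧ ε * En.HL n < |(En.r2 n : ℝ) - En.HL n|), w n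
        ≤ ∑ n ∈ (Icc 1 N).filter (fun n => η * N < ‖((RR P n : ℝ) : ℂ) - RM P N (N / P ^ 20) n‖) ∪
            (Icc 1 N).filter (fun n => τp < (e.1 : ℝ) * sgm (Nat.gcd e.1 n) / (e.1.totient : ℝ) ^ 2), w n :=
          sum_le_sum_of_subset_of_nonneg hsub fun n _ _ => hw n
      _ ≤ ∑ n ∈ (Icc 1 N).filter (fun n => η * N < ‖((RR P n : ℝ) : ℂ) - RM P N (N / P ^ 20) n‖), w n +
            ∑ n ∈ (Icc 1 N).filter (fun n => τp < (e.1 : ℝ) * sgm (Nat.gcd e.1 n) / (e.1.totient : ℝ) ^ 2), w n := by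
          rw [← sum_union_inter]
          exact le_add_of_nonneg_right (sum_nonneg fun n _ => hw n)
      _ ≤ ε / 2 + ε / 2 := add_le_add hch hbm
      _ = ε := by ring

open Classical in
/-- The criterion, for families with mass at most `K/log m` on the multiples of `m`. -/
theorem main (K δ ε : ℝ) (hδ : 0 < δ) (hε : 0 < ε) : ∃ c : ℝ, 0 < c ∧ ∃ N₀ : ℕ, ∀ N : ℕ, N₀ ≤ N →
    ∀ (w : ℕ → ℝ) (u : ℤ → ℝ), (∀ n, 0 ≤ w n) → ∑ n ∈ Icc 1 N, w n ≤ 1 →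
    (∀ m : ℕ, Odd m → Squarefree m → 3 ≤ m → ∑ n ∈ (Icc 1 N).filter (fun n => m ∣ n), w n ≤ K / Real.log m) →
    Maj u N K →
    volume {α : ℝ | α ∈ Set.Icc (0 : ℝ) 1 ∧ c * CU u N α < ‖WW w N α‖} ≤
      ENNReal.ofReal ((N : ℝ) ^ (-1 + c)) →
    ∑ n ∈ (Icc 1 N).filter (fun n : ℕ => Even n ∧ δ * N ≤ n ∧ ε * En.HL n < |(En.r2 n : ℝ) - En.HL n|), w n ≤ ε := by
  have hmin : 0 < min δ 1 := lt_min hδ one_pos
  obtain ⟨c, hc, N₀, h⟩ := mainR (max K 0) (min δ 1) ε hmin hε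
  refine ⟨c, hc, N₀, fun N hN w u hw hw1 hdiv hu hvol => ?_⟩
  have hu' : Maj u N (max K 0) := ⟨hu.1, hu.2.1, le_trans hu.2.2 (le_max_left _ _)⟩
  refine le_trans (sum_le_sum_of_subset_of_nonneg ?_ fun n _ _ => hw n) (h N hN w u hw hw1 ?_ hu' hvol)
  · intro n hn
    rw [mem_filter] at hn ⊢
    refine ⟨hn.1, hn.2.1, le_trans ?_ hn.2.2.1, hn.2.2.2⟩
    exact mul_le_mul_of_nonneg_right (min_le_left _ _) (Nat.cast_nonneg _)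
  · intro m hm hsq h3
    have hl : 1 ≤ Real.log m := by
      have h4 : (3 : ℝ) ≤ m := by exact_mod_cast h3
      rw [Real.le_log_iff_exp_le (by linarith)]
      linarith [Real.exp_one_lt_three]
    have h5 : (Real.log m) ^ (min δ 1) ≤ Real.log m := by
      calc (Real.log m) ^ (min δ 1) ≤ (Real.log m) ^ (1 : ℝ) := Real.rpow_le_rpow_of_exponent_le hl (min_le_right _ _)
        _ = Real.log m := Real.rpow_one _
    have h6 : 0 < (Real.log m) ^ (min δ 1) := Real.rpow_pos_of_pos (by linarith) _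
    calc ∑ n ∈ (Icc 1 N).filter (fun n => m ∣ n), w n ≤ K / Real.log m := hdiv m hm hsq h3
      _ ≤ max K 0 / Real.log m := by
        apply div_le_div_of_nonneg_right (le_max_left _ _) (by linarith)
      _ ≤ max K 0 / (Real.log m) ^ (min δ 1) := by
        apply div_le_div_of_nonneg_left (le_max_right _ _) h6 h5

end Pool.Agent.Lib.MP_629a14_nt.Lg
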