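import Pool.Agent.Lib.MP_629a14_nt.Lk.Romanoff
import Pool.Agent.Lib.MP_629a14_nt.Lg.Defs

/-! The series of Romanoff in base `g`. -/

set_option autoImplicit false

namespace Pool.Agent.Lib.MP_629a14_nt.Lg

open Finset

private theorem Rom2_sum_le (S : Finset ℕ) (F : Finset ℕ)
    (hF : ∀ d ∈ F, Squarefree d ∧ d.primeFactors ⊆ S) (c : ℝ) (hc : 0 ≤ c) :
    ∑ d ∈ F, c ^ d.primeFactors.card / d ≤ ∏ p ∈ S, (1 + c / p) := by
  classical
  rw [Finset.prod_one_add]
  have hinj : Set.InjOn (fun d : ℕ => d.primeFactors) (F : Set ℕ) := by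
    intro a ha b hb hab
    simp only at hab
    rw [← Nat.prod_primeFactors_of_squarefree (hF a ha).1, ← Nat.prod_primeFactors_of_squarefree (hF b hb).1, hab]
  have h1 : ∑ d ∈ F, c ^ d.primeFactors.card / d =
      ∑ t ∈ F.image (fun d : ℕ => d.primeFactors), ∏ p ∈ t, c / (p : ℝ) := by
    rw [Finset.sum_image hinj]
    refine Finset.sum_congr rfl fun d hd => ?_
    rw [Finset.prod_div_distrib, Finset.prod_const]
    congr 1
    rw [← Nat.cast_prod, Nat.prod_primeFactors_of_squarefree (hF d hd).1]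
  rw [h1]
  refine Finset.sum_le_sum_of_subset_of_nonneg ?_ (fun t _ _ => ?_)
  · intro t ht
    rw [Finset.mem_image] at ht
    obtain ⟨d, hd, rfl⟩ := ht
    rw [Finset.mem_powerset]
    exact (hF d hd).2
  · exact Finset.prod_nonneg fun p _ => div_nonneg hc (Nat.cast_nonneg _)

private theorem Rom2_prod_exp (S : Finset ℕ) (c : ℝ) (hc : 0 ≤ c) :
    ∏ p ∈ S, (1 + c / (p : ℝ)) ≤ Real.exp (c * ∑ p ∈ S, 1 / (p : ℝ)) := by
  rw [Finset.mul_sum, Real.exp_sum]
  refine Finset.prod_le_prod (fun p _ => by positivity) fun p _ => ?_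
  have := Real.add_one_le_exp (c * (1 / (p : ℝ)))
  rw [mul_one_div] at this
  rw [mul_one_div]
  linarith

/-- product over a set of primes in terms of its size -/
private theorem Rom2_prod_card : ∃ C : ℝ, 1 ≤ C ∧ ∀ (c : ℕ) (S : Finset ℕ), (∀ p ∈ S, p.Prime) →
    ∏ p ∈ S, (1 + (c : ℝ) / (p : ℝ)) ≤ Real.exp (c * C) * (1 + Real.log (1 + S.card)) ^ c := by
  obtain ⟨C, hC, h⟩ := Lk.recip_card
  refine ⟨C, hC, fun c S hS => ?_⟩
  refine (Rom2_prod_exp S c (Nat.cast_nonneg _)).trans ?_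
  have h0 : 0 ≤ Real.log (1 + (S.card : ℝ)) := Real.log_nonneg (by linarith [(Nat.cast_nonneg S.card : (0 : ℝ) ≤ _)])
  have h1 : (c : ℝ) * ∑ p ∈ S, 1 / (p : ℝ) ≤ c * C + c * Real.log (1 + Real.log (1 + S.card)) := by
    have := mul_le_mul_of_nonneg_left (h S hS) (Nat.cast_nonneg c : (0 : ℝ) ≤ c)
    linarith
  refine (Real.exp_le_exp.2 h1).trans ?_
  rw [Real.exp_add, Real.exp_nat_mul (Real.log (1 + Real.log (1 + (S.card : ℝ)))) c, Real.exp_log (by linarith)]

private theorem Rom2_ord_pos (g d : ℕ) (hd : 0 < d) (hc : Nat.Coprime g d) :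
    0 < orderOf (g : ZMod d) := by
  rw [orderOf_pos_iff, isOfFinOrder_iff_pow_eq_one]
  refine ⟨d.totient, Nat.totient_pos.2 hd, ?_⟩
  have h1 := ZMod.pow_totient (ZMod.unitOfCoprime g hc)
  have h2 := congrArg Units.val h1
  rw [Units.val_pow_eq_pow_val, ZMod.coe_unitOfCoprime, Units.val_one] at h2
  exact h2

private theorem Rom2_ord_le (g d p : ℕ) (hd : 0 < d) (hc : Nat.Coprime g d) (hp : p ∣ d) :
    orderOf (g : ZMod p) ≤ orderOf (g : ZMod d) := by
  have h0 := Rom2_ord_pos g d hd hc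
  refine Nat.le_of_dvd h0 ?_
  apply orderOf_dvd_of_pow_eq_one
  have h1 := pow_orderOf_eq_one (g : ZMod d)
  have h2 := congrArg (ZMod.castHom hp (ZMod p)) h1
  rw [map_pow, map_one, map_natCast] at h2
  exact h2

private theorem Rom2_ord_card (g : ℕ) (hg : 2 ≤ g) (X x : ℕ) :
    (((Icc 1 X).filter (fun p => p.Prime ∧ Nat.Coprime g p ∧ orderOf (g : ZMod p) ≤ x)).card : ℕ) ≤
      g * (x * (x + 1) / 2) := by
  set S := (Icc 1 X).filter (fun p => p.Prime ∧ Nat.Coprime g p ∧ orderOf (g : ZMod p) ≤ x) with hS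
  have hfin : ∀ p ∈ S, p.Prime ∧ 0 < orderOf (g : ZMod p) ∧ orderOf (g : ZMod p) ≤ x := by
    intro p hp
    rw [hS, mem_filter] at hp
    obtain ⟨_, hp, h2, hx⟩ := hp
    exact ⟨hp, Rom2_ord_pos g p hp.pos h2, hx⟩
  have hdvd : ∏ p ∈ S, p ∣ ∏ k ∈ Icc 1 x, (g ^ k - 1) := by
    refine Finset.prod_primes_dvd _ (fun p hp => (hfin p hp).1.prime) fun p hp => ?_
    obtain ⟨hpp, h0, hx⟩ := hfin p hp
    refine dvd_trans ?_ (Finset.dvd_prod_of_mem _ (mem_Icc.2 ⟨h0, hx⟩))
    rw [← ZMod.natCast_eq_zero_iff, Nat.cast_sub (Nat.one_le_pow _ _ (by omega))]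
    push_cast
    rw [pow_orderOf_eq_one, sub_self]
  have hpos : 0 < ∏ k ∈ Icc 1 x, (g ^ k - 1) := by
    refine Finset.prod_pos fun k hk => ?_
    rw [mem_Icc] at hk
    have : g ^ 1 ≤ g ^ k := Nat.pow_le_pow_right (by omega) hk.1
    rw [pow_one] at this
    omega
  have h1 : 2 ^ S.card ≤ ∏ p ∈ S, p := by
    rw [← Finset.prod_const]
    exact Finset.prod_le_prod' fun p hp => (hfin p hp).1.two_le
  have h2 : ∏ k ∈ Icc 1 x, (g ^ k - 1) ≤ g ^ (∑ k ∈ Icc 1 x, k) := by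
    rw [← Finset.prod_pow_eq_pow_sum]
    exact Finset.prod_le_prod' fun k _ => Nat.sub_le _ _
  have h3 : ∑ k ∈ Icc 1 x, k = x * (x + 1) / 2 := by
    have : ∑ k ∈ Icc 1 x, k = ∑ k ∈ range (x + 1), k := by
      rw [Finset.range_eq_Ico, Finset.sum_eq_sum_Ico_succ_bot (by omega), zero_add]
      rfl
    rw [this, Finset.sum_range_id, Nat.add_sub_cancel, Nat.mul_comm]
  have h5 : g ^ (x * (x + 1) / 2) ≤ 2 ^ (g * (x * (x + 1) / 2)) := by
    rw [pow_mul]
    exact Nat.pow_le_pow_left Nat.lt_two_pow_self.le _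
  have h4 : 2 ^ S.card ≤ 2 ^ (g * (x * (x + 1) / 2)) := by
    refine le_trans ?_ h5
    rw [← h3]
    exact (h1.trans (Nat.le_of_dvd hpos hdvd)).trans h2
  exact (Nat.pow_le_pow_iff_right (by norm_num)).1 h4

/-- the main count -/
private theorem Rom2_D (g : ℕ) (hg : 2 ≤ g) : ∃ C : ℝ, 1 ≤ C ∧ ∀ X x : ℕ, 1 ≤ x →
    ∑ d ∈ ((Icc 1 X).filter (fun d => Odd d ∧ Nat.Coprime g d ∧ Squarefree d)).filter
        (fun d => orderOf (g : ZMod d) ≤ x),
      (16 : ℝ) ^ d.primeFactors.card / d ≤ C * (1 + Real.log x) ^ 16 := by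
  obtain ⟨C, hC, h⟩ := Rom2_prod_card
  have hgr : (2 : ℝ) ≤ g := by exact_mod_cast hg
  refine ⟨Real.exp (16 * C) * (2 + g) ^ 16, ?_, fun X x hx => ?_⟩
  · have : (1 : ℝ) ≤ Real.exp (16 * C) := Real.one_le_exp (by linarith)
    have h3 : (1 : ℝ) ≤ (2 + g) ^ 16 := one_le_pow₀ (by linarith)
    nlinarith
  have h1 := Rom2_sum_le ((Icc 1 X).filter (fun p => p.Prime ∧ Nat.Coprime g p ∧ orderOf (g : ZMod p) ≤ x))
    (((Icc 1 X).filter (fun d => Odd d ∧ Nat.Coprime g d ∧ Squarefree d)).filter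
      (fun d => orderOf (g : ZMod d) ≤ x))
    (fun d hd => ?_) 16 (by norm_num)
  · refine h1.trans ?_
    have h2 := h 16 ((Icc 1 X).filter (fun p => p.Prime ∧ Nat.Coprime g p ∧ orderOf (g : ZMod p) ≤ x))
      (fun p hp => (mem_filter.1 hp).2.1)
    push_cast at h2
    refine h2.trans ?_
    rw [mul_assoc, ← mul_pow]
    refine mul_le_mul_of_nonneg_left ?_ (Real.exp_pos _).le
    have h3 := Rom2_ord_card g hg X x
    set K := ((Icc 1 X).filter (fun p => p.Prime ∧ Nat.Coprime g p ∧ orderOf (g : ZMod p) ≤ x)).card with hK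
    have hxr : (1 : ℝ) ≤ x := by exact_mod_cast hx
    have h4 : (K : ℝ) ≤ g * (x : ℝ) ^ 2 := by
      have h41 : x * (x + 1) / 2 ≤ x ^ 2 := by
        apply Nat.div_le_of_le_mul
        nlinarith
      have : K ≤ g * x ^ 2 := h3.trans (Nat.mul_le_mul_left g h41)
      exact_mod_cast this
    have h5 : 0 ≤ Real.log (1 + (K : ℝ)) := Real.log_nonneg (by linarith [(Nat.cast_nonneg K : (0 : ℝ) ≤ _)])
    have h8 : 0 ≤ Real.log (x : ℝ) := Real.log_nonneg hxr
    have h6 : Real.log (1 + (K : ℝ)) ≤ 1 + g + 2 * Real.log x := by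
      have h7 : Real.log (1 + (K : ℝ)) ≤ Real.log (2 * (g * (x : ℝ) ^ 2)) :=
        Real.log_le_log (by positivity) (by nlinarith)
      rw [Real.log_mul (by norm_num) (by positivity), Real.log_mul (by positivity) (by positivity),
        Real.log_pow] at h7
      push_cast at h7
      have h9 : Real.log (g : ℝ) ≤ g := (Real.log_le_sub_one_of_pos (by linarith)).trans (by linarith)
      linarith [Real.log_two_lt_d9]
    refine pow_le_pow_left₀ (by linarith) ?_ 16
    nlinarith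
  · rw [mem_filter, mem_filter, mem_Icc] at hd
    obtain ⟨⟨⟨hd1, hdX⟩, hodd, hcop, hsq⟩, hx'⟩ := hd
    refine ⟨hsq, fun p hp => ?_⟩
    have hpp := Nat.prime_of_mem_primeFactors hp
    have hpd := Nat.dvd_of_mem_primeFactors hp
    rw [mem_filter, mem_Icc]
    exact ⟨⟨hpp.one_le, (Nat.le_of_dvd (by omega) hpd).trans hdX⟩, hpp, hcop.coprime_dvd_right hpd,
      (Rom2_ord_le g d p (by omega) hcop hpd).trans hx'⟩

/-- Copy the proof of `Lk.romanoff` (file `Lk/Romanoff.lean`, sorry-free) with `g` in place of 2: the primes `p` not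
dividing `g` with order at most `x` divide `∏_{k ≤ x} (g^k - 1) < g^(x²)`, so their number is at most `x² log g/log 2`. -/
theorem romanoff (g : ℕ) (hg : 2 ≤ g) : ∃ C : ℝ, 1 ≤ C ∧ ∀ X : ℕ,
    ∑ d ∈ (Icc 1 X).filter (fun d => Odd d ∧ Nat.Coprime g d ∧ Squarefree d),
      (16 : ℝ) ^ d.primeFactors.card / (d * (orderOf (g : ZMod d) : ℝ)) ≤ C := by
  obtain ⟨C, hC, h⟩ := Rom2_D g hg
  have hsum : Summable (fun j : ℕ => ((j : ℝ) + 1) ^ 16 * (1 / 2 : ℝ) ^ j) := by
    have h1 := summable_pow_mul_geometric_of_norm_lt_one (R := ℝ) 16 (r := 1 / 2) (by norm_num)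
    have h2 := (summable_nat_add_iff 1).2 h1
    have h3 := h2.mul_left 2
    refine h3.congr fun j => ?_
    push_cast
    rw [pow_succ (1 / 2 : ℝ) j]
    ring
  refine ⟨2 * C * (∑' j : ℕ, ((j : ℝ) + 1) ^ 16 * (1 / 2 : ℝ) ^ j) + 1, ?_, fun X => ?_⟩
  · have : 0 ≤ ∑' j : ℕ, ((j : ℝ) + 1) ^ 16 * (1 / 2 : ℝ) ^ j := tsum_nonneg fun j => by positivity
    have h2 : 0 ≤ 2 * C * (∑' j : ℕ, ((j : ℝ) + 1) ^ 16 * (1 / 2 : ℝ) ^ j) := by positivity
    linarith
  set F := (Icc 1 X).filter (fun d => Odd d ∧ Nat.Coprime g d ∧ Squarefree d) with hF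
  obtain ⟨M, hM⟩ : ∃ M : ℕ, ∀ d ∈ F, orderOf (g : ZMod d) ≤ M :=
    ⟨F.sup (fun d => orderOf (g : ZMod d)), fun d hd => Finset.le_sup (f := fun d => orderOf (g : ZMod d)) hd⟩
  have hterm : ∀ d ∈ F, (16 : ℝ) ^ d.primeFactors.card / (d * (orderOf (g : ZMod d) : ℝ)) ≤
      2 * ∑ j ∈ range (M + 1), (if orderOf (g : ZMod d) ≤ 2 ^ j then
        (16 : ℝ) ^ d.primeFactors.card / d * (1 / 2 : ℝ) ^ j else 0) := by
    intro d hd
    have hodd : Odd d := (mem_filter.1 hd).2.1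
    have he := Rom2_ord_pos g d hodd.pos (mem_filter.1 hd).2.2.1
    have heM := hM d hd
    set e := orderOf (g : ZMod d) with hedef
    have hd0 : (0 : ℝ) < d := by exact_mod_cast hodd.pos
    have he0 : (0 : ℝ) < e := by exact_mod_cast he
    have hj1 : e ≤ 2 ^ Nat.clog 2 e := Nat.le_pow_clog (by norm_num) e
    have hjM : Nat.clog 2 e ∈ range (M + 1) := by
      rw [mem_range]
      have : Nat.clog 2 e ≤ M := by
        apply Nat.clog_le_of_le_pow
        exact heM.trans Nat.lt_two_pow_self.le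
      omega
    have hj2 : (1 : ℝ) / e ≤ 2 * (1 / 2 : ℝ) ^ Nat.clog 2 e := by
      have h3 : 2 ^ Nat.clog 2 e ≤ 2 * e := by
        by_cases h1 : e = 1
        · rw [h1]; simp
        · have := Nat.pow_pred_clog_lt_self (b := 2) (by norm_num) (x := e) (by omega)
          have h4 : 0 < Nat.clog 2 e := Nat.clog_pos (by norm_num) (by omega)
          obtain ⟨t, ht⟩ := Nat.exists_eq_succ_of_ne_zero h4.ne'
          rw [ht] at this ⊢
          simp only [Nat.succ_eq_add_one, Nat.pred_eq_sub_one, Nat.add_sub_cancel] at this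
          rw [Nat.succ_eq_add_one, pow_succ]
          omega
      have h5 : ((2 : ℝ)) ^ Nat.clog 2 e ≤ 2 * e := by exact_mod_cast h3
      rw [one_div_pow, ← div_eq_mul_one_div, div_le_div_iff₀ he0 (by positivity)]
      linarith
    have h6 : (0 : ℝ) ≤ (16 : ℝ) ^ d.primeFactors.card / d := by positivity
    calc (16 : ℝ) ^ d.primeFactors.card / (d * (e : ℝ)) = (16 : ℝ) ^ d.primeFactors.card / d * (1 / e) := by
          rw [mul_one_div, div_div]
      _ ≤ (16 : ℝ) ^ d.primeFactors.card / d * (2 * (1 / 2 : ℝ) ^ Nat.clog 2 e) :=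
          mul_le_mul_of_nonneg_left hj2 h6
      _ = 2 * (if e ≤ 2 ^ Nat.clog 2 e then
        (16 : ℝ) ^ d.primeFactors.card / d * (1 / 2 : ℝ) ^ Nat.clog 2 e else 0) := by
          rw [if_pos hj1]; ring
      _ ≤ _ := by
          refine mul_le_mul_of_nonneg_left ?_ (by norm_num)
          refine Finset.single_le_sum (f := fun j => if e ≤ 2 ^ j then
            (16 : ℝ) ^ d.primeFactors.card / d * (1 / 2 : ℝ) ^ j else 0) (fun j _ => ?_) hjM
          split_ifs
          · positivity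
          · exact le_rfl
  refine (Finset.sum_le_sum hterm).trans ?_
  rw [← Finset.mul_sum, Finset.sum_comm]
  have hj : ∀ j ∈ range (M + 1), ∑ d ∈ F, (if orderOf (g : ZMod d) ≤ 2 ^ j then
        (16 : ℝ) ^ d.primeFactors.card / d * (1 / 2 : ℝ) ^ j else 0) ≤
      C * (((j : ℝ) + 1) ^ 16 * (1 / 2 : ℝ) ^ j) := by
    intro j _
    rw [← Finset.sum_filter, ← Finset.sum_mul, ← mul_assoc]
    refine mul_le_mul_of_nonneg_right ?_ (by positivity)
    refine (h X (2 ^ j) Nat.one_le_two_pow).trans ?_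
    refine mul_le_mul_of_nonneg_left ?_ (by linarith)
    have h7 : 0 ≤ Real.log ((2 ^ j : ℕ) : ℝ) := Real.log_natCast_nonneg _
    refine pow_le_pow_left₀ (by linarith) ?_ 16
    push_cast
    rw [Real.log_pow]
    have h8 : (j : ℝ) * Real.log 2 ≤ j * 1 :=
      mul_le_mul_of_nonneg_left (by linarith [Real.log_two_lt_d9]) (Nat.cast_nonneg _)
    linarith
  have h9 := Finset.sum_le_sum hj
  rw [← Finset.mul_sum] at h9
  have h10 : ∑ j ∈ range (M + 1), ((j : ℝ) + 1) ^ 16 * (1 / 2 : ℝ) ^ j ≤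
      ∑' j : ℕ, ((j : ℝ) + 1) ^ 16 * (1 / 2 : ℝ) ^ j :=
    hsum.sum_le_tsum _ (fun j _ => by positivity)
  have h11 := mul_le_mul_of_nonneg_left h10 (by linarith : (0 : ℝ) ≤ C)
  linarith

/-- Copy the proof of `Lk.ratio_sq` (file `Lk/Romanoff.lean`, sorry-free). The primes dividing `2g` contribute a factor
`≤ ∏_{p ∣ 2g} (p/(p-1))²` which depends on `g` only; the primes `p > L` dividing `m ≤ 2 g^(L+1)` number at most
`(L+2) log g/log 2`, so they contribute a bounded factor. -/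
theorem ratio_sq (g : ℕ) (hg : 2 ≤ g) : ∃ C : ℝ, 1 ≤ C ∧ ∀ (L m : ℕ), 2 ≤ L → 1 ≤ m → m ≤ 2 * g ^ (L + 1) →
    ((m : ℝ) / m.totient) ^ 2 ≤
      C * ∑ d ∈ m.divisors.filter
        (fun d => Odd d ∧ Nat.Coprime g d ∧ Squarefree d ∧ ∀ p ∈ d.primeFactors, p ≤ L),
        (4 : ℝ) ^ d.primeFactors.card / d := by
  classical
  set Z := (2 * g).primeFactors with hZ
  refine ⟨4 ^ Z.card * Real.exp (8 * g + 4), ?_, fun L m hL hm hmL => ?_⟩
  · have h1 : (1 : ℝ) ≤ Real.exp (8 * g + 4) := Real.one_le_exp (by positivity)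
    have h2 : (1 : ℝ) ≤ 4 ^ Z.card := one_le_pow₀ (by norm_num)
    nlinarith
  rw [Rob.SigLow.ratio_eq m hm, ← Finset.prod_pow]
  set A := m.primeFactors.filter (fun p => p ∉ Z ∧ p ≤ L) with hA
  set B := m.primeFactors.filter (fun p => p ∉ Z ∧ L < p) with hB
  have hZ2 : 2 ∈ Z := by
    rw [hZ, Nat.mem_primeFactors]
    exact ⟨Nat.prime_two, Dvd.intro _ rfl, by omega⟩
  have hZc : ∀ p : ℕ, p.Prime → p ∉ Z → Nat.Coprime g p := by
    intro p hp hpZ
    rw [Nat.coprime_comm, hp.coprime_iff_not_dvd]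
    intro hd
    apply hpZ
    rw [hZ, Nat.mem_primeFactors]
    exact ⟨hp, hd.mul_left 2, by omega⟩
  -- pointwise bound
  have hodd : ∀ p : ℕ, 3 ≤ p → ((p : ℝ) / (p - 1)) ^ 2 ≤ 1 + 4 / (p : ℝ) := by
    intro p hp
    have h3 : (3 : ℝ) ≤ p := by exact_mod_cast hp
    have h4 : (0 : ℝ) < p := by linarith
    have h5 : (0 : ℝ) < (p : ℝ) - 1 := by linarith
    rw [div_pow, div_le_iff₀ (by positivity)]
    have h6 : (1 + 4 / (p : ℝ)) * ((p : ℝ) - 1) ^ 2 = (((p : ℝ) + 4) * ((p : ℝ) - 1) ^ 2) / p := by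
      field_simp
    rw [h6, le_div_iff₀ h4]
    nlinarith
  have hge1 : ∀ p : ℕ, p.Prime → (1 : ℝ) ≤ ((p : ℝ) / (p - 1)) ^ 2 := by
    intro p hp
    have h3 : (2 : ℝ) ≤ p := by exact_mod_cast hp.two_le
    apply one_le_pow₀
    rw [le_div_iff₀ (by linarith)]
    linarith
  have hfour : ∀ p : ℕ, p.Prime → ((p : ℝ) / (p - 1)) ^ 2 ≤ 4 := by
    intro p hp
    have h3 : (2 : ℝ) ≤ p := by exact_mod_cast hp.two_le
    have h4 : (p : ℝ) / (p - 1) ≤ 2 := by
      rw [div_le_iff₀ (by linarith)]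
      linarith
    have h5 : 0 ≤ (p : ℝ) / (p - 1) := div_nonneg (by linarith) (by linarith)
    nlinarith
  have hsplit : ∏ p ∈ m.primeFactors, ((p : ℝ) / (p - 1)) ^ 2 ≤
      4 ^ Z.card * (∏ p ∈ A, (1 + 4 / (p : ℝ))) * ∏ p ∈ B, (1 + 4 / (p : ℝ)) := by
    have h1 : ∏ p ∈ m.primeFactors, ((p : ℝ) / (p - 1)) ^ 2 ≤
        ∏ p ∈ m.primeFactors, ((if p ∈ Z then 4 else 1) * (if p ∈ A then (1 + 4 / (p : ℝ)) else 1) *
          (if p ∈ B then (1 + 4 / (p : ℝ)) else 1)) := by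
      refine Finset.prod_le_prod (fun p _ => by positivity) fun p hp => ?_
      have hpp := Nat.prime_of_mem_primeFactors hp
      by_cases h2 : p ∈ Z
      · have hA' : p ∉ A := by rw [hA, mem_filter]; tauto
        have hB' : p ∉ B := by rw [hB, mem_filter]; tauto
        rw [if_pos h2, if_neg hA', if_neg hB', mul_one, mul_one]
        exact hfour p hpp
      · have h3 : 3 ≤ p := by
          have := hpp.two_le
          have h4 : p ≠ 2 := fun h => h2 (h ▸ hZ2)
          omega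
        by_cases hpL : p ≤ L
        · have hA' : p ∈ A := by rw [hA, mem_filter]; exact ⟨hp, h2, hpL⟩
          have hB' : p ∉ B := by rw [hB, mem_filter]; omega
          rw [if_neg h2, if_pos hA', if_neg hB', one_mul, mul_one]
          exact hodd p h3
        · have hA' : p ∉ A := by rw [hA, mem_filter]; tauto
          have hB' : p ∈ B := by rw [hB, mem_filter]; exact ⟨hp, h2, by omega⟩
          rw [if_neg h2, if_neg hA', if_pos hB', one_mul, one_mul]
          exact hodd p h3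
    refine h1.trans ?_
    rw [Finset.prod_mul_distrib, Finset.prod_mul_distrib]
    have e1 : ∏ p ∈ m.primeFactors, (if p ∈ A then (1 + 4 / (p : ℝ)) else 1) = ∏ p ∈ A, (1 + 4 / (p : ℝ)) := by
      rw [Finset.prod_ite_mem]
      congr 1
      exact Finset.inter_eq_right.2 (Finset.filter_subset _ _)
    have e2 : ∏ p ∈ m.primeFactors, (if p ∈ B then (1 + 4 / (p : ℝ)) else 1) = ∏ p ∈ B, (1 + 4 / (p : ℝ)) := by
      rw [Finset.prod_ite_mem]
      congr 1
      exact Finset.inter_eq_right.2 (Finset.filter_subset _ _)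
    have e3 : ∏ p ∈ m.primeFactors, (if p ∈ Z then (4 : ℝ) else 1) ≤ 4 ^ Z.card := by
      rw [Finset.prod_ite_mem, Finset.prod_const]
      exact pow_le_pow_right₀ (by norm_num) (Finset.card_le_card Finset.inter_subset_right)
    rw [e1, e2]
    have n1 : (0 : ℝ) ≤ ∏ p ∈ A, (1 + 4 / (p : ℝ)) := Finset.prod_nonneg fun _ _ => by positivity
    have n2 : (0 : ℝ) ≤ ∏ p ∈ B, (1 + 4 / (p : ℝ)) := Finset.prod_nonneg fun _ _ => by positivity
    gcongr
  refine hsplit.trans ?_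
  have hBexp : ∏ p ∈ B, (1 + 4 / (p : ℝ)) ≤ Real.exp (8 * g + 4) := by
    refine (Rom2_prod_exp B 4 (by norm_num)).trans (Real.exp_le_exp.2 ?_)
    have hLr : (2 : ℝ) ≤ L := by exact_mod_cast hL
    have hcard : B.card ≤ g * (L + 1) + 1 := by
      have h1 : 2 ^ B.card ≤ ∏ p ∈ B, p := by
        rw [← Finset.prod_const]
        refine Finset.prod_le_prod' fun p hp => ?_
        rw [hB, mem_filter] at hp
        exact (Nat.prime_of_mem_primeFactors hp.1).two_le
      have h2 : ∏ p ∈ B, p ∣ m := by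
        refine (Finset.prod_dvd_prod_of_subset _ _ _ (Finset.filter_subset _ _)).trans ?_
        exact Nat.prod_primeFactors_dvd m
      have h4 : 2 * g ^ (L + 1) ≤ 2 ^ (g * (L + 1) + 1) := by
        rw [pow_succ (2 : ℕ) (g * (L + 1)), pow_mul, mul_comm]
        exact Nat.mul_le_mul_right _ (Nat.pow_le_pow_left Nat.lt_two_pow_self.le _)
      have h3 : 2 ^ B.card ≤ 2 ^ (g * (L + 1) + 1) :=
        ((h1.trans (Nat.le_of_dvd (by omega) h2)).trans hmL).trans h4
      exact (Nat.pow_le_pow_iff_right (by norm_num)).1 h3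
    have h4 : ∑ p ∈ B, 1 / (p : ℝ) ≤ B.card • (1 / (L : ℝ)) := by
      refine Finset.sum_le_card_nsmul _ _ _ fun p hp => ?_
      rw [hB, mem_filter] at hp
      have : (L : ℝ) ≤ p := by exact_mod_cast hp.2.2.le
      exact one_div_le_one_div_of_le (by linarith) this
    rw [nsmul_eq_mul, mul_one_div] at h4
    have h5 : (B.card : ℝ) / L ≤ 2 * g + 1 := by
      rw [div_le_iff₀ (by linarith)]
      have : (B.card : ℝ) ≤ g * (L + 1) + 1 := by exact_mod_cast hcard
      have hg0 : (0 : ℝ) ≤ g := Nat.cast_nonneg _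
      nlinarith
    linarith
  have hApow : ∏ p ∈ A, (1 + 4 / (p : ℝ)) ≤
      ∑ d ∈ m.divisors.filter
          (fun d => Odd d ∧ Nat.Coprime g d ∧ Squarefree d ∧ ∀ p ∈ d.primeFactors, p ≤ L),
        (4 : ℝ) ^ d.primeFactors.card / d := by
    rw [Finset.prod_one_add]
    have hprime : ∀ t ∈ A.powerset, ∀ p ∈ t, p.Prime := by
      intro t ht p hp
      rw [Finset.mem_powerset] at ht
      have := ht hp
      rw [hA, mem_filter] at this
      exact Nat.prime_of_mem_primeFactors this.1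
    have hinj : Set.InjOn (fun t : Finset ℕ => ∏ p ∈ t, p) (A.powerset : Set (Finset ℕ)) := by
      intro s hs t ht hst
      simp only at hst
      have h1 := Nat.primeFactors_prod (hprime s hs)
      have h2 := Nat.primeFactors_prod (hprime t ht)
      rw [← h1, ← h2, hst]
    have h1 : ∑ t ∈ A.powerset, ∏ p ∈ t, 4 / (p : ℝ) =
        ∑ d ∈ A.powerset.image (fun t : Finset ℕ => ∏ p ∈ t, p), (4 : ℝ) ^ d.primeFactors.card / d := by
      rw [Finset.sum_image hinj]
      refine Finset.sum_congr rfl fun t ht => ?_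
      rw [Nat.primeFactors_prod (hprime t ht), Finset.prod_div_distrib, Finset.prod_const, Nat.cast_prod]
    rw [h1]
    refine Finset.sum_le_sum_of_subset_of_nonneg ?_ (fun _ _ _ => by positivity)
    intro d hd
    rw [Finset.mem_image] at hd
    obtain ⟨t, ht, rfl⟩ := hd
    have hpf := Nat.primeFactors_prod (hprime t ht)
    have htA := Finset.mem_powerset.1 ht
    rw [mem_filter, Nat.mem_divisors]
    refine ⟨⟨?_, by omega⟩, ?_, ?_, ?_, ?_⟩
    · refine (Finset.prod_dvd_prod_of_subset _ _ _ (htA.trans (Finset.filter_subset _ _))).trans ?_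
      exact Nat.prod_primeFactors_dvd m
    · refine Finset.prod_induction _ (fun n : ℕ => Odd n) (fun a b ha hb => ha.mul hb) odd_one fun p hp => ?_
      have h2 := htA hp
      rw [hA, mem_filter] at h2
      exact (hprime t ht p hp).odd_of_ne_two (fun h => h2.2.1 (h ▸ hZ2))
    · refine Nat.Coprime.prod_right fun p hp => ?_
      have h2 := htA hp
      rw [hA, mem_filter] at h2
      exact hZc p (hprime t ht p hp) h2.2.1
    · rw [Nat.squarefree_iff_factorization_le_one (Finset.prod_ne_zero_iff.2 fun p hp => (hprime t ht p hp).ne_zero)]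
      intro q
      rw [Nat.factorization_prod fun p hp => (hprime t ht p hp).ne_zero, Finsupp.finsetSum_apply]
      refine (Finset.sum_le_sum (g := fun p => if p = q then 1 else 0) fun p hp => ?_).trans ?_
      · rw [(hprime t ht p hp).factorization, Finsupp.single_apply]
      · rw [Finset.sum_ite_eq']
        split_ifs <;> omega
    · intro p hp
      rw [hpf] at hp
      have h2 := htA hp
      rw [hA, mem_filter] at h2
      exact h2.2.2
  have n1 : (0 : ℝ) ≤ ∏ p ∈ A, (1 + 4 / (p : ℝ)) := Finset.prod_nonneg fun _ _ => by positivity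
  calc 4 ^ Z.card * (∏ p ∈ A, (1 + 4 / (p : ℝ))) * ∏ p ∈ B, (1 + 4 / (p : ℝ))
      ≤ 4 ^ Z.card * (∏ p ∈ A, (1 + 4 / (p : ℝ))) * Real.exp (8 * g + 4) := by gcongr
    _ = 4 ^ Z.card * Real.exp (8 * g + 4) * (∏ p ∈ A, (1 + 4 / (p : ℝ))) := by ring
    _ ≤ _ := mul_le_mul_of_nonneg_left hApow (by positivity)

end Pool.Agent.Lib.MP_629a14_nt.Lg
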