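import Pool.Agent.Lib.MP_629a14_nt.Lg.Rom
import Pool.Agent.Lib.MP_629a14_nt.Lg.Rom2

/-! Differences of sums of two powers of `g`: small prime factors. -/

set_option autoImplicit false

namespace Pool.Agent.Lib.MP_629a14_nt.Lg

open Finset Pool.Agent.Lib.MP_629a14_nt Pool.Agent.Lib.MP_629a14_nt.Th

private theorem U4Sum_range {g L : ℕ} (hg : 2 ≤ g) {x : Fin 4 → ℕ} (hx : x ∈ Lk.tup 4 L) :
    (v4 g x).natAbs ≤ 2 * g ^ (L + 1) := by
  have hm : ∀ i, (g : ℤ) ^ (x i) ≤ (g : ℤ) ^ (L + 1) ∧ 0 < (g : ℤ) ^ (x i) := by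
    intro i
    unfold Lk.tup at hx
    have h1 := Finset.mem_Icc.1 (Fintype.mem_piFinset.1 hx i)
    have hg1 : (1 : ℤ) ≤ g := by exact_mod_cast (by omega : 1 ≤ g)
    refine ⟨pow_le_pow_right₀ hg1 (by omega), by positivity⟩
  have h0 := hm 0
  have h1 := hm 1
  have h2 := hm 2
  have h3 := hm 3
  have h4 : |v4 g x| ≤ 2 * (g : ℤ) ^ (L + 1) := by
    rw [abs_le]
    unfold v4
    constructor <;> linarith
  have h5 : (((v4 g x).natAbs : ℕ) : ℤ) ≤ ((2 * g ^ (L + 1) : ℕ) : ℤ) := by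
    rw [Int.natCast_natAbs]
    push_cast
    exact h4
  exact_mod_cast h5

/-- for fixed `b, c, d` -/
private theorem U4Sum_count (g L d : ℕ) (hcop : Nat.Coprime g d) (hd0 : 1 ≤ d) (hL : 1 ≤ L) :
    (((Lk.tup 4 L).filter (fun x => (d : ℤ) ∣ v4 g x)).card : ℝ) ≤
      (L : ℝ) ^ 3 * (L / (orderOf (g : ZMod d) : ℝ) + 1) := by
  classical
  have h1 : (Lk.tup 4 L).filter (fun x => (d : ℤ) ∣ v4 g x) ⊆
      (Icc 1 L ×ˢ Icc 1 L ×ˢ Icc 1 L).biUnion (fun q : ℕ × ℕ × ℕ =>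
        ((Icc 1 L).filter (fun a : ℕ => (d : ℤ) ∣ (g : ℤ) ^ a -
          ((g : ℤ) ^ q.2.1 + (g : ℤ) ^ q.2.2 - (g : ℤ) ^ q.1))).image
          (fun a => (![a, q.1, q.2.1, q.2.2] : Fin 4 → ℕ))) := by
    intro x hx
    rw [Finset.mem_filter] at hx
    obtain ⟨hx1, hx2⟩ := hx
    have hm : ∀ i, x i ∈ Icc 1 L := by
      intro i
      unfold Lk.tup at hx1
      exact Fintype.mem_piFinset.1 hx1 i
    rw [Finset.mem_biUnion]
    refine ⟨(x 1, x 2, x 3), ?_, ?_⟩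
    · rw [Finset.mem_product, Finset.mem_product]
      exact ⟨hm 1, hm 2, hm 3⟩
    · rw [Finset.mem_image]
      refine ⟨x 0, ?_, ?_⟩
      · rw [Finset.mem_filter]
        refine ⟨hm 0, ?_⟩
        have h2 : (g : ℤ) ^ (x 0) - ((g : ℤ) ^ (x 2) + (g : ℤ) ^ (x 3) - (g : ℤ) ^ (x 1)) = v4 g x := by
          unfold v4
          ring
        rw [h2]
        exact hx2
      · ext i
        fin_cases i <;> rfl
  have h2 : (((Lk.tup 4 L).filter (fun x => (d : ℤ) ∣ v4 g x)).card : ℝ) ≤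
      ∑ q ∈ (Icc 1 L ×ˢ Icc 1 L ×ˢ Icc 1 L : Finset (ℕ × ℕ × ℕ)), ((L : ℝ) / (orderOf (g : ZMod d) : ℝ) + 1) := by
    have h3 := (Finset.card_le_card h1).trans Finset.card_biUnion_le
    have h4 : (((Lk.tup 4 L).filter (fun x => (d : ℤ) ∣ v4 g x)).card : ℝ) ≤
        ∑ q ∈ (Icc 1 L ×ˢ Icc 1 L ×ˢ Icc 1 L : Finset (ℕ × ℕ × ℕ)),
          ((((Icc 1 L).filter (fun a : ℕ => (d : ℤ) ∣ (g : ℤ) ^ a -
            ((g : ℤ) ^ q.2.1 + (g : ℤ) ^ q.2.2 - (g : ℤ) ^ q.1))).image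
            (fun a => (![a, q.1, q.2.1, q.2.2] : Fin 4 → ℕ))).card : ℝ) := by exact_mod_cast h3
    refine h4.trans (Finset.sum_le_sum fun q _ => ?_)
    refine le_trans ?_ (pow_class g L d ((g : ℤ) ^ q.2.1 + (g : ℤ) ^ q.2.2 - (g : ℤ) ^ q.1) hcop hd0 hL)
    exact_mod_cast Finset.card_image_le
  refine h2.trans (le_of_eq ?_)
  rw [Finset.sum_const, nsmul_eq_mul, Finset.card_product, Finset.card_product, Nat.card_Icc]
  have h5 : L + 1 - 1 = L := by omega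
  rw [h5]
  push_cast
  ring

/-- the ratio for a multiple -/
private theorem U4Sum_ratio {g : ℕ} {h v : ℤ} (hh : h ≠ 0) (hhg : |h| ≤ g) (hv : v ≠ 0) :
    (((h * v).natAbs : ℝ) / ((h * v).natAbs.totient : ℝ)) ^ 2 ≤
      (g : ℝ) ^ 2 * ((v.natAbs : ℝ) / (v.natAbs.totient : ℝ)) ^ 2 := by
  have h1 : (h * v).natAbs = h.natAbs * v.natAbs := Int.natAbs_mul h v
  have h2 : 0 < h.natAbs := Int.natAbs_pos.2 hh
  have h3 : 0 < v.natAbs := Int.natAbs_pos.2 hv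
  have h4 : h.natAbs ≤ g := by
    have : ((h.natAbs : ℕ) : ℤ) ≤ g := by
      rw [Int.natCast_natAbs]
      exact hhg
    exact_mod_cast this
  have h5 : v.natAbs.totient ≤ (h * v).natAbs.totient := by
    rw [h1]
    exact Nat.le_of_dvd (Nat.totient_pos.2 (Nat.mul_pos h2 h3))
      (Nat.totient_dvd_of_dvd (Dvd.intro_left _ rfl))
  have h6 : 0 < v.natAbs.totient := Nat.totient_pos.2 h3
  rw [← mul_pow]
  apply pow_le_pow_left₀ (by positivity)
  have h6' : (0 : ℝ) < (v.natAbs.totient : ℝ) := by exact_mod_cast h6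
  have h5' : (v.natAbs.totient : ℝ) ≤ ((h * v).natAbs.totient : ℝ) := by exact_mod_cast h5
  calc ((h * v).natAbs : ℝ) / ((h * v).natAbs.totient : ℝ)
      ≤ ((h * v).natAbs : ℝ) / (v.natAbs.totient : ℝ) :=
        div_le_div_of_nonneg_left (by positivity) h6' h5'
    _ = (h.natAbs : ℝ) * ((v.natAbs : ℝ) / (v.natAbs.totient : ℝ)) := by
        rw [h1]
        push_cast
        rw [mul_div_assoc]
    _ ≤ (g : ℝ) * ((v.natAbs : ℝ) / (v.natAbs.totient : ℝ)) := by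
        apply mul_le_mul_of_nonneg_right _ (by positivity)
        exact_mod_cast h4

/-- Proof for `h = 1`: copy the proof of `Lk.u4_sum` (file `Lk/PowU.lean`, sorry-free): `ratio_sq g`, exchange of sums; for
fixed `b, c, d` by `pow_class` the proportion of the tuples with `f ∣ g^a + g^b - g^c - g^d` is at most `1/ord f + 1/L`
(`f` coprime to `g`); `romanoff g`, and `Lk.smooth_sum` (the condition that `f` is coprime to `g` only makes the sum
smaller). For general `h`: write the left side as `L^(-4) ∑` over the tuples `a` with `h v4 g a ≠ 0`,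
`|h v4 g a| ≤ N`, and use `|hm|/φ(|hm|) ≤ |h| |m|/φ(|m|)` (as `φ(hm) ≥ φ(h) φ(m) ≥ φ(m)`), `|h| ≤ g`. -/
theorem u4_sum (g : ℕ) (hg : 2 ≤ g) : ∃ C : ℝ, 1 ≤ C ∧ ∀ (L N : ℕ) (h : ℤ), 2 ≤ L → h ≠ 0 → |h| ≤ g →
    ∑ m ∈ (Icc (-(N : ℤ)) N).erase 0, u4 g L h m * ((m.natAbs : ℝ) / (m.natAbs.totient : ℝ)) ^ 2 ≤ C := by
  classical
  obtain ⟨C1, hC1, hratio⟩ := ratio_sq g hg
  obtain ⟨C2, hC2, hrom⟩ := romanoff g hg
  obtain ⟨C3, hC3, hsm⟩ := Lk.smooth_sum
  have hg1 : (1 : ℝ) ≤ (g : ℝ) ^ 2 := one_le_pow₀ (by exact_mod_cast (by omega : 1 ≤ g))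
  refine ⟨(g : ℝ) ^ 2 * C1 * (C2 + C3), ?_, ?_⟩
  · have h1 : 1 ≤ (g : ℝ) ^ 2 * C1 := by nlinarith
    nlinarith
  intro L N h hL hh hhg
  have hL0 : (0 : ℝ) < L := by exact_mod_cast (by omega : 0 < L)
  set D : Finset ℕ := (Icc 1 (2 * g ^ (L + 1))).filter
    (fun d => Odd d ∧ Nat.Coprime g d ∧ Squarefree d ∧ ∀ p ∈ d.primeFactors, p ≤ L) with hD
  set T : ℕ → ℝ := fun d => (((Lk.tup 4 L).filter (fun x => (d : ℤ) ∣ v4 g x)).card : ℝ) / (L : ℝ) ^ 4 with hT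
  -- the left side as a sum over tuples
  have hleft : ∑ m ∈ (Icc (-(N : ℤ)) N).erase 0, u4 g L h m * ((m.natAbs : ℝ) / (m.natAbs.totient : ℝ)) ^ 2 =
      (1 / (L : ℝ) ^ 4) * ∑ x ∈ Lk.tup 4 L, ∑ m ∈ (Icc (-(N : ℤ)) N).erase 0,
        (if h * v4 g x = m then ((m.natAbs : ℝ) / (m.natAbs.totient : ℝ)) ^ 2 else 0) := by
    rw [Finset.sum_comm, Finset.mul_sum]
    refine Finset.sum_congr rfl fun m _ => ?_
    rw [← Finset.sum_filter, Finset.sum_const, nsmul_eq_mul]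
    unfold u4
    ring
  have hpt : ∀ x ∈ Lk.tup 4 L, ∑ m ∈ (Icc (-(N : ℤ)) N).erase 0,
      (if h * v4 g x = m then ((m.natAbs : ℝ) / (m.natAbs.totient : ℝ)) ^ 2 else 0) ≤
      (g : ℝ) ^ 2 * C1 * ∑ d ∈ D, (if (d : ℤ) ∣ v4 g x then (4 : ℝ) ^ d.primeFactors.card / d else 0) := by
    intro x hx
    have hnn : 0 ≤ (g : ℝ) ^ 2 * C1 *
        ∑ d ∈ D, (if (d : ℤ) ∣ v4 g x then (4 : ℝ) ^ d.primeFactors.card / d else 0) := by
      apply mul_nonneg (by positivity)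
      apply Finset.sum_nonneg
      intro d _
      split_ifs <;> positivity
    rw [Finset.sum_ite_eq]
    split_ifs with hmem
    · have hm0 : h * v4 g x ≠ 0 := (Finset.mem_erase.1 hmem).1
      have hv0 : v4 g x ≠ 0 := right_ne_zero_of_mul hm0
      have h6 : 1 ≤ (v4 g x).natAbs := Int.natAbs_pos.2 hv0
      have h5 := U4Sum_range hg hx
      refine (U4Sum_ratio hh hhg hv0).trans ?_
      rw [mul_assoc]
      refine mul_le_mul_of_nonneg_left ?_ (by positivity)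
      refine (hratio L (v4 g x).natAbs hL h6 h5).trans ?_
      refine mul_le_mul_of_nonneg_left ?_ (by linarith)
      rw [← Finset.sum_filter]
      refine Finset.sum_le_sum_of_subset_of_nonneg ?_ (fun d _ _ => by positivity)
      intro d hd
      rw [Finset.mem_filter, Nat.mem_divisors] at hd
      obtain ⟨⟨hd1, -⟩, hd2⟩ := hd
      rw [Finset.mem_filter, hD, Finset.mem_filter, Finset.mem_Icc]
      refine ⟨⟨⟨Nat.pos_of_dvd_of_pos hd1 h6, (Nat.le_of_dvd h6 hd1).trans h5⟩, hd2⟩, ?_⟩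
      exact Int.natCast_dvd.2 hd1
    · exact hnn
  rw [hleft]
  refine (mul_le_mul_of_nonneg_left (Finset.sum_le_sum hpt) (by positivity)).trans ?_
  have hex : (1 / (L : ℝ) ^ 4) * ∑ x ∈ Lk.tup 4 L, (g : ℝ) ^ 2 * C1 *
      ∑ d ∈ D, (if (d : ℤ) ∣ v4 g x then (4 : ℝ) ^ d.primeFactors.card / d else 0) =
      (g : ℝ) ^ 2 * C1 * ∑ d ∈ D, (4 : ℝ) ^ d.primeFactors.card / d * T d := by
    rw [← Finset.mul_sum, Finset.sum_comm, mul_left_comm]
    congr 1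
    rw [Finset.mul_sum]
    refine Finset.sum_congr rfl fun d _ => ?_
    rw [← Finset.sum_filter, Finset.sum_const, nsmul_eq_mul, hT]
    dsimp only
    ring
  rw [hex]
  refine mul_le_mul_of_nonneg_left ?_ (by positivity)
  -- the proportion
  have hprop : ∀ d ∈ D, T d ≤ 1 / (orderOf (g : ZMod d) : ℝ) + 1 / L := by
    intro d hd
    rw [hD, Finset.mem_filter, Finset.mem_Icc] at hd
    have h1 : (((Lk.tup 4 L).filter (fun x => (d : ℤ) ∣ v4 g x)).card : ℝ) ≤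
        (L : ℝ) ^ 3 * (L / (orderOf (g : ZMod d) : ℝ) + 1) :=
      U4Sum_count g L d hd.2.2.1 hd.1.1 (by omega)
    rw [hT]
    dsimp only
    rw [div_le_iff₀ (by positivity)]
    refine h1.trans (le_of_eq ?_)
    field_simp
  have hsum : ∑ d ∈ D, (4 : ℝ) ^ d.primeFactors.card / d * T d ≤
      ∑ d ∈ D, ((16 : ℝ) ^ d.primeFactors.card / (d * (orderOf (g : ZMod d) : ℝ)) +
        (1 / L) * ((4 : ℝ) ^ d.primeFactors.card / d)) := by
    refine Finset.sum_le_sum fun d hd => ?_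
    have h1 := hprop d hd
    have h2 : (4 : ℝ) ^ d.primeFactors.card ≤ 16 ^ d.primeFactors.card :=
      pow_le_pow_left₀ (by norm_num) (by norm_num) _
    calc (4 : ℝ) ^ d.primeFactors.card / d * T d
        ≤ (4 : ℝ) ^ d.primeFactors.card / d * (1 / (orderOf (g : ZMod d) : ℝ) + 1 / L) :=
          mul_le_mul_of_nonneg_left h1 (by positivity)
      _ = (4 : ℝ) ^ d.primeFactors.card / (d * (orderOf (g : ZMod d) : ℝ)) +
          (1 / L) * ((4 : ℝ) ^ d.primeFactors.card / d) := by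
          rw [mul_add, div_mul_div_comm, mul_one]
          ring
      _ ≤ _ := by
          have h3 : (4 : ℝ) ^ d.primeFactors.card / (d * (orderOf (g : ZMod d) : ℝ)) ≤
              (16 : ℝ) ^ d.primeFactors.card / (d * (orderOf (g : ZMod d) : ℝ)) :=
            div_le_div_of_nonneg_right h2 (by positivity)
          linarith
  refine hsum.trans ?_
  rw [Finset.sum_add_distrib, ← Finset.mul_sum]
  have h7 : ∑ d ∈ D, (16 : ℝ) ^ d.primeFactors.card / (d * (orderOf (g : ZMod d) : ℝ)) ≤ C2 := by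
    refine le_trans ?_ (hrom (2 * g ^ (L + 1)))
    refine Finset.sum_le_sum_of_subset_of_nonneg ?_ (fun d _ _ => by positivity)
    intro d hd
    rw [hD, Finset.mem_filter] at hd
    rw [Finset.mem_filter]
    exact ⟨hd.1, hd.2.1, hd.2.2.1, hd.2.2.2.1⟩
  have h8 : ∑ d ∈ D, (4 : ℝ) ^ d.primeFactors.card / d ≤ C3 * L := by
    refine le_trans ?_ (hsm L (2 * g ^ (L + 1)) hL)
    refine Finset.sum_le_sum_of_subset_of_nonneg ?_ (fun d _ _ => by positivity)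
    intro d hd
    rw [hD, Finset.mem_filter] at hd
    rw [Finset.mem_filter]
    exact ⟨hd.1, hd.2.1, hd.2.2.2.1, hd.2.2.2.2⟩
  have h9 : (1 / (L : ℝ)) * ∑ d ∈ D, (4 : ℝ) ^ d.primeFactors.card / d ≤ C3 := by
    rw [one_div, inv_mul_le_iff₀ hL0]
    linarith
  linarith

end Pool.Agent.Lib.MP_629a14_nt.Lg
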