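import Pool.Agent.Lib.MP_629a14_nt.Lg.U4
import Pool.Agent.Lib.MP_629a14_nt.Lg.U4Sum

/-! The majorant `|gg(hα)|⁴`. -/

set_option autoImplicit false

namespace Pool.Agent.Lib.MP_629a14_nt.Lg

open Finset Pool.Agent.Lib.MP_629a14_nt Pool.Agent.Lib.MP_629a14_nt.Th

/-- Copy the proof of `Lk.u4_maj` (file `Lk/PowU.lean`): `log N ≤ 2 L log g` by the assumption, so
`u4(0) (log N)² ≤ 8 (log g)²`. -/
theorem u4_maj (g : ℕ) (hg : 2 ≤ g) : ∃ K : ℝ, 1 ≤ K ∧ ∀ (N L : ℕ) (h : ℤ), 1 ≤ N → 2 ≤ L → h ≠ 0 → |h| ≤ g →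
    2 * |h| * (g : ℤ) ^ L ≤ N → (N : ℝ) ≤ (g : ℝ) ^ (2 * L) → Lk.Maj (u4 g L h) N K := by
  obtain ⟨C, hC, hsum⟩ := u4_sum g hg
  refine ⟨8 * (Real.log g) ^ 2 + C, by nlinarith [sq_nonneg (Real.log g)], ?_⟩
  intro N L h hN hL hh hhg hNL hN2
  have hNpos : (0 : ℝ) < N := by exact_mod_cast hN
  have hlN : 0 ≤ Real.log N := Real.log_nonneg (by exact_mod_cast hN)
  have hL0 : (0 : ℝ) < L := by
    have : 0 < L := by omega
    exact_mod_cast this
  have hlogL : Real.log N ≤ 2 * L * Real.log g := by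
    have h4 := Real.log_le_log hNpos hN2
    rw [Real.log_pow] at h4
    push_cast at h4
    exact h4
  refine ⟨u4_nonneg g L h, fun α => ?_, ?_⟩
  · rw [u4_four g L N hg h (by omega) hNL α]
    positivity
  · have h3 : u4 g L h 0 * (Real.log N) ^ 2 ≤ 8 * (Real.log g) ^ 2 := by
      have h4 := u4_zero g L hg h hh (by omega)
      have h5 : (Real.log N) ^ 2 ≤ (2 * L * Real.log g) ^ 2 := pow_le_pow_left₀ hlN hlogL 2
      calc u4 g L h 0 * (Real.log N) ^ 2 ≤ 2 / (L : ℝ) ^ 2 * (2 * L * Real.log g) ^ 2 :=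
            mul_le_mul h4 h5 (by positivity) (by positivity)
        _ = 8 * (Real.log g) ^ 2 := by
            field_simp
            ring
    have h4 := hsum L N h hL hh hhg
    linarith

end Pool.Agent.Lib.MP_629a14_nt.Lg
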