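import Mathlib

/-! Digits in base `g` which are constant most of the time. -/

set_option autoImplicit false

namespace Pool.Agent.Lib.MP_629a14_nt.Lg

open Finset

/-- The `i`-th digit of `j` in base `g`. -/
def dg (g j i : ℕ) : ℕ := j / g ^ i % g

/-- The positions where the digit changes. -/
def chg (g n j : ℕ) : Finset ℕ := (range n).filter (fun i => dg g j (i + 1) ≠ dg g j i)

private lemma MeasD_inj (g : ℕ) : ∀ n j j' : ℕ, j < g ^ n → j' < g ^ n →
    (∀ i < n, dg g j i = dg g j' i) → j = j' := by
  intro n
  induction n with
  | zero =>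
    intro j j' h h' _
    rw [pow_zero] at h h'
    omega
  | succ n ih =>
    intro j j' h h' hd
    rw [pow_succ'] at h h'
    have h1 : j / g = j' / g := by
      refine ih _ _ (Nat.div_lt_of_lt_mul h) (Nat.div_lt_of_lt_mul h') fun i hi => ?_
      have h2 := hd (i + 1) (by omega)
      simp only [dg, pow_succ'] at h2 ⊢
      rwa [Nat.div_div_eq_div_mul, Nat.div_div_eq_div_mul]
    have h3 : j % g = j' % g := by
      have h4 := hd 0 (by omega)
      simpa only [dg, pow_zero, Nat.div_one] using h4
    rw [← Nat.div_add_mod j g, ← Nat.div_add_mod j' g, h1, h3]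

/-- Compare `BinM_card` in `Th/BinM.lean`. An integer `j < g^(n+1)` is determined by its leading digit `dg g j n`, by
the set `chg g n j` and by the digits `dg g j i`, `i ∈ chg g n j` (going down from the digit `n`). So the number is at most
`g ∑_{i ≤ m} C(n,i) g^i`. -/
theorem chg_card (g n m : ℕ) (hg : 2 ≤ g) :
    ((range (g ^ (n + 1))).filter (fun j => (chg g n j).card ≤ m)).card ≤
      g * ∑ i ∈ range (m + 1), n.choose i * g ^ i := by
  classical
  have h1 : ((range (g ^ (n + 1))).filter (fun j => (chg g n j).card ≤ m)).card ≤
      ((range g) ×ˢ (((range (m + 1)).biUnion fun i => powersetCard i (range n)).sigma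
        (fun S => S.pi (fun _ => range g)))).card := by
    refine Finset.card_le_card_of_injOn
      (fun j => (dg g j n, (⟨chg g n j, fun i _ => dg g j i⟩ :
        Σ S : Finset ℕ, ((i : ℕ) → i ∈ S → ℕ)))) ?_ ?_
    · intro j hj
      rw [mem_coe, mem_filter] at hj
      rw [mem_coe, mem_product]
      refine ⟨mem_range.2 (Nat.mod_lt _ (by omega)), ?_⟩
      rw [mem_sigma]
      refine ⟨?_, ?_⟩
      · rw [mem_biUnion]
        refine ⟨(chg g n j).card, by rw [mem_range]; omega, ?_⟩
        rw [mem_powersetCard]
        exact ⟨filter_subset _ _, rfl⟩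
      · rw [mem_pi]
        intro i _
        exact mem_range.2 (Nat.mod_lt _ (by omega))
    · intro j hj j' hj' hjj
      rw [mem_coe, mem_filter, mem_range] at hj hj'
      simp only [Prod.mk.injEq] at hjj
      obtain ⟨h2, h3⟩ := hjj
      have hS : chg g n j = chg g n j' := congrArg Sigma.fst h3
      have hev : ∀ i, (if h : i ∈ chg g n j then dg g j i else 0) =
          (if h : i ∈ chg g n j' then dg g j' i else 0) := by
        intro i
        exact congrArg (fun p : (Σ S : Finset ℕ, ((i : ℕ) → i ∈ S → ℕ)) =>
          if h : i ∈ p.1 then p.2 i h else 0) h3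
      have hstep : ∀ c, c < n → dg g j (c + 1) = dg g j' (c + 1) → dg g j c = dg g j' c := by
        intro c hc h5
        by_cases h6 : c ∈ chg g n j
        · have h7 : c ∈ chg g n j' := hS ▸ h6
          have h8 := hev c
          rwa [dif_pos h6, dif_pos h7] at h8
        · have h7 : c ∉ chg g n j' := hS ▸ h6
          simp only [chg, mem_filter, mem_range, hc, true_and, not_not] at h6 h7
          rw [← h6, ← h7, h5]
      have hdown : ∀ t c, c + t = n → dg g j c = dg g j' c := by
        intro t
        induction t with
        | zero => intro c hc; rw [add_zero] at hc; rw [hc]; exact h2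
        | succ t ih =>
          intro c hc
          exact hstep c (by omega) (ih (c + 1) (by omega))
      exact MeasD_inj g (n + 1) j j' hj.1 hj'.1 fun i hi => hdown (n - i) i (by omega)
  refine h1.trans ?_
  rw [card_product, card_range, card_sigma]
  refine Nat.mul_le_mul_left _ ?_
  rw [sum_biUnion (fun i _ j _ hij => pairwise_disjoint_powersetCard (range n) hij)]
  refine sum_le_sum fun i _ => ?_
  have h4 : ∀ S ∈ powersetCard i (range n), (S.pi (fun _ => range g)).card = g ^ i := by
    intro S hS
    rw [card_pi, prod_const, card_range, (mem_powersetCard.1 hS).2]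
  rw [sum_congr rfl h4, sum_const, card_powersetCard, card_range, smul_eq_mul]

end Pool.Agent.Lib.MP_629a14_nt.Lg
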