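import Pool.Agent.Lib.MP_629a14_nt.Lg.Defs
import Pool.Agent.Lib.MP_629a14_nt.Lg.MeasD

/-! Two close values force two equal digits. -/

set_option autoImplicit false

namespace Pool.Agent.Lib.MP_629a14_nt.Lg

open Finset Pool.Agent.Lib.MP_629a14_nt

private lemma ma_ee_re (t : ℝ) : (ee t).re = Real.cos (2 * Real.pi * t) := by
  have h : ee t = Complex.exp (((2 * Real.pi * t : ℝ) : ℂ) * Complex.I) := by
    rw [ee]; push_cast; rfl
  rw [h, Complex.exp_ofReal_mul_I_re]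

/-- `‖a - b‖² ≤ 4 (1 - Re (u a)) + 4 (1 - Re (u b))` for points of the unit circle. -/
private lemma ma_norm (u a b : ℂ) (hu : ‖u‖ = 1) (ha : ‖a‖ = 1) (hb : ‖b‖ = 1) :
    1 - (a * (starRingEnd ℂ) b).re ≤ 2 * (1 - (u * a).re) + 2 * (1 - (u * b).re) := by
  have e0 : u.re ^ 2 + u.im ^ 2 = 1 := by
    have := Complex.sq_norm u
    rw [hu, Complex.normSq_apply] at this
    nlinarith
  have e1 : a.re ^ 2 + a.im ^ 2 = 1 := by
    have := Complex.sq_norm a
    rw [ha, Complex.normSq_apply] at this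
    nlinarith
  have e2 : b.re ^ 2 + b.im ^ 2 = 1 := by
    have := Complex.sq_norm b
    rw [hb, Complex.normSq_apply] at this
    nlinarith
  simp only [Complex.mul_re, Complex.conj_re, Complex.conj_im]
  -- with c = conj u : |a - b|² ≤ 2|a - c|² + 2|b - c|²
  have k := sq_nonneg (a.re + b.re - 2 * u.re)
  have k' := sq_nonneg (a.im + b.im + 2 * u.im)
  nlinarith [e0, e1, e2, k, k']

private lemma ma_near (g : ℕ) (hg : 2 ≤ g) (u : ℂ) (hu : ‖u‖ = 1) (y : ℝ)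
    (h1 : 1 - (u * ee y).re < 1 / (g : ℝ) ^ 4) (h2 : 1 - (u * ee (g * y)).re < 1 / (g : ℝ) ^ 4) :
    |((g : ℝ) - 1) * y - round (((g : ℝ) - 1) * y)| * (g : ℝ) ^ 2 < 1 := by
  have hg' : (2 : ℝ) ≤ g := by exact_mod_cast hg
  set θ : ℝ := ((g : ℝ) - 1) * y with hθ
  set t : ℝ := θ - round θ with ht
  have h3 := ma_norm u (ee (g * y)) (ee y) hu (norm_ee _) (norm_ee _)
  have h4 : ee (g * y) * (starRingEnd ℂ) (ee y) = ee θ := by
    rw [conj_ee, ← ee_add]
    congr 1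
    rw [hθ]; ring
  rw [h4, ma_ee_re] at h3
  have h5 : Real.cos (2 * Real.pi * θ) = Real.cos (2 * Real.pi * t) := by
    have : 2 * Real.pi * t = 2 * Real.pi * θ - (round θ : ℤ) * (2 * Real.pi) := by
      rw [ht]; ring
    rw [this, Real.cos_sub_int_mul_two_pi]
  have ht2 : |t| ≤ 1 / 2 := abs_sub_round θ
  have hpi := Real.pi_pos
  have h6 : Real.cos (2 * Real.pi * t) ≤ 1 - 2 / Real.pi ^ 2 * (2 * Real.pi * t) ^ 2 := by
    apply Real.cos_le_one_sub_mul_cos_sq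
    rw [abs_mul, abs_of_pos (by positivity : (0 : ℝ) < 2 * Real.pi)]
    nlinarith
  have h7 : 2 / Real.pi ^ 2 * (2 * Real.pi * t) ^ 2 = 8 * t ^ 2 := by
    field_simp
    ring
  rw [h7] at h6
  rw [h5] at h3
  have h8 : 8 * t ^ 2 < 4 / (g : ℝ) ^ 4 := by
    have : 4 / (g : ℝ) ^ 4 = 2 * (1 / (g : ℝ) ^ 4) + 2 * (1 / (g : ℝ) ^ 4) := by ring
    rw [this]
    linarith
  have hg4 : (0 : ℝ) < (g : ℝ) ^ 4 := by positivity
  rw [lt_div_iff₀ hg4] at h8
  have h9 : (|t| * (g : ℝ) ^ 2) ^ 2 < 1 := by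
    rw [mul_pow, sq_abs]
    nlinarith
  have h10 : 0 ≤ |t| * (g : ℝ) ^ 2 := by positivity
  nlinarith

/-- If `x = n + r` with `0 ≤ r < 1` the floor is `n`. -/
private lemma ma_floor (x : ℝ) (n : ℕ) (h1 : (n : ℝ) ≤ x) (h2 : x < n + 1) : ⌊x⌋₊ = n :=
  (Nat.floor_eq_iff ((Nat.cast_nonneg n).trans h1)).2 ⟨h1, h2⟩

private lemma ma_core (g : ℕ) (hg : 2 ≤ g) (y t : ℝ) (hy : 0 ≤ y) (q h : ℕ) (hh : h + 2 ≤ g)
    (e : ((g : ℝ) - 1) * y = ((g : ℝ) - 1) * q + h + t) (ht : |t| * (g : ℝ) ^ 2 < 1) :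
    ⌊(g : ℝ) * y⌋₊ % g = ⌊(g : ℝ) ^ 2 * y⌋₊ % g := by
  have hg' : (2 : ℝ) ≤ g := by exact_mod_cast hg
  have hh' : (h : ℝ) + 2 ≤ g := by exact_mod_cast hh
  have hg1 : (0 : ℝ) < (g : ℝ) - 1 := by linarith
  have hT : |(g : ℝ) ^ 2 * t| < 1 := by
    rw [abs_mul, abs_of_nonneg (by positivity : (0 : ℝ) ≤ (g : ℝ) ^ 2)]
    linarith
  obtain ⟨hT1, hT2⟩ := abs_lt.1 hT
  have hS : |(g : ℝ) * t| ≤ |(g : ℝ) ^ 2 * t| / 2 := by
    rw [abs_mul, abs_mul, abs_of_nonneg (by positivity : (0 : ℝ) ≤ (g : ℝ) ^ 2),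
      abs_of_nonneg (by positivity : (0 : ℝ) ≤ (g : ℝ))]
    have := abs_nonneg t
    nlinarith [mul_nonneg (mul_nonneg this (by positivity : (0 : ℝ) ≤ (g : ℝ))) (by linarith : (0 : ℝ) ≤ (g : ℝ) - 2)]
  have hS' : |(g : ℝ) * t| < 1 / 2 := by linarith
  obtain ⟨hS1, hS2⟩ := abs_lt.1 hS'
  -- `g y - (g q + h) = (h + g t)/(g-1)`
  have e1 : ((g : ℝ) - 1) * (g * y - (g * q + h)) = h + g * t := by
    have : ((g : ℝ) - 1) * (g * y - (g * q + h)) = g * (((g : ℝ) - 1) * y) - ((g : ℝ) - 1) * (g * q + h) := by ring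
    rw [this, e]; ring
  have e2 : ((g : ℝ) - 1) * ((g : ℝ) ^ 2 * y - (g * (g * q + h) + h)) = h + (g : ℝ) ^ 2 * t := by
    have : ((g : ℝ) - 1) * ((g : ℝ) ^ 2 * y - (g * (g * q + h) + h)) =
        g ^ 2 * (((g : ℝ) - 1) * y) - ((g : ℝ) - 1) * (g * (g * q + h) + h) := by ring
    rw [this, e]; ring
  by_cases hc : 1 ≤ h ∨ 0 ≤ t
  · -- both digits are `h`
    have p1 : 0 ≤ (h : ℝ) + g * t := by
      rcases hc with hc | hc
      · have : (1 : ℝ) ≤ h := by exact_mod_cast hc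
        linarith
      · positivity
    have p2 : 0 ≤ (h : ℝ) + (g : ℝ) ^ 2 * t := by
      rcases hc with hc | hc
      · have : (1 : ℝ) ≤ h := by exact_mod_cast hc
        linarith
      · positivity
    have f1 : ⌊(g : ℝ) * y⌋₊ = g * q + h := by
      apply ma_floor
      · push_cast
        by_contra hcon
        push Not at hcon
        have : ((g : ℝ) - 1) * (g * y - (g * q + h)) < 0 := mul_neg_of_pos_of_neg hg1 (by linarith)
        linarith
      · push_cast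
        by_contra hcon
        push Not at hcon
        have : ((g : ℝ) - 1) * 1 ≤ ((g : ℝ) - 1) * (g * y - (g * q + h)) :=
          mul_le_mul_of_nonneg_left (by linarith) hg1.le
        linarith
    have f2 : ⌊(g : ℝ) ^ 2 * y⌋₊ = g * (g * q + h) + h := by
      apply ma_floor
      · push_cast
        by_contra hcon
        push Not at hcon
        have : ((g : ℝ) - 1) * ((g : ℝ) ^ 2 * y - (g * (g * q + h) + h)) < 0 :=
          mul_neg_of_pos_of_neg hg1 (by linarith)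
        linarith
      · push_cast
        by_contra hcon
        push Not at hcon
        have : ((g : ℝ) - 1) * 1 ≤ ((g : ℝ) - 1) * ((g : ℝ) ^ 2 * y - (g * (g * q + h) + h)) :=
          mul_le_mul_of_nonneg_left (by linarith) hg1.le
        linarith
    rw [f1, f2, Nat.mul_add_mod, Nat.mul_add_mod]
  · -- both digits are `g - 1`
    push Not at hc
    obtain ⟨hc1, hc2⟩ := hc
    have h0 : h = 0 := by omega
    subst h0
    simp only [Nat.cast_zero, add_zero, zero_add] at e e1 e2 hh'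
    have hq : 1 ≤ q := by
      by_contra hcon
      have q0 : q = 0 := by omega
      rw [q0, Nat.cast_zero, mul_zero, zero_add] at e
      have : 0 ≤ ((g : ℝ) - 1) * y := mul_nonneg hg1.le hy
      linarith
    have hgq : 1 ≤ g * q := Nat.mul_pos (by omega) hq
    have hggq : 1 ≤ g * (g * q) := Nat.mul_pos (by omega) hgq
    have hgt : (g : ℝ) * t < 0 := mul_neg_of_pos_of_neg (by linarith) hc2
    have hggt : (g : ℝ) ^ 2 * t < 0 := mul_neg_of_pos_of_neg (by positivity) hc2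
    have f1 : ⌊(g : ℝ) * y⌋₊ = g * q - 1 := by
      apply ma_floor
      · rw [Nat.cast_sub hgq]
        push_cast
        by_contra hcon
        push Not at hcon
        have : ((g : ℝ) - 1) * (g * y - g * q) < ((g : ℝ) - 1) * (-1) :=
          mul_lt_mul_of_pos_left (by linarith) hg1
        linarith
      · rw [Nat.cast_sub hgq]
        push_cast
        by_contra hcon
        push Not at hcon
        have : 0 ≤ ((g : ℝ) - 1) * (g * y - g * q) := mul_nonneg hg1.le (by linarith)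
        linarith
    have f2 : ⌊(g : ℝ) ^ 2 * y⌋₊ = g * (g * q) - 1 := by
      apply ma_floor
      · rw [Nat.cast_sub hggq]
        push_cast
        by_contra hcon
        push Not at hcon
        have : ((g : ℝ) - 1) * ((g : ℝ) ^ 2 * y - g * (g * q)) < ((g : ℝ) - 1) * (-1) :=
          mul_lt_mul_of_pos_left (by linarith) hg1
        linarith
      · rw [Nat.cast_sub hggq]
        push_cast
        by_contra hcon
        push Not at hcon
        have : 0 ≤ ((g : ℝ) - 1) * ((g : ℝ) ^ 2 * y - g * (g * q)) := mul_nonneg hg1.le (by linarith)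
        linarith
    have key : ∀ a : ℕ, 1 ≤ a → (g * a - 1) % g = g - 1 := by
      intro a ha
      obtain ⟨b, rfl⟩ : ∃ b, a = b + 1 := ⟨a - 1, by omega⟩
      have : g * (b + 1) - 1 = g * b + (g - 1) := by
        rw [Nat.mul_add, Nat.mul_one]; omega
      rw [this, Nat.mul_add_mod]
      exact Nat.mod_eq_of_lt (by omega)
    rw [f1, f2, key q hq, key (g * q) hgq]

/-- Proof. Let `z = e(y)`. From the assumptions `|u z - 1|² = 2(1 - Re(uz)) < 2/g⁴` and the same for `z^g = e(gy)`, so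
`|z^(g-1) - 1| = |u z^g - u z| < 2√2/g²`, and as `|e(t) - 1| ≥ 4 ‖t‖` the number `(g-1) y` is within `√2/(2g²) < 1/g²`
of an integer `j`: `y = (j + t)/(g-1)`, `|t| < 1/g²`. Write `j = q (g-1) + h`, `0 ≤ h ≤ g-2`. Then
`gy = gq + h + (h + gt)/(g-1)` and `g²y = g(gq + h) + h + (h + g²t)/(g-1)`; if `h ≥ 1` or `t ≥ 0` then
`⌊gy⌋ = gq + h` and `⌊g²y⌋ ≡ h mod g`: both digits are `h`; if `h = 0` and `t < 0` both digits are `g - 1`. -/
theorem two_digits (g : ℕ) (hg : 2 ≤ g) (u : ℂ) (hu : ‖u‖ = 1) (y : ℝ) (hy : 0 ≤ y)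
    (h1 : 1 - (u * ee y).re < 1 / (g : ℝ) ^ 4) (h2 : 1 - (u * ee (g * y)).re < 1 / (g : ℝ) ^ 4) :
    ⌊(g : ℝ) * y⌋₊ % g = ⌊(g : ℝ) ^ 2 * y⌋₊ % g := by
  have hg' : (2 : ℝ) ≤ g := by exact_mod_cast hg
  have hg1 : (0 : ℝ) < (g : ℝ) - 1 := by linarith
  have hn := ma_near g hg u hu y h1 h2
  set θ : ℝ := ((g : ℝ) - 1) * y with hθ
  have hθ0 : 0 ≤ θ := mul_nonneg hg1.le hy
  have hr : 0 ≤ round θ := by
    rw [round_eq]
    exact Int.floor_nonneg.2 (by linarith)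
  obtain ⟨j, hj⟩ := Int.eq_ofNat_of_zero_le hr
  rw [hj] at hn
  have hm := Nat.mod_lt j (by omega : g - 1 > 0)
  refine ma_core g hg y (θ - j) hy (j / (g - 1)) (j % (g - 1)) (by omega) ?_ ?_
  · have h3 : (j : ℝ) = ((g : ℝ) - 1) * ((j / (g - 1) : ℕ) : ℝ) + ((j % (g - 1) : ℕ) : ℝ) := by
      have h4 := Nat.div_add_mod j (g - 1)
      have h5 : (((g - 1) * (j / (g - 1)) + j % (g - 1) : ℕ) : ℝ) = (j : ℝ) := by rw [h4]
      rw [← h5, Nat.cast_add, Nat.cast_mul, Nat.cast_sub (by omega : 1 ≤ g), Nat.cast_one]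
    linarith
  · simpa using hn

end Pool.Agent.Lib.MP_629a14_nt.Lg
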