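import Pool.Agent.Lib.MP_629a14_nt.Lg.MeasA
import Pool.Agent.Lib.MP_629a14_nt.Th.BinM

/-! Numbers whose multiples by powers of `g` are concentrated. -/

set_option autoImplicit false

namespace Pool.Agent.Lib.MP_629a14_nt.Lg

open Finset Pool.Agent.Lib.MP_629a14_nt Pool.Agent.Lib.MP_629a14_nt.Th MeasureTheory

private lemma MeasB_dg (g : ℕ) (hg : 2 ≤ g) (n i : ℕ) (hi : i ≤ n + 1) (α : ℝ) :
    dg g ⌊(g : ℝ) ^ (n + 1) * α⌋₊ i = ⌊(g : ℝ) ^ (n + 1 - i) * α⌋₊ % g := by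
  unfold dg
  congr 1
  have hg0 : (0 : ℝ) < g := by
    have : 0 < g := by omega
    exact_mod_cast this
  have h2 : (g : ℝ) ^ (n + 1 - i) * α = (g : ℝ) ^ (n + 1) * α / ((g ^ i : ℕ) : ℝ) := by
    push_cast
    rw [eq_div_iff (by positivity)]
    have h3 : (g : ℝ) ^ (n + 1) = (g : ℝ) ^ (n + 1 - i) * (g : ℝ) ^ i := by
      rw [← pow_add]
      congr 1
      omega
    rw [h3]
    ring
  rw [h2, Nat.floor_div_natCast]

private lemma MeasB_main (g : ℕ) (hg : 2 ≤ g) (n : ℕ) (κ : ℝ) (α : ℝ) (h0 : 0 ≤ α) (u : ℂ)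
    (hu : ‖u‖ = 1) (hs : ∑ a ∈ Icc 1 n, (1 - (u * ee ((g : ℝ) ^ a * α)).re) ≤ κ * n) :
    (chg g n ⌊(g : ℝ) ^ (n + 1) * α⌋₊).card ≤ ⌊2 * (g : ℝ) ^ 4 * κ * n⌋₊ + 1 := by
  classical
  have hg0 : (0 : ℝ) < g := by
    have : 0 < g := by omega
    exact_mod_cast this
  have hd : ∀ a : ℕ, 0 ≤ 1 - (u * ee ((g : ℝ) ^ a * α)).re := by
    intro a
    have h1 : (u * ee ((g : ℝ) ^ a * α)).re ≤ ‖u * ee ((g : ℝ) ^ a * α)‖ := Complex.re_le_norm _
    rw [norm_mul, hu, norm_ee, one_mul] at h1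
    linarith
  set S := (Icc 1 n).filter fun a => 1 / (g : ℝ) ^ 4 ≤ 1 - (u * ee ((g : ℝ) ^ a * α)).re with hS
  have hScard : (S.card : ℝ) ≤ (g : ℝ) ^ 4 * (κ * n) := by
    have h1 : ∑ a ∈ S, (1 / (g : ℝ) ^ 4) ≤ ∑ a ∈ S, (1 - (u * ee ((g : ℝ) ^ a * α)).re) :=
      sum_le_sum fun a ha => (mem_filter.1 ha).2
    have h2 : ∑ a ∈ S, (1 - (u * ee ((g : ℝ) ^ a * α)).re) ≤
        ∑ a ∈ Icc 1 n, (1 - (u * ee ((g : ℝ) ^ a * α)).re) :=
      sum_le_sum_of_subset_of_nonneg (filter_subset _ _) fun a _ _ => hd a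
    rw [sum_const, nsmul_eq_mul] at h1
    have h3 : (S.card : ℝ) * (1 / (g : ℝ) ^ 4) ≤ κ * n := by linarith
    rw [mul_one_div, div_le_iff₀ (by positivity)] at h3
    linarith
  have hsub : chg g n ⌊(g : ℝ) ^ (n + 1) * α⌋₊ ⊆
      ({n - 1} : Finset ℕ) ∪ (((range (n - 1)).filter fun c => n - 1 - c ∈ S) ∪
        ((range (n - 1)).filter fun c => n - c ∈ S)) := by
    intro c hc
    rw [chg, mem_filter, mem_range] at hc
    obtain ⟨hc1, hc2⟩ := hc
    by_contra hcon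
    have h0' : c ≠ n - 1 := fun h => hcon (mem_union_left _ (mem_singleton.2 h))
    have hc3 : c < n - 1 := by omega
    have h1 : n - 1 - c ∉ S := fun h =>
      hcon (mem_union_right _ (mem_union_left _ (mem_filter.2 ⟨mem_range.2 hc3, h⟩)))
    have h2 : n - c ∉ S := fun h =>
      hcon (mem_union_right _ (mem_union_right _ (mem_filter.2 ⟨mem_range.2 hc3, h⟩)))
    rw [hS, mem_filter, mem_Icc, not_and, not_le] at h1 h2
    have h3 := h1 ⟨by omega, by omega⟩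
    have h4 := h2 ⟨by omega, by omega⟩
    apply hc2
    have e1 : (g : ℝ) ^ (n - c) * α = g * ((g : ℝ) ^ (n - 1 - c) * α) := by
      have : n - c = (n - 1 - c) + 1 := by omega
      rw [this, pow_succ]
      ring
    have e2 : (g : ℝ) ^ (n + 1 - c) * α = (g : ℝ) ^ 2 * ((g : ℝ) ^ (n - 1 - c) * α) := by
      have : n + 1 - c = (n - 1 - c) + 2 := by omega
      rw [this, pow_add]
      ring
    have e3 : n + 1 - (c + 1) = n - c := by omega
    rw [MeasB_dg g hg n (c + 1) (by omega), MeasB_dg g hg n c (by omega), e3, e1, e2]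
    rw [e1] at h4
    exact two_digits g hg u hu _ (by positivity) h3 h4
  have hc1 : ((range (n - 1)).filter fun c => n - 1 - c ∈ S).card ≤ S.card := by
    refine card_le_card_of_injOn (fun c => n - 1 - c) ?_ ?_
    · intro c hc
      exact (mem_filter.1 (mem_coe.1 hc)).2
    · intro c hc c' hc' h
      rw [mem_coe, mem_filter, mem_range] at hc hc'
      simp only at h
      omega
  have hc2 : ((range (n - 1)).filter fun c => n - c ∈ S).card ≤ S.card := by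
    refine card_le_card_of_injOn (fun c => n - c) ?_ ?_
    · intro c hc
      exact (mem_filter.1 (mem_coe.1 hc)).2
    · intro c hc c' hc' h
      rw [mem_coe, mem_filter, mem_range] at hc hc'
      simp only at h
      omega
  have h1 : (chg g n ⌊(g : ℝ) ^ (n + 1) * α⌋₊).card ≤ 1 + (S.card + S.card) := by
    refine (card_le_card hsub).trans ((card_union_le _ _).trans ?_)
    rw [card_singleton]
    have := (card_union_le ((range (n - 1)).filter fun c => n - 1 - c ∈ S)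
      ((range (n - 1)).filter fun c => n - c ∈ S))
    omega
  have h2 : S.card + S.card ≤ ⌊2 * (g : ℝ) ^ 4 * κ * n⌋₊ := by
    apply Nat.le_floor
    push_cast
    linarith
  omega

/-- Compare `digit_measure` in `Th/BinM.lean`. Let `j = ⌊g^(n+1) α⌋`. The `a ∈ [1,n]` with `1 - Re(u e(g^a α)) ≥ 1/g⁴`
number at most `g⁴ κ n`; for all `a ∈ [1, n-1]` such that neither `a` nor `a + 1` is among them, `two_digits` with
`y = g^a α` gives `dg g j (n-a) = dg g j (n-a-1)` (`⌊g^(a+1) α⌋ = j / g^(n-a)`). So `chg g n j` has at most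
`2 g⁴ κ n + 1` elements and by `chg_card` the set is covered by that many intervals of length `g^(-(n+1))` (and `α = 1`).
Then with `m = ⌊2g⁴κn + 1⌋`: `g ∑_{i ≤ m} C(n,i) g^i ≤ g^(m+1) ∑_{i ≤ m} C(n,i) ≤ g^(m+1) (e n/m)^m` (`choose_sum` in
`Th/BinM.lean`) is at most `g^(cn)` if `κ` is small in terms of `g, c` and `n` is large (`(en/m)^m` increases in
`m ≤ n`; see the end of the proof of `Lk.gg_measure` in `Lk/PowW.lean`). -/
theorem digit_measure (g : ℕ) (hg : 2 ≤ g) (c : ℝ) (hc : 0 < c) : ∃ κ : ℝ, 0 < κ ∧ ∃ n₀ : ℕ, ∀ n : ℕ, n₀ ≤ n →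
    volume {α : ℝ | α ∈ Set.Icc (0 : ℝ) 1 ∧ ∃ u : ℂ, ‖u‖ = 1 ∧
      ∑ a ∈ Icc 1 n, (1 - (u * ee ((g : ℝ) ^ a * α)).re) ≤ κ * n} ≤
      ENNReal.ofReal ((g : ℝ) ^ (-(1 - c) * (n : ℝ))) := by
  classical
  have hg0 : (0 : ℝ) < g := by
    have : 0 < g := by omega
    exact_mod_cast this
  have hg2 : (2 : ℝ) ≤ g := by exact_mod_cast hg
  obtain ⟨δ, hδ⟩ : ∃ δ : ℝ, δ = min (1 / 4) (c ^ 2 / (100 * g)) := ⟨_, rfl⟩
  have hδ0 : 0 < δ := by rw [hδ]; exact lt_min (by norm_num) (by positivity)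
  have hδ1 : δ ≤ 1 / 4 := by rw [hδ]; exact min_le_left _ _
  have hδ2 : δ * (100 * g) ≤ c ^ 2 := by
    rw [← le_div_iff₀ (by positivity), hδ]
    exact min_le_right _ _
  obtain ⟨κ, hκ⟩ : ∃ κ : ℝ, κ = δ / (4 * (g : ℝ) ^ 4) := ⟨_, rfl⟩
  have hκ0 : 0 < κ := by rw [hκ]; positivity
  have hκ2 : 2 * (g : ℝ) ^ 4 * κ = δ / 2 := by
    rw [hκ]
    field_simp
    ring
  refine ⟨κ, hκ0, ⌈2 / δ⌉₊, ?_⟩
  intro n hn
  have hn1 : 2 / δ ≤ n := (Nat.le_ceil _).trans (by exact_mod_cast hn)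
  have hn2 : 1 ≤ δ / 2 * n := by
    rw [div_le_iff₀ hδ0] at hn1
    linarith
  have hn3 : (0 : ℝ) < n := by
    by_contra hcon
    push Not at hcon
    nlinarith
  obtain ⟨m, hm⟩ : ∃ m : ℕ, m = ⌊2 * (g : ℝ) ^ 4 * κ * n⌋₊ + 1 := ⟨_, rfl⟩
  have hm1 : δ / 2 * n ≤ m := by
    rw [hm, hκ2]
    push_cast
    exact (Nat.lt_floor_add_one _).le
  have hm2 : (m : ℝ) ≤ δ * n := by
    rw [hm, hκ2]
    push_cast
    have := Nat.floor_le (show 0 ≤ δ / 2 * n by positivity)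
    linarith
  have hm3 : m ≤ n := by
    have h1 : (m : ℝ) ≤ n := by nlinarith
    exact_mod_cast h1
  have hm0 : 1 ≤ m := by omega
  have hmr : (1 : ℝ) ≤ m := by exact_mod_cast hm0
  set G := (range (g ^ (n + 1))).filter fun j => (chg g n j).card ≤ m with hG
  have hsub : {α : ℝ | α ∈ Set.Icc (0 : ℝ) 1 ∧ ∃ u : ℂ, ‖u‖ = 1 ∧
      ∑ a ∈ Icc 1 n, (1 - (u * ee ((g : ℝ) ^ a * α)).re) ≤ κ * n} ⊆
      {(1 : ℝ)} ∪ ⋃ j ∈ G, Set.Icc ((j : ℝ) / (g : ℝ) ^ (n + 1)) (((j : ℝ) + 1) / (g : ℝ) ^ (n + 1)) := by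
    rintro α ⟨⟨h0, h1⟩, u, hu, hs⟩
    rcases eq_or_lt_of_le h1 with h1' | h1'
    · left; exact h1'
    · right
      simp only [Set.mem_iUnion]
      have hp : (0 : ℝ) < (g : ℝ) ^ (n + 1) := by positivity
      have h3 : ((⌊(g : ℝ) ^ (n + 1) * α⌋₊ : ℕ) : ℝ) ≤ (g : ℝ) ^ (n + 1) * α := Nat.floor_le (by positivity)
      have h4 : (g : ℝ) ^ (n + 1) * α < ((⌊(g : ℝ) ^ (n + 1) * α⌋₊ : ℕ) : ℝ) + 1 := Nat.lt_floor_add_one _
      refine ⟨⌊(g : ℝ) ^ (n + 1) * α⌋₊, ?_, ?_⟩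
      · rw [hG, mem_filter, mem_range]
        refine ⟨?_, ?_⟩
        · have h5 : ((⌊(g : ℝ) ^ (n + 1) * α⌋₊ : ℕ) : ℝ) < ((g ^ (n + 1) : ℕ) : ℝ) := by
            push_cast
            nlinarith
          exact_mod_cast h5
        · rw [hm]
          exact MeasB_main g hg n κ α h0 u hu hs
      · rw [Set.mem_Icc, div_le_iff₀ hp, le_div_iff₀ hp]
        constructor <;> linarith
  refine (measure_mono hsub).trans ((measure_union_le _ _).trans ?_)
  rw [Real.volume_singleton, zero_add]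
  refine (measure_biUnion_finset_le _ _).trans ?_
  have h1 : ∀ j ∈ G, volume (Set.Icc ((j : ℝ) / (g : ℝ) ^ (n + 1)) (((j : ℝ) + 1) / (g : ℝ) ^ (n + 1))) =
      ENNReal.ofReal (1 / (g : ℝ) ^ (n + 1)) := by
    intro j _
    rw [Real.volume_Icc]
    congr 1
    rw [← sub_div, add_sub_cancel_left]
  rw [Finset.sum_congr rfl h1, sum_const, nsmul_eq_mul, ← ENNReal.ofReal_natCast,
    ← ENNReal.ofReal_mul (Nat.cast_nonneg _)]
  apply ENNReal.ofReal_le_ofReal
  -- the number of intervals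
  obtain ⟨B, hB⟩ : ∃ B : ℝ, B = g * (Real.exp 1 * (2 / δ)) := ⟨_, rfl⟩
  have hexp1 : 1 < Real.exp 1 := by
    have := Real.exp_one_gt_d9
    linarith
  have hB1 : 1 ≤ B := by
    rw [hB]
    have h2 : 1 ≤ 2 / δ := by
      rw [le_div_iff₀ hδ0]
      linarith
    have h3 : 1 ≤ Real.exp 1 * (2 / δ) := by nlinarith
    nlinarith
  have hB0 : 0 < B := by linarith
  have h2 : (G.card : ℝ) ≤ g * B ^ m := by
    have h3 := chg_card g n m hg
    rw [← hG] at h3
    have h4 : (G.card : ℝ) ≤ g * ∑ i ∈ range (m + 1), (n.choose i : ℝ) * (g : ℝ) ^ i := by exact_mod_cast h3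
    refine h4.trans (mul_le_mul_of_nonneg_left ?_ hg0.le)
    calc ∑ i ∈ range (m + 1), (n.choose i : ℝ) * (g : ℝ) ^ i
        ≤ ∑ i ∈ range (m + 1), (n.choose i : ℝ) * (g : ℝ) ^ m := by
          refine sum_le_sum fun i hi => ?_
          rw [mem_range] at hi
          exact mul_le_mul_of_nonneg_left (pow_le_pow_right₀ (by linarith) (by omega)) (Nat.cast_nonneg _)
      _ = (∑ i ∈ range (m + 1), (n.choose i : ℝ)) * (g : ℝ) ^ m := by rw [sum_mul]
      _ ≤ (Real.exp 1 * n / m) ^ m * (g : ℝ) ^ m :=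
          mul_le_mul_of_nonneg_right (choose_sum n m hm0 hm3) (by positivity)
      _ ≤ (Real.exp 1 * (2 / δ)) ^ m * (g : ℝ) ^ m := by
          refine mul_le_mul_of_nonneg_right (pow_le_pow_left₀ (by positivity) ?_ m) (by positivity)
          rw [mul_div_assoc]
          refine mul_le_mul_of_nonneg_left ?_ (by linarith)
          rw [div_le_div_iff₀ (by linarith) hδ0]
          linarith
      _ = B ^ m := by
          rw [hB, ← mul_pow]
          ring
  -- the size of `B ^ m`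
  have h5 : B ^ m ≤ Real.exp (c * n * Real.log g) := by
    have h6 : B ^ m = Real.exp (m * Real.log B) := by
      rw [Real.exp_nat_mul, Real.exp_log hB0]
    rw [h6, Real.exp_le_exp]
    have h7 : Real.log B ≤ 2 * Real.sqrt B := by
      have h8 : Real.log B = 2 * Real.log (Real.sqrt B) := by
        rw [Real.log_sqrt hB0.le]; ring
      rw [h8]
      have h9 : Real.log (Real.sqrt B) ≤ Real.sqrt B - 1 :=
        Real.log_le_sub_one_of_pos (Real.sqrt_pos.2 hB0)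
      linarith
    have h8 : 0 ≤ Real.log B := Real.log_nonneg hB1
    have h9 : m * Real.log B ≤ δ * n * (2 * Real.sqrt B) := mul_le_mul hm2 h7 h8 (by positivity)
    refine h9.trans ?_
    -- `(2 δ √B)² = 8 e g δ ≤ (c/2)²`
    have h10 : δ * (2 * Real.sqrt B) ≤ c / 2 := by
      refine le_of_sq_le_sq ?_ (by positivity)
      rw [mul_pow, mul_pow, Real.sq_sqrt hB0.le, hB]
      have h11 : δ ^ 2 * (2 ^ 2 * (g * (Real.exp 1 * (2 / δ)))) = 8 * Real.exp 1 * (δ * g) := by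
        field_simp
        ring
      rw [h11]
      have h12 := Real.exp_one_lt_d9
      have h13 : 0 ≤ δ * g := by positivity
      nlinarith
    have h11 : (1 : ℝ) / 2 ≤ Real.log g := by
      have h12 := Real.log_le_log (by norm_num : (0 : ℝ) < 2) hg2
      have h13 := Real.log_two_gt_d9
      linarith
    calc δ * n * (2 * Real.sqrt B) = δ * (2 * Real.sqrt B) * n := by ring
      _ ≤ c / 2 * n := mul_le_mul_of_nonneg_right h10 hn3.le
      _ = c * n * (1 / 2) := by ring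
      _ ≤ c * n * Real.log g := mul_le_mul_of_nonneg_left h11 (by positivity)
  have h6 : (g : ℝ) ^ (-(1 - c) * (n : ℝ)) = Real.exp (c * n * Real.log g) * (1 / (g : ℝ) ^ n) := by
    rw [show (-(1 - c) * (n : ℝ)) = c * n + -(n : ℝ) by ring, Real.rpow_add hg0, Real.rpow_neg hg0.le,
      Real.rpow_natCast, Real.rpow_def_of_pos hg0, one_div, mul_comm (Real.log g)]
  rw [h6]
  calc (G.card : ℝ) * (1 / (g : ℝ) ^ (n + 1)) ≤ (g * B ^ m) * (1 / (g : ℝ) ^ (n + 1)) :=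
        mul_le_mul_of_nonneg_right h2 (by positivity)
    _ = B ^ m * (1 / (g : ℝ) ^ n) := by
        rw [pow_succ]
        field_simp
    _ ≤ Real.exp (c * n * Real.log g) * (1 / (g : ℝ) ^ n) := mul_le_mul_of_nonneg_right h5 (by positivity)

end Pool.Agent.Lib.MP_629a14_nt.Lg
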