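import Pool.Agent.Lib.MP_629a14_nt.Lk.Romanoff
import Pool.Agent.Lib.MP_629a14_nt.Lg.Defs

/-! Powers of `g` modulo `d`. -/

set_option autoImplicit false

namespace Pool.Agent.Lib.MP_629a14_nt.Lg

open Finset

/-- `g^a ≡ t mod d` determines `a` modulo the order of `g`, for `d` coprime to `g`. Copy the proof of `Lk.pow_class` (file
`Lk/PowU.lean`, sorry-free) with `g` in place of 2. -/
theorem pow_class (g L d : ℕ) (t : ℤ) (hd : Nat.Coprime g d) (hd0 : 1 ≤ d) (hL : 1 ≤ L) :
    (((Icc 1 L).filter (fun a : ℕ => (d : ℤ) ∣ (g : ℤ) ^ a - t)).card : ℝ) ≤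
      L / (orderOf (g : ZMod d) : ℝ) + 1 := by
  have : NeZero d := ⟨by omega⟩
  set u : (ZMod d)ˣ := ZMod.unitOfCoprime g hd with hu
  have huv : (u : ZMod d) = (g : ZMod d) := by
    rw [hu, ZMod.coe_unitOfCoprime]
  have hord : orderOf (g : ZMod d) = orderOf u := by
    rw [← huv, orderOf_units]
  rw [hord]
  set o : ℕ := orderOf u with ho
  have ho0 : 0 < o := orderOf_pos u
  have hcard : ((Icc 1 L).filter (fun a : ℕ => (d : ℤ) ∣ (g : ℤ) ^ a - t)).card ≤ L / o + 1 := by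
    have h1 : ((Icc 1 L).filter (fun a : ℕ => (d : ℤ) ∣ (g : ℤ) ^ a - t)).card ≤
        (range (L / o + 1)).card := by
      apply Finset.card_le_card_of_injOn (fun a => a / o)
      · intro a ha
        simp only [Finset.coe_filter, Finset.mem_Icc, Set.mem_ofPred_eq] at ha
        simp only [Finset.coe_range, Set.mem_Iio]
        have := Nat.div_le_div_right (c := o) ha.1.2
        omega
      · intro a ha b hb hab
        simp only [Finset.coe_filter, Finset.mem_Icc, Set.mem_ofPred_eq] at ha hb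
        have key : ∀ x : ℕ, (d : ℤ) ∣ (g : ℤ) ^ x - t → ((u ^ x : (ZMod d)ˣ) : ZMod d) = (t : ZMod d) := by
          intro x hx
          have h3 : (((g : ℤ) ^ x - t : ℤ) : ZMod d) = 0 := (ZMod.intCast_zmod_eq_zero_iff_dvd _ _).2 hx
          push_cast at h3
          rw [Units.val_pow_eq_pow_val, huv]
          exact sub_eq_zero.1 h3
        have h4 : u ^ a = u ^ b := Units.ext ((key a ha.2).trans (key b hb.2).symm)
        have h5 : a ≡ b [MOD o] := pow_eq_pow_iff_modEq.1 h4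
        have h6 : a % o = b % o := h5
        simp only at hab
        rw [← Nat.div_add_mod a o, ← Nat.div_add_mod b o, hab, h6]
    rwa [card_range] at h1
  have h7 : (((Icc 1 L).filter (fun a : ℕ => (d : ℤ) ∣ (g : ℤ) ^ a - t)).card : ℝ) ≤
      ((L / o + 1 : ℕ) : ℝ) := by exact_mod_cast hcard
  refine h7.trans ?_
  push_cast
  have h8 : ((L / o : ℕ) : ℝ) ≤ (L : ℝ) / o := Nat.cast_div_le
  linarith

/-- `d ≤ g^ord(g mod d)`. See `PowW_ord` in `Lk/PowW.lean`. -/
theorem ord_lower (g d : ℕ) (hg : 2 ≤ g) (hd : Nat.Coprime g d) (hd2 : 2 ≤ d) :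
    Real.log d ≤ (orderOf (g : ZMod d) : ℝ) * Real.log g := by
  have hd0 : (0 : ℝ) < d := by exact_mod_cast (by omega : 0 < d)
  have hpos : 0 < orderOf (g : ZMod d) := by
    have : NeZero d := ⟨by omega⟩
    have h1 : orderOf (g : ZMod d) = orderOf (ZMod.unitOfCoprime g hd) := by
      rw [← orderOf_units, ZMod.coe_unitOfCoprime]
    rw [h1]
    exact orderOf_pos _
  have h1 : (d : ℤ) ∣ (g : ℤ) ^ orderOf (g : ZMod d) - 1 := by
    rw [← ZMod.intCast_zmod_eq_zero_iff_dvd]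
    push_cast
    rw [pow_orderOf_eq_one, sub_self]
  have hg' : (2 : ℤ) ≤ g := by exact_mod_cast hg
  have h2 : (d : ℤ) ≤ (g : ℤ) ^ orderOf (g : ZMod d) - 1 := by
    apply Int.le_of_dvd _ h1
    have : (g : ℤ) ^ 1 ≤ (g : ℤ) ^ orderOf (g : ZMod d) := pow_le_pow_right₀ (by linarith) hpos
    linarith
  have h4 : (d : ℝ) ≤ (g : ℝ) ^ orderOf (g : ZMod d) := by
    have : (d : ℤ) ≤ (g : ℤ) ^ orderOf (g : ZMod d) := by linarith
    exact_mod_cast this
  rw [← Real.log_pow]
  exact Real.log_le_log hd0 h4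

end Pool.Agent.Lib.MP_629a14_nt.Lg
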