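import Pool.Agent.Lib.MP_629a14_nt.Th.Arith

/-! The odd part of the conductor of a real primitive character is squarefree. -/

set_option autoImplicit false

namespace Pool.Agent.Lib.MP_629a14_nt.Lg

open Finset Pool.Agent.Lib.MP_629a14_nt Pool.Agent.Lib.MP_629a14_nt.Th

/-- A real primitive character has conductor not divisible by the square of an odd prime. -/
theorem not_sq_dvd (q : ℕ) [NeZero q] (χ : DirichletCharacter ℂ q) (h : χ.IsPrimitive) (h2 : χ ^ 2 = 1)
    (p : ℕ) (hp : p.Prime) (hodd : Odd p) : ¬ p ^ 2 ∣ q := by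
  rintro ⟨m, hm⟩
  have hm0 : 0 < m := by
    have := NeZero.pos q
    rw [hm] at this
    exact Nat.pos_of_mul_pos_left this
  have hd : p * m ∣ q := ⟨p, by rw [hm]; ring⟩
  have hfac : χ.FactorsThrough (p * m) := by
    rw [DirichletCharacter.factorsThrough_iff_ker_unitsMap hd]
    intro u hu
    rw [MonoidHom.mem_ker] at hu ⊢
    have h3 : ((u : ZMod q).val : ZMod (p * m)) = 1 := by
      have := congrArg (fun z : (ZMod (p * m))ˣ => (z : ZMod (p * m))) hu
      simp only [ZMod.unitsMap_def, Units.coe_map, Units.val_one] at this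
      rw [← this]
      simp [ZMod.castHom_apply, ZMod.natCast_val]
    set a := (u : ZMod q).val with ha
    have hau : (a : ZMod q) = u := ZMod.natCast_zmod_val _
    have h4 : (1 : ℤ) ≡ (a : ℤ) [ZMOD ((p * m : ℕ) : ℤ)] := by
      rw [← ZMod.intCast_eq_intCast_iff]
      push_cast
      exact h3.symm
    obtain ⟨t, ht⟩ := h4.dvd
    have h5 : (u : ZMod q) = 1 + ((p * m : ℕ) : ZMod q) * (t : ZMod q) := by
      rw [← hau]
      have h6 : (a : ℤ) = 1 + ((p * m : ℕ) : ℤ) * t := by linarith
      have h7 := congrArg (fun z : ℤ => (z : ZMod q)) h6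
      push_cast at h7
      push_cast
      exact h7
    have h6 : (u : ZMod q) ^ p = 1 := by
      rw [h5]
      obtain ⟨k, hk⟩ := Polynomial.powAddExpansion (1 : ZMod q) (((p * m : ℕ) : ZMod q) * (t : ZMod q)) p
      rw [hk, one_pow, one_pow, mul_one]
      have h7 : (p : ZMod q) ^ 2 * (m : ZMod q) = 0 := by
        have : ((p ^ 2 * m : ℕ) : ZMod q) = 0 := by
          rw [← hm, ZMod.natCast_self]
        push_cast at this
        exact this
      push_cast
      calc 1 + (p : ZMod q) * ((p : ZMod q) * m * t) + k * ((p : ZMod q) * m * t) ^ 2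
          = 1 + ((p : ZMod q) ^ 2 * m) * (t + k * m * t ^ 2) := by ring
        _ = 1 := by rw [h7, zero_mul, add_zero]
    have h8 : (χ.toUnitHom u) ^ p = 1 := by
      rw [← map_pow]
      have : u ^ p = 1 := Units.ext (by rw [Units.val_pow_eq_pow_val, h6, Units.val_one])
      rw [this, map_one]
    have h9 : (χ.toUnitHom u) ^ 2 = 1 := by
      ext
      rw [Units.val_pow_eq_pow_val, MulChar.coe_toUnitHom, Units.val_one]
      have h11 := congrArg (fun ψ : DirichletCharacter ℂ q => ψ (u : ZMod q)) h2
      simp only [MulChar.pow_apply' _ two_ne_zero, MulChar.one_apply u.isUnit] at h11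
      exact h11
    obtain ⟨j, hj⟩ := hodd
    rw [hj, pow_add, pow_mul, h9, one_pow, one_mul, pow_one] at h8
    exact h8
  have h7 := DirichletCharacter.conductor_dvd_of_mem_conductorSet (χ := χ) (d := p * m) hfac
  have h8 : χ.conductor = q := h
  rw [h8, hm] at h7
  have h9 := Nat.le_of_dvd (Nat.mul_pos hp.pos hm0) h7
  have h10 := hp.two_le
  have h11 : p ^ 2 * m = p * (p * m) := by ring
  rw [h11] at h9
  have h12 : 0 < p * m := Nat.mul_pos hp.pos hm0
  nlinarith

end Pool.Agent.Lib.MP_629a14_nt.Lg
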