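import Pool.Agent.Lib.MP_629a14_nt.Lg.Rom

/-! The distribution of `s + ∑ c_i g^(a_i)`. -/

set_option autoImplicit false

namespace Pool.Agent.Lib.MP_629a14_nt.Lg

open Finset Pool.Agent.Lib.MP_629a14_nt Pool.Agent.Lib.MP_629a14_nt.Th MeasureTheory

private theorem W_sum {E : Type*} [AddCommGroup E] [Module ℝ E] (g k L N : ℕ) (s : ℤ) (c : Fin k → ℤ)
    (h : ∀ a ∈ Lk.tup k L, 1 ≤ xx g s c a ∧ xx g s c a ≤ N) (F : ℕ → E) :
    ∑ n ∈ Icc 1 N, lw g k L s c n • F n = ((L : ℝ) ^ k)⁻¹ • ∑ a ∈ Lk.tup k L, F (xx g s c a).toNat := by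
  classical
  have h1 : ∀ n : ℕ, lw g k L s c n • F n =
      ((L : ℝ) ^ k)⁻¹ • ∑ a ∈ Lk.tup k L, (if xx g s c a = n then F n else 0) := by
    intro n
    unfold lw
    rw [div_eq_inv_mul, mul_smul]
    congr 1
    rw [← sum_filter, sum_const, Nat.cast_smul_eq_nsmul]
  rw [sum_congr rfl fun n _ => h1 n, ← smul_sum, sum_comm]
  congr 1
  refine sum_congr rfl fun a ha => ?_
  obtain ⟨h2, h3⟩ := h a ha
  have h4 : ∀ n : ℕ, (xx g s c a = (n : ℤ)) ↔ (xx g s c a).toNat = n := by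
    intro n
    omega
  simp only [h4]
  rw [sum_ite_eq, if_pos]
  rw [mem_Icc]
  omega

/-- Counting over fibres. Copy `Lk.lw_sum` (file `Lk/PowW.lean`, sorry-free). -/
theorem lw_sum (g k L N : ℕ) (s : ℤ) (c : Fin k → ℤ) (h : ∀ a ∈ Lk.tup k L, 1 ≤ xx g s c a ∧ xx g s c a ≤ N)
    (Q : ℕ → Prop) [DecidablePred Q] :
    ∑ n ∈ (Icc 1 N).filter Q, lw g k L s c n =
      (((Lk.tup k L).filter (fun a => Q (xx g s c a).toNat)).card : ℝ) / (L : ℝ) ^ k := by
  have h1 := W_sum (E := ℝ) g k L N s c h (fun n => if Q n then 1 else 0)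
  simp only [smul_eq_mul, mul_ite, mul_one, mul_zero] at h1
  rw [sum_filter, h1, card_filter, div_eq_inv_mul]
  push_cast
  rfl

private theorem W_ee_sum {κ : Type} (t : Finset κ) (f : κ → ℝ) :
    ee (∑ i ∈ t, f i) = ∏ i ∈ t, ee (f i) := by
  classical
  induction t using Finset.induction_on with
  | empty => simp [ee_zero]
  | insert i t hi ih => rw [sum_insert hi, prod_insert hi, ee_add, ih]

/-- Copy `Lk.lw_hat` (file `Lk/PowW.lean`, sorry-free). -/
theorem lw_hat (g k L N : ℕ) (s : ℤ) (c : Fin k → ℤ) (h : ∀ a ∈ Lk.tup k L, 1 ≤ xx g s c a ∧ xx g s c a ≤ N)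
    (α : ℝ) : ‖WW (lw g k L s c) N α‖ = ∏ i, ‖gg g L (c i * α)‖ := by
  have h1 := W_sum (E := ℂ) g k L N s c h (fun n => ee (n * α))
  have h2 : WW (lw g k L s c) N α = ∑ n ∈ Icc 1 N, lw g k L s c n • ee (n * α) := by
    unfold WW
    exact sum_congr rfl fun n _ => by rw [Complex.real_smul]
  have h3 : ∑ a ∈ Lk.tup k L, ee (((xx g s c a).toNat : ℝ) * α) =
      ee (s * α) * ∏ i : Fin k, ∑ b ∈ Icc 1 L, ee ((g : ℝ) ^ b * (c i * α)) := by
    unfold Lk.tup
    rw [prod_univ_sum (fun _ : Fin k => Icc 1 L) (fun i b => ee ((g : ℝ) ^ b * (c i * α))), mul_sum]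
    refine sum_congr rfl fun a ha => ?_
    obtain ⟨h4, _⟩ := h a ha
    have h5 : ((xx g s c a).toNat : ℝ) = ((xx g s c a : ℤ) : ℝ) := by
      have : (((xx g s c a).toNat : ℤ)) = xx g s c a := Int.toNat_of_nonneg (by omega)
      exact_mod_cast this
    rw [h5, ← W_ee_sum, ← ee_add]
    congr 1
    unfold xx
    push_cast
    rw [add_mul, sum_mul]
    congr 1
    exact sum_congr rfl fun i _ => by ring
  rw [h2, h1, h3, norm_smul, norm_mul, norm_ee, one_mul, norm_prod, norm_inv, norm_pow]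
  unfold gg
  simp_rw [norm_mul]
  rw [prod_mul_distrib, prod_const]
  simp

/-- Counting tuples. -/
private theorem W_count (g j L m : ℕ) (s : ℤ) (c : Fin (j + 1) → ℤ) (hgm : Nat.Coprime g m) (hm0 : 1 ≤ m)
    (hc : IsCoprime (c 0) (m : ℤ)) (hL : 1 ≤ L) :
    (((Lk.tup (j + 1) L).filter (fun a => (m : ℤ) ∣ xx g s c a)).card : ℝ) ≤
      (L : ℝ) ^ j * (L / (orderOf (g : ZMod m) : ℝ) + 1) := by
  classical
  obtain ⟨u, w, huw⟩ := hc
  have hmaps : ∀ a ∈ (Lk.tup (j + 1) L).filter (fun a => (m : ℤ) ∣ xx g s c a), Fin.tail a ∈ Lk.tup j L := by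
    intro a ha
    rw [mem_filter] at ha
    unfold Lk.tup at ha ⊢
    rw [Fintype.mem_piFinset] at ha ⊢
    intro i
    exact ha.1 i.succ
  have h1 := card_eq_sum_card_fiberwise (f := fun a : Fin (j + 1) → ℕ => Fin.tail a)
    (s := (Lk.tup (j + 1) L).filter (fun a => (m : ℤ) ∣ xx g s c a)) (t := Lk.tup j L) hmaps
  have hfib : ∀ b ∈ Lk.tup j L,
      ((((Lk.tup (j + 1) L).filter (fun a => (m : ℤ) ∣ xx g s c a)).filter
        (fun a => Fin.tail a = b)).card : ℝ) ≤ L / (orderOf (g : ZMod m) : ℝ) + 1 := by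
    intro b _
    refine le_trans ?_ (pow_class g L m (-(u * (s + ∑ i : Fin j, c i.succ * (g : ℤ) ^ (b i)))) hgm hm0 hL)
    have hc : (((Lk.tup (j + 1) L).filter (fun a => (m : ℤ) ∣ xx g s c a)).filter
        (fun a => Fin.tail a = b)).card ≤
        ((Icc 1 L).filter (fun a : ℕ => (m : ℤ) ∣ (g : ℤ) ^ a -
          (-(u * (s + ∑ i : Fin j, c i.succ * (g : ℤ) ^ (b i)))))).card := by
      refine card_le_card_of_injOn (fun a => a 0) ?_ ?_
      · intro a ha
        rw [mem_coe, mem_filter, mem_filter] at ha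
        obtain ⟨⟨ha1, ha2⟩, ha3⟩ := ha
        rw [mem_coe, mem_filter]
        refine ⟨?_, ?_⟩
        · unfold Lk.tup at ha1
          rw [Fintype.mem_piFinset] at ha1
          exact ha1 0
        · have hb : ∀ i, b i = a i.succ := fun i => by rw [← ha3]; rfl
          have e1 : ∑ i : Fin j, c i.succ * (g : ℤ) ^ (b i) = ∑ i : Fin j, c i.succ * (g : ℤ) ^ (a i.succ) :=
            sum_congr rfl fun i _ => by rw [hb]
          have e : (g : ℤ) ^ (a 0) - (-(u * (s + ∑ i : Fin j, c i.succ * (g : ℤ) ^ (b i)))) =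
              u * xx g s c a + (m : ℤ) * (w * (g : ℤ) ^ (a 0)) := by
            rw [e1]
            unfold xx
            rw [Fin.sum_univ_succ]
            linear_combination (-(g : ℤ) ^ (a 0)) * huw
          show (m : ℤ) ∣ (g : ℤ) ^ (a 0) - (-(u * (s + ∑ i : Fin j, c i.succ * (g : ℤ) ^ (b i))))
          rw [e]
          exact dvd_add (Dvd.dvd.mul_left ha2 u) (dvd_mul_right _ _)
      · intro a ha a' ha' h0
        rw [mem_coe, mem_filter] at ha ha'
        have h2 : Fin.tail a = Fin.tail a' := ha.2.trans ha'.2.symm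
        funext i
        refine Fin.cases h0 (fun i => ?_) i
        exact congrFun h2 i
    exact_mod_cast hc
  rw [h1]
  push_cast
  refine (sum_le_sum hfib).trans ?_
  rw [sum_const, nsmul_eq_mul]
  have hcard : ((Lk.tup j L).card : ℝ) = (L : ℝ) ^ j := by
    unfold Lk.tup
    rw [Fintype.card_piFinset]
    simp
  rw [hcard]

/-- The part of `m` coprime to `g c`. -/
private theorem W_part (g m : ℕ) (c : ℤ) (hg : 2 ≤ g) (hc0 : c ≠ 0) (hcg : |c| ≤ g) (hsq : Squarefree m)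
    (hm : g ^ 4 < m) : ∃ m' : ℕ, m' ∣ m ∧ m ≤ m' ^ 2 ∧ 2 ≤ m' ∧ Nat.Coprime g m' ∧ IsCoprime c (m' : ℤ) := by
  obtain ⟨d, hd⟩ : ∃ d : ℕ, d = Nat.gcd m (g * c.natAbs) := ⟨_, rfl⟩
  have hc1 : c.natAbs ≤ g := by
    rw [Int.abs_eq_natAbs] at hcg
    exact_mod_cast hcg
  have hc2 : 0 < c.natAbs := Int.natAbs_pos.2 hc0
  have hm0 : 0 < m := by omega
  have hd0 : 0 < d := by rw [hd]; exact Nat.gcd_pos_of_pos_left _ hm0
  have hdle : d ≤ g ^ 2 := by
    calc d ≤ g * c.natAbs := by rw [hd]; exact Nat.gcd_le_right _ (Nat.mul_pos (by omega) hc2)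
      _ ≤ g * g := Nat.mul_le_mul_left _ hc1
      _ = g ^ 2 := by ring
  obtain ⟨m', hm'⟩ : d ∣ m := by rw [hd]; exact Nat.gcd_dvd_left _ _
  have hcop : Nat.Coprime (g * c.natAbs) m' := by
    rw [Nat.coprime_iff_gcd_eq_one]
    by_contra hne
    obtain ⟨p, hp, hpd⟩ := Nat.exists_prime_and_dvd hne
    have h1 : p ∣ g * c.natAbs := hpd.trans (Nat.gcd_dvd_left _ _)
    have h2 : p ∣ m' := hpd.trans (Nat.gcd_dvd_right _ _)
    have h3 : p ∣ m := by rw [hm']; exact h2.mul_left _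
    have h4 : p ∣ d := by rw [hd]; exact Nat.dvd_gcd h3 h1
    have h5 : p * p ∣ m := by rw [hm']; exact Nat.mul_dvd_mul h4 h2
    have h6 := hsq p h5
    exact hp.one_lt.ne' (Nat.isUnit_iff.1 h6)
  have hgm : Nat.Coprime g m' := hcop.coprime_dvd_left (dvd_mul_right _ _)
  have hcm : Nat.Coprime c.natAbs m' := hcop.coprime_dvd_left (dvd_mul_left _ _)
  have hm'0 : 0 < m' := by
    rcases Nat.eq_zero_or_pos m' with h | h
    · rw [h, mul_zero] at hm'; omega
    · exact h
  have hlow : g ^ 2 < m' := by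
    by_contra hcon
    push Not at hcon
    have : m ≤ g ^ 2 * g ^ 2 := by
      rw [hm']
      exact Nat.mul_le_mul hdle hcon
    have e : g ^ 2 * g ^ 2 = g ^ 4 := by ring
    omega
  refine ⟨m', ⟨d, by rw [hm', mul_comm]⟩, ?_, ?_, hgm, ?_⟩
  · rw [hm']
    calc d * m' ≤ m' * m' := Nat.mul_le_mul_right _ (hdle.trans hlow.le)
      _ = m' ^ 2 := by ring
  · nlinarith
  · rw [Int.isCoprime_iff_gcd_eq_one]
    have : Int.gcd c (m' : ℤ) = Nat.gcd c.natAbs m' := rfl
    rw [this]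
    exact hcm

/-- Compare `Lk.lw_div` (file `Lk/PowW.lean`). Let `m` be odd and squarefree. Its part `m'` coprime to `g · c_0` is at least
`m/g²` (`m'` is `m` divided by the product of the primes `p ∣ m` with `p ∣ g` or `p ∣ c_0`, each product at most `g`). If
`m ≤ g⁴` the bound is trivial (`K ≥ 4 log g`). Otherwise `m' ≥ √m ≥ 2`; fix `a_1, ..., a_{k-1}`: the number of `a_0` with
`m' ∣ t + c_0 g^(a_0)` is at most `L/ord + 1` by `pow_class` (`c_0` is invertible modulo `m'`), `ord ≥ log m'/log g` by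
`ord_lower`, and `1/L ≤ 2 log g/log N`, `log N ≥ log m` (for `m > N` nothing is divisible by `m`). -/
theorem lw_div (g : ℕ) (hg : 2 ≤ g) : ∃ K : ℝ, 1 ≤ K ∧ ∀ (k L N : ℕ) (s : ℤ) (c : Fin k → ℤ), 1 ≤ k → 1 ≤ L →
    (∀ i, c i ≠ 0 ∧ |c i| ≤ g) → (N : ℝ) ≤ (g : ℝ) ^ (2 * L) →
    (∀ a ∈ Lk.tup k L, 1 ≤ xx g s c a ∧ xx g s c a ≤ N) →
    ∀ m : ℕ, Odd m → Squarefree m → 3 ≤ m →
      ∑ n ∈ (Icc 1 N).filter (fun n => m ∣ n), lw g k L s c n ≤ K / Real.log m := by
  have hgr : (2 : ℝ) ≤ g := by exact_mod_cast hg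
  have hlg : 0 < Real.log g := Real.log_pos (by linarith)
  refine ⟨1 + 4 * Real.log g, by linarith, ?_⟩
  intro k L N s c hk hL hc hN h m hodd hsq h3
  have hm1 : (1 : ℝ) < m := by
    have : 1 < m := by omega
    exact_mod_cast this
  have hlogm : 0 < Real.log (m : ℝ) := Real.log_pos hm1
  have hLr : (1 : ℝ) ≤ L := by exact_mod_cast hL
  have hLk : (0 : ℝ) < (L : ℝ) ^ k := by positivity
  rcases Nat.lt_or_ge N m with hmN | hmN
  · have hempty : (Icc 1 N).filter (fun n => m ∣ n) = ∅ := by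
      rw [filter_eq_empty_iff]
      intro n hn hd
      rw [mem_Icc] at hn
      have := Nat.le_of_dvd (by omega) hd
      omega
    rw [hempty, sum_empty]
    positivity
  rw [lw_sum g k L N s c h (fun n => m ∣ n)]
  rcases Nat.lt_or_ge (g ^ 4) m with hmg | hmg
  · obtain ⟨j, rfl⟩ : ∃ j, k = j + 1 := ⟨k - 1, by omega⟩
    obtain ⟨m', hdvd, hsqm, hm2, hgm, hcm⟩ := W_part g m (c 0) hg (hc 0).1 (hc 0).2 hsq hmg
    have hsub : (Lk.tup (j + 1) L).filter (fun a => m ∣ (xx g s c a).toNat) ⊆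
        (Lk.tup (j + 1) L).filter (fun a => (m' : ℤ) ∣ xx g s c a) := by
      intro a ha
      rw [mem_filter] at ha ⊢
      refine ⟨ha.1, ?_⟩
      obtain ⟨h4, _⟩ := h a ha.1
      have h5 : (((xx g s c a).toNat : ℤ)) = xx g s c a := Int.toNat_of_nonneg (by omega)
      rw [← h5]
      exact Int.natCast_dvd_natCast.2 (hdvd.trans ha.2)
    have hcard : (((Lk.tup (j + 1) L).filter (fun a => m ∣ (xx g s c a).toNat)).card : ℝ) ≤
        (((Lk.tup (j + 1) L).filter (fun a => (m' : ℤ) ∣ xx g s c a)).card : ℝ) := by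
      exact_mod_cast card_le_card hsub
    have hcnt := W_count g j L m' s c hgm (by omega) hcm hL
    have ho := ord_lower g m' hg hgm hm2
    have hm'1 : (1 : ℝ) < m' := by
      have : 1 < m' := by omega
      exact_mod_cast this
    have hlm' : 0 < Real.log (m' : ℝ) := Real.log_pos hm'1
    have hhalf : Real.log m ≤ 2 * Real.log m' := by
      have : (m : ℝ) ≤ (m' : ℝ) ^ 2 := by exact_mod_cast hsqm
      have h6 := Real.log_le_log (by linarith) this
      rw [Real.log_pow] at h6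
      exact_mod_cast h6
    have hop : (0 : ℝ) < orderOf (g : ZMod m') := by
      by_contra hcon
      push Not at hcon
      nlinarith
    rw [div_le_iff₀ hLk]
    refine hcard.trans (hcnt.trans ?_)
    have h6 : (L : ℝ) ^ j * (L / (orderOf (g : ZMod m') : ℝ) + 1) =
        (1 / (orderOf (g : ZMod m') : ℝ) + 1 / L) * (L : ℝ) ^ (j + 1) := by
      rw [pow_succ]
      field_simp
    rw [h6]
    refine mul_le_mul_of_nonneg_right ?_ hLk.le
    have h7 : 1 / (orderOf (g : ZMod m') : ℝ) ≤ 2 * Real.log g / Real.log m := by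
      rw [div_le_div_iff₀ hop hlogm]
      nlinarith
    have h8 : 1 / (L : ℝ) ≤ 2 * Real.log g / Real.log m := by
      have h9 : Real.log m ≤ Real.log N := Real.log_le_log (by linarith) (by exact_mod_cast hmN)
      have h10 : Real.log N ≤ (2 * L : ℕ) * Real.log g := by
        rw [← Real.log_pow]
        refine Real.log_le_log ?_ hN
        have : 0 < N := by omega
        exact_mod_cast this
      push_cast at h10
      rw [div_le_div_iff₀ (by linarith) hlogm]
      linarith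
    have h9 : (1 + 4 * Real.log g) / Real.log (m : ℝ) =
        1 / Real.log m + (2 * Real.log g / Real.log m + 2 * Real.log g / Real.log m) := by ring
    rw [h9]
    have h10 : 0 < 1 / Real.log (m : ℝ) := by positivity
    linarith
  · have h1 : (((Lk.tup k L).filter (fun a => m ∣ (xx g s c a).toNat)).card : ℝ) ≤ (L : ℝ) ^ k := by
      have hcard : ((Lk.tup k L).card : ℝ) = (L : ℝ) ^ k := by
        unfold Lk.tup
        rw [Fintype.card_piFinset]
        simp
      rw [← hcard]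
      exact_mod_cast card_filter_le _ _
    have h2 : (((Lk.tup k L).filter (fun a => m ∣ (xx g s c a).toNat)).card : ℝ) / (L : ℝ) ^ k ≤ 1 := by
      rw [div_le_one hLk]
      exact h1
    refine h2.trans ?_
    rw [one_le_div hlogm]
    have h3 : Real.log m ≤ (4 : ℕ) * Real.log g := by
      rw [← Real.log_pow]
      exact Real.log_le_log (by linarith) (by exact_mod_cast hmg)
    push_cast at h3
    linarith

end Pool.Agent.Lib.MP_629a14_nt.Lg
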