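import Pool.Agent.Lib.MP_629a14_nt.Lg.Main
import Pool.Agent.Lib.MP_629a14_nt.Lg.Maj
import Pool.Agent.Lib.MP_629a14_nt.Lg.W
import Pool.Agent.Lib.MP_629a14_nt.Lg.MeasC

/-! Almost all sums `s + ∑ c_i g^(a_i)`. -/

set_option autoImplicit false

namespace Pool.Agent.Lib.MP_629a14_nt.Lg

open Finset Pool.Agent.Lib.MP_629a14_nt Pool.Agent.Lib.MP_629a14_nt.Th MeasureTheory

private theorem Tuple_gg_le_one (g L : ℕ) (α : ℝ) : ‖gg g L α‖ ≤ 1 := by
  unfold gg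
  rcases Nat.eq_zero_or_pos L with hL | hL
  · subst hL; simp
  have hL0 : (0 : ℝ) < L := by exact_mod_cast hL
  rw [norm_mul]
  have h1 : ‖(1 / (L : ℂ))‖ = 1 / (L : ℝ) := by
    rw [norm_div, norm_one, Complex.norm_natCast]
  have h2 : ‖∑ a ∈ Icc 1 L, ee ((g : ℝ) ^ a * α)‖ ≤ L := by
    refine le_trans (norm_sum_le _ _) ?_
    have : ∀ a ∈ Icc 1 L, ‖ee ((g : ℝ) ^ a * α)‖ ≤ 1 := by
      intro a _
      exact (norm_ee _).le
    refine le_trans (sum_le_sum this) ?_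
    simp
  rw [h1]
  calc 1 / (L : ℝ) * ‖∑ a ∈ Icc 1 L, ee ((g : ℝ) ^ a * α)‖ ≤ 1 / (L : ℝ) * L := by gcongr
    _ = 1 := by field_simp

private theorem Tuple_conj (t : ℝ) : (starRingEnd ℂ) (ee t) = ee (-t) := by
  unfold ee
  rw [← Complex.exp_conj]
  congr 1
  have h2 : (starRingEnd ℂ) 2 = 2 := map_ofNat _ 2
  simp [Complex.conj_ofReal, h2]

private theorem Tuple_gg_neg (g L : ℕ) (α : ℝ) : ‖gg g L (-α)‖ = ‖gg g L α‖ := by
  unfold gg
  rw [norm_mul, norm_mul]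
  congr 1
  rw [← Complex.norm_conj (∑ a ∈ Icc 1 L, ee ((g : ℝ) ^ a * α)), map_sum]
  congr 1
  refine Finset.sum_congr rfl fun a _ => ?_
  rw [Tuple_conj]
  congr 1
  ring

private theorem Tuple_gg_abs (g L : ℕ) (c h : ℤ) (hc : |c| = h) (α : ℝ) :
    ‖gg g L (c * α)‖ = ‖gg g L (h * α)‖ := by
  rcases abs_choice c with h1 | h1
  · rw [← hc, h1]
  · have h2 : c = -h := by rw [← hc, h1]; ring
    rw [h2]
    push_cast
    rw [neg_mul, Tuple_gg_neg]

/-- the range -/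
private theorem Tuple_range {g k L N : ℕ} {s : ℤ} {c : Fin k → ℤ} (hL : 1 ≤ L)
    (hx : ∀ a ∈ Lk.tup k L, 1 ≤ xx g s c a ∧ xx g s c a ≤ N) :
    (∑ i, |c i|) * ((g : ℤ) ^ L - g) ≤ N := by
  have hA : (fun i => if 0 < c i then L else 1 : Fin k → ℕ) ∈ Lk.tup k L := by
    unfold Lk.tup
    rw [Fintype.mem_piFinset]
    intro i
    rw [mem_Icc]
    split_ifs <;> omega
  have hB : (fun i => if 0 < c i then 1 else L : Fin k → ℕ) ∈ Lk.tup k L := by
    unfold Lk.tup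
    rw [Fintype.mem_piFinset]
    intro i
    rw [mem_Icc]
    split_ifs <;> omega
  have h1 := (hx _ hA).2
  have h2 := (hx _ hB).1
  have h3 : (∑ i, |c i|) * ((g : ℤ) ^ L - g) =
      xx g s c (fun i => if 0 < c i then L else 1) - xx g s c (fun i => if 0 < c i then 1 else L) := by
    unfold xx
    rw [add_sub_add_left_eq_sub, ← Finset.sum_sub_distrib, Finset.sum_mul]
    refine Finset.sum_congr rfl fun i _ => ?_
    dsimp only
    split_ifs with h
    · rw [abs_of_pos h]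
      ring
    · rw [abs_of_nonpos (not_lt.1 h)]
      ring
  rw [h3]
  linarith

open Classical in
/-- Compare `Lk.tuple` (file `Lk/Tuple.lean`). Proof. `main` of `Lg/Main.lean` with `w = lw g k L s c`, `δ = 1/32`, `K` the
maximum of the constants of `lw_div` and `u4_maj`. Among the `k` values `|c_i| ∈ [1, g]` some value `h` is taken at least
`k/g` times; `u = u4 g L h`. By `lw_hat` and `‖gg‖ ≤ 1` (and `‖gg(-x)‖ = ‖gg(x)‖`), `‖WW‖ ≤ ‖gg(hα)‖^r` with `r ≥ k/g`,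
which is at most `(1-η)^(r-4) ‖gg(hα)‖⁴ ≤ c CU` outside the set of `gg_measure g c`, if `k ≥ k₀` (`u4_four`). The
range condition: `2 h g^L ≤ N` follows from the assumption on the range of `xx` (compare the tuples with `a_i = L` where
`c_i > 0`, `a_i = 1` where `c_i < 0`, and the reverse: `∑ |c_i| (g^L - g) ≤ N`, and `g^L - g ≥ g^L/2`, `r ≥ 4`), and
`N ≤ g^(2L)` from `N^(1-κ) ≤ g^L` with `κ ≤ 1/2`. -/
theorem tuple (g : ℕ) (hg : 2 ≤ g) (ε : ℝ) (hε : 0 < ε) : ∃ κ : ℝ, 0 < κ ∧ κ < 1 ∧ ∃ k₀ N₀ : ℕ, ∀ N : ℕ, N₀ ≤ N →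
    ∀ (k L : ℕ) (s : ℤ) (c : Fin k → ℤ), k₀ ≤ k → (∀ i, c i ≠ 0 ∧ |c i| ≤ g) → (N : ℝ) ^ (1 - κ) ≤ (g : ℝ) ^ L →
    (∀ a ∈ Lk.tup k L, (N : ℤ) ≤ 32 * xx g s c a ∧ xx g s c a ≤ N) →
    (((Lk.tup k L).filter (fun a => Even (xx g s c a) ∧ Bad ε (xx g s c a).toNat)).card : ℝ) ≤ ε * (L : ℝ) ^ k := by
  obtain ⟨K1, hK1, hmaj⟩ := u4_maj g hg
  obtain ⟨K2, hK2, hdiv⟩ := lw_div g hg
  obtain ⟨cc, hcc, N3, hmain⟩ := main (max K1 K2) (1 / 32) ε (by norm_num) hε
  obtain ⟨η, hη, hη1, r0, hr0, N4, hgg⟩ := gg_measure g hg cc hcc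
  obtain ⟨k1, hk1⟩ := exists_pow_lt_of_lt_one hcc (show 1 - η < 1 by linarith)
  have hκ0 : 0 < min r0 (1 / 2) := lt_min hr0 (by norm_num)
  have hκ2 : min r0 (1 / 2) ≤ 1 / 2 := min_le_right _ _
  refine ⟨min r0 (1 / 2), hκ0, by linarith, g * (k1 + 4), N3 + N4 + g ^ 2 + 40,
    fun N hN k L s c hk hc hNL hx => ?_⟩
  have hg1 : (1 : ℝ) ≤ g := by exact_mod_cast (by omega : 1 ≤ g)
  have hN1 : (1 : ℝ) ≤ N := by exact_mod_cast (by omega : 1 ≤ N)
  have hN0 : (0 : ℝ) ≤ N := by linarith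
  -- `N ≤ g^(2L)`
  have hN2L : (N : ℝ) ≤ (g : ℝ) ^ (2 * L) := by
    have h1 : (N : ℝ) ^ (1 / 2 : ℝ) ≤ (g : ℝ) ^ L :=
      le_trans (Real.rpow_le_rpow_of_exponent_le hN1 (by linarith)) hNL
    have h2 : ((N : ℝ) ^ (1 / 2 : ℝ)) ^ 2 = N := by
      rw [← Real.rpow_natCast, ← Real.rpow_mul hN0]
      norm_num
    calc (N : ℝ) = ((N : ℝ) ^ (1 / 2 : ℝ)) ^ 2 := h2.symm
      _ ≤ ((g : ℝ) ^ L) ^ 2 := pow_le_pow_left₀ (by positivity) h1 2
      _ = (g : ℝ) ^ (2 * L) := by rw [← pow_mul, mul_comm L 2]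
  have hL2 : 2 ≤ L := by
    by_contra hcon
    have h1 : 2 * L ≤ 2 := by omega
    have h2 : (g : ℝ) ^ (2 * L) ≤ (g : ℝ) ^ 2 := pow_le_pow_right₀ hg1 h1
    have h3 : (N : ℝ) ≤ ((g ^ 2 : ℕ) : ℝ) := by
      push_cast
      linarith
    have h4 : N ≤ g ^ 2 := by exact_mod_cast h3
    omega
  have hNr : (N : ℝ) ^ (1 - r0) ≤ (g : ℝ) ^ L :=
    le_trans (Real.rpow_le_rpow_of_exponent_le hN1 (by linarith [min_le_left r0 (1 / 2)])) hNL
  have hLk : (0 : ℝ) < (L : ℝ) ^ k := by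
    have : (0 : ℝ) < L := by exact_mod_cast (by omega : 0 < L)
    positivity
  have hx' : ∀ a ∈ Lk.tup k L, 1 ≤ xx g s c a ∧ xx g s c a ≤ N := by
    intro a ha
    have := hx a ha
    constructor
    · have h1 : (40 : ℤ) ≤ (N : ℤ) := by exact_mod_cast (by omega : 40 ≤ N)
      omega
    · exact this.2
  -- pigeonhole
  obtain ⟨h, hh, hcardh⟩ : ∃ h ∈ Icc (1 : ℤ) g, k1 + 4 ≤ (univ.filter (fun i => |c i| = h)).card := by
    apply Finset.exists_le_card_fiber_of_mul_le_card_of_maps_to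
    · intro i _
      rw [mem_Icc]
      exact ⟨Int.one_le_abs (hc i).1, (hc i).2⟩
    · refine ⟨1, ?_⟩
      rw [mem_Icc]
      exact ⟨le_rfl, by exact_mod_cast (by omega : 1 ≤ g)⟩
    · rw [Int.card_Icc, card_univ, Fintype.card_fin]
      have : ((g : ℤ) + 1 - 1).toNat = g := by simp
      rw [this]
      exact hk
  rw [mem_Icc] at hh
  have hh0 : h ≠ 0 := by omega
  have hhabs : |h| = h := abs_of_nonneg (by omega)
  have hhg : |h| ≤ g := by rw [hhabs]; exact hh.2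
  have hk0 : 1 ≤ k := by
    have : 1 * 4 ≤ g * (k1 + 4) := Nat.mul_le_mul (by omega) (by omega)
    omega
  -- range
  have hrange : 2 * |h| * (g : ℤ) ^ L ≤ N := by
    have h1 := Tuple_range (g := g) (by omega) hx'
    have h2 : 4 * h ≤ ∑ i, |c i| := by
      have h3 : ∑ i ∈ univ.filter (fun i => |c i| = h), |c i| ≤ ∑ i, |c i| :=
        Finset.sum_le_sum_of_subset_of_nonneg (filter_subset _ _) (fun i _ _ => abs_nonneg _)
      have h4 : ∑ i ∈ univ.filter (fun i => |c i| = h), |c i| =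
          ((univ.filter (fun i => |c i| = h)).card : ℤ) * h := by
        rw [Finset.sum_congr rfl (fun i hi => (mem_filter.1 hi).2), Finset.sum_const, nsmul_eq_mul]
      have h5 : (4 : ℤ) ≤ ((univ.filter (fun i => |c i| = h)).card : ℤ) := by
        exact_mod_cast (by omega : 4 ≤ (univ.filter (fun i => |c i| = h)).card)
      have h6 : (4 : ℤ) * h ≤ ((univ.filter (fun i => |c i| = h)).card : ℤ) * h :=
        mul_le_mul_of_nonneg_right h5 (by omega)
      linarith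
    have h3 : 2 * (g : ℤ) ≤ (g : ℤ) ^ L := by
      have h4 : (g : ℤ) ^ 2 ≤ (g : ℤ) ^ L :=
        pow_le_pow_right₀ (by exact_mod_cast (by omega : 1 ≤ g)) hL2
      have h5 : (2 : ℤ) ≤ g := by exact_mod_cast hg
      nlinarith
    have h4 : 0 ≤ (g : ℤ) ^ L - g := by
      have : (0 : ℤ) ≤ g := by positivity
      linarith
    have h5 : 4 * h * ((g : ℤ) ^ L - g) ≤ N := le_trans (mul_le_mul_of_nonneg_right h2 h4) h1
    rw [hhabs]
    have h6 : 0 ≤ h * ((g : ℤ) ^ L - 2 * g) := mul_nonneg (by omega) (by linarith)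
    linarith
  -- the hypotheses of the criterion
  have hw0 : ∀ n, 0 ≤ lw g k L s c n := by
    intro n
    unfold lw
    positivity
  have hcard : ((Lk.tup k L).card : ℝ) = (L : ℝ) ^ k := by
    unfold Lk.tup
    rw [Fintype.card_piFinset]
    simp
  have hw1 : ∑ n ∈ Icc 1 N, lw g k L s c n ≤ 1 := by
    have h := lw_sum g k L N s c hx' (fun _ => True)
    rw [filter_true_of_mem (fun _ _ => trivial), filter_true_of_mem (fun _ _ => trivial), hcard,
      div_self hLk.ne'] at h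
    exact h.le
  have hd : ∀ m : ℕ, Odd m → Squarefree m → 3 ≤ m →
      ∑ n ∈ (Icc 1 N).filter (fun n => m ∣ n), lw g k L s c n ≤ max K1 K2 / Real.log m := by
    intro m hm hsq hm3
    refine le_trans (hdiv k L N s c hk0 (by omega) hc hN2L hx' m hm hsq hm3) ?_
    have : 0 ≤ Real.log m := Real.log_natCast_nonneg m
    gcongr
    exact le_max_right _ _
  have hM : Lk.Maj (u4 g L h) N (max K1 K2) := by
    have h := hmaj N L h (by omega) hL2 hh0 hhg hrange hN2L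
    exact ⟨h.1, h.2.1, le_trans h.2.2 (le_max_left _ _)⟩
  have hvol : volume {α : ℝ | α ∈ Set.Icc (0 : ℝ) 1 ∧ cc * Lk.CU (u4 g L h) N α < ‖WW (lw g k L s c) N α‖} ≤
      ENNReal.ofReal ((N : ℝ) ^ (-1 + cc)) := by
    refine le_trans (measure_mono ?_) (hgg L N h (by omega) hNr hh0)
    intro α hα
    refine ⟨hα.1, ?_⟩
    by_contra hcon
    rw [not_lt] at hcon
    have h1 := hα.2
    rw [u4_four g L N hg h (by omega) hrange α, lw_hat g k L N s c hx' α] at h1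
    have hg0 : 0 ≤ ‖gg g L (h * α)‖ := norm_nonneg _
    have hprod : ∏ i, ‖gg g L (c i * α)‖ ≤ ‖gg g L (h * α)‖ ^ (univ.filter (fun i => |c i| = h)).card := by
      rw [← Finset.prod_filter_mul_prod_filter_not univ (fun i => |c i| = h)]
      have e1 : ∏ i ∈ univ.filter (fun i => |c i| = h), ‖gg g L (c i * α)‖ =
          ‖gg g L (h * α)‖ ^ (univ.filter (fun i => |c i| = h)).card := by
        rw [← Finset.prod_const]
        exact Finset.prod_congr rfl fun i hi => Tuple_gg_abs g L (c i) h (mem_filter.1 hi).2 α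
      have e2 : ∏ i ∈ univ.filter (fun i => ¬ |c i| = h), ‖gg g L (c i * α)‖ ≤ 1 :=
        Finset.prod_le_one (fun i _ => norm_nonneg _) (fun i _ => Tuple_gg_le_one g L _)
      rw [e1]
      exact mul_le_of_le_one_right (by positivity) e2
    obtain ⟨j, hj⟩ : ∃ j, (univ.filter (fun i => |c i| = h)).card = j + k1 + 4 :=
      ⟨(univ.filter (fun i => |c i| = h)).card - k1 - 4, by omega⟩
    have h2 : ‖gg g L (h * α)‖ ^ (j + k1) ≤ cc := by
      calc ‖gg g L (h * α)‖ ^ (j + k1) = ‖gg g L (h * α)‖ ^ j * ‖gg g L (h * α)‖ ^ k1 := pow_add _ _ _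
        _ ≤ 1 * (1 - η) ^ k1 := by
            apply mul_le_mul (pow_le_one₀ hg0 (Tuple_gg_le_one g L _)) (pow_le_pow_left₀ hg0 hcon _)
              (by positivity) (by norm_num)
        _ ≤ cc := by rw [one_mul]; exact hk1.le
    have h3 : ∏ i, ‖gg g L (c i * α)‖ ≤ cc * ‖gg g L (h * α)‖ ^ 4 := by
      refine le_trans hprod ?_
      rw [hj, pow_add]
      exact mul_le_mul_of_nonneg_right h2 (by positivity)
    exact absurd h1 (not_lt.2 h3)
  have hres := hmain N (by omega) (lw g k L s c) (u4 g L h) hw0 hw1 hd hM hvol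
  have hsum := lw_sum g k L N s c hx' (fun n : ℕ => Even n ∧ (1 / 32 : ℝ) * N ≤ n ∧
    ε * En.HL n < |(En.r2 n : ℝ) - En.HL n|)
  have hres2 : (((Lk.tup k L).filter (fun a => Even (xx g s c a).toNat ∧ (1 / 32 : ℝ) * N ≤ (xx g s c a).toNat ∧
      ε * En.HL (xx g s c a).toNat < |(En.r2 (xx g s c a).toNat : ℝ) - En.HL (xx g s c a).toNat|)).card : ℝ) /
      (L : ℝ) ^ k ≤ ε := by
    refine le_trans (le_of_eq ?_) (le_trans (le_of_eq hsum.symm) (le_trans (le_of_eq ?_) hres))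
    · congr!
    · congr!
  rw [div_le_iff₀ hLk] at hres2
  refine le_trans ?_ hres2
  rw [Nat.cast_le]
  apply card_le_card
  intro a ha
  rw [mem_filter] at ha ⊢
  obtain ⟨ha1, ha2, ha3⟩ := ha
  have hxa := hx a ha1
  have hxa' := hx' a ha1
  have hto : (((xx g s c a).toNat : ℕ) : ℤ) = xx g s c a := Int.toNat_of_nonneg (by linarith [hxa'.1])
  refine ⟨ha1, ?_, ?_, ha3⟩
  · rw [← hto] at ha2
    exact_mod_cast ha2
  · have h1 : (N : ℤ) ≤ 32 * (((xx g s c a).toNat : ℕ) : ℤ) := by rw [hto]; exact hxa.1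
    have h2 : (N : ℝ) ≤ 32 * (((xx g s c a).toNat : ℕ) : ℝ) := by exact_mod_cast h1
    linarith

end Pool.Agent.Lib.MP_629a14_nt.Lg
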