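import Pool.Agent.Lib.MP_629a14_nt.Lg.TypC

/-! The Fourier transform of a type. -/

set_option autoImplicit false

namespace Pool.Agent.Lib.MP_629a14_nt.Lg

open Finset Pool.Agent.Lib.MP_629a14_nt Pool.Agent.Lib.MP_629a14_nt.Th

/-- Two letters. -/
private lemma TypB_two (a b : ℝ) (ha : 0 ≤ a) (hb : 0 ≤ b) (hab : a + b ≤ 1) (v w : ℂ) (hv : ‖v‖ = 1)
    (hw : ‖w‖ = 1) : ‖(a : ℂ) * v + (b : ℂ) * w‖ ≤ a + b - a * b * (1 - (w / v).re) := by
  have hv0 : v ≠ 0 := by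
    intro h
    rw [h, norm_zero] at hv
    exact zero_ne_one hv
  set u : ℂ := w / v with hu
  have hun : ‖u‖ = 1 := by rw [hu, norm_div, hv, hw, div_one]
  have hw' : w = v * u := by rw [hu, mul_div_cancel₀ _ hv0]
  have h1 : (a : ℂ) * v + (b : ℂ) * w = v * ((a : ℂ) + b * u) := by
    rw [hw']
    ring
  rw [h1, norm_mul, hv, one_mul]
  have hre : u.re ≤ 1 := by
    have := Complex.re_le_norm u
    rwa [hun] at this
  have hre2 : -1 ≤ u.re := by
    have := Complex.abs_re_le_norm u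
    rw [hun] at this
    exact (abs_le.1 this).1
  have hsq : u.re ^ 2 + u.im ^ 2 = 1 := by
    have := Complex.sq_norm u
    rw [hun, Complex.normSq_apply] at this
    linarith [this]
  have hn : ‖(a : ℂ) + b * u‖ ^ 2 = (a + b) ^ 2 - 2 * (a * b) * (1 - u.re) := by
    rw [Complex.sq_norm, Complex.normSq_apply]
    simp only [Complex.add_re, Complex.add_im, Complex.ofReal_re, Complex.ofReal_im, Complex.mul_re,
      Complex.mul_im, zero_mul, sub_zero, add_zero, zero_add]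
    linear_combination b ^ 2 * hsq
  have hab0 : 0 ≤ a * b := mul_nonneg ha hb
  have hRHS : 0 ≤ a + b - a * b * (1 - u.re) := by
    nlinarith [sq_nonneg (a - b)]
  refine le_of_sq_le_sq ?_ hRHS
  rw [hn]
  nlinarith [mul_nonneg (mul_nonneg hab0 (by linarith : 0 ≤ 1 - u.re)) (by linarith : 0 ≤ 1 - (a + b)),
    sq_nonneg (a * b * (1 - u.re))]

/-- Proof. `|a + b w|² = (a+b)² - 2ab(1 - Re w)` and `√(1-t) ≤ 1 - t/2`, `ab/(a+b) ≥ ab`; with the other terms bounded by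
their absolute values the left side is at most `1 - ρ_1 ρ_2 (1 - Re w)`, `w = v_2/v_1`. -/
theorem letter_bound (g : ℕ) (ρ : ℕ → ℝ) (hρ : ∀ d, 0 ≤ ρ d) (h1 : ∑ d ∈ range g, ρ d = 1) (v : ℕ → ℂ)
    (hv : ∀ d, ‖v d‖ = 1) (d₁ d₂ : ℕ) (hd₁ : d₁ < g) (hd₂ : d₂ < g) (hne : d₁ ≠ d₂) :
    ‖∑ d ∈ range g, (ρ d : ℂ) * v d‖ ≤ Real.exp (-(ρ d₁ * ρ d₂ * (1 - (v d₂ / v d₁).re))) := by
  have m1 : d₁ ∈ range g := mem_range.2 hd₁
  have m2 : d₂ ∈ (range g).erase d₁ := mem_erase.2 ⟨hne.symm, mem_range.2 hd₂⟩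
  set R := ((range g).erase d₁).erase d₂ with hR
  have s1 : ∑ d ∈ range g, ρ d = ρ d₁ + (ρ d₂ + ∑ d ∈ R, ρ d) := by
    rw [← add_sum_erase _ _ m1, ← add_sum_erase _ _ m2]
  have s2 : ∑ d ∈ range g, (ρ d : ℂ) * v d =
      ((ρ d₁ : ℂ) * v d₁ + (ρ d₂ : ℂ) * v d₂) + ∑ d ∈ R, (ρ d : ℂ) * v d := by
    rw [← add_sum_erase _ _ m1, ← add_sum_erase _ _ m2, add_assoc]
  have h2 : ‖∑ d ∈ R, (ρ d : ℂ) * v d‖ ≤ ∑ d ∈ R, ρ d := by
    refine (norm_sum_le _ _).trans (sum_le_sum fun d _ => ?_)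
    rw [norm_mul, hv, mul_one, Complex.norm_real, Real.norm_of_nonneg (hρ d)]
  have h3 : 0 ≤ ∑ d ∈ R, ρ d := sum_nonneg fun d _ => hρ d
  have h4 := TypB_two (ρ d₁) (ρ d₂) (hρ _) (hρ _) (by rw [s1] at h1; linarith) (v d₁) (v d₂) (hv _) (hv _)
  rw [s2]
  calc ‖((ρ d₁ : ℂ) * v d₁ + (ρ d₂ : ℂ) * v d₂) + ∑ d ∈ R, (ρ d : ℂ) * v d‖
      ≤ (ρ d₁ + ρ d₂ - ρ d₁ * ρ d₂ * (1 - (v d₂ / v d₁).re)) + ∑ d ∈ R, ρ d :=
        (norm_add_le _ _).trans (add_le_add h4 h2)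
    _ = -(ρ d₁ * ρ d₂ * (1 - (v d₂ / v d₁).re)) + 1 := by rw [← h1, s1]; ring
    _ ≤ Real.exp (-(ρ d₁ * ρ d₂ * (1 - (v d₂ / v d₁).re))) := Real.add_one_le_exp _

/-- Sum of the powers of a root of unity. -/
private lemma TypB_geom (n a b : ℕ) (ha : a ≤ n) (hb : b ≤ n) :
    ∑ t ∈ range (n + 1), (ee ((a : ℝ) / (n + 1)) * ee (-((b : ℝ) / (n + 1)))) ^ t =
      if a = b then ((n : ℂ) + 1) else 0 := by
  split_ifs with h
  · subst h
    rw [← ee_add, add_neg_cancel, ee_zero]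
    simp
  · have hn : (0 : ℝ) < (n : ℝ) + 1 := by positivity
    set q := ee ((a : ℝ) / (n + 1)) * ee (-((b : ℝ) / (n + 1))) with hq
    have hqe : q = ee (((a : ℝ) - b) / (n + 1)) := by
      rw [hq, ← ee_add]
      congr 1
      ring
    have hq1 : q ≠ 1 := by
      rw [hqe, Ne, ee_eq_one_iff]
      rintro ⟨k, hk⟩
      rw [div_eq_iff hn.ne'] at hk
      have hk' : ((a : ℤ) - b) = k * (n + 1) := by exact_mod_cast hk
      have hk0 : k ≠ 0 := by
        rintro rfl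
        apply h
        have : (a : ℤ) = b := by linarith
        exact_mod_cast this
      have h5 : (n + 1 : ℤ) ≤ |k * (n + 1)| := by
        rw [abs_mul]
        have h6 : 1 ≤ |k| := Int.one_le_abs hk0
        have h7 : |((n : ℤ) + 1)| = n + 1 := abs_of_nonneg (by positivity)
        rw [h7]
        nlinarith
      rw [← hk'] at h5
      have h8 : |((a : ℤ) - b)| ≤ n := by
        rw [abs_le]
        constructor <;> omega
      omega
    have hqn : q ^ (n + 1) = 1 := by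
      rw [hqe, ← ee_nat_mul]
      have : ((n + 1 : ℕ) : ℝ) * (((a : ℝ) - b) / (n + 1)) = (((a : ℤ) - b : ℤ) : ℝ) := by
        push_cast
        field_simp
      rw [this, ee_int]
    have h9 := geom_sum_mul q (n + 1)
    rw [hqn, sub_self] at h9
    exact (mul_eq_zero.1 h9).resolve_right (sub_ne_zero.2 hq1)

/-- the unit complex numbers of a choice `j` -/
private noncomputable def TypB_u (g n : ℕ) (j : Fin g → ℕ) (d : ℕ) : ℂ :=
  if h : d < g then ee ((j ⟨d, h⟩ : ℝ) / (n + 1)) else 1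

private lemma TypB_u_norm (g n : ℕ) (j : Fin g → ℕ) (d : ℕ) : ‖TypB_u g n j d‖ = 1 := by
  unfold TypB_u
  split_ifs
  · exact norm_ee _
  · exact norm_one

/-- products over the letters of a word -/
private lemma TypB_prod (g n : ℕ) (x : Fin n → ℕ) (hx : x ∈ Fintype.piFinset (fun _ : Fin n => range g))
    (f : ℕ → ℂ) : ∏ i, f (x i) = ∏ d : Fin g, f d ^ (univ.filter (fun i => x i = d)).card := by
  rw [Fintype.mem_piFinset] at hx
  have h1 : ∏ i, f (x i) = ∏ d ∈ range g, ∏ i ∈ univ.filter (fun i => x i = d), f (x i) :=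
    (prod_fiberwise_of_maps_to (fun i _ => hx i) _).symm
  rw [h1, Finset.prod_range (fun d => ∏ i ∈ univ.filter (fun i => x i = d), f (x i))]
  refine prod_congr rfl fun d _ => ?_
  rw [prod_congr rfl (fun i hi => by rw [(mem_filter.1 hi).2]), prod_const]

private lemma TypB_avg (g n : ℕ) (τ : ℕ → ℕ) (hτ : ∀ d < g, τ d ≤ n) (x : Fin n → ℕ)
    (hx : x ∈ Fintype.piFinset (fun _ : Fin n => range g)) :
    ∑ j ∈ Fintype.piFinset (fun _ : Fin g => range (n + 1)),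
      (∏ d : Fin g, ee (-((τ d : ℝ) / (n + 1))) ^ (j d)) * ∏ i, TypB_u g n j (x i) =
      if x ∈ words g n τ then ((n : ℂ) + 1) ^ g else 0 := by
  have h1 : ∀ j ∈ Fintype.piFinset (fun _ : Fin g => range (n + 1)),
      (∏ d : Fin g, ee (-((τ d : ℝ) / (n + 1))) ^ (j d)) * ∏ i, TypB_u g n j (x i) =
      ∏ d : Fin g, (ee (((univ.filter (fun i => x i = d)).card : ℝ) / (n + 1)) *
        ee (-((τ d : ℝ) / (n + 1)))) ^ (j d) := by
    intro j _
    rw [TypB_prod g n x hx, ← prod_mul_distrib]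
    refine prod_congr rfl fun d _ => ?_
    have h2 : TypB_u g n j d = ee ((j d : ℝ) / (n + 1)) := by
      unfold TypB_u
      rw [dif_pos d.isLt]
    rw [h2, mul_pow, ← ee_nat_mul (j d) (((univ.filter (fun i => x i = d)).card : ℝ) / (n + 1)),
      ← ee_nat_mul _ ((j d : ℝ) / (n + 1)), mul_comm]
    congr 2
    ring
  rw [sum_congr rfl h1, ← prod_univ_sum (fun _ : Fin g => range (n + 1))
    (fun d t => (ee (((univ.filter (fun i => x i = d)).card : ℝ) / (n + 1)) *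
        ee (-((τ d : ℝ) / (n + 1)))) ^ t)]
  have h3 : ∀ d : Fin g, ∑ t ∈ range (n + 1), (ee (((univ.filter (fun i => x i = d)).card : ℝ) / (n + 1)) *
        ee (-((τ d : ℝ) / (n + 1)))) ^ t =
      if (univ.filter (fun i => x i = d)).card = τ d then ((n : ℂ) + 1) else 0 := by
    intro d
    refine TypB_geom n _ _ ?_ (hτ d d.isLt)
    refine (card_filter_le _ _).trans ?_
    simp
  rw [prod_congr rfl fun d _ => h3 d]
  split_ifs with hw
  · have hw2 := (mem_filter.1 hw).2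
    have h5 : ∀ d : Fin g, (if (univ.filter (fun i => x i = d)).card = τ d then ((n : ℂ) + 1) else 0) =
        (n : ℂ) + 1 := fun d => if_pos (hw2 (d : ℕ) (mem_range.2 d.isLt))
    rw [prod_congr rfl fun d _ => h5 d]
    simp
  · have h4 : ∃ d : Fin g, (univ.filter (fun i => x i = d)).card ≠ τ d := by
      by_contra hcon
      push Not at hcon
      apply hw
      unfold words
      rw [mem_filter]
      refine ⟨hx, fun d hd => ?_⟩
      exact hcon ⟨d, mem_range.1 hd⟩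
    obtain ⟨d, hd⟩ := h4
    exact prod_eq_zero (mem_univ d) (if_neg hd)

/-- Extraction of the coefficient: the average over `j ∈ [0,n]^g` of
`∏_d ζ^(-j_d τ_d) ∏_i (∑_d ρ_d ζ^(j_d) z_i^d)`, `ζ = e(1/(n+1))`, is `∏ ρ_d^(τ_d) ∑_{x of type τ} ∏ z_i^(x_i)` (expand the
product over words `x` with `Finset.prod_univ_sum`; the letter counts of `x` and of `τ` are at most `n`, so the average of
`∏_d ζ^(j_d (#_d x - τ_d))` is 1 or 0; `ee` gives `ζ^j = ee (j/(n+1))`). So some choice of the `u_d = ζ^(j_d)` gives at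
least the absolute value. -/
theorem extract (g n : ℕ) (τ : ℕ → ℕ) (h : ∑ d ∈ range g, τ d = n) (ρ : ℕ → ℝ) (hρ : ∀ d, 0 ≤ ρ d) (z : Fin n → ℂ) :
    ∃ u : ℕ → ℂ, (∀ d, ‖u d‖ = 1) ∧
      (∏ d ∈ range g, ρ d ^ (τ d)) * ‖∑ x ∈ words g n τ, ∏ i, z i ^ (x i)‖ ≤
        ∏ i, ‖∑ d ∈ range g, (ρ d : ℂ) * (u d * z i ^ d)‖ := by
  classical
  have hτ : ∀ d < g, τ d ≤ n := fun d hd => by
    rw [← h]
    exact single_le_sum (f := τ) (fun _ _ => Nat.zero_le _) (mem_range.2 hd)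
  set J := Fintype.piFinset (fun _ : Fin g => range (n + 1)) with hJ
  have hcard : (J.card : ℝ) = ((n : ℝ) + 1) ^ g := by
    rw [hJ, Fintype.card_piFinset]
    simp
  have hJne : J.Nonempty := by
    refine ⟨fun _ => 0, ?_⟩
    rw [hJ, Fintype.mem_piFinset]
    intro _
    simp
  set c : (Fin g → ℕ) → ℂ := fun j => ∏ d : Fin g, ee (-((τ d : ℝ) / (n + 1))) ^ (j d) with hc
  have hcn : ∀ j, ‖c j‖ = 1 := by
    intro j
    rw [hc, norm_prod]
    refine prod_eq_one fun d _ => ?_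
    rw [norm_pow, norm_ee, one_pow]
  -- the identity
  have hid : ∑ j ∈ J, c j * ∏ i, ∑ d ∈ range g, (ρ d : ℂ) * (TypB_u g n j d * z i ^ d) =
      ((n : ℂ) + 1) ^ g * ((((∏ d ∈ range g, ρ d ^ (τ d) : ℝ)) : ℂ) * ∑ x ∈ words g n τ, ∏ i, z i ^ (x i)) := by
    have e1 : ∀ j ∈ J, c j * ∏ i, ∑ d ∈ range g, (ρ d : ℂ) * (TypB_u g n j d * z i ^ d) =
        ∑ x ∈ Fintype.piFinset (fun _ : Fin n => range g),
          (∏ i, (ρ (x i) : ℂ) * z i ^ (x i)) * (c j * ∏ i, TypB_u g n j (x i)) := by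
      intro j _
      rw [prod_univ_sum, mul_sum]
      refine sum_congr rfl fun x _ => ?_
      rw [← mul_assoc, mul_comm (∏ i, (ρ (x i) : ℂ) * z i ^ (x i)) (c j), mul_assoc, ← prod_mul_distrib]
      congr 1
      refine prod_congr rfl fun i _ => ?_
      ring
    rw [sum_congr rfl e1, sum_comm]
    have e2 : ∀ x ∈ Fintype.piFinset (fun _ : Fin n => range g),
        ∑ j ∈ J, (∏ i, (ρ (x i) : ℂ) * z i ^ (x i)) * (c j * ∏ i, TypB_u g n j (x i)) =
        if x ∈ words g n τ then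
          (((∏ d ∈ range g, ρ d ^ (τ d) : ℝ)) : ℂ) * (∏ i, z i ^ (x i)) * ((n : ℂ) + 1) ^ g else 0 := by
      intro x hx
      rw [← mul_sum, TypB_avg g n τ hτ x hx]
      split_ifs with hw
      · congr 1
        rw [prod_mul_distrib]
        congr 1
        rw [TypB_prod g n x hx (fun d => (ρ d : ℂ)), Finset.prod_range (fun d => ρ d ^ (τ d))]
        push_cast
        refine prod_congr rfl fun d _ => ?_
        rw [(mem_filter.1 hw).2 d (mem_range.2 d.isLt)]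
      · rw [mul_zero]
    rw [sum_congr rfl e2, ← sum_filter]
    have e3 : (Fintype.piFinset (fun _ : Fin n => range g)).filter (fun x => x ∈ words g n τ) = words g n τ := by
      ext x
      rw [mem_filter]
      constructor
      · exact fun h => h.2
      · exact fun h => ⟨(mem_filter.1 h).1, h⟩
    rw [e3, mul_sum, mul_sum]
    refine sum_congr rfl fun x _ => ?_
    ring
  have hle : ∑ j ∈ J, (∏ d ∈ range g, ρ d ^ (τ d)) * ‖∑ x ∈ words g n τ, ∏ i, z i ^ (x i)‖ ≤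
      ∑ j ∈ J, ∏ i, ‖∑ d ∈ range g, (ρ d : ℂ) * (TypB_u g n j d * z i ^ d)‖ := by
    have f1 : ‖∑ j ∈ J, c j * ∏ i, ∑ d ∈ range g, (ρ d : ℂ) * (TypB_u g n j d * z i ^ d)‖ ≤
        ∑ j ∈ J, ∏ i, ‖∑ d ∈ range g, (ρ d : ℂ) * (TypB_u g n j d * z i ^ d)‖ := by
      refine (norm_sum_le _ _).trans (sum_le_sum fun j _ => ?_)
      rw [norm_mul, hcn, one_mul, norm_prod]
    refine le_trans (le_of_eq ?_) f1
    rw [hid, sum_const, nsmul_eq_mul, hcard, norm_mul, norm_mul, norm_pow, Complex.norm_real,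
      Real.norm_of_nonneg (prod_nonneg fun d _ => pow_nonneg (hρ d) _)]
    congr 2
    have : ((n : ℂ) + 1) = (((n : ℝ) + 1 : ℝ) : ℂ) := by push_cast; rfl
    rw [this, Complex.norm_real, Real.norm_of_nonneg (by positivity)]
  obtain ⟨j, _, hj⟩ := exists_le_of_sum_le hJne hle
  exact ⟨TypB_u g n j, TypB_u_norm g n j, hj⟩

/-- Proof. `extract` and `letter_bound` with `ρ d = τ d/n`, `v d = u d z_i^d`, and `mode`. -/
theorem type_bound (g n : ℕ) (τ : ℕ → ℕ) (hn : 1 ≤ n) (h : ∑ d ∈ range g, τ d = n) (d₁ d₂ : ℕ) (hd₁ : d₁ < g)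
    (hd₂ : d₂ < g) (hne : d₁ ≠ d₂) (z : Fin n → ℂ) (hz : ∀ i, ‖z i‖ = 1) : ∃ u : ℂ, ‖u‖ = 1 ∧
    ‖∑ x ∈ words g n τ, ∏ i, z i ^ (x i)‖ ≤ (3 * ((n : ℝ) + 1)) ^ g * ((words g n τ).card : ℝ) *
      Real.exp (-((τ d₁ : ℝ) * (τ d₂ : ℝ) / (n : ℝ) ^ 2 * ∑ i, (1 - (u * (z i ^ d₂ / z i ^ d₁)).re))) := by
  have hn' : (0 : ℝ) < n := by exact_mod_cast hn
  set ρ : ℕ → ℝ := fun d => (τ d : ℝ) / n with hρd
  have hρ : ∀ d, 0 ≤ ρ d := fun d => by rw [hρd]; positivity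
  have hsum : ∑ d ∈ range g, ρ d = 1 := by
    rw [hρd, ← sum_div, ← Nat.cast_sum, h, div_self hn'.ne']
  obtain ⟨u, hu, hS⟩ := extract g n τ h ρ hρ z
  refine ⟨u d₂ / u d₁, by rw [norm_div, hu, hu, div_one], ?_⟩
  have hm := mode g n τ hn h
  set S : ℝ := ‖∑ x ∈ words g n τ, ∏ i, z i ^ (x i)‖ with hSd
  have hS0 : 0 ≤ S := norm_nonneg _
  have h1 : ∏ i, ‖∑ d ∈ range g, (ρ d : ℂ) * (u d * z i ^ d)‖ ≤
      ∏ i, Real.exp (-(ρ d₁ * ρ d₂ * (1 - ((u d₂ / u d₁) * (z i ^ d₂ / z i ^ d₁)).re))) := by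
    refine prod_le_prod (fun i _ => norm_nonneg _) fun i _ => ?_
    have := letter_bound g ρ hρ hsum (fun d => u d * z i ^ d)
      (fun d => by rw [norm_mul, hu, norm_pow, hz, one_pow, mul_one]) d₁ d₂ hd₁ hd₂ hne
    rw [mul_div_mul_comm] at this
    exact this
  rw [← Real.exp_sum] at h1
  have h2 : ∑ i, -(ρ d₁ * ρ d₂ * (1 - ((u d₂ / u d₁) * (z i ^ d₂ / z i ^ d₁)).re)) =
      -((τ d₁ : ℝ) * (τ d₂ : ℝ) / (n : ℝ) ^ 2 * ∑ i, (1 - ((u d₂ / u d₁) * (z i ^ d₂ / z i ^ d₁)).re)) := by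
    rw [mul_sum, ← sum_neg_distrib]
    refine sum_congr rfl fun i _ => ?_
    rw [hρd]
    simp only
    field_simp
  rw [h2] at h1
  have hA : 0 ≤ (3 * ((n : ℝ) + 1)) ^ g * ((words g n τ).card : ℝ) := by positivity
  calc S = 1 * S := (one_mul _).symm
    _ ≤ ((3 * ((n : ℝ) + 1)) ^ g * (((words g n τ).card : ℝ) * ∏ d ∈ range g, ((τ d : ℝ) / n) ^ (τ d))) * S :=
        mul_le_mul_of_nonneg_right hm hS0
    _ = (3 * ((n : ℝ) + 1)) ^ g * ((words g n τ).card : ℝ) * ((∏ d ∈ range g, ρ d ^ (τ d)) * S) := by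
        rw [hρd]
        ring
    _ ≤ _ := mul_le_mul_of_nonneg_left (hS.trans h1) hA

end Pool.Agent.Lib.MP_629a14_nt.Lg
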