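import Pool.Agent.Lib.MP_629a14_nt.Lg.Defs

/-! The number of words of a type. -/

set_option autoImplicit false

namespace Pool.Agent.Lib.MP_629a14_nt.Lg

open Finset

private theorem TypC_mem {g n : ℕ} {τ : ℕ → ℕ} {x : Fin n → ℕ} : x ∈ words g n τ ↔
    (∀ i, x i < g) ∧ ∀ d, d < g → (univ.filter (fun i => x i = d)).card = τ d := by
  unfold words
  simp only [mem_filter, Fintype.mem_piFinset, mem_range]

/-- The sum of the letter counts is the length. -/
theorem type_sum (g n : ℕ) (τ : ℕ → ℕ) (h : (words g n τ).Nonempty) : ∑ d ∈ range g, τ d = n := by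
  obtain ⟨x, hx⟩ := h
  rw [TypC_mem] at hx
  have h1 := Finset.card_eq_sum_card_fiberwise (f := x) (s := univ) (t := range g)
    (fun i _ => by simpa using hx.1 i)
  rw [Finset.card_univ, Fintype.card_fin] at h1
  rw [h1]
  refine Finset.sum_congr rfl fun d hd => ?_
  exact (hx.2 d (mem_range.1 hd)).symm

private theorem TypC_count {n : ℕ} (d c : ℕ) (y : Fin n → ℕ) :
    (univ.filter (fun i : Fin (n + 1) => (Fin.cons c y : Fin (n + 1) → ℕ) i = d)).card =
      (if c = d then 1 else 0) + (univ.filter (fun i => y i = d)).card := by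
  rw [Fin.card_filter_univ_succ']
  simp only [Fin.cons_zero, Fin.cons_succ]

private theorem TypC_fiber (g n : ℕ) (τ : ℕ → ℕ) (c : ℕ) (hc : c < g) :
    ((words g (n + 1) τ).filter (fun x => x 0 = c)).card =
      if τ c = 0 then 0 else (words g n (Function.update τ c (τ c - 1))).card := by
  split_ifs with h0
  · rw [Finset.card_eq_zero, Finset.filter_eq_empty_iff]
    intro x hx hx0
    rw [TypC_mem] at hx
    have h1 := hx.2 c hc
    rw [h0, Finset.card_eq_zero, Finset.filter_eq_empty_iff] at h1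
    exact h1 (mem_univ 0) hx0
  · refine Finset.card_nbij' (fun x => Fin.tail x) (fun y => (Fin.cons c y : Fin (n + 1) → ℕ)) ?_ ?_ ?_ ?_
    · intro x hx
      rw [Finset.mem_coe, mem_filter, TypC_mem] at hx
      obtain ⟨⟨h1, h2⟩, h3⟩ := hx
      rw [Finset.mem_coe, TypC_mem]
      refine ⟨fun i => h1 _, fun d hd => ?_⟩
      beta_reduce
      have h4 := h2 d hd
      have h5 : (Fin.cons c (Fin.tail x) : Fin (n + 1) → ℕ) = x := by
        rw [← h3]
        exact Fin.cons_self_tail x
      rw [← h5, TypC_count] at h4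
      by_cases hcd : c = d
      · subst hcd
        rw [if_pos rfl] at h4
        rw [Function.update_self]
        omega
      · rw [if_neg hcd, zero_add] at h4
        rw [Function.update_of_ne (Ne.symm hcd)]
        exact h4
    · intro y hy
      rw [Finset.mem_coe, TypC_mem] at hy
      obtain ⟨h1, h2⟩ := hy
      rw [Finset.mem_coe, mem_filter, TypC_mem]
      beta_reduce
      refine ⟨⟨fun i => ?_, fun d hd => ?_⟩, by rw [Fin.cons_zero]⟩
      · refine Fin.cases ?_ (fun j => ?_) i
        · rw [Fin.cons_zero]; exact hc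
        · rw [Fin.cons_succ]; exact h1 j
      · rw [TypC_count]
        have h4 := h2 d hd
        by_cases hcd : c = d
        · subst hcd
          rw [if_pos rfl, h4, Function.update_self]
          omega
        · rw [if_neg hcd, zero_add, h4, Function.update_of_ne (Ne.symm hcd)]
    · intro x hx
      rw [Finset.mem_coe, mem_filter] at hx
      simp only
      rw [← hx.2]
      exact Fin.cons_self_tail x
    · intro y _
      simp only
      exact Fin.tail_cons _ _

/-- Multinomial coefficients. Induction on `n` over the last letter (`Fin.snoc` / `Fin.init`): the words of type `τ` with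
last letter `d` correspond to the words of length `n` and type `τ - e_d`, so by induction
`#words(n+1, τ) ∏ τ_d! = ∑_{d, τ_d ≥ 1} n! τ_d = (n+1)!`. Or compare coefficients in
`Finset.sum_pow_eq_sum_piAntidiag` (multivariate polynomials). -/
theorem type_card (g n : ℕ) (τ : ℕ → ℕ) (h : ∑ d ∈ range g, τ d = n) :
    (words g n τ).card * ∏ d ∈ range g, (τ d).factorial = n.factorial := by
  induction n generalizing τ with
  | zero =>
    have h0 : ∀ d ∈ range g, τ d = 0 := fun d hd => (Finset.sum_eq_zero_iff.1 h) d hd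
    have h1 : ∏ d ∈ range g, (τ d).factorial = 1 := by
      refine Finset.prod_eq_one fun d hd => ?_
      rw [h0 d hd, Nat.factorial_zero]
    have h2 : words g 0 τ = univ := by
      ext x
      rw [TypC_mem]
      simp only [mem_univ, iff_true]
      refine ⟨fun i => i.elim0, fun d hd => ?_⟩
      rw [h0 d (mem_range.2 hd)]
      simp
    rw [h1, h2]
    simp
  | succ n ih =>
    have h1 : (words g (n + 1) τ).card = ∑ c ∈ range g,
        ((words g (n + 1) τ).filter (fun x => x 0 = c)).card := by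
      refine Finset.card_eq_sum_card_fiberwise (f := fun x : Fin (n + 1) → ℕ => x 0) ?_
      intro x hx
      rw [Finset.mem_coe, TypC_mem] at hx
      rw [Finset.mem_coe, mem_range]
      exact hx.1 0
    rw [h1, Finset.sum_mul]
    have h2 : ∀ c ∈ range g, ((words g (n + 1) τ).filter (fun x => x 0 = c)).card *
        ∏ d ∈ range g, (τ d).factorial = n.factorial * τ c := by
      intro c hc
      rw [TypC_fiber g n τ c (mem_range.1 hc)]
      split_ifs with h0
      · rw [h0, zero_mul, mul_zero]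
      · have h3 : ∑ d ∈ range g, Function.update τ c (τ c - 1) d = n := by
          rw [← Finset.add_sum_erase _ _ hc] at h ⊢
          rw [Function.update_self]
          have h4 : ∑ d ∈ (range g).erase c, Function.update τ c (τ c - 1) d =
              ∑ d ∈ (range g).erase c, τ d := by
            refine Finset.sum_congr rfl fun d hd => ?_
            rw [Function.update_of_ne (Finset.ne_of_mem_erase hd)]
          rw [h4]
          omega
        have h5 := ih (Function.update τ c (τ c - 1)) h3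
        rw [← h5]
        have h6 : ∏ d ∈ range g, (τ d).factorial =
            (∏ d ∈ range g, (Function.update τ c (τ c - 1) d).factorial) * τ c := by
          rw [← Finset.mul_prod_erase _ _ hc, ← Finset.mul_prod_erase _ _ hc, Function.update_self]
          have h7 : ∏ d ∈ (range g).erase c, (Function.update τ c (τ c - 1) d).factorial =
              ∏ d ∈ (range g).erase c, (τ d).factorial := by
            refine Finset.prod_congr rfl fun d hd => ?_
            rw [Function.update_of_ne (Finset.ne_of_mem_erase hd)]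
          rw [h7]
          have h8 : (τ c).factorial = τ c * (τ c - 1).factorial :=
            (Nat.mul_factorial_pred h0).symm
          rw [h8]
          ring
        rw [h6]
        ring
    rw [Finset.sum_congr rfl h2, ← Finset.mul_sum, h, Nat.factorial_succ, mul_comm]

private theorem TypC_exp (m : ℕ) (hm : 1 ≤ m) :
    (m : ℝ) ^ (m + 1) * Real.exp 1 ≤ ((m : ℝ) + 1) ^ (m + 1) := by
  have hm0 : (0 : ℝ) < m := by exact_mod_cast hm
  have h1 : (m : ℝ) / (m + 1) ≤ Real.exp (-(1 / ((m : ℝ) + 1))) := by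
    have h2 := Real.add_one_le_exp (-(1 / ((m : ℝ) + 1)))
    refine le_trans (le_of_eq ?_) h2
    field_simp
    ring
  have h3 : ((m : ℝ) / (m + 1)) ^ (m + 1) ≤ Real.exp (-(1 / ((m : ℝ) + 1))) ^ (m + 1) :=
    pow_le_pow_left₀ (by positivity) h1 _
  rw [← Real.exp_nat_mul] at h3
  have h4 : (((m + 1 : ℕ) : ℝ)) * -(1 / ((m : ℝ) + 1)) = -1 := by
    push_cast
    field_simp
  rw [h4, div_pow, div_le_iff₀ (by positivity), Real.exp_neg] at h3
  have h5 := mul_le_mul_of_nonneg_right h3 (Real.exp_pos 1).le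
  refine h5.trans (le_of_eq ?_)
  have := (Real.exp_pos 1).ne'
  field_simp

private theorem TypC_fac (m : ℕ) (hm : 1 ≤ m) :
    (m.factorial : ℝ) * Real.exp m ≤ 3 * m * (m : ℝ) ^ m := by
  have he : Real.exp 1 ≤ 3 := by linarith [Real.exp_one_lt_three]
  suffices h : (m.factorial : ℝ) * Real.exp m ≤ Real.exp 1 * m * (m : ℝ) ^ m by
    refine h.trans ?_
    have : (0 : ℝ) ≤ m * (m : ℝ) ^ m := by positivity
    nlinarith
  induction m, hm using Nat.le_induction with
  | base => simp
  | succ m hm ih =>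
    have hm0 : (0 : ℝ) < m := by exact_mod_cast hm
    have h1 := TypC_exp m hm
    rw [Nat.factorial_succ]
    push_cast
    rw [Real.exp_add]
    have h2 : ((m : ℝ) + 1) * (m.factorial : ℝ) * (Real.exp m * Real.exp 1) =
        ((m : ℝ) + 1) * Real.exp 1 * ((m.factorial : ℝ) * Real.exp m) := by ring
    rw [h2]
    calc ((m : ℝ) + 1) * Real.exp 1 * ((m.factorial : ℝ) * Real.exp m)
        ≤ ((m : ℝ) + 1) * Real.exp 1 * (Real.exp 1 * m * (m : ℝ) ^ m) := by gcongr
      _ = ((m : ℝ) + 1) * Real.exp 1 * ((m : ℝ) ^ (m + 1) * Real.exp 1) := by ring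
      _ ≤ ((m : ℝ) + 1) * Real.exp 1 * (((m : ℝ) + 1) ^ (m + 1)) := by gcongr
      _ = Real.exp 1 * ((m : ℝ) + 1) * ((m : ℝ) + 1) ^ (m + 1) := by ring

private theorem TypC_fac' (m n : ℕ) (hmn : m ≤ n) :
    (m.factorial : ℝ) * Real.exp m ≤ 3 * ((n : ℝ) + 1) * (m : ℝ) ^ m := by
  have hmn' : (m : ℝ) ≤ n := by exact_mod_cast hmn
  rcases Nat.eq_zero_or_pos m with h | h
  · subst h
    simp only [Nat.factorial_zero, Nat.cast_one, Nat.cast_zero, Real.exp_zero, mul_one, pow_zero]
    have : (0 : ℝ) ≤ n := Nat.cast_nonneg _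
    linarith
  · refine (TypC_fac m h).trans ?_
    have : (0 : ℝ) ≤ (m : ℝ) ^ m := by positivity
    refine mul_le_mul_of_nonneg_right ?_ this
    linarith

/-- Proof. `n! ≥ n^n e^(-n)` (`Real.pow_div_factorial_le_exp` with `x = n`) and `m! ≤ e (m+1) m^m e^(-m)` for all `m ≥ 0`
(with `0^0 = 1`; induction, from `(1+1/m)^(m+1) ≥ e`), so by `type_card`
`#words ∏ (τ_d/n)^(τ_d) = n! n^(-n) ∏ τ_d^(τ_d)/τ_d! ≥ e^(-n) ∏ e^(τ_d)/(e(τ_d+1)) ≥ (e(n+1))^(-g)`. -/
theorem mode (g n : ℕ) (τ : ℕ → ℕ) (hn : 1 ≤ n) (h : ∑ d ∈ range g, τ d = n) :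
    1 ≤ (3 * ((n : ℝ) + 1)) ^ g * (((words g n τ).card : ℝ) * ∏ d ∈ range g, ((τ d : ℝ) / n) ^ (τ d)) := by
  have hn0 : (0 : ℝ) < n := by exact_mod_cast hn
  have hc : ((words g n τ).card : ℝ) * ∏ d ∈ range g, ((τ d).factorial : ℝ) = (n.factorial : ℝ) := by
    exact_mod_cast type_card g n τ h
  have hF : (0 : ℝ) < ∏ d ∈ range g, ((τ d).factorial : ℝ) :=
    Finset.prod_pos fun d _ => by exact_mod_cast Nat.factorial_pos _
  have h1 : (∏ d ∈ range g, ((τ d).factorial : ℝ)) * Real.exp n ≤
      (3 * ((n : ℝ) + 1)) ^ g * ∏ d ∈ range g, (τ d : ℝ) ^ (τ d) := by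
    have e1 : Real.exp n = ∏ d ∈ range g, Real.exp (τ d) := by
      rw [← Real.exp_sum]
      congr 1
      exact_mod_cast h.symm
    have e2 : (3 * ((n : ℝ) + 1)) ^ g = ∏ _d ∈ range g, (3 * ((n : ℝ) + 1)) := by
      rw [Finset.prod_const, card_range]
    rw [e1, e2, ← Finset.prod_mul_distrib, ← Finset.prod_mul_distrib]
    refine Finset.prod_le_prod (fun d _ => by positivity) fun d hd => ?_
    refine TypC_fac' (τ d) n ?_
    rw [← h]
    exact Finset.single_le_sum (f := τ) (fun _ _ => Nat.zero_le _) hd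
  have h2 : (n : ℝ) ^ n ≤ Real.exp n * (n.factorial : ℝ) := by
    have h3 := Real.pow_div_factorial_le_exp (n : ℝ) hn0.le n
    rwa [div_le_iff₀ (by exact_mod_cast Nat.factorial_pos n)] at h3
  have h4 : ∏ d ∈ range g, ((τ d : ℝ) / n) ^ (τ d) = (∏ d ∈ range g, (τ d : ℝ) ^ (τ d)) / (n : ℝ) ^ n := by
    have e3 : (n : ℝ) ^ n = ∏ d ∈ range g, (n : ℝ) ^ (τ d) := by
      rw [Finset.prod_pow_eq_pow_sum, h]
    rw [e3, ← Finset.prod_div_distrib]
    exact Finset.prod_congr rfl fun d _ => by rw [div_pow]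
  rw [h4]
  set W : ℝ := ((words g n τ).card : ℝ) with hW
  set F : ℝ := ∏ d ∈ range g, ((τ d).factorial : ℝ) with hFd
  set T : ℝ := ∏ d ∈ range g, (τ d : ℝ) ^ (τ d) with hT
  set A : ℝ := (3 * ((n : ℝ) + 1)) ^ g with hA
  have hW0 : 0 ≤ W := Nat.cast_nonneg _
  have hE : 0 < Real.exp n := Real.exp_pos _
  rw [mul_div_assoc', mul_div_assoc', le_div_iff₀ (by positivity), one_mul]
  -- n^n ≤ e^n n! = e^n W F ≤ W A T
  calc (n : ℝ) ^ n ≤ Real.exp n * (n.factorial : ℝ) := h2
    _ = W * (F * Real.exp n) := by rw [← hc]; ring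
    _ ≤ W * (A * T) := mul_le_mul_of_nonneg_left h1 hW0
    _ = A * (W * T) := by ring

end Pool.Agent.Lib.MP_629a14_nt.Lg
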