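import Pool.Agent.Lib.MP_629a14_nt.Lg.Defs

/-! Differences of sums of two powers of `g`. -/

set_option autoImplicit false

namespace Pool.Agent.Lib.MP_629a14_nt.Lg

open Finset Pool.Agent.Lib.MP_629a14_nt Pool.Agent.Lib.MP_629a14_nt.Th

theorem u4_nonneg (g L : ℕ) (h m : ℤ) : 0 ≤ u4 g L h m := by
  unfold u4
  positivity

private theorem U4_pair_ord {g a b c d : ℕ} (hg : 2 ≤ g) (hab : a ≤ b) (_hcd : c ≤ d)
    (h : g ^ a + g ^ b = g ^ c + g ^ d) : ¬ b < d := by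
  intro hbd
  have h1 : g ^ a ≤ g ^ b := Nat.pow_le_pow_right (by omega) hab
  have h2 : 2 * g ^ b ≤ g ^ (b + 1) := by
    rw [pow_succ, mul_comm]
    exact Nat.mul_le_mul_left _ hg
  have h3 : g ^ (b + 1) ≤ g ^ d := Nat.pow_le_pow_right (by omega) hbd
  have h4 : 0 < g ^ c := Nat.pow_pos (by omega)
  omega

private theorem U4_pair_le {g a b c d : ℕ} (hg : 2 ≤ g) (hab : a ≤ b) (hcd : c ≤ d)
    (h : g ^ a + g ^ b = g ^ c + g ^ d) : c = a ∧ d = b := by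
  have h1 := U4_pair_ord hg hab hcd h
  have h2 := U4_pair_ord hg hcd hab h.symm
  have h3 : b = d := by omega
  subst h3
  have h4 : g ^ a = g ^ c := by omega
  exact ⟨(Nat.pow_right_injective hg h4).symm, rfl⟩

private theorem U4_pair {g a b c d : ℕ} (hg : 2 ≤ g) (h : g ^ a + g ^ b = g ^ c + g ^ d) :
    (c = a ∧ d = b) ∨ (c = b ∧ d = a) := by
  rcases le_total a b with hab | hab <;> rcases le_total c d with hcd | hcd
  · left
    exact U4_pair_le hg hab hcd h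
  · right
    have h2 : g ^ a + g ^ b = g ^ d + g ^ c := by rw [h, add_comm]
    have := U4_pair_le hg hab hcd h2
    exact ⟨this.2, this.1⟩
  · right
    have h2 : g ^ b + g ^ a = g ^ c + g ^ d := by rw [← h, add_comm]
    exact U4_pair_le hg hab hcd h2
  · left
    have h2 : g ^ b + g ^ a = g ^ d + g ^ c := by rw [add_comm, h, add_comm]
    have := U4_pair_le hg hab hcd h2
    exact ⟨this.2, this.1⟩

private theorem U4_conj (t : ℝ) : (starRingEnd ℂ) (ee t) = ee (-t) := by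
  unfold ee
  rw [← Complex.exp_conj]
  congr 1
  have h2 : (starRingEnd ℂ) 2 = 2 := map_ofNat _ 2
  simp [Complex.conj_ofReal, h2]

private theorem U4_re (t : ℝ) : (ee t).re = Real.cos (2 * Real.pi * t) := by
  unfold ee
  have : (2 * (Real.pi : ℂ) * (t : ℂ) * Complex.I) = ((2 * Real.pi * t : ℝ) : ℂ) * Complex.I := by
    push_cast; ring
  rw [this, Complex.exp_ofReal_mul_I_re]

private theorem U4_range {g L : ℕ} (hg : 2 ≤ g) (h : ℤ) {x : Fin 4 → ℕ} (hx : x ∈ Lk.tup 4 L) :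
    |h * v4 g x| ≤ 2 * |h| * (g : ℤ) ^ L := by
  have hg1 : (1 : ℤ) ≤ (g : ℤ) := by exact_mod_cast (by omega : 1 ≤ g)
  have hm : ∀ i, (g : ℤ) ^ (x i) ≤ (g : ℤ) ^ L ∧ 0 < (g : ℤ) ^ (x i) := by
    intro i
    unfold Lk.tup at hx
    have h1 := Finset.mem_Icc.1 (Fintype.mem_piFinset.1 hx i)
    exact ⟨pow_le_pow_right₀ hg1 h1.2, by positivity⟩
  have hv : |v4 g x| ≤ 2 * (g : ℤ) ^ L := by
    unfold v4
    have h0 := hm 0
    have h1 := hm 1
    have h2 := hm 2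
    have h3 := hm 3
    rw [abs_le]
    constructor <;> linarith
  rw [abs_mul]
  calc |h| * |v4 g x| ≤ |h| * (2 * (g : ℤ) ^ L) := mul_le_mul_of_nonneg_left hv (abs_nonneg _)
    _ = 2 * |h| * (g : ℤ) ^ L := by ring

/-- `g^a + g^b = g^c + g^d` implies `{a,b} = {c,d}`. Compare `Lk.u4_zero` in `Lk/PowU.lean`. (For `a ≤ b` and `c ≤ d`: the
largest power `g^e` not exceeding `g^a + g^b` has `e = b`, except for `g = 2`, `a = b`; for `g = 2` use `PowU_pair`, and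
for `g ≥ 3` the expansion in base `g` has digits at most 2: `Finset.geomSum_injective` if `a ≠ b`, `c ≠ d`, or compare
sizes: `g^b ≤ g^a + g^b ≤ 2 g^b < g^(b+1)`.) -/
theorem u4_zero (g L : ℕ) (hg : 2 ≤ g) (h : ℤ) (hh : h ≠ 0) (hL : 1 ≤ L) : u4 g L h 0 ≤ 2 / (L : ℝ) ^ 2 := by
  have hL0 : (0 : ℝ) < L := by exact_mod_cast hL
  have hcard : ((Lk.tup 4 L).filter (fun a => h * v4 g a = 0)).card ≤ 2 * L ^ 2 := by
    have hsub : (Lk.tup 4 L).filter (fun a => h * v4 g a = 0) ⊆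
        ((Icc 1 L ×ˢ Icc 1 L).image (fun p : ℕ × ℕ => (![p.1, p.2, p.1, p.2] : Fin 4 → ℕ))) ∪
        ((Icc 1 L ×ˢ Icc 1 L).image (fun p : ℕ × ℕ => (![p.1, p.2, p.2, p.1] : Fin 4 → ℕ))) := by
      intro x hx
      rw [Finset.mem_filter] at hx
      obtain ⟨hx1, hx2⟩ := hx
      have hm : ∀ i, x i ∈ Icc 1 L := by
        intro i
        unfold Lk.tup at hx1
        exact Fintype.mem_piFinset.1 hx1 i
      have hv : v4 g x = 0 := by
        rcases mul_eq_zero.1 hx2 with h0 | h0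
        · exact absurd h0 hh
        · exact h0
      unfold v4 at hv
      have h1 : g ^ (x 0) + g ^ (x 1) = g ^ (x 2) + g ^ (x 3) := by
        have : ((g ^ (x 0) + g ^ (x 1) : ℕ) : ℤ) = ((g ^ (x 2) + g ^ (x 3) : ℕ) : ℤ) := by
          push_cast
          linarith
        exact_mod_cast this
      rw [Finset.mem_union, Finset.mem_image, Finset.mem_image]
      rcases U4_pair hg h1 with ⟨h2, h3⟩ | ⟨h2, h3⟩
      · left
        refine ⟨(x 0, x 1), Finset.mem_product.2 ⟨hm 0, hm 1⟩, ?_⟩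
        ext i
        fin_cases i
        · rfl
        · rfl
        · exact h2.symm
        · exact h3.symm
      · right
        refine ⟨(x 0, x 1), Finset.mem_product.2 ⟨hm 0, hm 1⟩, ?_⟩
        ext i
        fin_cases i
        · rfl
        · rfl
        · exact h2.symm
        · exact h3.symm
    have hc : ∀ f : ℕ × ℕ → (Fin 4 → ℕ), ((Icc 1 L ×ˢ Icc 1 L).image f).card ≤ L ^ 2 := by
      intro f
      refine Finset.card_image_le.trans ?_
      rw [Finset.card_product, Nat.card_Icc]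
      have : L + 1 - 1 = L := by omega
      rw [this, sq]
    refine (Finset.card_le_card hsub).trans ((Finset.card_union_le _ _).trans ?_)
    have h1 := hc (fun p : ℕ × ℕ => (![p.1, p.2, p.1, p.2] : Fin 4 → ℕ))
    have h2 := hc (fun p : ℕ × ℕ => (![p.1, p.2, p.2, p.1] : Fin 4 → ℕ))
    omega
  have hcard' : (((Lk.tup 4 L).filter (fun a => h * v4 g a = 0)).card : ℝ) ≤ 2 * (L : ℝ) ^ 2 := by
    exact_mod_cast hcard
  unfold u4
  rw [div_le_div_iff₀ (by positivity) (by positivity)]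
  nlinarith [mul_le_mul_of_nonneg_right hcard' (by positivity : (0 : ℝ) ≤ (L : ℝ) ^ 2)]

/-- `CU (u4 g L h) N α = |gg g L (hα)|⁴`. Copy the proof of `Lk.u4_four` (file `Lk/PowU.lean`). -/
theorem u4_four (g L N : ℕ) (hg : 2 ≤ g) (h : ℤ) (hL : 1 ≤ L) (hN : 2 * |h| * (g : ℤ) ^ L ≤ N) (α : ℝ) :
    Lk.CU (u4 g L h) N α = ‖gg g L (h * α)‖ ^ 4 := by
  have hL0 : (0 : ℝ) < L := by exact_mod_cast hL
  have h1 : Lk.CU (u4 g L h) N α =
      (1 / (L : ℝ) ^ 4) * ∑ x ∈ Lk.tup 4 L, Real.cos (2 * Real.pi * ((h * v4 g x : ℤ) : ℝ) * α) := by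
    unfold Lk.CU
    have h2 : ∀ m : ℤ, u4 g L h m * Real.cos (2 * Real.pi * m * α) =
        (1 / (L : ℝ) ^ 4) *
          ∑ x ∈ Lk.tup 4 L, (if h * v4 g x = m then Real.cos (2 * Real.pi * m * α) else 0) := by
      intro m
      unfold u4
      rw [← Finset.sum_filter, Finset.sum_const, nsmul_eq_mul]
      ring
    rw [Finset.sum_congr rfl fun m _ => h2 m, ← Finset.mul_sum, Finset.sum_comm]
    congr 1
    refine Finset.sum_congr rfl fun x hx => ?_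
    rw [Finset.sum_ite_eq, if_pos]
    have h3 := abs_le.1 (le_trans (U4_range hg h hx) hN)
    rw [Finset.mem_Icc]
    exact h3
  set β : ℝ := h * α with hβ
  have hconj : (starRingEnd ℂ) (∑ a ∈ Icc 1 L, ee ((g : ℝ) ^ a * β)) = ∑ a ∈ Icc 1 L, ee (-((g : ℝ) ^ a * β)) := by
    rw [map_sum]
    exact Finset.sum_congr rfl fun a _ => U4_conj _
  have h2 : ((∑ a ∈ Icc 1 L, ee ((g : ℝ) ^ a * β)) * (∑ a ∈ Icc 1 L, ee ((g : ℝ) ^ a * β)) *
      (∑ a ∈ Icc 1 L, ee (-((g : ℝ) ^ a * β))) * (∑ a ∈ Icc 1 L, ee (-((g : ℝ) ^ a * β)))) =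
      ∑ x ∈ Lk.tup 4 L, ee ((v4 g x : ℝ) * β) := by
    have h3 := Finset.prod_univ_sum (fun _ : Fin 4 => Icc 1 L)
      (fun (i : Fin 4) (a : ℕ) => ee ((![1, 1, -1, -1] : Fin 4 → ℝ) i * ((g : ℝ) ^ a * β)))
    rw [Fin.prod_univ_four] at h3
    have h4 : ∀ c : ℝ, c = 1 → ∑ a ∈ Icc 1 L, ee (c * ((g : ℝ) ^ a * β)) = ∑ a ∈ Icc 1 L, ee ((g : ℝ) ^ a * β) := by
      intro c hc
      rw [hc]
      simp only [one_mul]
    have h5 : ∀ c : ℝ, c = -1 → ∑ a ∈ Icc 1 L, ee (c * ((g : ℝ) ^ a * β)) =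
        ∑ a ∈ Icc 1 L, ee (-((g : ℝ) ^ a * β)) := by
      intro c hc
      rw [hc]
      simp only [neg_mul, one_mul]
    rw [h4 ((![1, 1, -1, -1] : Fin 4 → ℝ) 0) rfl, h4 ((![1, 1, -1, -1] : Fin 4 → ℝ) 1) rfl,
      h5 ((![1, 1, -1, -1] : Fin 4 → ℝ) 2) rfl, h5 ((![1, 1, -1, -1] : Fin 4 → ℝ) 3) rfl] at h3
    rw [h3]
    refine Finset.sum_congr rfl fun x _ => ?_
    rw [Fin.prod_univ_four, ← ee_add, ← ee_add, ← ee_add]
    congr 1
    unfold v4
    push_cast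
    show 1 * ((g : ℝ) ^ (x 0) * β) + 1 * ((g : ℝ) ^ (x 1) * β) + -1 * ((g : ℝ) ^ (x 2) * β) +
      -1 * ((g : ℝ) ^ (x 3) * β) = _
    ring
  have h3 : ((‖gg g L β‖ ^ 4 : ℝ) : ℂ) = ((1 / (L : ℝ) ^ 4 : ℝ) : ℂ) * ∑ x ∈ Lk.tup 4 L, ee ((v4 g x : ℝ) * β) := by
    rw [← h2, ← hconj]
    set S := ∑ a ∈ Icc 1 L, ee ((g : ℝ) ^ a * β) with hS
    have h4 : ‖gg g L β‖ = (1 / (L : ℝ)) * ‖S‖ := by
      unfold gg
      rw [norm_mul, norm_div, norm_one, Complex.norm_natCast]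
    have h5 : S * (starRingEnd ℂ) S = ((‖S‖ ^ 2 : ℝ) : ℂ) := by
      rw [Complex.mul_conj, Complex.normSq_eq_norm_sq]
    have h6 : S * S * (starRingEnd ℂ) S * (starRingEnd ℂ) S = (S * (starRingEnd ℂ) S) ^ 2 := by ring
    rw [h6, h5, h4]
    push_cast
    ring
  have h4 : (∑ x ∈ Lk.tup 4 L, ee ((v4 g x : ℝ) * β)).re =
      ∑ x ∈ Lk.tup 4 L, Real.cos (2 * Real.pi * ((h * v4 g x : ℤ) : ℝ) * α) := by
    rw [Complex.re_sum]
    refine Finset.sum_congr rfl fun x _ => ?_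
    rw [U4_re, hβ]
    congr 1
    push_cast
    ring
  have h5 : ‖gg g L β‖ ^ 4 = (((1 / (L : ℝ) ^ 4 : ℝ) : ℂ) * ∑ x ∈ Lk.tup 4 L, ee ((v4 g x : ℝ) * β)).re := by
    rw [← h3, Complex.ofReal_re]
  rw [h1, h5, Complex.re_ofReal_mul, h4]

end Pool.Agent.Lib.MP_629a14_nt.Lg
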